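import Pool.Agent.S3.Edg
import Pool.Agent.S3.Ks4
import Pool.Agent.S3.KsDef
import Pool.Agent.S4.Root

/-!
# The asymptotics of the colored `SU(n)` invariants of two-bridge links: definitions

The index of an edge is `κ = k + n - 2`; `M = N + g`, `h = min g (n - g)`.
-/

namespace Pool.Agent.S4

open Pool.Agent.H63.VC hiding ext
open Pool.Agent.H63.VC3 Pool.Agent.H63.VC7 Pool.Agent.H25.RK Pool.Agent.S3 Pool.Agent.H63.GO
open Complex Filter Topology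
open scoped Interval

/-! ### Families of edge kernels -/

/-- The variable of an open slot is in the upper half plane. -/
def ups : Sl → Prop
  | .op v => 0 < v.im
  | .cl _ => True

/-- The terms of an edge kernel: bounds and differentiability of the interpolation. -/
structure KF (F : ℕ → Sl → Sl → ℂ → ℂ) : Prop where
  bound : ∀ B : ℝ, ∃ C : ℝ, 0 < C ∧ ∃ p : ℕ, ∀ᶠ M : ℕ in atTop, ∀ (σ τ : Sl) (y : ℂ),
    σ.ok → τ.ok → σ.ht ≤ B → τ.ht ≤ B → -1 / 5 ≤ y.re → y.re ≤ 1 / 2 →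
    ‖F M σ τ y‖ ≤ C * (M : ℝ) ^ p * Real.exp (C * |y.im|) * Real.exp (M * EE σ τ y)
  diff : ∀ᶠ M : ℕ in atTop, ∀ (σ τ : Sl) (y : ℂ), σ.ok → τ.ok → -1 / 5 < y.re →
    y.re < 1 / 2 + 1 / (2 * M) → DifferentiableAt ℂ (F M σ τ) y

/-- The open slots are at height at least `κ`. -/
def upk (κ : ℝ) : Sl → Prop
  | .op v => κ ≤ v.im
  | .cl _ => True

/-- Bounds and differentiability of the interpolation, away from the real line. -/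
structure KFu (F : ℕ → Sl → Sl → ℂ → ℂ) : Prop where
  bound : ∀ κ B : ℝ, 0 < κ → ∃ C : ℝ, 0 < C ∧ ∃ p : ℕ, ∀ᶠ M : ℕ in atTop, ∀ (σ τ : Sl) (y : ℂ),
    σ.ok → τ.ok → upk κ σ → upk κ τ → σ.ht ≤ B → τ.ht ≤ B → -1 / 5 ≤ y.re → y.re ≤ 1 / 2 →
    ‖F M σ τ y‖ ≤ C * (M : ℝ) ^ p * Real.exp (C * |y.im|) * Real.exp (M * EE σ τ y)
  diff : ∀ κ : ℝ, 0 < κ → ∀ᶠ M : ℕ in atTop, ∀ (σ τ : Sl) (y : ℂ), σ.ok → τ.ok → upk κ σ →
    upk κ τ → -1 / 5 < y.re → y.re < 1 / 2 → DifferentiableAt ℂ (F M σ τ) y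

/-- The kernel. -/
noncomputable def KEF (F : ℕ → Sl → Sl → ℂ → ℂ) (M : ℕ) (σ τ : Sl) : ℂ :=
  ∑ κ ∈ Finset.Ico (k0 M) M, F M σ τ (yk 2 M κ : ℝ)

/-- The kernel is bounded by the growth on a polygon. -/
def KB (K : ℕ → Sl → Sl → ℂ) : Prop :=
  ∀ (N : ℕ) (H : ℝ), ∃ C : ℝ, 0 < C ∧ ∃ p : ℕ, ∀ᶠ M : ℕ in atTop, ∀ σ τ : Sl, σ.ok → τ.ok →
    σ.nn → τ.nn → σ.bd H → τ.bd H → ∀ n ≤ N, ∀ t h : ℕ → ℝ, Pgn n t h → ∀ B : ℝ, B0 σ + B0 τ ≤ B →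
    (∀ y ∈ Set.Icc (-(1 / 10) : ℝ) 0, EE σ τ y ≤ B) → PolOn n t h (fun y => EE σ τ y ≤ B) →
    ‖K M σ τ‖ ≤ C * (M : ℝ) ^ p * Real.exp (M * B)

/-- Near the critical point the kernel is an integral over a short segment, up to exponentially small
relative errors. -/
def KL (K : ℕ → Sl → Sl → ℂ) (F : ℕ → Sl → Sl → ℂ → ℂ) : Prop :=
  ∀ (σ0 τ0 : Sl) (yc : ℂ) (L : ℝ), σ0.ok → τ0.ok → ups σ0 → ups τ0 → EdgeC σ0 τ0 yc L →
    ∃ r1 : ℝ, 0 < r1 ∧ ∀ r : ℝ, 0 < r → r ≤ r1 → ∃ ρ : ℝ, 0 < ρ ∧ ∃ δ : ℝ, 0 < δ ∧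
      ∃ C : ℝ, 0 < C ∧ ∃ p : ℕ, ∀ᶠ M : ℕ in atTop, ∀ σ τ : Sl, σ.ok → τ.ok → σ.nn → τ.nn →
        σ.near ρ σ0 → τ.near ρ τ0 →
        ‖K M σ τ - M * ∫ s in (-r)..r, F M σ τ (yc + s)‖ ≤
          C * (M : ℝ) ^ p * Real.exp (M * (L - δ))

/-- The kernel depends continuously on the slots. -/
def KC (K : ℕ → Sl → Sl → ℂ) : Prop :=
  ∀ᶠ M : ℕ in atTop, ∀ (X : Type) [TopologicalSpace X] (σ τ : X → Sl), SlC σ → SlC τ →
    Continuous fun x => K M (σ x) (τ x)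

/-! ### The kernels of the invariants -/

/-- The phase of a closed slot, `t = M - 1 - κ`. -/
noncomputable def ph4 (n h M : ℕ) (P : Bool) (t : ℂ) : ℂ :=
  (if P then 0 else (n : ℂ)) + (M + (n - 2 + t)) / 2 +
    ((if P then t + n - 2 * h else t) ^ 2 - (n - 2 + t) - 1) / (2 * M)

/-- The factor of a slot. -/
noncomputable def sk4 (n h M : ℕ) (P : Bool) (κ : ℕ) : Sl → ℂ
  | .op v => q4 M (dd n h P) (M - 1 - κ) v
  | .cl s => 4 * Real.pi * M * exp (Real.pi * I * s * ph4 n h M P ((M - 1 - κ : ℕ) : ℂ)) /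
      S M (κ - (n - 2))

/-- The kernel of an edge. -/
noncomputable def Kq (n h : ℕ) (e P Q : Bool) (M : ℕ) (σ τ : Sl) : ℂ :=
  ∑ κ ∈ Finset.Ico (k0 M) M,
    (w4 n h e M (κ - (n - 2)) : ℂ) * (sk4 n h M P κ σ * sk4 n h M Q κ τ)

/-- The centered product of a slot. -/
noncomputable def Ws (n h M : ℕ) (P : Bool) : Sl → ℂ
  | .op v => Wd M (dd n h P) v
  | .cl _ => 1

/-- The analytic interpolation of a slot times its centered product, `κ + 1 = M (y + 1 / 2)`. -/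
noncomputable def sC4 (n h M : ℕ) (P : Bool) (y : ℂ) : Sl → ℂ
  | .op v => qS M (y - (dd n h P : ℂ) / (2 * M)) v
  | .cl s => 4 * Real.pi * M * exp (Real.pi * I * s * ph4 n h M P (M * (1 / 2 - y))) *
      exp (-LL M (M * (y + 1 / 2) - 1 - ((n : ℂ) - 2)))

/-- The analytic interpolation of the weight. -/
noncomputable def w4C (n h : ℕ) (e : Bool) (M : ℕ) (y : ℂ) : ℂ :=
  exp (LL M (M * (y + 1 / 2) - 1) + LL M (M * (y + 1 / 2) - 1 - ((n : ℂ) - 2)) +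
    LL M (M * (y + 1 / 2) - 1 - ((n : ℂ) - 1 - h)) +
    LL M (M * (y + 1 / 2) - 1 - (if e then (n : ℂ) - 1 - h else (h : ℂ) - 1)))

/-- The analytic interpolation of the terms of the kernel, times the centered products. -/
noncomputable def F4 (n h : ℕ) (e P Q : Bool) (M : ℕ) (σ τ : Sl) (y : ℂ) : ℂ :=
  w4C n h e M y * (sC4 n h M P y σ * sC4 n h M Q y τ)

/-- The analytic interpolation of the terms of the kernel. -/
noncomputable def Fq (n h : ℕ) (e P Q : Bool) (M : ℕ) (σ τ : Sl) (y : ℂ) : ℂ :=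
  F4 n h e P Q M σ τ y / (Ws n h M P σ * Ws n h M Q τ)

/-- The factor of an open vertex. -/
noncomputable def gv4 (r : ℝ) (n h : ℕ) (P : Bool) (s M : ℕ) (v : ℂ) : ℂ :=
  exp (2 * Real.pi * I * r * M * v ^ 2) * (2 * sin (2 * Real.pi * v)) * pre n h M P s v *
    om (nn n P) M v

variable {m : ℕ}

/-- The part of the invariant with the multi-indices in the product of the sets `S j`. -/
noncomputable def JS4 (P : Fin (m + 1) → Bool) (r : Fin (m + 1) → ℝ) (n h M : ℕ)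
    (S : Fin m → Finset ℕ) : ℂ :=
  ∑ κ ∈ Fintype.piFinset S, (∏ j, (w4 n h (et P j) M (κ j - (n - 2)) : ℂ)) *
    ∏ i, DG4 (r i) n h M (P i) (sn P i) (ie i) (fun j => κ j - (n - 2))

/-- The part of the invariant with all indices at least `k0 M`. -/
noncomputable def J04 (P : Fin (m + 1) → Bool) (r : Fin (m + 1) → ℝ) (n h M : ℕ) : ℂ :=
  JS4 P r n h M (fun _ => Finset.Ico (k0 M) M)

/-- The index sets: the edges in `L` have small indices. -/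
def SL4 (n M : ℕ) (L : Finset (Fin m)) (j : Fin m) : Finset ℕ :=
  if j ∈ L then Finset.Ico (n - 2) (k0 M) else Finset.Ico (k0 M) M

/-! ### Integrals of vertex functions and kernels over a chain -/

variable (C : Cfg m)

/-- The kernel of the edge `j` on the contours. -/
noncomputable def kkF (K : Fin m → ℕ → Sl → Sl → ℂ) (v1 : Fin (m + 1) → ℝ) (ε : ℝ) (M : ℕ)
    (j : Fin m) (x : C.Op → ℝ) : ℂ :=
  K j M (slx C.Op C.s (C.gm v1 ε) x j.castSucc) (slx C.Op C.s (C.gm v1 ε) x j.succ)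

/-- The integrand of the edge `j` on the contours. -/
noncomputable def feF (F : Fin m → ℕ → Sl → Sl → ℂ → ℂ) (v1 : Fin (m + 1) → ℝ) (ε : ℝ) (M : ℕ)
    (j : Fin m) (x : C.Op → ℝ) (s : ℝ) : ℂ :=
  M * F j M (slx C.Op C.s (C.gm v1 ε) x j.castSucc) (slx C.Op C.s (C.gm v1 ε) x j.succ)
    (C.yc j + (if h : j.castSucc ∈ C.Op then
        C.L j j.castSucc * ((x ⟨j.castSucc, h⟩ : ℂ) - C.xc j.castSucc) else 0) +
      (if h : j.succ ∈ C.Op then C.L j j.succ * ((x ⟨j.succ, h⟩ : ℂ) - C.xc j.succ) else 0) + s)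

/-- The vertex function on the contour. -/
noncomputable def ggF (g : Fin (m + 1) → ℕ → ℂ → ℂ) (v1 : Fin (m + 1) → ℝ) (ε : ℝ) (M : ℕ)
    (i : C.Op) (x : ℝ) : ℂ := g i M (C.gm v1 ε i x) * C.gm' v1 ε i x

/-- The product of the vertex functions and of the kernels near the critical point. -/
noncomputable def PhF (F : Fin m → ℕ → Sl → Sl → ℂ → ℂ) (g : Fin (m + 1) → ℕ → ℂ → ℂ) (M : ℕ)
    (z : C.Op ⊕ Fin m → ℂ) : ℂ :=
  (∏ i : C.Op, (g i M (gdv (z (Sum.inl i))) * (1 / (Real.pi * cosh (z (Sum.inl i)))))) *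
    ∏ j, (M * F j M (C.slz z j.castSucc) (C.slz z j.succ) (C.Yz z j))

/-- The vertex functions and the kernels of a chain. The exponents are `eg i` and `ef j`. -/
structure ChH (K : Fin m → ℕ → Sl → Sl → ℂ) (F : Fin m → ℕ → Sl → Sl → ℂ → ℂ)
    (g : Fin (m + 1) → ℕ → ℂ → ℂ) (eg : Fin (m + 1) → ℝ) (ef : Fin m → ℝ) : Prop where
  kb : ∀ j, KB (K j)
  kl : ∀ j, KL (K j) (F j)
  kf : ∀ j, KFu (F j)
  kc : ∀ j, KC (K j)
  gb : ∀ i ∈ C.Op, ∀ κ B : ℝ, 0 < κ → ∃ D : ℝ, 0 < D ∧ ∃ p : ℕ, ∀ᶠ M : ℕ in atTop, ∀ v : ℂ,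
    0 < v.im → |v.re| ≤ 1 / 2 → κ * (1 / 2 - |v.re|) ≤ v.im → v.im ≤ B →
    ‖g i M v‖ ≤ D * (M : ℝ) ^ p * Real.exp (M * (wr (C.r i) v).re)
  gc : ∀ i ∈ C.Op, ∀ᶠ M : ℕ in atTop, ContinuousOn (g i M) {v | 0 < v.im}
  gl : ∀ i ∈ C.Op, ∃ A : ℂ, A ≠ 0 ∧ Tendsto (fun p : ℕ × ℂ => g i p.1 p.2 *
    exp (-(p.1 * wr (C.r i) p.2)) / (((p.1 : ℝ) ^ eg i : ℝ) : ℂ)) (atTop ×ˢ 𝓝 (C.vc i)) (𝓝 A)
  fc : ∀ j, ∃ U : Set (C.Op ⊕ Fin m → ℂ), IsOpen U ∧ cp C.ac C.bc ∈ U ∧ ∀ᶠ M : ℕ in atTop,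
    ContinuousOn (fun z => F j M (C.slz z j.castSucc) (C.slz z j.succ) (C.Yz z j)) U
  fl : ∀ j, ∃ A : ℂ, A ≠ 0 ∧ Tendsto (fun p : ℕ × (C.Op ⊕ Fin m → ℂ) =>
    F j p.1 (C.slz p.2 j.castSucc) (C.slz p.2 j.succ) (C.Yz p.2 j) *
      exp (-(p.1 * (sP (C.Yz p.2 j) (C.slz p.2 j.castSucc) +
        sP (C.Yz p.2 j) (C.slz p.2 j.succ)))) / (((p.1 : ℝ) ^ ef j : ℝ) : ℂ))
    (atTop ×ˢ 𝓝 (cp C.ac C.bc)) (𝓝 A)

end Pool.Agent.S4
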