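import Pool.Agent.S4.G.Defs
import Pool.Agent.S3.Amp

/-!
# The terms of the kernels near the critical point
-/

set_option autoImplicit false

namespace Pool.Agent.S4

open Pool.Agent.H63.VC hiding ext
open Pool.Agent.H63.VC3 Pool.Agent.H63.VC7 Pool.Agent.H25.RK Pool.Agent.S3 Pool.Agent.H63.GO
open Complex Filter Topology MeasureTheory
open scoped BigOperators Interval

variable {n h : ℕ}

/-! ### Steps of order `1 / M` -/

private theorem step_lim {f : ℂ → ℂ} {f' z0 : ℂ} (hf : HasStrictDerivAt f f' z0) {α : Type*}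
    {l : Filter α} {M : α → ℕ} {u w : α → ℂ} {c : ℂ} (hu : Tendsto u l (𝓝 z0))
    (hw : Tendsto w l (𝓝 z0)) (huw : Tendsto (fun a => (M a : ℂ) * (u a - w a)) l (𝓝 c)) :
    Tendsto (fun a => (M a : ℂ) * (f (u a) - f (w a))) l (𝓝 (c * f')) := by
  have h3 := hf.isLittleO.comp_tendsto (hu.prodMk_nhds hw)
  have h5 : (fun a => (M a : ℂ) * (f (u a) - f (w a) - (u a - w a) • f')) =o[l]
      (fun a => (M a : ℂ) * (u a - w a)) :=
    (Asymptotics.isBigO_refl _ _).mul_isLittleO h3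
  have h6 : (fun a => (M a : ℂ) * (u a - w a)) =O[l] (fun _ => (1 : ℂ)) := huw.isBigO_one ℂ
  have h7 := (Asymptotics.isLittleO_one_iff ℂ).mp (h5.trans_isBigO h6)
  have h8 := h7.add (huw.mul_const f')
  rw [zero_add] at h8
  refine h8.congr fun a => ?_
  rw [smul_eq_mul]
  ring

private theorem div_lim {α : Type*} {l : Filter α} {M : α → ℕ} (hM : Tendsto M l atTop) (c : ℂ) :
    Tendsto (fun a => c / (M a : ℂ)) l (𝓝 0) :=
  (tendsto_const_div_atTop_nhds_zero_nat c).comp hM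

/-! ### The weight -/

private theorem wt_lim {α : Type*} {l : Filter α} {M : α → ℕ} (hM : Tendsto M l atTop)
    {y : α → ℂ} {y0 : ℂ} (hy : Tendsto y l (𝓝 y0)) (h0 : -1 / 2 < y0.re) (h1 : y0.re < 1 / 2)
    (c : ℂ) : Tendsto (fun a => exp (LL (M a) (M a * (y a + 1 / 2) - 1 - c)) *
      exp (-(M a * ff (y a + 1 / 2))) / ((√(M a : ℝ) : ℝ) : ℂ)) l
      (𝓝 (exp (-hh (y0 + 1 / 2) / 2) * exp (-c * hh (y0 + 1 / 2)))) := by
  have hM1 : ∀ᶠ a in l, 1 ≤ M a := hM.eventually (eventually_ge_atTop 1)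
  have ht : Tendsto (fun a => y a - c / M a) l (𝓝 y0) := by
    have := hy.sub (div_lim hM c)
    rwa [sub_zero] at this
  have hw := (wS_lim h0 h1).comp (hM.prodMk ht)
  have er : (y0 + 1 / 2).re = y0.re + 1 / 2 := by
    rw [add_re]
    norm_num
  have hc : Tendsto (fun a => (M a : ℂ) * ((y a - c / M a + 1 / 2) - (y a + 1 / 2))) l
      (𝓝 (-c)) := by
    refine tendsto_const_nhds.congr' ?_
    filter_upwards [hM1] with a ha
    have : (M a : ℂ) ≠ 0 := by exact_mod_cast (by omega : M a ≠ 0)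
    field_simp
    ring
  have hs := step_lim (ff_strict (z := y0 + 1 / 2) (by rw [er]; linarith) (by rw [er]; linarith))
    (ht.add_const (1 / 2)) (hy.add_const (1 / 2)) hc
  have h3 := hw.mul ((continuous_exp.tendsto _).comp hs)
  refine h3.congr' ?_
  filter_upwards [hM1] with a ha
  have hM0 : (0 : ℝ) < M a := by exact_mod_cast ha
  have hMc : (M a : ℂ) ≠ 0 := by exact_mod_cast hM0.ne'
  have hsq : ((√(M a : ℝ) : ℝ) : ℂ) ≠ 0 := by
    exact_mod_cast (Real.sqrt_pos.mpr hM0).ne'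
  have e1 : (M a : ℂ) * (y a + 1 / 2) - 1 - c = M a * ((y a - c / M a) + 1 / 2) - 1 := by
    field_simp
    ring
  have e2 : exp (M a * (ff (y a - c / M a + 1 / 2) - ff (y a + 1 / 2))) =
      exp (M a * ff (y a - c / M a + 1 / 2)) * exp (-(M a * ff (y a + 1 / 2))) := by
    rw [← exp_add]
    congr 1
    ring
  rw [e1, exp_LL_wS ha]
  simp only [Function.comp_apply]
  rw [e2]
  field_simp

private theorem w4C_lim (e : Bool) {y0 : ℂ} (h0 : -1 / 2 < y0.re) (h1 : y0.re < 1 / 2) :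
    ∃ A : ℂ, A ≠ 0 ∧ ∀ {α : Type} {l : Filter α} {M : α → ℕ}, Tendsto M l atTop →
      ∀ {y : α → ℂ}, Tendsto y l (𝓝 y0) → Tendsto (fun a => w4C n h e (M a) (y a) *
        exp (-(4 * (M a * ff (y a + 1 / 2)))) / (M a : ℂ) ^ 2) l (𝓝 A) := by
  refine ⟨(exp (-hh (y0 + 1 / 2) / 2) * exp (-0 * hh (y0 + 1 / 2))) *
    (exp (-hh (y0 + 1 / 2) / 2) * exp (-((n : ℂ) - 2) * hh (y0 + 1 / 2))) *
    (exp (-hh (y0 + 1 / 2) / 2) * exp (-((n : ℂ) - 1 - h) * hh (y0 + 1 / 2))) *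
    (exp (-hh (y0 + 1 / 2) / 2) *
      exp (-(if e then (n : ℂ) - 1 - h else (h : ℂ) - 1) * hh (y0 + 1 / 2))),
    ?_, fun {α l M} hM {y} hy => ?_⟩
  · exact mul_ne_zero (mul_ne_zero (mul_ne_zero (mul_ne_zero (exp_ne_zero _) (exp_ne_zero _))
      (mul_ne_zero (exp_ne_zero _) (exp_ne_zero _))) (mul_ne_zero (exp_ne_zero _)
      (exp_ne_zero _))) (mul_ne_zero (exp_ne_zero _) (exp_ne_zero _))
  · have g := (((wt_lim hM hy h0 h1 0).mul (wt_lim hM hy h0 h1 ((n : ℂ) - 2))).mul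
      (wt_lim hM hy h0 h1 ((n : ℂ) - 1 - h))).mul
      (wt_lim hM hy h0 h1 (if e then (n : ℂ) - 1 - h else (h : ℂ) - 1))
    have hM1 : ∀ᶠ a in l, 1 ≤ M a := hM.eventually (eventually_ge_atTop 1)
    refine g.congr' ?_
    filter_upwards [hM1] with a ha
    have hM0 : (0 : ℝ) < M a := by exact_mod_cast ha
    have hsq : ((√(M a : ℝ) : ℝ) : ℂ) ≠ 0 := by
      exact_mod_cast (Real.sqrt_pos.mpr hM0).ne'
    have hs2 : (M a : ℂ) ^ 2 = ((√(M a : ℝ) : ℝ) : ℂ) ^ 4 := by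
      have : ((√(M a : ℝ) : ℝ) : ℂ) ^ 2 = (M a : ℂ) := by
        rw [← ofReal_pow, Real.sq_sqrt hM0.le]
        simp
      rw [← this]
      ring
    have e4 : exp (-(4 * (M a * ff (y a + 1 / 2)))) = exp (-(M a * ff (y a + 1 / 2))) ^ 4 := by
      rw [← exp_nat_mul]
      congr 1
      push_cast
      ring
    rw [e4, hs2]
    unfold w4C
    rw [exp_add, exp_add, exp_add, sub_zero]
    field_simp

/-! ### The centered products -/

private theorem cos_ne {v : ℂ} (hv : v.im ≠ 0) : cos (Real.pi * v) ≠ 0 := by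
  intro h0
  obtain ⟨k, hk⟩ := Complex.cos_eq_zero_iff.mp h0
  have h1 := congrArg Complex.im hk
  have e1 : ((Real.pi : ℂ) * v).im = Real.pi * v.im := im_ofReal_mul _ _
  have e2 : ((2 * (k : ℂ) + 1) * Real.pi / 2).im = 0 := by
    have : ((2 * (k : ℂ) + 1) * Real.pi / 2) = (((2 * (k : ℝ) + 1) * Real.pi / 2 : ℝ) : ℂ) := by
      push_cast
      ring
    rw [this, ofReal_im]
  rw [e1, e2] at h1
  exact (mul_ne_zero Real.pi_ne_zero hv) h1

private theorem Wd_ne (M d : ℕ) {v : ℂ} (hv : v.im ≠ 0) : Wd M d v ≠ 0 := by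
  unfold Wd
  refine Finset.prod_ne_zero_iff.mpr fun j _ => mul_ne_zero (by norm_num) (cos_ne ?_)
  have e : ((j : ℂ) + 1 / 2 - d / 2) / M = ((((j : ℝ) + 1 / 2 - d / 2) / M : ℝ) : ℂ) := by
    push_cast
    ring
  rw [e, add_im, ofReal_im, add_zero]
  exact hv

private theorem Wd_cont (M d : ℕ) : Continuous (Wd M d) := by
  unfold Wd
  fun_prop

private theorem Wd_lim (d : ℕ) {α : Type*} {l : Filter α} {M : α → ℕ} (hM : Tendsto M l atTop)
    {v : α → ℂ} {v0 : ℂ} (hv : Tendsto v l (𝓝 v0)) :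
    Tendsto (fun a => Wd (M a) d (v a)) l (𝓝 (∏ _j ∈ Finset.range d, (2 * cos (Real.pi * v0)))) := by
  unfold Wd
  refine tendsto_finsetProd _ fun j _ => ?_
  have h1 := hv.add (div_lim hM ((j : ℂ) + 1 / 2 - d / 2))
  rw [add_zero] at h1
  exact ((continuous_cos.tendsto _).comp (h1.const_mul (Real.pi : ℂ))).const_mul 2

/-! ### The slots -/

private theorem fe_strict {z : ℂ} (h : fdom z) : HasStrictDerivAt fe (he z) z := by
  have h1 := (fe_an h).hasStrictDerivAt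
  rwa [(fe_hasDerivAt h).deriv] at h1

private theorem op_eq {M : ℕ} (hM : 1 ≤ M) (y y' v : ℂ) :
    qS M y' v * M * exp (2 * (M * ff (y + 1 / 2))) * exp (-(M * sP y (.op v))) =
      hS M (y' - v) * hS M (y' + v) * exp (M * (fe (y - v) - fe (y' - v))) *
        exp (M * (fe (y + v) - fe (y' + v))) := by
  have hM0 : (0 : ℝ) < M := by exact_mod_cast hM
  have hs2 : (M : ℂ) = ((√(M : ℝ) : ℝ) : ℂ) * ((√(M : ℝ) : ℝ) : ℂ) := by
    rw [← ofReal_mul, Real.mul_self_sqrt hM0.le]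
    simp
  have e1 : exp (2 * (M * ff (y + 1 / 2))) * exp (-(M * sP y (.op v))) =
      (exp (M * fe (y' - v)) * exp (M * (fe (y - v) - fe (y' - v)))) *
        (exp (M * fe (y' + v)) * exp (M * (fe (y + v) - fe (y' + v)))) := by
    rw [← exp_add, ← exp_add, ← exp_add, ← exp_add]
    congr 1
    unfold sP
    ring
  rw [mul_assoc, e1]
  unfold hS qS
  nth_rewrite 3 [hs2]
  ring

private theorem cl_eq (P : Bool) {M : ℕ} (hM : 1 ≤ M) (y : ℂ) (s : ℤ) :
    sC4 n h M P y (.cl s) * M * exp (2 * (M * ff (y + 1 / 2))) * exp (-(M * sP y (.cl s))) /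
      (((M : ℝ) ^ (3 / 2 : ℝ) : ℝ) : ℂ) =
      4 * Real.pi * exp (Real.pi * I * s * ((if P then 0 else (n : ℂ)) + ((n : ℂ) - 2) / 2 +
        (if P then (n : ℂ) - 2 * h else 0) * (1 / 2 - y) - (1 / 2 - y) / 2 +
        (((if P then (n : ℂ) - 2 * h else 0) ^ 2 - n + 1) / 2) / M)) *
        (exp (LL M (M * (y + 1 / 2) - 1 - ((n : ℂ) - 2))) * exp (-(M * ff (y + 1 / 2))) /
          ((√(M : ℝ) : ℝ) : ℂ))⁻¹ := by
  have hM0 : (0 : ℝ) < M := by exact_mod_cast hM
  have hMc : (M : ℂ) ≠ 0 := by exact_mod_cast hM0.ne'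
  have hsq : ((√(M : ℝ) : ℝ) : ℂ) ≠ 0 := by
    exact_mod_cast (Real.sqrt_pos.mpr hM0).ne'
  have hs2 : ((√(M : ℝ) : ℝ) : ℂ) * ((√(M : ℝ) : ℝ) : ℂ) = (M : ℂ) := by
    rw [← ofReal_mul, Real.mul_self_sqrt hM0.le]
    simp
  have hr : (((M : ℝ) ^ (3 / 2 : ℝ) : ℝ) : ℂ) = M * (√(M : ℝ) : ℝ) := by
    have : (M : ℝ) ^ (3 / 2 : ℝ) = M * √M := by
      rw [show (3 / 2 : ℝ) = 1 + 1 / 2 by norm_num, Real.rpow_add hM0, Real.rpow_one,
        Real.sqrt_eq_rpow]
    rw [this]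
    push_cast
    rfl
  rw [hr]
  have e1 : exp (Real.pi * I * s * ph4 n h M P (M * (1 / 2 - y))) *
      exp (-LL M (M * (y + 1 / 2) - 1 - ((n : ℂ) - 2))) *
      (exp (2 * (M * ff (y + 1 / 2))) * exp (-(M * sP y (.cl s)))) =
      exp (Real.pi * I * s * ((if P then 0 else (n : ℂ)) + ((n : ℂ) - 2) / 2 +
        (if P then (n : ℂ) - 2 * h else 0) * (1 / 2 - y) - (1 / 2 - y) / 2 +
        (((if P then (n : ℂ) - 2 * h else 0) ^ 2 - n + 1) / 2) / M)) *
      (exp (LL M (M * (y + 1 / 2) - 1 - ((n : ℂ) - 2))) * exp (-(M * ff (y + 1 / 2))))⁻¹ := by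
    rw [← exp_add, ← exp_add, ← exp_add, ← exp_add, ← exp_neg, ← exp_add]
    congr 1
    unfold sP ph4
    cases P <;> simp only [if_true, if_false, Bool.false_eq_true] <;> field_simp <;> ring
  have e2 : sC4 n h M P y (.cl s) = 4 * Real.pi * M *
      exp (Real.pi * I * s * ph4 n h M P (M * (1 / 2 - y))) *
      exp (-LL M (M * (y + 1 / 2) - 1 - ((n : ℂ) - 2))) := rfl
  rw [e2]
  calc _ = 4 * Real.pi * M * M / (M * (√(M : ℝ) : ℝ)) *
        (exp (Real.pi * I * s * ph4 n h M P (M * (1 / 2 - y))) *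
      exp (-LL M (M * (y + 1 / 2) - 1 - ((n : ℂ) - 2))) *
      (exp (2 * (M * ff (y + 1 / 2))) * exp (-(M * sP y (.cl s))))) := by ring
    _ = _ := by
      rw [e1]
      have h1 := exp_ne_zero (LL M (M * (y + 1 / 2) - 1 - ((n : ℂ) - 2)))
      have h2 := exp_ne_zero (-(M * ff (y + 1 / 2)))
      have h3 : 4 * (Real.pi : ℂ) * M * M / (M * (√(M : ℝ) : ℝ)) =
          4 * Real.pi * (√(M : ℝ) : ℝ) := by
        rw [div_eq_iff (mul_ne_zero hMc hsq)]
        linear_combination (-(4 * (Real.pi : ℂ) * M)) * hs2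
      rw [h3]
      field_simp

/-- The limit of a slot. -/
private theorem slot_lim (P : Bool) {y0 : ℂ} {σ0 : Sl} (hd : sdom y0 σ0)
    (hok : σ0.ok) (hu : ups σ0) : ∃ A : ℂ, A ≠ 0 ∧ ∀ {α : Type} {l : Filter α} {M : α → ℕ},
      Tendsto M l atTop → ∀ {y : α → ℂ}, Tendsto y l (𝓝 y0) → ∀ {σ : α → Sl}, STo l σ σ0 →
        Tendsto (fun a => sC4 n h (M a) P (y a) (σ a) * M a * exp (2 * (M a * ff (y a + 1 / 2))) *
          exp (-(M a * sP (y a) (σ a))) / (((M a : ℝ) ^ σ0.ex : ℝ) : ℂ) /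
            Ws n h (M a) P (σ a)) l (𝓝 A) := by
  rcases σ0 with v0 | s
  · obtain ⟨d1, d2, d3, d4⟩ : 0 < y0.re ∧ y0.re < 1 / 2 ∧ fdom (y0 - v0) ∧ fdom (y0 + v0) := hd
    have hok' : |v0.re| ≤ 1 / 2 := hok
    rw [abs_le] at hok'
    have hu' : 0 < v0.im := hu
    set d := dd n h P with hdd
    refine ⟨1 * 1 * exp ((d : ℂ) / 2 * he (y0 - v0)) * exp ((d : ℂ) / 2 * he (y0 + v0)) /
      ∏ _j ∈ Finset.range d, (2 * cos (Real.pi * v0)), ?_, fun {α l M} hM {y} hy {σ} hσ => ?_⟩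
    · refine div_ne_zero (mul_ne_zero (mul_ne_zero (by norm_num) (exp_ne_zero _))
        (exp_ne_zero _)) (Finset.prod_ne_zero_iff.mpr fun j _ => mul_ne_zero (by norm_num)
        (cos_ne hu'.ne'))
    · have hM1 : ∀ᶠ a in l, 1 ≤ M a := hM.eventually (eventually_ge_atTop 1)
      obtain ⟨v, hv, hv0⟩ := hσ
      have ht : Tendsto (fun a => y a - (d : ℂ) / (2 * M a)) l (𝓝 y0) := by
        have := hy.sub (div_lim hM ((d : ℂ) / 2))
        rw [sub_zero] at this
        refine this.congr fun a => ?_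
        rw [div_div]
      have h1 := (hS_lim d3 (by rw [sub_re, abs_lt]; constructor <;> linarith)).comp
        (hM.prodMk (ht.sub hv0))
      have h2 := (hS_lim d4 (by rw [add_re, abs_lt]; constructor <;> linarith)).comp
        (hM.prodMk (ht.add hv0))
      have k1 := step_lim (M := M) (c := (d : ℂ) / 2) (fe_strict d3) (hy.sub hv0) (ht.sub hv0) (by
        refine tendsto_const_nhds.congr' ?_
        filter_upwards [hM1] with a ha
        have : (M a : ℂ) ≠ 0 := by exact_mod_cast (by omega : M a ≠ 0)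
        field_simp
        ring)
      have k2 := step_lim (M := M) (c := (d : ℂ) / 2) (fe_strict d4) (hy.add hv0) (ht.add hv0) (by
        refine tendsto_const_nhds.congr' ?_
        filter_upwards [hM1] with a ha
        have : (M a : ℂ) ≠ 0 := by exact_mod_cast (by omega : M a ≠ 0)
        field_simp
        ring)
      have h3 := (((h1.mul h2).mul ((continuous_exp.tendsto _).comp k1)).mul
        ((continuous_exp.tendsto _).comp k2)).div (Wd_lim d hM hv0)
        (Finset.prod_ne_zero_iff.mpr fun j _ => mul_ne_zero (by norm_num) (cos_ne hu'.ne'))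
      refine h3.congr' ?_
      filter_upwards [hM1] with a ha
      have e0 : ((((M a : ℝ) ^ (Sl.op v0).ex : ℝ)) : ℂ) = 1 := by
        have : (Sl.op v0).ex = 0 := rfl
        rw [this, Real.rpow_zero, ofReal_one]
      have e1 : sC4 n h (M a) P (y a) (.op (v a)) = qS (M a) (y a - (d : ℂ) / (2 * M a)) (v a) :=
        rfl
      have e2 : Ws n h (M a) P (.op (v a)) = Wd (M a) d (v a) := rfl
      rw [e0, div_one, hv a, e1, e2, op_eq ha]
      rfl
  · obtain ⟨d1, d2⟩ : 0 < y0.re ∧ y0.re < 1 / 2 := hd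
    have hpi : (Real.pi : ℂ) ≠ 0 := by exact_mod_cast Real.pi_ne_zero
    refine ⟨4 * Real.pi * exp (Real.pi * I * s * ((if P then 0 else (n : ℂ)) +
      ((n : ℂ) - 2) / 2 + (if P then (n : ℂ) - 2 * h else 0) * (1 / 2 - y0) - (1 / 2 - y0) / 2 +
        0)) * (exp (-hh (y0 + 1 / 2) / 2) * exp (-((n : ℂ) - 2) * hh (y0 + 1 / 2)))⁻¹, ?_,
      fun {α l M} hM {y} hy {σ} hσ => ?_⟩
    · exact mul_ne_zero (mul_ne_zero (mul_ne_zero (by norm_num) hpi) (exp_ne_zero _))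
        (inv_ne_zero (mul_ne_zero (exp_ne_zero _) (exp_ne_zero _)))
    · have hM1 : ∀ᶠ a in l, 1 ≤ M a := hM.eventually (eventually_ge_atTop 1)
      have hs : ∀ a, σ a = .cl s := hσ
      have hw := (wt_lim hM hy (by linarith) d2 ((n : ℂ) - 2)).inv₀
        (mul_ne_zero (exp_ne_zero _) (exp_ne_zero _))
      have hy2 : Tendsto (fun a => 1 / 2 - y a) l (𝓝 (1 / 2 - y0)) := hy.const_sub _
      have hL : Tendsto (fun a => Real.pi * I * s * ((if P then 0 else (n : ℂ)) +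
          ((n : ℂ) - 2) / 2 + (if P then (n : ℂ) - 2 * h else 0) * (1 / 2 - y a) -
          (1 / 2 - y a) / 2 + (((if P then (n : ℂ) - 2 * h else 0) ^ 2 - n + 1) / 2) / M a)) l
          (𝓝 (Real.pi * I * s * ((if P then 0 else (n : ℂ)) + ((n : ℂ) - 2) / 2 +
            (if P then (n : ℂ) - 2 * h else 0) * (1 / 2 - y0) - (1 / 2 - y0) / 2 + 0))) :=
        ((((hy2.const_mul _).const_add _).sub (hy2.div_const 2)).add (div_lim hM _)).const_mul _
      have h3 := (((continuous_exp.tendsto _).comp hL).const_mul (4 * Real.pi : ℂ)).mul hw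
      refine h3.congr' ?_
      filter_upwards [hM1] with a ha
      have e0 : (Sl.cl s).ex = 3 / 2 := rfl
      have e2 : Ws n h (M a) P (.cl s) = 1 := rfl
      rw [e0, hs a, e2, div_one, cl_eq P ha]
      simp only [Function.comp_apply]

theorem Fq_lim (hn : 2 ≤ n) (hh : 1 ≤ h) (hh' : 2 * h ≤ n) (e P Q : Bool) {y0 : ℂ} {σ0 τ0 : Sl}
    (hd1 : sdom y0 σ0) (hd2 : sdom y0 τ0) (hok1 : σ0.ok) (hok2 : τ0.ok) (hu1 : ups σ0)
    (hu2 : ups τ0) : ∃ A : ℂ, A ≠ 0 ∧ ∀ {α : Type} {l : Filter α} {M : α → ℕ},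
    Tendsto M l atTop → ∀ {y : α → ℂ}, Tendsto y l (𝓝 y0) → ∀ {σ τ : α → Sl}, STo l σ σ0 →
    STo l τ τ0 → Tendsto (fun a => Fq n h e P Q (M a) (σ a) (τ a) (y a) *
      exp (-(M a * (sP (y a) (σ a) + sP (y a) (τ a)))) /
        (((M a : ℝ) ^ (σ0.ex + τ0.ex) : ℝ) : ℂ)) l (𝓝 A) := by
  have hre := Cfg.sdom_re hd1
  obtain ⟨A, hA, hwA⟩ := w4C_lim (n := n) (h := h) e (y0 := y0) (by linarith [hre.1]) hre.2
  obtain ⟨B, hB, hsB⟩ := slot_lim (n := n) (h := h) P hd1 hok1 hu1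
  obtain ⟨D, hD, hsD⟩ := slot_lim (n := n) (h := h) Q hd2 hok2 hu2
  refine ⟨A * B * D, mul_ne_zero (mul_ne_zero hA hB) hD,
    fun {α l M} hM {y} hy {σ τ} hσ hτ => ?_⟩
  have hM1 : ∀ᶠ a in l, 1 ≤ M a := hM.eventually (eventually_ge_atTop 1)
  have g := ((hwA hM hy).mul (hsB hM hy hσ)).mul (hsD hM hy hτ)
  refine g.congr' ?_
  filter_upwards [hM1] with a ha
  have hM0 : (0 : ℝ) < M a := by exact_mod_cast ha
  have hMc : (M a : ℂ) ≠ 0 := by exact_mod_cast hM0.ne'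
  have e1 : exp (-(4 * (M a * ff (y a + 1 / 2)))) *
      (exp (2 * (M a * ff (y a + 1 / 2))) * exp (2 * (M a * ff (y a + 1 / 2)))) = 1 := by
    rw [← exp_add, ← exp_add, ← exp_zero]
    congr 1
    ring
  rw [Real.rpow_add hM0, ofReal_mul, mul_add, neg_add, exp_add]
  unfold Fq F4
  set X := exp (-(4 * (M a * ff (y a + 1 / 2))))
  set Z := exp (2 * (M a * ff (y a + 1 / 2)))
  calc _ = (X * (Z * Z)) * (w4C n h e (M a) (y a) * (sC4 n h (M a) P (y a) (σ a) *
        sC4 n h (M a) Q (y a) (τ a)) / (Ws n h (M a) P (σ a) * Ws n h (M a) Q (τ a)) *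
        (exp (-(M a * sP (y a) (σ a))) * exp (-(M a * sP (y a) (τ a)))) /
        ((((M a : ℝ) ^ σ0.ex : ℝ) : ℂ) * (((M a : ℝ) ^ τ0.ex : ℝ) : ℂ))) *
        ((M a : ℂ) ^ 2 / (M a : ℂ) ^ 2) := by
        simp only [div_eq_mul_inv, mul_inv]
        ring
    _ = _ := by
        rw [e1, one_mul, div_self (pow_ne_zero 2 hMc), mul_one]

variable {m : ℕ} {C : Cfg m}

/-! ### Continuity -/

private theorem LLc {M : ℕ} (hM : 0 < M) {c : ℝ} (h0 : 0 ≤ c) (h1 : 2 * c ≤ M) {y : ℂ}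
    (hy0 : 0 < y.re) (hy1 : y.re < 1 / 2) :
    ContinuousAt (fun y : ℂ => LL M (M * (y + 1 / 2) - 1 - (c : ℂ))) y := by
  have hM0 : (0 : ℝ) < M := by exact_mod_cast hM
  have e1 : ((M : ℂ) * (y + 1 / 2) - 1 - (c : ℂ)).re = M * (y.re + 1 / 2) - 1 - c := by
    rw [sub_re, sub_re, ← ofReal_natCast, re_ofReal_mul, add_re, ofReal_re]
    norm_num
  have d := (LL_differentiableAt M hM (M * (y + 1 / 2) - 1 - (c : ℂ)) (by rw [e1]; nlinarith)
    (by rw [e1]; nlinarith)).continuousAt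
  exact ContinuousAt.comp (f := fun y : ℂ => (M : ℂ) * (y + 1 / 2) - 1 - (c : ℂ)) (g := LL M) d
    (by fun_prop)

private theorem w4C_continuousAt (hn : 2 ≤ n) (hh : 1 ≤ h) (hh' : 2 * h ≤ n) (e : Bool) {M : ℕ}
    (hM : 4 * n ≤ M) {y : ℂ} (hy0 : 0 < y.re) (hy1 : y.re < 1 / 2) :
    ContinuousAt (w4C n h e M) y := by
  have hn' : (2 : ℝ) ≤ n := by exact_mod_cast hn
  have h1 : (1 : ℝ) ≤ h := by exact_mod_cast hh
  have h2 : 2 * (h : ℝ) ≤ n := by exact_mod_cast hh'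
  have hM' : 4 * (n : ℝ) ≤ M := by exact_mod_cast hM
  have hM0 : 0 < M := by omega
  have a1 := LLc hM0 (c := 0) le_rfl (by linarith) hy0 hy1
  have a2 := LLc hM0 (c := (n : ℝ) - 2) (by linarith) (by linarith) hy0 hy1
  have a3 := LLc hM0 (c := (n : ℝ) - 1 - h) (by linarith) (by linarith) hy0 hy1
  have a4 := LLc hM0 (c := if e then (n : ℝ) - 1 - h else (h : ℝ) - 1)
    (by split_ifs <;> linarith) (by split_ifs <;> linarith) hy0 hy1
  have g := (((a1.add a2).add a3).add a4).cexp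
  refine g.congr (Eventually.of_forall fun w => ?_)
  simp only [Pi.add_apply]
  unfold w4C
  cases e <;> simp

private theorem sC4_continuousAt (hn : 2 ≤ n) (hh : 1 ≤ h) (P : Bool) {M : ℕ} (hM : 4 * n ≤ M)
    {z : C.Op ⊕ Fin m → ℂ} (hz : z ∈ C.U) (j : Fin m) (i : Fin (m + 1))
    (h' : sdom (C.Yz z j) (C.slz z i)) :
    ContinuousAt (fun z => sC4 n h M P (C.Yz z j) (C.slz z i) / Ws n h M P (C.slz z i)) z := by
  have hM0' : 0 < M := by omega
  have hM0 : (0 : ℝ) < M := by exact_mod_cast hM0'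
  have hM2 : (0 : ℝ) < 1 / (2 * M) := by positivity
  have hY : ContinuousAt (fun z => C.Yz z j) z := (Cfg.Hess_Yz_an C j z).continuousAt
  obtain ⟨h1, h2⟩ := Cfg.sdom_re h'
  by_cases hi : i ∈ C.Op
  · have hsl : ∀ w, C.slz w i = .op (gdv (C.uz w i)) := fun w => by
      unfold Cfg.slz
      rw [if_pos hi]
    simp only [hsl]
    have hg : ContinuousAt (fun z => gdv (C.uz z i)) z := (Cfg.Hess_gz_an hz hi).continuousAt
    have hv : |(gdv (C.uz z i)).re| < 1 / 2 := gdv_re_lt (Cfg.Hess_im hz hi)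
    have hd : (dd n h P : ℝ) ≤ M := by
      have : dd n h P ≤ M := by
        unfold dd
        split_ifs <;> omega
      exact_mod_cast this
    have hd0 : (0 : ℝ) ≤ (dd n h P : ℝ) / (2 * M) := by positivity
    have hd1 : (dd n h P : ℝ) / (2 * M) ≤ 1 / 2 := by
      rw [div_le_div_iff₀ (by positivity) (by norm_num)]
      linarith
    have er : (C.Yz z j - (dd n h P : ℂ) / (2 * M)).re =
        (C.Yz z j).re - (dd n h P : ℝ) / (2 * M) := by
      have : (dd n h P : ℂ) / (2 * M) = (((dd n h P : ℝ) / (2 * M) : ℝ) : ℂ) := by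
        push_cast
        ring
      rw [this, sub_re, ofReal_re]
    have hy : |(C.Yz z j - (dd n h P : ℂ) / (2 * M)).re| < 1 / 2 := by
      rw [er, abs_lt]
      constructor <;> linarith
    have d := (qS_differentiableAt hM0' (y := C.Yz z j - (dd n h P : ℂ) / (2 * M))
      (v := gdv (C.uz z i)) (by linarith)).continuousAt
    have c1 : ContinuousAt (fun z => qS M (C.Yz z j - (dd n h P : ℂ) / (2 * M))
        (gdv (C.uz z i))) z :=
      ContinuousAt.comp (f := fun z => (C.Yz z j - (dd n h P : ℂ) / (2 * M), gdv (C.uz z i)))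
        (g := fun p : ℂ × ℂ => qS M p.1 p.2) d ((hY.sub continuousAt_const).prodMk hg)
    have c2 : ContinuousAt (fun z => Wd M (dd n h P) (gdv (C.uz z i))) z :=
      ContinuousAt.comp (f := fun z => gdv (C.uz z i)) (g := Wd M (dd n h P))
        (Wd_cont M _).continuousAt hg
    have him : 0 < (gdv (C.uz z i)).im := by
      have h5 := hz.1 ⟨i, hi⟩
      have e : C.uz z i = z (Sum.inl ⟨i, hi⟩) := by
        unfold Cfg.uz
        rw [dif_pos hi]
      rw [e]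
      exact gdv_im_pos h5.1 h5.2
    exact c1.div c2 (Wd_ne M _ him.ne')
  · have hsl : ∀ w, C.slz w i = .cl (C.s i) := fun w => by
      unfold Cfg.slz
      rw [if_neg hi]
    simp only [hsl]
    have hn' : (2 : ℝ) ≤ n := by exact_mod_cast hn
    have hM' : 4 * (n : ℝ) ≤ M := by exact_mod_cast hM
    have a2 := LLc hM0' (c := (n : ℝ) - 2) (by linarith) (by linarith) h1 h2
    have a3 : ContinuousAt (fun y : ℂ => 4 * Real.pi * M *
        exp (Real.pi * I * (C.s i) * ph4 n h M P (M * (1 / 2 - y))) *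
        exp (-LL M (M * (y + 1 / 2) - 1 - (((n : ℝ) - 2 : ℝ) : ℂ)))) (C.Yz z j) := by
      refine ContinuousAt.mul ?_ a2.neg.cexp
      unfold ph4
      cases P <;> simp only [if_true, if_false, Bool.false_eq_true] <;> fun_prop
    have c1 := ContinuousAt.comp (f := fun z => C.Yz z j) (g := fun y : ℂ => 4 * Real.pi * M *
        exp (Real.pi * I * (C.s i) * ph4 n h M P (M * (1 / 2 - y))) *
        exp (-LL M (M * (y + 1 / 2) - 1 - (((n : ℝ) - 2 : ℝ) : ℂ)))) a3 hY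
    refine c1.congr (Eventually.of_forall fun w => ?_)
    simp only [Function.comp_apply]
    unfold sC4 Ws
    simp

/-- The continuity in the variables of a chain. -/
theorem Fq_cont (hn : 2 ≤ n) (hh : 1 ≤ h) (hh' : 2 * h ≤ n) (e P Q : Bool)
    (hs : ∀ i ∉ C.Op, C.s i = 1 ∨ C.s i = -1) (j : Fin m) : ∀ᶠ M : ℕ in atTop,
    ContinuousOn (fun z => Fq n h e P Q M (C.slz z j.castSucc) (C.slz z j.succ) (C.Yz z j))
      C.U := by
  filter_upwards [eventually_ge_atTop (4 * n)] with M hM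
  intro z hz
  apply ContinuousAt.continuousWithinAt
  have hY : ContinuousAt (fun z => C.Yz z j) z := (Cfg.Hess_Yz_an C j z).continuousAt
  obtain ⟨h1, h2⟩ := Cfg.sdom_re (hz.2 j).1
  have a := ContinuousAt.comp (f := fun z => C.Yz z j) (g := w4C n h e M)
    (w4C_continuousAt hn hh hh' e hM h1 h2) hY
  have b := sC4_continuousAt (h := h) hn hh P hM hz j _ (hz.2 j).1
  have c := sC4_continuousAt (h := h) hn hh Q hM hz j _ (hz.2 j).2
  refine (a.mul (b.mul c)).congr (Eventually.of_forall fun w => ?_)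
  simp only [Function.comp_apply, Pi.mul_apply]
  unfold Fq F4
  simp only [div_eq_mul_inv, mul_inv]
  ring

end Pool.Agent.S4
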