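import Pool.Agent.H25.RK.DGd
import Pool.Agent.S4.Root

/-!
# Closed ends: the lattice sums with two slots
-/

set_option autoImplicit false

open Complex
open Pool.Agent.H63.VC Pool.Agent.H63.VC3 Pool.Agent.H63.VC7

namespace Pool.Agent.S4.Cl4

open Pool.Agent.H25.RK

/-! ### The centered products -/

theorem Wd_zero (M : ℕ) (v : ℂ) : Wd M 0 v = 1 := by simp [Wd]

theorem Wd_one (M : ℕ) (v : ℂ) : Wd M 1 v = 2 * cos (Real.pi * v) := by
  unfold Wd
  rw [Finset.prod_range_one]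
  congr 2
  push_cast
  ring

theorem Wd_diff (M d : ℕ) : Differentiable ℂ (Wd M d) := by
  unfold Wd
  apply Differentiable.fun_finsetProd
  intro i _
  fun_prop

theorem four_cos (a b : ℂ) : 2 * cos a * (2 * cos b) = 2 * cos (a - b) + 2 * cos (a + b) := by
  rw [cos_add, cos_sub]
  ring

theorem Wd_add_two (M d : ℕ) (v : ℂ) : Wd M (d + 2) v = Wd M d v *
    (2 * cos (2 * Real.pi * v) + 2 * cos (Real.pi * (d + 1) / M)) := by
  unfold Wd
  rw [Finset.prod_range_succ, Finset.prod_range_succ']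
  have e1 : ∀ j : ℕ, 2 * cos (Real.pi * (v + (((j + 1 : ℕ) : ℂ) + 1 / 2 -
      ((d + 2 : ℕ) : ℂ) / 2) / M)) = 2 * cos (Real.pi * (v + ((j : ℂ) + 1 / 2 - d / 2) / M)) := by
    intro j
    congr 3
    push_cast
    ring
  rw [Finset.prod_congr rfl fun j _ => e1 j, mul_assoc, four_cos]
  congr 1
  have h1 : cos (Real.pi * (v + (((0 : ℕ) : ℂ) + 1 / 2 - ((d + 2 : ℕ) : ℂ) / 2) / M) -
      Real.pi * (v + (((d + 1 : ℕ) : ℂ) + 1 / 2 - ((d + 2 : ℕ) : ℂ) / 2) / M)) =
      cos (Real.pi * (d + 1) / M) := by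
    rw [← cos_neg]
    congr 1
    push_cast
    ring
  have h2 : (Real.pi : ℂ) * (v + (((0 : ℕ) : ℂ) + 1 / 2 - ((d + 2 : ℕ) : ℂ) / 2) / M) +
      Real.pi * (v + (((d + 1 : ℕ) : ℂ) + 1 / 2 - ((d + 2 : ℕ) : ℂ) / 2) / M) =
      2 * Real.pi * v := by
    push_cast
    ring
  rw [h1, h2, add_comm]

theorem Wd_two (M a : ℕ) (v : ℂ) : Wd M (2 * a) v = PP M a v := by
  induction a with
  | zero => rw [mul_zero, Wd_zero, PP_zero]
  | succ a ih =>
    rw [mul_add, mul_one, Wd_add_two, ih, PP_succ']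
    congr 4
    push_cast
    ring

theorem Wd_q4 (M d t : ℕ) (v : ℂ) : Wd M d v * q4 M d t v = 1 / M * Wd M (d + 2 * t) v := by
  induction t with
  | zero =>
    unfold q4
    simp
    ring
  | succ t ih =>
    have e : q4 M d (t + 1) v = q4 M d t v * (4 * (cos (Real.pi * (v + ((t : ℂ) + (d + 1) / 2) / M)) *
        cos (Real.pi * (v - ((t : ℂ) + (d + 1) / 2) / M)))) := by
      unfold q4
      rw [Finset.prod_range_succ]
      ring
    have e2 : 4 * (cos (Real.pi * (v + ((t : ℂ) + (d + 1) / 2) / M)) *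
        cos (Real.pi * (v - ((t : ℂ) + (d + 1) / 2) / M))) =
        2 * cos (2 * Real.pi * v) + 2 * cos (Real.pi * ((d + 2 * t : ℕ) + 1) / M) := by
      rw [show 4 * (cos (Real.pi * (v + ((t : ℂ) + (d + 1) / 2) / M)) *
        cos (Real.pi * (v - ((t : ℂ) + (d + 1) / 2) / M))) =
        2 * cos (Real.pi * (v + ((t : ℂ) + (d + 1) / 2) / M)) *
        (2 * cos (Real.pi * (v - ((t : ℂ) + (d + 1) / 2) / M))) by ring, four_cos, add_comm]
      congr 3
      · ring
      · push_cast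
        ring
    rw [e, ← mul_assoc, ih, show d + 2 * (t + 1) = d + 2 * t + 2 by ring, Wd_add_two, e2]
    ring

/-! ### The product at the integer lattice -/

/-- The product `Wd 1 * Wd (2 n - 1)`. -/
noncomputable def QQ (M n : ℕ) (v : ℂ) : ℂ := ∏ i ∈ Finset.range n,
  (4 * (cos (Real.pi * (v + i / M)) * cos (Real.pi * (v - i / M))))

theorem QQ_zero (M : ℕ) (v : ℂ) : QQ M 0 v = 1 := by simp [QQ]

theorem QQ_succ (M n : ℕ) (v : ℂ) : QQ M (n + 1) v = QQ M n v *
    (4 * (cos (Real.pi * (v + n / M)) * cos (Real.pi * (v - n / M)))) := by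
  unfold QQ
  rw [Finset.prod_range_succ]

theorem QQ_succ' (M n : ℕ) (v : ℂ) : QQ M (n + 1) v = QQ M n v *
    (2 * cos (2 * Real.pi * v) + 2 * cos (2 * Real.pi * n / M)) := by
  rw [QQ_succ]
  congr 1
  rw [show 4 * (cos (Real.pi * (v + n / M)) * cos (Real.pi * (v - n / M))) =
    2 * cos (Real.pi * (v + n / M)) * (2 * cos (Real.pi * (v - n / M))) by ring, four_cos,
    add_comm]
  congr 3
  · ring
  · ring

theorem QQ_diff (M n : ℕ) : Differentiable ℂ (QQ M n) := by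
  unfold QQ
  apply Differentiable.fun_finsetProd
  intro i _
  fun_prop

theorem QQ_Wd (M n : ℕ) (v : ℂ) : QQ M (n + 1) v = Wd M 1 v * Wd M (2 * n + 1) v := by
  induction n with
  | zero =>
    rw [QQ_succ, QQ_zero, Wd_one]
    push_cast
    rw [zero_div, add_zero, sub_zero]
    ring
  | succ n ih =>
    rw [QQ_succ', ih, show 2 * (n + 1) + 1 = 2 * n + 1 + 2 by ring, Wd_add_two, mul_assoc]
    congr 5
    push_cast
    ring

/-- The shift of the product. -/
theorem QQ_shift (M n : ℕ) (v : ℂ) :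
    2 * cos (Real.pi * v) * QQ M n (v + 1 / M) * (2 * cos (Real.pi * (v + 1 / M - n / M))) =
      QQ M n v * (2 * cos (Real.pi * (v + n / M))) * (2 * cos (Real.pi * (v + 1 / M))) := by
  induction n with
  | zero =>
    rw [QQ_zero, QQ_zero]
    push_cast
    rw [zero_div, sub_zero, add_zero]
    ring
  | succ n ih =>
    rw [QQ_succ, QQ_succ]
    have e1 : (Real.pi : ℂ) * (v + 1 / M - ((n + 1 : ℕ) : ℂ) / M) =
        Real.pi * (v - n / M) := by push_cast; ring
    have e2 : (Real.pi : ℂ) * (v + 1 / M + n / M) =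
        Real.pi * (v + ((n + 1 : ℕ) : ℂ) / M) := by push_cast; ring
    rw [e1, e2]
    linear_combination 4 * cos (Real.pi * (v + ((n + 1 : ℕ) : ℂ) / M)) *
      cos (Real.pi * (v - n / M)) * ih

/-- Telescoping. -/
theorem tele1 {M : ℕ} (hM : 0 < M) {F H : ℂ → ℂ} (hH : Differentiable ℂ H)
    (hF : ∀ v, F v = H (v + 1 / M) - H v) :
    ∑ X ∈ Finset.range M, deriv F ((vl 1 M X : ℝ) : ℂ) =
      deriv H (((vl 1 M 0 : ℝ) : ℂ) + 1) - deriv H ((vl 1 M 0 : ℝ) : ℂ) := by
  have hM' : (M : ℂ) ≠ 0 := by exact_mod_cast hM.ne'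
  have e : F = fun v => H (v + 1 / M) - H v := funext hF
  have hd : ∀ v, deriv F v = deriv H (v + 1 / M) - deriv H v := by
    intro v
    rw [e]
    have h1 : DifferentiableAt ℂ (fun v => H (v + 1 / (M : ℂ))) v :=
      (hH _).comp v (by fun_prop)
    rw [deriv_fun_sub h1 (hH v), deriv_comp_add_const]
  have hs : ∀ X, deriv F ((vl 1 M X : ℝ) : ℂ) =
      deriv H ((vl 1 M (X + 1) : ℝ) : ℂ) - deriv H ((vl 1 M X : ℝ) : ℂ) := by
    intro X
    rw [hd]
    congr 2
    unfold vl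
    push_cast
    ring
  simp only [hs]
  rw [Finset.sum_range_sub (fun X => deriv H ((vl 1 M X : ℝ) : ℂ))]
  congr 2
  unfold vl
  push_cast
  field_simp
  ring

theorem w0_eq (M : ℕ) : ((vl 1 M 0 : ℝ) : ℂ) = -(1 / 2) := by
  unfold vl bt
  push_cast
  ring

/-- The one-slot sums at the integer lattice. -/
noncomputable def O1 (M n : ℕ) : ℂ := ∑ X ∈ Finset.range M,
  deriv (fun v => gr 1 M v * (2 * sin (2 * Real.pi * v)) * QQ M n v) ((vl 1 M X : ℝ) : ℂ)

/-- The auxiliary function. -/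
noncomputable def H3 (M n : ℕ) (v : ℂ) : ℂ :=
  gr 1 M v * (-I * exp (-(Real.pi / M * I)) * exp (-(Real.pi * (n / M) * I)) *
    exp (-(Real.pi * v * I)) ^ 2) * (2 * cos (Real.pi * (v - 1 / M))) *
      (QQ M n v * (2 * cos (Real.pi * (v - n / M))))

theorem H3_diff (M n : ℕ) : Differentiable ℂ (H3 M n) := by
  unfold H3
  have h1 := gr_diff 1 M
  have h2 := QQ_diff M n
  fun_prop

/-- The factor of the one-slot recursion. -/
noncomputable def c3 (M n : ℕ) : ℂ :=
  I * exp (Real.pi * ((n : ℂ) - 1) / M * I) * ((sg M (n + 1) : ℝ) : ℂ)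

theorem H3_rec {M : ℕ} (hM : 0 < M) (n : ℕ) (v : ℂ) :
    gr 1 M v * (2 * sin (2 * Real.pi * v)) * QQ M (n + 1) v -
      c3 M n * (gr 1 M v * (2 * sin (2 * Real.pi * v)) * QQ M n v) =
      H3 M n (v + 1 / M) - H3 M n v := by
  have hM' : (M : ℂ) ≠ 0 := by exact_mod_cast hM.ne'
  have hsh := QQ_shift M n v
  have e0 : (Real.pi : ℂ) * (v + 1 / M - 1 / M) = Real.pi * v := by ring
  have hL : H3 M n (v + 1 / M) = gr 1 M (v + 1 / M) *
      (-I * exp (-(Real.pi / M * I)) * exp (-(Real.pi * (n / M) * I)) *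
    exp (-(Real.pi * (v + 1 / M) * I)) ^ 2) *
      (QQ M n v * (2 * cos (Real.pi * (v + n / M))) * (2 * cos (Real.pi * (v + 1 / M)))) := by
    rw [← hsh]
    unfold H3
    rw [e0]
    ring
  rw [hL, gr_one_shift hM, QQ_succ']
  unfold H3
  set x : ℂ := exp (Real.pi * v * I) with hx
  set q : ℂ := exp (Real.pi / M * I) with hq
  set z : ℂ := exp (Real.pi * (n / M) * I) with hz
  have x0 : x ≠ 0 := exp_ne_zero _
  have q0 : q ≠ 0 := exp_ne_zero _
  have z0 : z ≠ 0 := exp_ne_zero _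
  have a1 : exp (-(Real.pi * v * I)) = x⁻¹ := by rw [exp_neg]
  have a3 : exp (-(Real.pi * (v + 1 / M) * I)) = (x * q)⁻¹ := by
    rw [exp_neg, hx, hq, ← exp_add]; congr 2; ring
  have a4 : exp (-(Real.pi / M * I)) = q⁻¹ := by rw [exp_neg]
  have a5 : exp (-(Real.pi * (n / M) * I)) = z⁻¹ := by rw [exp_neg]
  have a6 : 2 * cos (Real.pi * (v + n / M)) = x * z + (x * z)⁻¹ := by
    rw [two_cos_eq]
    have : exp ((Real.pi : ℂ) * (v + n / M) * I) = x * z := by
      rw [hx, hz, ← exp_add]; congr 1; ring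
    rw [this]
  have a7 : 2 * cos (Real.pi * (v - n / M)) = x * z⁻¹ + (x * z⁻¹)⁻¹ := by
    rw [two_cos_eq]
    have : exp ((Real.pi : ℂ) * (v - n / M) * I) = x * z⁻¹ := by
      rw [hx, hz, ← exp_neg, ← exp_add]; congr 1; ring
    rw [this]
  have a7' : 2 * cos (Real.pi * (v - 1 / M)) = x * q⁻¹ + (x * q⁻¹)⁻¹ := by
    rw [two_cos_eq]
    have : exp ((Real.pi : ℂ) * (v - 1 / M) * I) = x * q⁻¹ := by
      rw [hx, hq, ← exp_neg, ← exp_add]; congr 1; ring
    rw [this]
  have a6' : 2 * cos (Real.pi * (v + 1 / M)) = x * q + (x * q)⁻¹ := by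
    rw [two_cos_eq]
    have : exp ((Real.pi : ℂ) * (v + 1 / M) * I) = x * q := by
      rw [hx, hq, ← exp_add]; congr 1; ring
    rw [this]
  have a8 : 2 * sin (2 * Real.pi * v) = -I * (x ^ 2 - (x ^ 2)⁻¹) := by
    rw [two_sin_eq]
    have : exp (2 * (Real.pi : ℂ) * v * I) = x ^ 2 := by
      rw [hx, ← exp_nat_mul]; congr 1; push_cast; ring
    rw [this]
  have a9 : 2 * cos (2 * Real.pi * v) = x ^ 2 + (x ^ 2)⁻¹ := by
    rw [two_cos_eq]
    have : exp (2 * (Real.pi : ℂ) * v * I) = x ^ 2 := by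
      rw [hx, ← exp_nat_mul]; congr 1; push_cast; ring
    rw [this]
  have a10 : 2 * cos (2 * Real.pi * n / M) = z ^ 2 + (z ^ 2)⁻¹ := by
    rw [two_cos_eq]
    have : exp (2 * (Real.pi : ℂ) * n / M * I) = z ^ 2 := by
      rw [hz, ← exp_nat_mul]; congr 1; push_cast; ring
    rw [this]
  have a11 : c3 M n = z ^ 2 - (q ^ 2)⁻¹ := by
    unfold c3
    rw [sg_cast, two_sin_eq]
    set s : ℂ := exp (Real.pi * ((n + 1 : ℕ) : ℂ) / M * I) with hs
    have s0 : s ≠ 0 := exp_ne_zero _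
    have b2 : z * q = s := by
      rw [hz, hq, hs, ← exp_add]
      congr 1
      push_cast
      field_simp
    have b3 : exp (Real.pi * ((n : ℂ) - 1) / M * I) = z * q⁻¹ := by
      rw [hz, hq, ← exp_neg, ← exp_add]
      congr 1
      field_simp
      ring
    rw [b3, ← b2]
    field_simp
    rw [I_sq]
    ring
  rw [a1, a3, a4, a5, a6, a6', a7, a7', a8, a9, a10, a11]
  field_simp
  ring

theorem QQ_add_one (M n : ℕ) (v : ℂ) : QQ M n (v + 1) = QQ M n v := by
  unfold QQ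
  refine Finset.prod_congr rfl fun i _ => ?_
  have e1 : (Real.pi : ℂ) * (v + 1 + i / M) = Real.pi * (v + i / M) + Real.pi := by ring
  have e2 : (Real.pi : ℂ) * (v + 1 - i / M) = Real.pi * (v - i / M) + Real.pi := by ring
  rw [e1, e2, cos_add_pi, cos_add_pi]
  ring

theorem H3_add_one {M : ℕ} (n : ℕ) (v : ℂ) :
    H3 M n (v + 1) = exp (4 * Real.pi * I * M * v + 2 * Real.pi * I * M) * H3 M n v := by
  unfold H3
  have e1 : (Real.pi : ℂ) * (v + 1 - n / M) = Real.pi * (v - n / M) + Real.pi := by ring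
  have e1' : (Real.pi : ℂ) * (v + 1 - 1 / M) = Real.pi * (v - 1 / M) + Real.pi := by ring
  have e2 : exp (-(Real.pi * (v + 1) * I)) = -exp (-(Real.pi * v * I)) := by
    have : -(Real.pi * (v + 1) * I) = -(Real.pi * v * I) + -(Real.pi * I) := by ring
    rw [this, exp_add, exp_neg (Real.pi * I), exp_pi_mul_I]
    ring
  have e3 : gr 1 M (v + 1) = exp (4 * Real.pi * I * M * v + 2 * Real.pi * I * M) * gr 1 M v := by
    unfold gr
    rw [← exp_add]
    congr 1
    push_cast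
    ring
  rw [QQ_add_one, e1, e1', cos_add_pi, cos_add_pi, e2, e3]
  ring

theorem H3_v0 {M : ℕ} (hM : 0 < M) (n : ℕ) : H3 M n ((vl 1 M 0 : ℝ) : ℂ) = 0 := by
  have hM' : (M : ℂ) ≠ 0 := by exact_mod_cast hM.ne'
  have hc : cos (Real.pi * (-(1 / 2) - ((0 : ℕ) : ℂ) / M)) = 0 := by
    have : (Real.pi : ℂ) * (-(1 / 2) - ((0 : ℕ) : ℂ) / M) = -(Real.pi / 2) := by
      push_cast
      ring
    rw [this, cos_neg, cos_pi_div_two]
  have h : QQ M n ((vl 1 M 0 : ℝ) : ℂ) *
      (2 * cos (Real.pi * (((vl 1 M 0 : ℝ) : ℂ) - n / M))) = 0 := by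
    rw [w0_eq]
    rcases Nat.eq_zero_or_pos n with h0 | h0
    · rw [h0, hc]
      ring
    · have : QQ M n (-(1 / 2)) = 0 := by
        unfold QQ
        refine Finset.prod_eq_zero (Finset.mem_range.mpr h0) ?_
        rw [hc]
        ring
      rw [this, zero_mul]
  unfold H3
  rw [h, mul_zero]

theorem H3_bdy {M : ℕ} (hM : 0 < M) (n : ℕ) :
    deriv (H3 M n) (((vl 1 M 0 : ℝ) : ℂ) + 1) = deriv (H3 M n) ((vl 1 M 0 : ℝ) : ℂ) := by
  rw [← deriv_comp_add_const]
  have e : (fun v => H3 M n (v + 1)) =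
      fun v => exp (4 * Real.pi * I * M * v + 2 * Real.pi * I * M) * H3 M n v :=
    funext fun v => H3_add_one n v
  rw [e, deriv_fun_mul (by fun_prop) (H3_diff M n _), H3_v0 hM, mul_zero, zero_add]
  have : exp (4 * Real.pi * I * M * ((vl 1 M 0 : ℝ) : ℂ) + 2 * Real.pi * I * M) = 1 := by
    rw [w0_eq]
    have : 4 * (Real.pi : ℂ) * I * M * (-(1 / 2)) + 2 * Real.pi * I * M = 0 := by ring
    rw [this, exp_zero]
  rw [this, one_mul]

theorem O1_succ {M : ℕ} (hM : 0 < M) (n : ℕ) : O1 M (n + 1) = c3 M n * O1 M n := by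
  have h1 := gr_diff 1 M
  have h2 := QQ_diff M n
  have h3 := QQ_diff M (n + 1)
  have ht := tele1 hM (H3_diff M n) (H3_rec hM n)
  rw [H3_bdy hM, sub_self] at ht
  have hd : ∀ X ∈ Finset.range M, deriv (fun v =>
      gr 1 M v * (2 * sin (2 * Real.pi * v)) * QQ M (n + 1) v -
      c3 M n * (gr 1 M v * (2 * sin (2 * Real.pi * v)) * QQ M n v))
      ((vl 1 M X : ℝ) : ℂ) =
      deriv (fun v => gr 1 M v * (2 * sin (2 * Real.pi * v)) * QQ M (n + 1) v)
        ((vl 1 M X : ℝ) : ℂ) - c3 M n *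
      deriv (fun v => gr 1 M v * (2 * sin (2 * Real.pi * v)) * QQ M n v)
        ((vl 1 M X : ℝ) : ℂ) := by
    intro X _
    rw [deriv_fun_sub (by fun_prop) (by fun_prop), deriv_const_mul _ (by fun_prop)]
  have hsum := Finset.sum_congr rfl hd
  rw [Finset.sum_sub_distrib, ← Finset.mul_sum] at hsum
  unfold O1
  have := hsum.symm.trans ht
  linear_combination this

theorem O1_zero {M : ℕ} (hM : 0 < M) : O1 M 0 = -(4 * Real.pi * M * exp (Real.pi * M / 2 * I)) := by
  have hM' : (M : ℂ) ≠ 0 := by exact_mod_cast hM.ne'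
  have hH : Differentiable ℂ (fun v => -I * exp (-(Real.pi / (2 * M) * I)) *
      gr 1 M (v - 1 / (2 * M))) := by
    have h1 := gr_diff 1 M
    have h2 : Differentiable ℂ fun v => gr 1 M (v - 1 / (2 * M)) :=
      h1.comp (by fun_prop)
    fun_prop
  have hF : ∀ v, gr 1 M v * (2 * sin (2 * Real.pi * v)) * QQ M 0 v =
      (fun v => -I * exp (-(Real.pi / (2 * M) * I)) * gr 1 M (v - 1 / (2 * M))) (v + 1 / M) -
      (fun v => -I * exp (-(Real.pi / (2 * M) * I)) * gr 1 M (v - 1 / (2 * M))) v := by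
    intro v
    simp only
    rw [QQ_zero, mul_one, two_sin_eq, ← exp_neg]
    have g1 : gr 1 M (v + 1 / M - 1 / (2 * M)) = gr 1 M v * exp (2 * Real.pi * v * I) *
        exp (Real.pi / (2 * M) * I) := by
      unfold gr
      rw [← exp_add, ← exp_add]
      congr 1
      push_cast
      field_simp
      ring
    have g2 : gr 1 M (v - 1 / (2 * M)) = gr 1 M v * exp (-(2 * Real.pi * v * I)) *
        exp (Real.pi / (2 * M) * I) := by
      unfold gr
      rw [← exp_add, ← exp_add]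
      congr 1
      push_cast
      field_simp
      ring
    rw [g1, g2]
    have g3 : exp (-(Real.pi / (2 * M) * I)) * exp (Real.pi / (2 * M) * I) = 1 := by
      rw [← exp_add, neg_add_cancel, exp_zero]
    linear_combination (gr 1 M v * I * (exp (2 * Real.pi * v * I) -
      exp (-(2 * Real.pi * v * I)))) * g3
  have ht := tele1 hM hH hF
  unfold O1
  rw [ht]
  have hd : ∀ p, deriv (fun v => -I * exp (-(Real.pi / (2 * M) * I)) *
      gr 1 M (v - 1 / (2 * M))) p = -I * exp (-(Real.pi / (2 * M) * I)) *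
        (gr 1 M (p - 1 / (2 * M)) * (4 * Real.pi * I * M * (p - 1 / (2 * M)))) := by
    intro p
    have h2 := (gr_deriv 1 M (p - 1 / (2 * M))).comp_sub_const p (1 / (2 * (M : ℂ)))
    refine ((h2.const_mul _).congr_deriv ?_).deriv
    push_cast
    ring
  rw [hd, hd, w0_eq]
  have g1 : gr 1 M (-(1 / 2) + 1 - 1 / (2 * M)) =
      -(exp (Real.pi * M / 2 * I) * exp (Real.pi / (2 * M) * I)) := by
    have e : -(exp (Real.pi * M / 2 * I) * exp (Real.pi / (2 * M) * I)) =
        exp (Real.pi * M / 2 * I + Real.pi / (2 * M) * I + -(Real.pi * I)) := by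
      rw [exp_add, exp_add, exp_neg_pi_mul_I]
      ring
    rw [e]
    unfold gr
    congr 1
    push_cast
    field_simp
    ring
  have g2 : gr 1 M (-(1 / 2) - 1 / (2 * M)) =
      -(exp (Real.pi * M / 2 * I) * exp (Real.pi / (2 * M) * I)) := by
    have e : -(exp (Real.pi * M / 2 * I) * exp (Real.pi / (2 * M) * I)) =
        exp (Real.pi * M / 2 * I + Real.pi / (2 * M) * I + Real.pi * I) := by
      rw [exp_add, exp_add, exp_pi_mul_I]
      ring
    rw [e]
    unfold gr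
    congr 1
    push_cast
    field_simp
    ring
  have g3 : exp (-(Real.pi / (2 * M) * I)) * exp (Real.pi / (2 * M) * I) = 1 := by
    rw [← exp_add, neg_add_cancel, exp_zero]
  rw [g1, g2]
  linear_combination (4 * Real.pi * M * I ^ 2 * exp (Real.pi * M / 2 * I)) * g3 +
    (4 * Real.pi * M * exp (Real.pi * M / 2 * I)) * I_sq

/-- The closed form of the one-slot sums at the integer lattice. -/
theorem O1_eq {M : ℕ} (hM : 0 < M) (n : ℕ) : O1 M n = -(4 * Real.pi * M * ((S M n : ℝ) : ℂ) *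
    exp (Real.pi * I * ((M + n) / 2 + (((n : ℂ) - 1) ^ 2 - n - 1) / (2 * M)))) := by
  have hM' : (M : ℂ) ≠ 0 := by exact_mod_cast hM.ne'
  induction n with
  | zero =>
    rw [O1_zero hM, S_zero]
    push_cast
    rw [show (Real.pi : ℂ) * M / 2 * I =
      Real.pi * I * ((M + 0) / 2 + ((0 - 1) ^ 2 - 0 - 1) / (2 * M)) by ring]
    ring
  | succ n ih =>
    rw [O1_succ hM, ih, S_succ, c3]
    have e : exp (Real.pi * I * ((M + ((n + 1 : ℕ) : ℂ)) / 2 +
        ((((n + 1 : ℕ) : ℂ) - 1) ^ 2 - ((n + 1 : ℕ) : ℂ) - 1) / (2 * M))) =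
        exp (Real.pi * I * ((M + n) / 2 + (((n : ℂ) - 1) ^ 2 - n - 1) / (2 * M))) *
        (I * exp (Real.pi * ((n : ℂ) - 1) / M * I)) := by
      rw [I_mul_exp, ← exp_add]
      congr 1
      push_cast
      field_simp
      ring
    rw [e]
    push_cast
    ring

/-! ### The two-slot sums -/

/-- The two-slot sums, `d = 0` or `d = 1`. -/
noncomputable def Y (d M a b : ℕ) : ℂ := ∑ X ∈ Finset.range M,
  deriv (fun v => gr 1 M v * (2 * sin (2 * Real.pi * v)) * (Wd M (2 * a + d) v *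
    Wd M (2 * b + d) v)) ((vl (2 - d) M X : ℝ) : ℂ)

theorem Y_rec (d M a b : ℕ) : Y d M (a + 1) b = Y d M a (b + 1) +
    (2 * cos (Real.pi * (2 * a + d + 1) / M) - 2 * cos (Real.pi * (2 * b + d + 1) / M)) *
      Y d M a b := by
  unfold Y
  rw [Finset.mul_sum, ← Finset.sum_add_distrib]
  refine Finset.sum_congr rfl fun X _ => ?_
  have dd : ∀ n n' : ℕ, Differentiable ℂ
      (fun v => gr 1 M v * (2 * sin (2 * Real.pi * v)) * (Wd M n v * Wd M n' v)) := by
    intro n n'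
    have h1 := gr_diff 1 M
    have h2 := Wd_diff M n
    have h3 := Wd_diff M n'
    fun_prop
  rw [← deriv_const_mul _ (dd _ _ _), ← deriv_fun_add (dd _ _ _) ((dd _ _ _).const_mul _)]
  congr 1
  funext v
  rw [show 2 * (a + 1) + d = 2 * a + d + 2 by ring, show 2 * (b + 1) + d = 2 * b + d + 2 by ring,
    Wd_add_two, Wd_add_two]
  push_cast
  ring

/-- The closed form. -/
noncomputable def Z (d M a b : ℕ) : ℂ := (-1) ^ d * (4 * Real.pi * M) *
  ((S M (a + b + d) : ℝ) : ℂ) * exp (Real.pi * I * ((M + (a + b + d)) / 2 +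
    (((b : ℂ) - a) ^ 2 - (a + b + d) - 1) / (2 * M)))

theorem Z_rec {M : ℕ} (hM : 0 < M) (d a b : ℕ) : Z d M (a + 1) b = Z d M a (b + 1) +
    (2 * cos (Real.pi * (2 * a + d + 1) / M) - 2 * cos (Real.pi * (2 * b + d + 1) / M)) *
      Z d M a b := by
  have hM' : (M : ℂ) ≠ 0 := by exact_mod_cast hM.ne'
  unfold Z
  have s1 : S M (a + 1 + b + d) = S M (a + b + d) * sg M (a + b + d + 1) := by
    rw [show a + 1 + b + d = a + b + d + 1 by ring, S_succ]
  have s2 : S M (a + (b + 1) + d) = S M (a + b + d) * sg M (a + b + d + 1) := by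
    rw [show a + (b + 1) + d = a + b + d + 1 by ring, S_succ]
  rw [s1, s2, ofReal_mul, sg_cast, two_sin_eq]
  set E : ℂ := exp (Real.pi * I * ((M + (a + b + d)) / 2 +
    (((b : ℂ) - a) ^ 2 - (a + b + d) - 1) / (2 * M))) with hE
  set y : ℂ := exp (Real.pi * ((a + b + d + 1 : ℕ) : ℂ) / M * I) with hy
  set t : ℂ := exp (Real.pi * ((b : ℂ) - a) / M * I) with ht
  have y0 : y ≠ 0 := exp_ne_zero _
  have t0 : t ≠ 0 := exp_ne_zero _
  have e1 : exp (Real.pi * I * ((M + (((a + 1 : ℕ) : ℂ) + b + d)) / 2 +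
      (((b : ℂ) - ((a + 1 : ℕ) : ℂ)) ^ 2 - (((a + 1 : ℕ) : ℂ) + b + d) - 1) / (2 * M))) =
      E * (I * t⁻¹) := by
    rw [ht, ← exp_neg, I_mul_exp, hE, ← exp_add]
    congr 1
    push_cast
    field_simp
    ring
  have e2 : exp (Real.pi * I * ((M + ((a : ℂ) + ((b + 1 : ℕ) : ℂ) + d)) / 2 +
      ((((b + 1 : ℕ) : ℂ) - a) ^ 2 - ((a : ℂ) + ((b + 1 : ℕ) : ℂ) + d) - 1) / (2 * M))) =
      E * (I * t) := by
    rw [ht, I_mul_exp, hE, ← exp_add]
    congr 1
    push_cast
    field_simp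
    ring
  have e3 : 2 * cos (Real.pi * (2 * a + d + 1) / M) = y * t⁻¹ + (y * t⁻¹)⁻¹ := by
    rw [two_cos_eq]
    have : exp ((Real.pi : ℂ) * (2 * a + d + 1) / M * I) = y * t⁻¹ := by
      rw [hy, ht, ← exp_neg, ← exp_add]
      congr 1
      push_cast
      field_simp
      ring
    rw [this]
  have e4 : 2 * cos (Real.pi * (2 * b + d + 1) / M) = y * t + (y * t)⁻¹ := by
    rw [two_cos_eq]
    have : exp ((Real.pi : ℂ) * (2 * b + d + 1) / M * I) = y * t := by
      rw [hy, ht, ← exp_add]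
      congr 1
      push_cast
      field_simp
      ring
    rw [this]
  rw [e1, e2, e3, e4]
  field_simp
  rw [I_sq]
  ring

theorem Y_eq {M : ℕ} (hM : 0 < M) {d : ℕ} (hd : d < 2) (a b : ℕ) : Y d M a b = Z d M a b := by
  have hM' : (M : ℂ) ≠ 0 := by exact_mod_cast hM.ne'
  induction a generalizing b with
  | zero =>
    interval_cases d
    · have e : Y 0 M 0 b = E1 1 M b := by
        unfold Y E1
        refine Finset.sum_congr rfl fun X _ => ?_
        congr 1
        funext v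
        rw [mul_zero, add_zero, add_zero, Wd_zero, Wd_two, one_mul]
      rw [e, E1_one hM, Z]
      have e2 : exp (Real.pi * I * ((M + (((0 : ℕ) : ℂ) + b + ((0 : ℕ) : ℂ))) / 2 +
          (((b : ℂ) - ((0 : ℕ) : ℂ)) ^ 2 - (((0 : ℕ) : ℂ) + b + ((0 : ℕ) : ℂ)) - 1) / (2 * M))) =
          exp (Real.pi * M / 2 * I - Real.pi / (2 * M) * I) * I ^ b *
            exp (Real.pi * b * (b - 1) / (2 * M) * I) := by
        have e3 : I ^ b = exp (b * (Real.pi / 2 * I)) := by
          rw [exp_nat_mul, exp_pi_div_two_mul_I]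
        rw [e3, ← exp_add, ← exp_add]
        congr 1
        push_cast
        field_simp
        ring
      rw [e2]
      simp only [zero_add, add_zero]
      ring
    · have e : Y 1 M 0 b = O1 M (b + 1) := by
        unfold Y O1
        refine Finset.sum_congr rfl fun X _ => ?_
        congr 1
        funext v
        rw [mul_zero, zero_add, QQ_Wd]
      rw [e, O1_eq hM, Z]
      have e2 : exp (Real.pi * I * ((M + (((0 : ℕ) : ℂ) + b + ((1 : ℕ) : ℂ))) / 2 +
          (((b : ℂ) - ((0 : ℕ) : ℂ)) ^ 2 - (((0 : ℕ) : ℂ) + b + ((1 : ℕ) : ℂ)) - 1) / (2 * M))) =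
          exp (Real.pi * I * ((M + ((b + 1 : ℕ) : ℂ)) / 2 +
            ((((b + 1 : ℕ) : ℂ) - 1) ^ 2 - ((b + 1 : ℕ) : ℂ) - 1) / (2 * M))) := by
        congr 1
        push_cast
        ring
      rw [e2, zero_add]
      ring
  | succ a ih => rw [Y_rec, ih, ih, ← Z_rec hM]

end Pool.Agent.S4.Cl4
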