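import Pool.Agent.S4.G.Defs
import Pool.Agent.S4.G.ClA

/-!
# Closed ends
-/

set_option autoImplicit false

namespace Pool.Agent.S4

open Pool.Agent.H63.VC hiding ext
open Pool.Agent.H63.VC3 Pool.Agent.H63.VC7 Pool.Agent.H25.RK Pool.Agent.S3 Pool.Agent.H63.GO
open Complex Filter Topology MeasureTheory
open scoped BigOperators Interval

variable {m : ℕ} {n h : ℕ}

namespace Cl4

/-! ### The mirror image -/

theorem Wd_conj (M d : ℕ) (v : ℂ) : Wd M d ((starRingEnd ℂ) v) = (starRingEnd ℂ) (Wd M d v) := by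
  unfold Wd
  rw [map_prod]
  refine Finset.prod_congr rfl fun i _ => ?_
  simp only [map_mul, map_add, map_sub, map_div₀, map_one, map_natCast, map_ofNat, conj_ofReal,
    ← cos_conj]

theorem q4_conj (M d t : ℕ) (v : ℂ) :
    q4 M d t ((starRingEnd ℂ) v) = (starRingEnd ℂ) (q4 M d t v) := by
  unfold q4
  rw [map_mul, map_prod, map_div₀, map_one, map_natCast]
  congr 1
  refine Finset.prod_congr rfl fun i _ => ?_
  simp only [map_mul, map_add, map_sub, map_div₀, map_one, map_natCast, map_ofNat, conj_ofReal,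
    ← cos_conj]

theorem pre_conj (n h M : ℕ) (P : Bool) (c : ℕ) (v : ℂ) :
    pre n h M P c ((starRingEnd ℂ) v) = (starRingEnd ℂ) (pre n h M P c v) := by
  unfold pre
  split_ifs
  · rw [map_mul, Wd_conj, Wd_conj]
  · rw [map_mul, map_pow, map_pow, Wd_conj, Wd_conj]

theorem NT4_conj (r : ℝ) (n h M : ℕ) (P : Bool) (c : ℕ) (A : Finset (Fin m)) (k : Fin m → ℕ)
    (v : ℂ) : NT4 (-r) n h M P c A k v =
      (starRingEnd ℂ) (NT4 r n h M P c A k ((starRingEnd ℂ) v)) := by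
  unfold NT4
  rw [map_mul, map_mul, map_mul, map_mul, map_prod, ← exp_conj, ← sin_conj]
  simp only [map_mul, map_pow, conj_ofReal, conj_I, map_natCast, map_ofNat, conj_conj, q4_conj,
    pre_conj]
  push_cast
  have e : 2 * (Real.pi : ℂ) * I * -r * M * v ^ 2 = 2 * Real.pi * -I * r * M * v ^ 2 := by ring
  rw [e]

theorem DG4_neg (r : ℝ) (n h M : ℕ) (P : Bool) (c : ℕ) (A : Finset (Fin m)) (k : Fin m → ℕ) :
    DG4 (-r) n h M P c A k = (starRingEnd ℂ) (DG4 r n h M P c A k) := by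
  unfold DG4
  rw [map_sum]
  refine Finset.sum_congr rfl fun X _ => ?_
  have e : NT4 (-r) n h M P c A k = (starRingEnd ℂ) ∘ NT4 r n h M P c A k ∘ (starRingEnd ℂ) :=
    funext fun v => NT4_conj r n h M P c A k v
  rw [e, deriv_conj_conj, Function.comp_apply, Function.comp_apply, conj_ofReal]

/-! ### The extension of the sums -/

theorem ext_sum {M a δ : ℕ} (f : ℕ → ℂ) (hM : 2 * a + δ ≤ M) (h0 : ∀ Y < a + δ, f Y = 0)
    (h1 : ∀ Y, M - a ≤ Y → Y < M → f Y = 0) :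
    ∑ Y ∈ Finset.range M, f Y = ∑ X ∈ Finset.range (M - (2 * a + δ)), f (X + (a + δ)) := by
  have e1 : ∑ Y ∈ Finset.range M, f Y = ∑ Y ∈ Finset.Ico (a + δ) (M - a), f Y := by
    symm
    apply Finset.sum_subset
    · intro x hx
      rw [Finset.mem_Ico] at hx
      rw [Finset.mem_range]
      omega
    · intro x hx hx'
      rw [Finset.mem_range] at hx
      rw [Finset.mem_Ico] at hx'
      by_cases c : x < a + δ
      · exact h0 x c
      · exact h1 x (by omega) hx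
  rw [e1, Finset.sum_Ico_eq_sum_range]
  have e2 : M - a - (a + δ) = M - (2 * a + δ) := by omega
  rw [e2]
  exact Finset.sum_congr rfl fun X _ => by rw [add_comm]

theorem Wd_van {M c δ Y : ℕ} (hM : 0 < M) (hδ : δ < 2) (hY : Y < M)
    (h : Y < c + δ ∨ M - c ≤ Y) : Wd M (2 * c + δ) ((vl (2 - δ) M Y : ℝ) : ℂ) = 0 := by
  have hM' : (M : ℂ) ≠ 0 := by exact_mod_cast hM.ne'
  obtain ⟨j, hj, x, hx, hx'⟩ : ∃ j < 2 * c + δ, ∃ x : ℕ, (x = 0 ∨ x = M) ∧
      Y + j + 1 = x + c + δ := by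
    rcases h with h | h
    · exact ⟨c + δ - 1 - Y, by omega, 0, Or.inl rfl, by omega⟩
    · exact ⟨M + c + δ - 1 - Y, by omega, M, Or.inr rfl, by omega⟩
  unfold Wd
  refine Finset.prod_eq_zero (Finset.mem_range.mpr hj) ?_
  have e : (Real.pi : ℂ) * (((vl (2 - δ) M Y : ℝ) : ℂ) +
      ((j : ℂ) + 1 / 2 - ((2 * c + δ : ℕ) : ℂ) / 2) / M) = Real.pi * (x / M) - Real.pi / 2 := by
    have c1 : (Y : ℂ) = x + c + δ - j - 1 := by
      have : (Y : ℂ) + j + 1 = x + c + δ := by exact_mod_cast hx'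
      linear_combination this
    unfold vl bt
    rw [Nat.cast_sub (by omega)]
    push_cast
    rw [c1]
    field_simp
    ring
  rw [e, cos_sub_pi_div_two]
  rcases hx with h | h
  · rw [h, Nat.cast_zero, zero_div, mul_zero, sin_zero, mul_zero]
  · rw [h, div_self hM', mul_one, sin_pi, mul_zero]

theorem deriv_van {F G H : ℂ → ℂ} (hF : Differentiable ℂ F) (hG : Differentiable ℂ G)
    (hH : Differentiable ℂ H) {v : ℂ} (g : G v = 0) (h : H v = 0) :
    deriv (fun v => F v * (G v * H v)) v = 0 := by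
  rw [deriv_fun_mul (hF v) (by fun_prop), deriv_fun_mul (hG v) (hH v), g, h]
  ring

theorem vl_eq {M a δ X : ℕ} (hδ : δ < 2) :
    vl (2 * a + δ + 2) M X = vl (2 - δ) M (X + (a + δ)) := by
  unfold vl bt
  rw [Nat.cast_sub (by omega)]
  push_cast
  ring

theorem S_t {M κ : ℕ} (h0 : n - 2 ≤ κ) (h1 : κ < M) :
    S M (n - 2 + (M - 1 - κ)) = M / S M (κ - (n - 2)) := by
  rw [← S_inv (by omega)]
  congr 1
  omega

/-! ### The sums -/

theorem DG4_true (hn : 2 ≤ n) (hh : 1 ≤ h) (hh' : 2 * h ≤ n) (c : ℕ) {M κ : ℕ}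
    (h0 : n - 2 ≤ κ) (h1 : κ < M) (j : Fin m) (k : Fin m → ℕ) (hk : k j = κ - (n - 2)) :
    DG4 (1 : ℝ) n h M true c {j} k = 1 / M * Y 0 M (h - 1) (n - h - 1 + (M - 1 - κ)) := by
  unfold DG4 Y
  rw [Finset.mul_sum]
  have e0 : nn n true = 2 - 0 := rfl
  have e1 : M + 2 - (2 - 0) = M := by omega
  rw [e0, e1]
  refine Finset.sum_congr rfl fun X _ => ?_
  have d1 := gr_diff 1 M
  have d2 := Wd_diff M (2 * (h - 1) + 0)
  have d3 := Wd_diff M (2 * (n - h - 1 + (M - 1 - κ)) + 0)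
  rw [← deriv_const_mul _ (by fun_prop)]
  congr 1
  funext v
  have q := Wd_q4 M (2 * (n - h) - 2) (M - 1 - κ) v
  have e2 : M + 1 - n - (κ - (n - 2)) = M - 1 - κ := by omega
  have e3 : 2 * h - 2 = 2 * (h - 1) + 0 := by omega
  have e4 : 2 * (n - h) - 2 + 2 * (M - 1 - κ) = 2 * (n - h - 1 + (M - 1 - κ)) + 0 := by omega
  rw [e4] at q
  unfold NT4 pre dd
  rw [Finset.prod_singleton, hk, e2, if_pos rfl, if_pos rfl, e3]
  unfold gr
  linear_combination exp (2 * Real.pi * I * ((1 : ℝ) : ℂ) * M * v ^ 2) *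
    (2 * sin (2 * Real.pi * v)) * Wd M (2 * (h - 1) + 0) v * q

theorem DG4_false {a δ : ℕ} (hδ : δ < 2) {M κ : ℕ} (h0 : 2 * a + δ ≤ κ) (h1 : κ < M) (j : Fin m)
    (k : Fin m → ℕ) (hk : k j = κ - (2 * a + δ)) :
    DG4 (1 : ℝ) (2 * a + δ + 2) h M false 0 {j} k = 1 / M * Y δ M a (a + (M - 1 - κ)) := by
  have hM : 0 < M := by omega
  have d1 := gr_diff 1 M
  have d2 := Wd_diff M (2 * a + δ)
  have d3 := Wd_diff M (2 * (a + (M - 1 - κ)) + δ)
  have d4 : Differentiable ℂ fun v => gr 1 M v * (2 * sin (2 * Real.pi * v)) := by fun_prop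
  unfold Y
  rw [ext_sum (a := a) (δ := δ) _ (by omega)]
  · unfold DG4
    rw [Finset.mul_sum]
    have e0 : nn (2 * a + δ + 2) false = 2 * a + δ + 2 := rfl
    have e1 : M + 2 - (2 * a + δ + 2) = M - (2 * a + δ) := by omega
    rw [e0, e1]
    refine Finset.sum_congr rfl fun X _ => ?_
    rw [← deriv_const_mul _ (by fun_prop), vl_eq hδ]
    congr 1
    funext v
    have q := Wd_q4 M (2 * a + δ) (M - 1 - κ) v
    have e2 : M + 1 - (2 * a + δ + 2) - (κ - (2 * a + δ)) = M - 1 - κ := by omega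
    have e4 : 2 * a + δ + 2 * (M - 1 - κ) = 2 * (a + (M - 1 - κ)) + δ := by omega
    have e5 : 2 * a + δ + 2 - 2 = 2 * a + δ := by omega
    rw [e4] at q
    unfold NT4 pre dd
    rw [Finset.prod_singleton, hk, e2, if_neg (by simp), if_neg (by simp), e5, pow_zero]
    unfold gr
    linear_combination exp (2 * Real.pi * I * ((1 : ℝ) : ℂ) * M * v ^ 2) *
      (2 * sin (2 * Real.pi * v)) * Wd M (2 * a + δ) v * q
  · intro Y hY
    exact deriv_van d4 d2 d3 (Wd_van hM hδ (by omega) (Or.inl hY))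
      (Wd_van hM hδ (by omega) (Or.inl (by omega)))
  · intro Y hY hY'
    exact deriv_van d4 d2 d3 (Wd_van hM hδ hY' (Or.inr hY))
      (Wd_van hM hδ hY' (Or.inr (by omega)))

theorem DG4_one (hn : 2 ≤ n) (hh : 1 ≤ h) (hh' : 2 * h ≤ n) (P : Bool) (c : ℕ)
    (hc : P = false → c = 0) {M κ : ℕ} (h0 : n - 2 ≤ κ)
    (h1 : κ < M) (j : Fin m) (k : Fin m → ℕ) (hk : k j = κ - (n - 2)) :
    DG4 (1 : ℝ) n h M P c {j} k = 4 * Real.pi * M *
      exp (Real.pi * I * ph4 n h M P ((M - 1 - κ : ℕ) : ℂ)) / S M (κ - (n - 2)) := by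
  have hM : 0 < M := by omega
  have hM' : (M : ℂ) ≠ 0 := by exact_mod_cast hM.ne'
  have s1 : ((S M (κ - (n - 2)) : ℝ) : ℂ) ≠ 0 := by exact_mod_cast (S_pos (by omega)).ne'
  have hS := S_t (n := n) h0 h1
  cases P with
  | true =>
    rw [DG4_true hn hh hh' c h0 h1 j k hk, Y_eq hM (by norm_num)]
    have c1 : ((h - 1 : ℕ) : ℂ) = h - 1 := by rw [Nat.cast_sub hh, Nat.cast_one]
    have c2 : ((n - h - 1 + (M - 1 - κ) : ℕ) : ℂ) = n - h - 1 + ((M - 1 - κ : ℕ) : ℂ) := by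
      rw [Nat.cast_add, Nat.cast_sub (by omega), Nat.cast_sub (by omega), Nat.cast_one]
    have e1 : h - 1 + (n - h - 1 + (M - 1 - κ)) + 0 = n - 2 + (M - 1 - κ) := by omega
    unfold Z
    rw [e1, hS, c1, c2]
    have e2 : (Real.pi : ℂ) * I * ((M + ((h : ℂ) - 1 + (n - h - 1 + ((M - 1 - κ : ℕ) : ℂ)) +
        ((0 : ℕ) : ℂ))) / 2 + ((n - h - 1 + ((M - 1 - κ : ℕ) : ℂ) - ((h : ℂ) - 1)) ^ 2 -
        ((h : ℂ) - 1 + (n - h - 1 + ((M - 1 - κ : ℕ) : ℂ)) + ((0 : ℕ) : ℂ)) - 1) / (2 * M)) =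
        Real.pi * I * ph4 n h M true ((M - 1 - κ : ℕ) : ℂ) := by
      unfold ph4
      rw [if_pos rfl, if_pos rfl, Nat.cast_zero]
      ring
    rw [e2, ofReal_div, ofReal_natCast]
    field_simp
  | false =>
    obtain ⟨a, δ, hδ, rfl⟩ : ∃ a δ, δ < 2 ∧ n = 2 * a + δ + 2 :=
      ⟨(n - 2) / 2, (n - 2) % 2, Nat.mod_lt _ (by norm_num), by omega⟩
    have e5 : 2 * a + δ + 2 - 2 = 2 * a + δ := by omega
    rw [e5] at h0 hk hS s1 ⊢
    rw [hc rfl, DG4_false hδ h0 h1 j k hk, Y_eq hM hδ]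
    have e1 : a + (a + (M - 1 - κ)) + δ = 2 * a + δ + (M - 1 - κ) := by omega
    unfold Z
    rw [e1, hS, ofReal_div, ofReal_natCast]
    have e2 : exp (Real.pi * I * ph4 (2 * a + δ + 2) h M false ((M - 1 - κ : ℕ) : ℂ)) =
        (-1) ^ δ * exp (Real.pi * I * ((M + ((a : ℂ) + ((a + (M - 1 - κ) : ℕ) : ℂ) + (δ : ℂ))) / 2 +
        ((((a + (M - 1 - κ) : ℕ) : ℂ) - (a : ℂ)) ^ 2 -
        ((a : ℂ) + ((a + (M - 1 - κ) : ℕ) : ℂ) + (δ : ℂ)) - 1) / (2 * M))) := by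
      have e3 : (-1 : ℂ) ^ δ = exp (Real.pi * ((2 * a + δ + 2 : ℕ) : ℂ) * I) := by
        rw [exp_nat_pi, show 2 * a + δ + 2 = δ + 2 * (a + 1) by ring, pow_add, pow_mul]
        norm_num
      rw [e3, ← exp_add]
      congr 1
      unfold ph4
      rw [if_neg (by simp), if_neg (by simp)]
      push_cast
      ring
    rw [e2]
    field_simp

theorem ph4_conj (n h M : ℕ) (P : Bool) (t : ℕ) :
    (starRingEnd ℂ) (ph4 n h M P (t : ℂ)) = ph4 n h M P (t : ℂ) := by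
  unfold ph4
  split_ifs <;>
  simp only [map_mul, map_add, map_sub, map_div₀, map_one, map_zero, map_pow, map_natCast,
    map_ofNat]

end Cl4

open Cl4

/-- The closed form of the factor of an end with two half twists. -/
theorem DG4_cl (hn : 2 ≤ n) (hh : 1 ≤ h) (hh' : 2 * h ≤ n) (P : Bool) (c : ℕ)
    (hc : P = false → c = 0) {s : ℤ} (hs : s = 1 ∨ s = -1) {M κ : ℕ} (h0 : n - 2 ≤ κ)
    (h1 : κ < M) (j : Fin m) (k : Fin m → ℕ) (hk : k j = κ - (n - 2)) :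
    DG4 (s : ℝ) n h M P c {j} k = sk4 n h M P κ (.cl s) := by
  have k1 := DG4_one hn hh hh' P c hc h0 h1 j k hk
  have e : sk4 n h M P κ (.cl s) = 4 * Real.pi * M *
      exp (Real.pi * I * s * ph4 n h M P ((M - 1 - κ : ℕ) : ℂ)) / S M (κ - (n - 2)) := rfl
  rw [e]
  rcases hs with hs | hs
  · rw [hs, Int.cast_one, k1, Int.cast_one, mul_one]
  · rw [hs]
    push_cast
    rw [DG4_neg, k1, map_div₀, map_mul, map_mul, map_mul, ← exp_conj, map_mul, map_mul, ph4_conj,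
      conj_ofReal, conj_ofReal, conj_I, map_natCast, map_ofNat]
    congr 3
    ring

end Pool.Agent.S4
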