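import Pool.Agent.S3.Ctr

/-!
# Sums of derivatives of an odd function over a lattice as contour integrals
-/

set_option autoImplicit false

namespace Pool.Agent.S4

open Pool.Agent.H63.VC hiding ext
open Pool.Agent.H63.VC3 Pool.Agent.H63.VC7 Pool.Agent.H25.RK Pool.Agent.S3
open Complex Filter Topology MeasureTheory
open scoped BigOperators Interval

private theorem ww_diff' (b M : ℕ) : Differentiable ℂ (ww b M) := by
  unfold ww
  fun_prop

private theorem om_diff' {b M : ℕ} {v : ℂ} (h : ww b M v ≠ 1) : DifferentiableAt ℂ (om b M) v := by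
  unfold om
  refine DifferentiableAt.div (ww_diff' b M v) (((ww_diff' b M v)).const_sub 1 |>.pow 2) ?_
  exact pow_ne_zero 2 (sub_ne_zero.mpr h.symm)

private theorem ww_ne_one' (b : ℕ) {M : ℕ} (hM : 0 < M) {v : ℂ} (hv : 0 < v.im) :
    ww b M v ≠ 1 := by
  intro h
  have h1 := norm_ww b M v
  rw [h, norm_one] at h1
  have hM' : (0 : ℝ) < M := by exact_mod_cast hM
  have hpi := Real.pi_pos
  have h2 : Real.exp (-(2 * Real.pi * M * v.im)) < 1 := by
    rw [Real.exp_lt_one_iff]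
    have : 0 < 2 * Real.pi * M * v.im := by positivity
    linarith
  linarith

/-- The lattice of `n = 2`. -/
theorem sum_ctr2 {G : ℂ → ℂ} (hG : Differentiable ℂ G) (hodd : ∀ z, G (-z) = -G z) {M : ℕ}
    (hM : 0 < M) {γ γ' : ℝ → ℂ} (hγ : Ctr γ γ') :
    Integrable (fun x => G (γ x) * om 2 M (γ x) * γ' x) ∧
    ∑ l ∈ Finset.Icc 0 (M - 1), deriv G ((vl 2 M l : ℝ) : ℂ) = -(4 * Real.pi * I) * M ^ 2 *
      ∫ x, G (γ x) * om 2 M (γ x) * γ' x := by
  have d0 : ∀ z ∈ Hp, DifferentiableAt ℂ (fun v => G v * om 2 M v) z := fun z hz =>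
    (hG z).mul (om_diff' (ww_ne_one' 2 hM hz))
  have d1 : DifferentiableAt ℂ (fun v => G v * om 2 M v) (1 / 2) :=
    (hG _).mul (om_diff' (by rw [ww_half]; norm_num))
  have d2 : DifferentiableAt ℂ (fun v => G v * om 2 M v) (-1 / 2) :=
    (hG _).mul (om_diff' (by rw [ww_neg_half]; norm_num))
  have hi : Integrable (fun x => G (γ x) * om 2 M (γ x) * γ' x) :=
    hγ.integrable (F := fun v => G v * om 2 M v) d0 d1 d2
  refine ⟨hi, ?_⟩
  rw [int_ctr (F := fun v => G v * om 2 M v) d0 d1 d2 hγ hi one_pos]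
  exact sum_l G 2 M 0 (M - 1) 1 hM (by omega) (by norm_num) (Nat.zero_le _) one_pos
    (1 / 2) (by
      have hM' : (M : ℝ) ≠ 0 := by exact_mod_cast hM.ne'
      rw [Nat.cast_sub hM, bt]
      push_cast
      field_simp
      ring) (fun z _ _ => hG z) hodd

/-! ### The lattice of `n = 3` -/

/-- `sin (M π (v + 1/2)) / cos (π v)` -/
private noncomputable def Dq (M : ℕ) (v : ℂ) : ℂ :=
  (Polynomial.Chebyshev.U ℂ ((M : ℤ) - 1)).eval (cos (Real.pi * (v + 1 / 2)))

private theorem Dq_diff (M : ℕ) : Differentiable ℂ (Dq M) := by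
  have h1 : Differentiable ℂ (fun v : ℂ => cos ((Real.pi : ℂ) * (v + 1 / 2))) := by fun_prop
  have h2 : Differentiable ℂ
      (fun x : ℂ => (Polynomial.Chebyshev.U ℂ ((M : ℤ) - 1)).eval x) :=
    Polynomial.differentiable _
  exact h2.comp h1

private theorem Dq_mul (M : ℕ) (v : ℂ) :
    Dq M v * cos (Real.pi * v) = sin (M * (Real.pi * (v + 1 / 2))) := by
  have h1 := Polynomial.Chebyshev.U_complex_cos (Real.pi * (v + 1 / 2)) ((M : ℤ) - 1)
  have e1 : sin (Real.pi * (v + 1 / 2)) = cos (Real.pi * v) := by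
    rw [show (Real.pi : ℂ) * (v + 1 / 2) = Real.pi * v + Real.pi / 2 by ring,
      Complex.sin_add_pi_div_two]
  rw [e1] at h1
  rw [Dq, h1]
  congr 1
  push_cast
  ring

private theorem Dq_half {M : ℕ} (hM : 0 < M) : Dq M (1 / 2) ≠ 0 := by
  have e : cos ((Real.pi : ℂ) * (1 / 2 + 1 / 2)) = -1 := by
    rw [show (Real.pi : ℂ) * (1 / 2 + 1 / 2) = Real.pi by ring, Complex.cos_pi]
  rw [Dq, e, Polynomial.Chebyshev.U_eval_neg_one]
  have h1 : ((((M : ℤ) - 1 : ℤ) : ℂ) + 1) ≠ 0 := by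
    push_cast
    rw [sub_add_cancel]
    exact_mod_cast hM.ne'
  refine mul_ne_zero ?_ h1
  rcases Int.even_or_odd ((M : ℤ) - 1) with h | h
  · rw [Int.negOnePow_even _ h]; simp
  · rw [Int.negOnePow_odd _ h]; simp

private theorem Dq_neg_half {M : ℕ} (hM : 0 < M) : Dq M (-1 / 2) ≠ 0 := by
  have e : cos ((Real.pi : ℂ) * (-1 / 2 + 1 / 2)) = 1 := by
    rw [show (Real.pi : ℂ) * (-1 / 2 + 1 / 2) = 0 by ring, Complex.cos_zero]
  rw [Dq, e, Polynomial.Chebyshev.U_eval_one]
  push_cast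
  rw [sub_add_cancel]
  exact_mod_cast hM.ne'

private theorem om3_eq (M : ℕ) (v : ℂ) :
    om 3 M v = -(1 / (4 * sin (M * (Real.pi * (v + 1 / 2))) ^ 2)) := by
  obtain ⟨ψ, hψ⟩ : ∃ ψ : ℂ, ψ = M * (Real.pi * (v + 1 / 2)) := ⟨_, rfl⟩
  have hw : ww 3 M v = exp (ψ * I) ^ 2 := by
    have e : 2 * (Real.pi : ℂ) * I * (M * (v + 1 / 2) - (bt 3 : ℝ)) =
        2 * (ψ * I) - 2 * Real.pi * I := by
      rw [hψ, bt]
      push_cast
      ring
    rw [ww, e, Complex.exp_sub, Complex.exp_two_pi_mul_I, div_one, ← Complex.exp_nat_mul]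
    norm_num
  have hE : exp (ψ * I) ≠ 0 := Complex.exp_ne_zero _
  have hs : 1 - exp (ψ * I) ^ 2 = -(2 * I * sin ψ) * exp (ψ * I) := by
    have h1 : sin ψ = (exp (-ψ * I) - exp (ψ * I)) * I / 2 := rfl
    have h2 : exp (-ψ * I) = (exp (ψ * I))⁻¹ := by
      rw [← Complex.exp_neg]; congr 1; ring
    rw [h1, h2]
    field_simp
    ring_nf
    rw [Complex.I_sq]
    ring
  rw [om, hw, hs, ← hψ]
  rcases eq_or_ne (sin ψ) 0 with h0 | h0
  · rw [h0]; simp
  · have : (-(2 * I * sin ψ) * exp (ψ * I)) ^ 2 = -(4 * sin ψ ^ 2) * exp (ψ * I) ^ 2 := by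
      ring_nf
      rw [Complex.I_sq]
      ring
    rw [this]
    field_simp

/-- The extension of the path. -/
private theorem Path_ext {F : ℂ → ℂ} {ρ Y : ℝ} (h0 : 0 < ρ) (h1 : ρ ≤ 1 / 2) (hY : 0 < Y)
    (hF : ∀ z ∈ Hp, DifferentiableAt ℂ F z)
    (hR : ∀ z : ℂ, ρ ≤ z.re → z.re ≤ 1 / 2 → 0 ≤ z.im → DifferentiableAt ℂ F z)
    (hL : ∀ z : ℂ, -(1 / 2) ≤ z.re → z.re ≤ -ρ → 0 ≤ z.im → DifferentiableAt ℂ F z)
    (hodd : ∀ z, F (-z) = -F z) :
    Pool.Agent.H63.VC3.Path F ρ Y = Pool.Agent.H63.VC3.Path F (1 / 2) Y := by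
  have cR := Complex.integral_boundary_rect_eq_zero_of_differentiableOn F (ρ : ℂ)
    ((1 / 2 : ℝ) + Y * I) (by
      intro z hz
      have hz' := (Complex.mem_reProdIm.1 hz)
      simp only [Complex.ofReal_re, Complex.ofReal_im, Complex.add_re, Complex.mul_re,
        Complex.I_re, mul_zero, Complex.I_im, mul_one, sub_self, add_zero, Complex.add_im,
        Complex.mul_im, zero_add] at hz'
      rw [Set.uIcc_of_le h1, Set.uIcc_of_le hY.le] at hz'
      exact (hR z hz'.1.1 hz'.1.2 hz'.2.1).differentiableWithinAt)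
  have cL := Complex.integral_boundary_rect_eq_zero_of_differentiableOn F ((-(1 / 2) : ℝ) : ℂ)
    ((-ρ : ℝ) + Y * I) (by
      intro z hz
      have hz' := (Complex.mem_reProdIm.1 hz)
      simp only [Complex.ofReal_re, Complex.ofReal_im, Complex.add_re, Complex.mul_re,
        Complex.I_re, mul_zero, Complex.I_im, mul_one, sub_self, add_zero, Complex.add_im,
        Complex.mul_im, zero_add] at hz'
      rw [Set.uIcc_of_le (by linarith), Set.uIcc_of_le hY.le] at hz'
      exact (hL z hz'.1.1 hz'.1.2 hz'.2.1).differentiableWithinAt)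
  simp only [Complex.ofReal_re, Complex.ofReal_im, Complex.add_re, Complex.mul_re,
    Complex.I_re, mul_zero, Complex.I_im, mul_one, sub_self, add_zero, Complex.add_im,
    Complex.mul_im, zero_add, Complex.ofReal_zero, zero_mul] at cR cL
  -- the real axis
  have hax : ∫ x in (-(1 / 2) : ℝ)..(-ρ), F (x : ℂ) = -∫ x in ρ..(1 / 2 : ℝ), F (x : ℂ) := by
    have e1 := intervalIntegral.integral_comp_neg (a := ρ) (b := 1 / 2) (fun x : ℝ => F (x : ℂ))
    rw [← e1, ← intervalIntegral.integral_neg]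
    refine intervalIntegral.integral_congr fun x _ => ?_
    have := hodd (x : ℂ)
    push_cast
    exact this
  have hc : Continuous fun x : ℝ => F (x + Y * I) := by
    rw [continuous_iff_continuousAt]
    intro x
    have h2 : ((x : ℂ) + Y * I) ∈ Hp := by
      change 0 < ((x : ℂ) + Y * I : ℂ).im
      simpa using hY
    exact ContinuousAt.comp (f := fun x : ℝ => (x : ℂ) + Y * I) (g := F)
      (hF _ h2).continuousAt (by fun_prop)
  have s1 : (∫ x in (-(1 / 2) : ℝ)..(1 / 2), F (x + Y * I)) =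
      (∫ x in (-(1 / 2) : ℝ)..(-ρ), F (x + Y * I)) + (∫ x in (-ρ)..ρ, F (x + Y * I)) +
        ∫ x in ρ..(1 / 2 : ℝ), F (x + Y * I) := by
    rw [intervalIntegral.integral_add_adjacent_intervals (hc.intervalIntegrable _ _)
      (hc.intervalIntegrable _ _), intervalIntegral.integral_add_adjacent_intervals
      (hc.intervalIntegrable _ _) (hc.intervalIntegrable _ _)]
  unfold Pool.Agent.H63.VC3.Path
  rw [s1]
  have m1 : ∀ p : ℝ, (∫ t in (0 : ℝ)..Y, F ((p : ℂ) + t * I) * I) =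
      I * ∫ t in (0 : ℝ)..Y, F ((p : ℂ) + t * I) := fun p => by
    rw [intervalIntegral.integral_mul_const, mul_comm]
  have m2 := m1 ρ
  have m3 := m1 (-ρ)
  have m4 := m1 (1 / 2)
  have m5 := m1 (-(1 / 2))
  rw [smul_eq_mul, smul_eq_mul] at cR cL
  push_cast at m2 m3 m4 m5 cR cL hax ⊢
  rw [m2, m3, m4, m5]
  rw [hax] at cL
  linear_combination cL + cR

/-- The lattice of `n = 3`, for a function with a triple zero at `±1/2`. -/
theorem sum_ctr3 {G K : ℂ → ℂ} (hG : Differentiable ℂ G) (hK : Differentiable ℂ K)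
    (hGK : ∀ v, G v = cos (Real.pi * v) ^ 3 * K v) (hodd : ∀ z, G (-z) = -G z) {M : ℕ}
    (hM : 2 ≤ M) {γ γ' : ℝ → ℂ} (hγ : Ctr γ γ') :
    Integrable (fun x => G (γ x) * om 3 M (γ x) * γ' x) ∧
    ∑ l ∈ Finset.Icc 0 (M - 2), deriv G ((vl 3 M l : ℝ) : ℂ) = -(4 * Real.pi * I) * M ^ 2 *
      ∫ x, G (γ x) * om 3 M (γ x) * γ' x := by
  have hM0 : 0 < M := by omega
  have hMr : (0 : ℝ) < M := by exact_mod_cast hM0
  have hM2 : (2 : ℝ) ≤ M := by exact_mod_cast hM
  -- the function near `±1/2`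
  have hF : (fun v => G v * om 3 M v) = fun v => -(cos (Real.pi * v) * K v) / (4 * Dq M v ^ 2) := by
    funext v
    rw [om3_eq, ← Dq_mul, hGK]
    rcases eq_or_ne (cos (Real.pi * v)) 0 with h0 | h0
    · rw [h0]; simp
    · rcases eq_or_ne (Dq M v) 0 with h1 | h1
      · rw [h1]; simp
      · field_simp
  have dD : ∀ v, Dq M v ≠ 0 → DifferentiableAt ℂ (fun v => G v * om 3 M v) v := fun v hv => by
    rw [hF]
    have c1 : Differentiable ℂ (fun v : ℂ => -(cos ((Real.pi : ℂ) * v) * K v)) := by fun_prop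
    have c2 : Differentiable ℂ (fun v : ℂ => 4 * Dq M v ^ 2) :=
      ((Dq_diff M).pow 2).const_mul 4
    exact (c1 v).div (c2 v) (mul_ne_zero (by norm_num) (pow_ne_zero 2 hv))
  have dw : ∀ v, ww 3 M v ≠ 1 → DifferentiableAt ℂ (fun v => G v * om 3 M v) v := fun v hv =>
    (hG v).mul (om_diff' hv)
  have d0 : ∀ z ∈ Hp, DifferentiableAt ℂ (fun v => G v * om 3 M v) z := fun z hz =>
    dw z (ww_ne_one' 3 hM0 hz)
  have d1 : DifferentiableAt ℂ (fun v => G v * om 3 M v) (1 / 2) := dD _ (Dq_half hM0)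
  have d2 : DifferentiableAt ℂ (fun v => G v * om 3 M v) (-1 / 2) := dD _ (Dq_neg_half hM0)
  -- `w ≠ 1` off the lattice
  have hww : ∀ v : ℂ, ww 3 M v = 1 → ∃ k : ℤ, (M : ℝ) * (v.re + 1 / 2) = k := fun v hv => by
    rw [ww, Complex.exp_eq_one_iff] at hv
    obtain ⟨k, hk⟩ := hv
    refine ⟨k + 1, ?_⟩
    have h2 : (M : ℂ) * (v + 1 / 2) - (bt 3 : ℝ) = k := by
      have h3 : (2 * (Real.pi : ℂ) * I) ≠ 0 := by
        simp [Real.pi_ne_zero]
      apply mul_left_cancel₀ h3
      rw [hk]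
      ring
    have h4 := congrArg Complex.re h2
    have e : ((M : ℂ) * (v + 1 / 2) - (bt 3 : ℝ)).re = M * (v.re + 1 / 2) - 1 := by
      rw [bt]
      have e1 : (M : ℂ) * (v + 1 / 2) = ((M : ℝ) : ℂ) * (v + ((1 / 2 : ℝ) : ℂ)) := by
        push_cast; ring
      rw [e1, Complex.sub_re, Complex.re_ofReal_mul, Complex.add_re, Complex.ofReal_re,
        Complex.ofReal_re]
      norm_num
    rw [e, Complex.intCast_re] at h4
    push_cast
    linarith
  have hi : Integrable (fun x => G (γ x) * om 3 M (γ x) * γ' x) :=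
    hγ.integrable (F := fun v => G v * om 3 M v) d0 d1 d2
  refine ⟨hi, ?_⟩
  rw [int_ctr (F := fun v => G v * om 3 M v) d0 d1 d2 hγ hi one_pos]
  have hρ : (1 / 2 - 1 / (2 * M) : ℝ) = (((M - 2 : ℕ) : ℝ) + 1 / 2 + bt 3) / M - 1 / 2 := by
    rw [Nat.cast_sub hM, bt]
    push_cast
    field_simp
    ring
  rw [sum_l G 3 M 0 (M - 2) 1 hM0 (by omega) (by norm_num) (Nat.zero_le _) one_pos
    (1 / 2 - 1 / (2 * M)) hρ (fun z _ _ => hG z) hodd]
  congr 1
  have i0 : 1 / (2 * (M : ℝ)) ≤ 1 / 4 := by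
    rw [div_le_div_iff₀ (by positivity) (by norm_num)]
    linarith
  have i1 : 0 < 1 / (2 * (M : ℝ)) := by positivity
  have i2 : (M : ℝ) * (1 / (2 * M)) = 1 / 2 := by field_simp
  have hom : ∀ v : ℂ, om 3 M (-v) = om 3 M v := fun v => by
    rw [om3_eq, om3_eq]
    have e : sin (M * (Real.pi * (-v + 1 / 2))) ^ 2 = sin (M * (Real.pi * (v + 1 / 2))) ^ 2 := by
      have e1 : (M : ℂ) * (Real.pi * (-v + 1 / 2)) = M * Real.pi - M * (Real.pi * (v + 1 / 2)) := by
        ring
      have e2 : sin ((M : ℂ) * Real.pi) = 0 := Complex.sin_nat_mul_pi M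
      have e3 : cos ((M : ℂ) * Real.pi) ^ 2 = 1 := by
        have := Complex.sin_sq_add_cos_sq ((M : ℂ) * Real.pi)
        rw [e2] at this
        simpa using this
      rw [e1, Complex.sin_sub, e2, zero_mul, zero_sub, neg_sq, mul_pow, e3, one_mul]
    rw [e]
  refine Path_ext (F := fun v => G v * om 3 M v) (by linarith) (by linarith) one_pos d0 ?_ ?_ ?_
  · intro z z1 z2 z3
    rcases z3.eq_or_lt with h | h
    · rcases z2.eq_or_lt with h' | h'
      · have : z = 1 / 2 := by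
          apply Complex.ext
          · rw [h']; norm_num
          · rw [← h]; norm_num
        rw [this]
        exact d1
      · apply dw
        intro hc
        obtain ⟨k, hk⟩ := hww z hc
        have k1 : (k : ℝ) < M := by
          rw [← hk]
          nlinarith
        have k2 : (M : ℝ) - 1 < k := by
          rw [← hk]
          have := mul_le_mul_of_nonneg_left z1 hMr.le
          nlinarith
        have k3 : k < (M : ℤ) := by exact_mod_cast k1
        have k4 : (M : ℤ) - 1 < k := by exact_mod_cast k2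
        omega
    · exact d0 z h
  · intro z z1 z2 z3
    rcases z3.eq_or_lt with h | h
    · rcases z1.eq_or_lt with h' | h'
      · have : z = -1 / 2 := by
          apply Complex.ext
          · rw [← h']; norm_num
          · rw [← h]; norm_num
        rw [this]
        exact d2
      · apply dw
        intro hc
        obtain ⟨k, hk⟩ := hww z hc
        have k1 : (0 : ℝ) < k := by
          rw [← hk]
          apply mul_pos hMr
          linarith
        have k2 : (k : ℝ) < 1 := by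
          rw [← hk]
          have := mul_le_mul_of_nonneg_left z2 hMr.le
          nlinarith
        have k3 : 0 < k := by exact_mod_cast k1
        have k4 : k < 1 := by exact_mod_cast k2
        omega
    · exact d0 z h
  · intro z
    rw [hodd, hom]
    ring

end Pool.Agent.S4
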