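import Pool.Agent.H63.GO.Defs
import Pool.Agent.S4.G.CtrA
import Pool.Agent.S4.Root

/-!
# The factor of a node as an integral over a contour
-/

set_option autoImplicit false

namespace Pool.Agent.S4

open Pool.Agent.H63.VC hiding ext
open Pool.Agent.H63.VC3 Pool.Agent.H63.VC7 Pool.Agent.H25.RK Pool.Agent.S3 Pool.Agent.H63.GO
open Complex Filter Topology MeasureTheory
open scoped BigOperators Interval

variable {m : ℕ} {n h : ℕ}

private theorem Wd_diff (M d : ℕ) : Differentiable ℂ (Wd M d) := by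
  unfold Wd
  refine Differentiable.fun_finset_prod fun j _ => ?_
  fun_prop

private theorem q4_diff (M d t : ℕ) : Differentiable ℂ (q4 M d t) := by
  unfold q4
  refine Differentiable.const_mul ?_ _
  refine Differentiable.fun_finset_prod fun j _ => ?_
  fun_prop

private theorem q4_even (M d t : ℕ) (v : ℂ) : q4 M d t (-v) = q4 M d t v := by
  unfold q4
  congr 1
  refine Finset.prod_congr rfl fun i _ => ?_
  have e1 : cos ((Real.pi : ℂ) * (-v + ((i : ℂ) + (d + 1) / 2) / M)) =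
      cos (Real.pi * (v - ((i : ℂ) + (d + 1) / 2) / M)) := by
    rw [← Complex.cos_neg]; congr 1; ring
  have e2 : cos ((Real.pi : ℂ) * (-v - ((i : ℂ) + (d + 1) / 2) / M)) =
      cos (Real.pi * (v + ((i : ℂ) + (d + 1) / 2) / M)) := by
    rw [← Complex.cos_neg]; congr 1; ring
  rw [e1, e2]
  ring

private theorem Wd_even (M d : ℕ) (v : ℂ) : Wd M d (-v) = Wd M d v := by
  unfold Wd
  rw [← Finset.prod_range_reflect]
  refine Finset.prod_congr rfl fun j hj => ?_
  have hj' := Finset.mem_range.1 hj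
  congr 1
  rw [← Complex.cos_neg]
  congr 1
  have e : (((d - 1 - j : ℕ) : ℂ)) = d - 1 - j := by
    rw [Nat.cast_sub (by omega), Nat.cast_sub (by omega)]
    simp
  rw [e]
  ring

private theorem pre_diff (M : ℕ) (P : Bool) (s : ℕ) : Differentiable ℂ (pre n h M P s) := by
  unfold pre
  have h1 := Wd_diff M
  cases P
  · simp only [Bool.false_eq_true, if_false]
    exact ((h1 _).pow 2).mul ((h1 _).pow s)
  · simp only [if_true]
    exact (h1 _).mul (h1 _)

private theorem pre_even (M : ℕ) (P : Bool) (s : ℕ) (v : ℂ) :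
    pre n h M P s (-v) = pre n h M P s v := by
  unfold pre
  simp only [Wd_even]

private theorem NT4_diff (r : ℝ) (M : ℕ) (P : Bool) (s : ℕ) (A : Finset (Fin m))
    (k : Fin m → ℕ) : Differentiable ℂ (NT4 r n h M P s A k) := by
  unfold NT4
  have h1 : Differentiable ℂ (fun v : ℂ => exp (2 * Real.pi * I * r * M * v ^ 2) *
      (2 * sin (2 * Real.pi * v))) := by fun_prop
  exact (h1.mul (pre_diff M P s)).mul
    (Differentiable.fun_finset_prod fun j _ => q4_diff _ _ _)

private theorem NT4_odd (r : ℝ) (M : ℕ) (P : Bool) (s : ℕ) (A : Finset (Fin m))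
    (k : Fin m → ℕ) (v : ℂ) : NT4 r n h M P s A k (-v) = -NT4 r n h M P s A k v := by
  unfold NT4
  simp only [pre_even, q4_even, neg_sq, mul_neg, Complex.sin_neg, neg_mul]

/-! ### The shift of the lattice -/

private theorem bt_shift (b c : ℕ) : bt (b + 2 * c) = bt b + c := by
  unfold bt
  push_cast
  ring

private theorem vl_shift (b c M X : ℕ) : vl (b + 2 * c) M X = vl b M (X + c) := by
  unfold vl
  rw [bt_shift]
  push_cast
  ring

private theorem om_shift (b c M : ℕ) : om (b + 2 * c) M = om b M := by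
  have hw : ww (b + 2 * c) M = ww b M := by
    funext v
    unfold ww
    rw [bt_shift]
    have e : 2 * (Real.pi : ℂ) * I * (M * (v + 1 / 2) - ((bt b + c : ℝ) : ℂ)) =
        2 * Real.pi * I * (M * (v + 1 / 2) - (bt b : ℝ)) - (c : ℤ) * (2 * Real.pi * I) := by
      push_cast
      ring
    rw [e, Complex.exp_sub, Complex.exp_int_mul_two_pi_mul_I, div_one]
  funext v
  unfold om
  rw [hw]

/-- the other points of the lattice are zeros -/
private theorem Wd_zero {b c M l : ℕ} (hM : 0 < M) (hb : 2 ≤ b) (hl : l ≤ M + 1 - b)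
    (hbM : b ≤ M + 1) (ho : l < c ∨ M + 2 - b - c ≤ l) (hcM : b + 2 * c ≤ M + 1) :
    Wd M (b + 2 * c - 2) ((vl b M l : ℝ) : ℂ) = 0 := by
  have hM0 : (M : ℂ) ≠ 0 := by exact_mod_cast hM.ne'
  have e0 : (((b + 2 * c - 2 : ℕ)) : ℂ) = b + 2 * c - 2 := by
    rw [Nat.cast_sub (by omega)]
    push_cast
    ring
  have key : ∀ j : ℕ, j < b + 2 * c - 2 → ((l : ℂ) + j + 1 - c = 0 ∨ (l : ℂ) + j + 1 - c = M) →
      Wd M (b + 2 * c - 2) ((vl b M l : ℝ) : ℂ) = 0 := by
    intro j hj he
    unfold Wd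
    refine Finset.prod_eq_zero (Finset.mem_range.2 hj) ?_
    have e : ((vl b M l : ℝ) : ℂ) + ((j : ℂ) + 1 / 2 - ((b + 2 * c - 2 : ℕ) : ℂ) / 2) / M =
        -1 / 2 + ((l : ℂ) + j + 1 - c) / M := by
      rw [e0, vl, bt]
      push_cast
      field_simp
      ring
    rw [e]
    rcases he with he | he
    · rw [he, zero_div, add_zero]
      have : (Real.pi : ℂ) * (-1 / 2) = -(Real.pi / 2) := by ring
      rw [this, Complex.cos_neg, Complex.cos_pi_div_two, mul_zero]
    · rw [he, div_self hM0]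
      have : (Real.pi : ℂ) * (-1 / 2 + 1) = Real.pi / 2 := by ring
      rw [this, Complex.cos_pi_div_two, mul_zero]
  rcases ho with ho | ho
  · refine key (c - 1 - l) (by omega) (Or.inl ?_)
    rw [Nat.cast_sub (by omega), Nat.cast_sub (by omega)]
    push_cast
    ring
  · refine key (M + c - 1 - l) (by omega) (Or.inr ?_)
    rw [Nat.cast_sub (by omega), Nat.cast_sub (by omega)]
    push_cast
    ring

private theorem deriv_zero (r : ℝ) (M : ℕ) (s : ℕ) (A : Finset (Fin m)) (k : Fin m → ℕ) {z : ℂ}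
    (hz : Wd M (n - 2) z = 0) : deriv (NT4 r n h M false s A k) z = 0 := by
  obtain ⟨K, hK, hKe⟩ : ∃ K : ℂ → ℂ, Differentiable ℂ K ∧
      NT4 r n h M false s A k = fun v => Wd M (n - 2) v ^ 2 * K v := by
    refine ⟨fun v => exp (2 * Real.pi * I * r * M * v ^ 2) * (2 * sin (2 * Real.pi * v)) *
      Wd M (n - 2 * h) v ^ s * ∏ j ∈ A, q4 M (dd n h false) (M + 1 - n - k j) v, ?_, ?_⟩
    · have h1 : Differentiable ℂ (fun v : ℂ => exp (2 * Real.pi * I * r * M * v ^ 2) *
          (2 * sin (2 * Real.pi * v))) := by fun_prop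
      exact (h1.mul ((Wd_diff M _).pow s)).mul
        (Differentiable.fun_finset_prod fun j _ => q4_diff _ _ _)
    · funext v
      unfold NT4 pre
      simp only [Bool.false_eq_true, if_false]
      ring
  rw [hKe]
  have h1 := ((Wd_diff M (n - 2) z).hasDerivAt.pow 2).mul (hK z).hasDerivAt
  have h2 := h1.deriv
  rw [show (fun v => Wd M (n - 2) v ^ 2 * K v) = (Wd M (n - 2) ^ 2 * K) from rfl, h2]
  rw [Pi.pow_apply, hz]
  simp

/-- The sum over the whole lattice. -/
private theorem DG4_lat (r : ℝ) (s : ℕ) {b c M : ℕ} (hb : 2 ≤ b) (hM : b + 2 * c + 2 ≤ M)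
    (A : Finset (Fin m)) (k : Fin m → ℕ) :
    DG4 r (b + 2 * c) h M false s A k = ∑ l ∈ Finset.Icc 0 (M + 1 - b),
      deriv (NT4 r (b + 2 * c) h M false s A k) ((vl b M l : ℝ) : ℂ) := by
  unfold DG4
  have e1 : nn (b + 2 * c) false = b + 2 * c := rfl
  rw [e1]
  have e2 : ∑ X ∈ Finset.range (M + 2 - (b + 2 * c)),
      deriv (NT4 r (b + 2 * c) h M false s A k) ((vl (b + 2 * c) M X : ℝ) : ℂ) =
      ∑ l ∈ (Finset.range (M + 2 - (b + 2 * c))).map (addRightEmbedding c),
        deriv (NT4 r (b + 2 * c) h M false s A k) ((vl b M l : ℝ) : ℂ) := by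
    rw [Finset.sum_map]
    refine Finset.sum_congr rfl fun X _ => ?_
    rw [vl_shift]
    rfl
  rw [e2]
  refine Finset.sum_subset ?_ ?_
  · intro l hl
    rw [Finset.mem_map] at hl
    obtain ⟨X, hX, rfl⟩ := hl
    rw [Finset.mem_range] at hX
    rw [Finset.mem_Icc]
    change 0 ≤ X + c ∧ X + c ≤ M + 1 - b
    omega
  · intro l hl hl'
    rw [Finset.mem_Icc] at hl
    apply deriv_zero
    apply Wd_zero (by omega) hb hl.2 (by omega) _ (by omega)
    by_contra hc
    push Not at hc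
    apply hl'
    rw [Finset.mem_map]
    refine ⟨l - c, ?_, ?_⟩
    · rw [Finset.mem_range]
      omega
    · change l - c + c = l
      omega

/-- the triple zero -/
private theorem NT4_cube (r : ℝ) (M s c : ℕ) (A : Finset (Fin m)) (k : Fin m → ℕ) :
    ∃ K : ℂ → ℂ, Differentiable ℂ K ∧
      ∀ v, NT4 r (3 + 2 * c) h M false s A k v = cos (Real.pi * v) ^ 3 * K v := by
  have hd : 3 + 2 * c - 2 = 2 * c + 1 := by omega
  obtain ⟨L, hL, hLe⟩ : ∃ L : ℂ → ℂ, Differentiable ℂ L ∧
      ∀ v, Wd M (3 + 2 * c - 2) v = cos (Real.pi * v) * L v := by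
    refine ⟨fun v => 2 * ∏ j ∈ (Finset.range (2 * c + 1)).erase c,
      (2 * cos (Real.pi * (v + ((j : ℂ) + 1 / 2 - ((2 * c + 1 : ℕ) : ℂ) / 2) / M))), ?_, ?_⟩
    · refine Differentiable.const_mul ?_ _
      refine Differentiable.fun_finset_prod fun j _ => ?_
      fun_prop
    · intro v
      rw [hd, Wd, ← Finset.mul_prod_erase _ _ (Finset.mem_range.2 (show c < 2 * c + 1 by omega))]
      have e : v + ((c : ℂ) + 1 / 2 - ((2 * c + 1 : ℕ) : ℂ) / 2) / M = v := by
        push_cast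
        ring
      rw [e]
      ring
  refine ⟨fun v => exp (2 * Real.pi * I * r * M * v ^ 2) * (4 * sin (Real.pi * v)) *
      (L v ^ 2 * Wd M (3 + 2 * c - 2 * h) v ^ s) *
      ∏ j ∈ A, q4 M (dd (3 + 2 * c) h false) (M + 1 - (3 + 2 * c) - k j) v, ?_, ?_⟩
  · have h1 : Differentiable ℂ (fun v : ℂ => exp (2 * Real.pi * I * r * M * v ^ 2) *
        (4 * sin (Real.pi * v))) := by fun_prop
    exact (h1.mul ((hL.pow 2).mul ((Wd_diff M _).pow s))).mul
      (Differentiable.fun_finset_prod fun j _ => q4_diff _ _ _)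
  · intro v
    unfold NT4 pre
    simp only [Bool.false_eq_true, if_false]
    rw [hLe, show 2 * (Real.pi : ℂ) * v = 2 * (Real.pi * v) by ring, Complex.sin_two_mul]
    ring

theorem DG4_ctr (hn : 2 ≤ n) (hh : 1 ≤ h) (hh' : 2 * h ≤ n) (r : ℝ) (P : Bool) (s : ℕ) {M : ℕ}
    (hM : n + 2 ≤ M) (A : Finset (Fin m)) (k : Fin m → ℕ) {γ γ' : ℝ → ℂ} (hγ : Ctr γ γ') :
    Integrable (fun x => NT4 r n h M P s A k (γ x) * om (nn n P) M (γ x) * γ' x) ∧
    DG4 r n h M P s A k = -(4 * Real.pi * I) * M ^ 2 *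
      ∫ x, NT4 r n h M P s A k (γ x) * om (nn n P) M (γ x) * γ' x := by
  cases P
  · rcases Nat.even_or_odd n with he | ho
    · obtain ⟨c, rfl⟩ : ∃ c, n = 2 + 2 * c := ⟨(n - 2) / 2, by
        obtain ⟨d, hd⟩ := he
        omega⟩
      have e1 : nn (2 + 2 * c) false = 2 + 2 * c := rfl
      rw [e1, om_shift, DG4_lat r s (le_refl 2) (by omega) A k]
      exact sum_ctr2 (NT4_diff r M false s A k) (NT4_odd r M false s A k) (by omega) hγ
    · obtain ⟨c, rfl⟩ : ∃ c, n = 3 + 2 * c := ⟨(n - 3) / 2, by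
        obtain ⟨d, hd⟩ := ho
        omega⟩
      have e1 : nn (3 + 2 * c) false = 3 + 2 * c := rfl
      obtain ⟨K, hK, hKe⟩ := NT4_cube (h := h) r M s c A k
      rw [e1, om_shift, DG4_lat r s (by omega : 2 ≤ 3) (by omega) A k]
      exact sum_ctr3 (NT4_diff r M false s A k) hK hKe (NT4_odd r M false s A k) (by omega) hγ
  · have e1 : nn n true = 2 := rfl
    rw [e1]
    have := sum_ctr2 (NT4_diff (n := n) (h := h) r M true s A k) (NT4_odd r M true s A k)
      (by omega : 0 < M) hγ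
    refine ⟨this.1, ?_⟩
    rw [← this.2]
    unfold DG4
    rw [e1]
    refine Finset.sum_congr ?_ fun _ _ => rfl
    ext X
    simp only [Finset.mem_range, Finset.mem_Icc]
    omega

end Pool.Agent.S4
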