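import Pool.Agent.S4.G.FBa

/-!
# The bound of the terms
-/

set_option autoImplicit false

namespace Pool.Agent.S4

open Pool.Agent.H63.VC hiding ext
open Pool.Agent.H63.VC3 Pool.Agent.H63.VC7 Pool.Agent.H25.RK Pool.Agent.S3 Pool.Agent.H63.GO
open Complex Filter Topology MeasureTheory
open scoped BigOperators Interval

variable {n h : ℕ}

/-! ### The weight -/

theorem w4C_bound' (hn : 2 ≤ n) (hh : 1 ≤ h) (hh' : 2 * h ≤ n) (e : Bool) : ∃ C : ℝ, 0 < C ∧
    ∀ᶠ M : ℕ in atTop, ∀ y : ℂ, -1 / 2 + (n - 1) / M ≤ y.re → y.re ≤ 1 / 2 →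
    ‖w4C n h e M y‖ ≤ Real.exp (C * (1 + Real.log M + |y.im|)) *
      Real.exp (M * (4 * Rf (y + 1 / 2))) := by
  obtain ⟨C, hC, hb⟩ := fb_LL' n
  refine ⟨4 * C, by positivity, ?_⟩
  filter_upwards [eventually_ge_atTop 1] with M hM y h0 h1
  have b1 := hb M hM 0 0 (by simp) (by omega) y h0 h1
  have b2 := hb M hM (n - 2) ((n : ℂ) - 2) (by rw [Nat.cast_sub hn]; simp) (by omega) y h0 h1
  have b3 := hb M hM (n - 1 - h) ((n : ℂ) - 1 - h)
    (by rw [Nat.cast_sub (by omega), Nat.cast_sub (by omega)]; simp) (by omega) y h0 h1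
  have b4 := hb M hM (if e then n - 1 - h else h - 1)
    (if e then (n : ℂ) - 1 - h else (h : ℂ) - 1)
    (by
      rcases e with _ | _
      · simp only [Bool.false_eq_true, if_false]
        rw [Nat.cast_sub hh]
        simp
      · simp only [if_true]
        rw [Nat.cast_sub (by omega), Nat.cast_sub (by omega)]
        simp) (by rcases e with _ | _ <;> simp <;> omega) y h0 h1
  rw [sub_zero] at b1
  rw [abs_le] at b1 b2 b3 b4
  unfold w4C
  rw [norm_exp, add_re, add_re, add_re, ← Real.exp_add]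
  apply Real.exp_le_exp.2
  linarith [b1.2, b2.2, b3.2, b4.2]

private theorem fb_range {n M : ℕ} (hM : 1 ≤ M) {a : ℝ} (h0 : -1 / 2 + (n + 1) / M ≤ a) :
    -1 / 2 + (n - 1) / M ≤ a := by
  have hM0 : (0 : ℝ) < M := by exact_mod_cast hM
  have : ((n : ℝ) - 1) / M ≤ (n + 1) / M := by
    gcongr
    linarith
  linarith

theorem w4C_bound (hn : 2 ≤ n) (hh : 1 ≤ h) (hh' : 2 * h ≤ n) (e : Bool) : ∃ C : ℝ, 0 < C ∧
    ∀ᶠ M : ℕ in atTop, ∀ y : ℂ, -1 / 2 + (n + 1) / M ≤ y.re → y.re ≤ 1 / 2 →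
    ‖w4C n h e M y‖ ≤ Real.exp (C * (1 + Real.log M + |y.im|)) *
      Real.exp (M * (4 * Rf (y + 1 / 2))) := by
  obtain ⟨C, hC, hb⟩ := w4C_bound' hn hh hh' e
  refine ⟨C, hC, ?_⟩
  filter_upwards [hb, eventually_ge_atTop 1] with M hb hM y h0 h1
  exact hb y (fb_range hM h0) h1

/-! ### The slots -/

private theorem dd_le (hn : 2 ≤ n) (hh : 1 ≤ h) (hh' : 2 * h ≤ n) (P : Bool) :
    dd n h P + 4 ≤ 2 * n := by
  unfold dd
  rcases P with _ | _ <;> simp <;> omega

/-- The bound of a slot, with half of the weight. -/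
theorem sC4_bound' (hn : 2 ≤ n) (hh : 1 ≤ h) (hh' : 2 * h ≤ n) (P : Bool) : ∃ C : ℝ, 0 < C ∧
    ∀ᶠ M : ℕ in atTop, ∀ (σ : Sl) (y : ℂ), σ.ok → -1 / 2 + (n - 1) / M ≤ y.re → y.re ≤ 1 / 2 →
    Real.exp (M * (2 * Rf (y + 1 / 2))) * ‖sC4 n h M P y σ‖ ≤
      Real.exp (C * (1 + Real.log M + |y.im| + σ.ht)) * Real.exp (M * se y σ) := by
  obtain ⟨C, hC, hb⟩ := fb_LL' n
  obtain ⟨C2, hC2, hs⟩ := fb_shift
  refine ⟨C + 4 * n * C2 + 256 + 4 * (n + 1) + 17, by positivity, ?_⟩
  filter_upwards [eventually_ge_atTop 1, eventually_ge_atTop (n + 1)] with M hM hMn σ y hσ h0 h1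
  have hM0 : (0 : ℝ) < M := by exact_mod_cast hM
  have hMc : (M : ℂ) ≠ 0 := by exact_mod_cast hM0.ne'
  have hM1 : (1 : ℝ) ≤ M := by exact_mod_cast hM
  have hn0 : (0 : ℝ) ≤ n := Nat.cast_nonneg n
  have hlM : 0 ≤ Real.log M := Real.log_natCast_nonneg M
  have hpi := Real.pi_pos
  have hpi4 := Real.pi_le_four
  have hyb := abs_nonneg y.im
  have hht := σ.ht_nonneg
  set Y : ℝ := 1 + Real.log M + |y.im| + σ.ht with hY
  have hY1 : 1 ≤ Y := by rw [hY]; linarith
  have hYM : Real.log M ≤ Y := by rw [hY]; linarith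
  have hYb : |y.im| ≤ Y := by rw [hY]; linarith
  have hexp : (M : ℝ) ≤ Real.exp Y := by
    calc (M : ℝ) = Real.exp (Real.log M) := (Real.exp_log hM0).symm
      _ ≤ _ := Real.exp_le_exp.2 hYM
  rcases σ with v | s
  · -- an open slot
    have hv : |v.re| ≤ 1 / 2 := hσ
    have hhtv : (Sl.op v).ht = |v.im| := rfl
    rw [hhtv] at hY
    set d := dd n h P with hd
    have hd4 : (d : ℝ) + 4 ≤ 2 * n := by exact_mod_cast dd_le hn hh hh' P
    have hd' : (d : ℝ) ≤ 2 * n := by linarith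
    have hd0 : (0 : ℝ) ≤ d := Nat.cast_nonneg d
    have hre : (y - (d : ℂ) / (2 * M)).re = y.re - d / (2 * M) := by
      have : (d : ℂ) / (2 * M) = (((d : ℝ) / (2 * M) : ℝ) : ℂ) := by push_cast; ring
      rw [this, sub_re, ofReal_re]
    have hdM0 : 0 ≤ (d : ℝ) / (2 * M) := by positivity
    have hdM : (d : ℝ) / (2 * M) ≤ (n - 1) / M := by
      rw [div_le_div_iff₀ (by positivity) hM0]
      nlinarith
    have hy : |(y - (d : ℂ) / (2 * M)).re| ≤ 1 / 2 := by
      rw [hre, abs_le]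
      constructor <;> linarith
    have hq := qS_bound hM hy hv
    have s1 := hs M hM d (y - v)
    have s2 := hs M hM d (y + v)
    rw [show y - v - (d : ℂ) / (2 * M) = y - (d : ℂ) / (2 * M) - v by ring,
      show (y - v).im = y.im - v.im by simp] at s1
    rw [show y + v - (d : ℂ) / (2 * M) = y - (d : ℂ) / (2 * M) + v by ring,
      show (y + v).im = y.im + v.im by simp] at s2
    have m1 : |y.im - v.im| ≤ |y.im| + |v.im| := abs_sub _ _
    have m2 : |y.im + v.im| ≤ |y.im| + |v.im| := abs_add_le _ _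
    have t1 : (d : ℝ) * (C2 * (1 + Real.log M + |y.im - v.im|)) ≤ 2 * n * (C2 * Y) := by
      apply mul_le_mul hd' _ (by positivity) (by positivity)
      apply mul_le_mul_of_nonneg_left _ hC2.le
      rw [hY]
      linarith
    have t2 : (d : ℝ) * (C2 * (1 + Real.log M + |y.im + v.im|)) ≤ 2 * n * (C2 * Y) := by
      apply mul_le_mul hd' _ (by positivity) (by positivity)
      apply mul_le_mul_of_nonneg_left _ hC2.le
      rw [hY]
      linarith
    rw [abs_le] at s1 s2
    have e2 : sC4 n h M P y (.op v) = qS M (y - (d : ℂ) / (2 * M)) v := rfl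
    have e3 : se y (.op v) = 2 * Rf (y + 1 / 2) - Rf (y - v) - Rf (y + v) := rfl
    rw [e2, e3]
    have h3 : (256 : ℝ) / M ≤ Real.exp (256 * Y) := by
      have h4 := Real.add_one_le_exp (256 * Y)
      have h5 : (256 : ℝ) / M ≤ 256 := by
        rw [div_le_iff₀ hM0]
        linarith
      linarith
    calc Real.exp (M * (2 * Rf (y + 1 / 2))) * ‖qS M (y - (d : ℂ) / (2 * M)) v‖
        ≤ Real.exp (M * (2 * Rf (y + 1 / 2))) * (Real.exp (256 * Y) *
          Real.exp (-(M * (Rf (y - (d : ℂ) / (2 * M) - v) + Rf (y - (d : ℂ) / (2 * M) + v))))) := by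
          apply mul_le_mul_of_nonneg_left _ (Real.exp_pos _).le
          exact hq.trans (mul_le_mul_of_nonneg_right h3 (Real.exp_pos _).le)
      _ ≤ Real.exp ((4 * n * C2 + 256) * Y) *
          Real.exp (M * (2 * Rf (y + 1 / 2) - Rf (y - v) - Rf (y + v))) := by
          rw [← Real.exp_add, ← Real.exp_add, ← Real.exp_add]
          apply Real.exp_le_exp.2
          linarith [s1.1, s2.1]
      _ ≤ _ := by
          apply mul_le_mul_of_nonneg_right _ (Real.exp_pos _).le
          apply Real.exp_le_exp.2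
          apply mul_le_mul_of_nonneg_right _ (by linarith)
          linarith
  · -- a closed end
    have b2 := hb M hM (n - 2) ((n : ℂ) - 2) (by rw [Nat.cast_sub hn]; simp) (by omega) y h0 h1
    rw [abs_le] at b2
    have hht0 : (Sl.cl s).ht = 0 := rfl
    have e3 : se y (.cl s) = Rf (y + 1 / 2) + Real.pi * s * (y.im * (1 - y.re)) := rfl
    have e2 : sC4 n h M P y (.cl s) = 4 * Real.pi * M *
        exp (Real.pi * I * s * ph4 n h M P (M * (1 / 2 - y))) *
        exp (-LL M (M * (y + 1 / 2) - 1 - ((n : ℂ) - 2))) := rfl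
    have e4 : ‖(4 * Real.pi * M : ℂ)‖ = 4 * Real.pi * M := by
      rw [norm_mul, norm_mul, norm_natCast, norm_real, Real.norm_eq_abs, abs_of_pos hpi]
      norm_num
    have h5 := fb_ph n h M (by omega) hh' P s hσ y
    have h6 : Real.pi * (n + 1) * |y.im| ≤ 4 * (n + 1) * Y := by
      have h7 : Real.pi * (n + 1) ≤ 4 * (n + 1) := mul_le_mul_of_nonneg_right hpi4 (by linarith)
      exact mul_le_mul h7 hYb hyb (by positivity)
    have h4 : 4 * Real.pi * M ≤ Real.exp (16 * Y) * Real.exp Y := by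
      have h5 := Real.add_one_le_exp (16 * Y)
      apply mul_le_mul (by linarith) hexp hM0.le (Real.exp_pos _).le
    have h8 : C * (1 + Real.log M + |y.im|) ≤ C * Y := by
      apply mul_le_mul_of_nonneg_left _ hC.le
      rw [hY, hht0]
      linarith
    rw [e2, e3, norm_mul, norm_mul, norm_exp, norm_exp, neg_re, e4]
    calc Real.exp (M * (2 * Rf (y + 1 / 2))) * (4 * Real.pi * M *
          Real.exp (Real.pi * I * s * ph4 n h M P (M * (1 / 2 - y))).re *
          Real.exp (-(LL M (M * (y + 1 / 2) - 1 - ((n : ℂ) - 2))).re))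
        ≤ Real.exp (M * (2 * Rf (y + 1 / 2))) * ((Real.exp (16 * Y) * Real.exp Y) *
          Real.exp (M * (Real.pi * s * (y.im * (1 - y.re))) + 4 * (n + 1) * Y) *
          Real.exp (C * Y - M * Rf (y + 1 / 2))) := by
          gcongr
          · exact h5.trans (by linarith)
          · linarith [b2.1]
      _ = Real.exp ((C + 4 * (n + 1) + 17) * Y) *
          Real.exp (M * (Rf (y + 1 / 2) + Real.pi * s * (y.im * (1 - y.re)))) := by
          rw [← Real.exp_add, ← Real.exp_add, ← Real.exp_add, ← Real.exp_add, ← Real.exp_add]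
          congr 1
          ring
      _ ≤ _ := by
          apply mul_le_mul_of_nonneg_right _ (Real.exp_pos _).le
          apply Real.exp_le_exp.2
          apply mul_le_mul_of_nonneg_right _ (by linarith)
          have : 0 ≤ 4 * n * C2 := by positivity
          linarith

/-- The bound of a slot, with half of the weight. -/
theorem sC4_bound (hn : 2 ≤ n) (hh : 1 ≤ h) (hh' : 2 * h ≤ n) (P : Bool) : ∃ C : ℝ, 0 < C ∧
    ∀ᶠ M : ℕ in atTop, ∀ (σ : Sl) (y : ℂ), σ.ok → -1 / 2 + (n + 1) / M ≤ y.re → y.re ≤ 1 / 2 →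
    Real.exp (M * (2 * Rf (y + 1 / 2))) * ‖sC4 n h M P y σ‖ ≤
      Real.exp (C * (1 + Real.log M + |y.im| + σ.ht)) * Real.exp (M * se y σ) := by
  obtain ⟨C, hC, hb⟩ := sC4_bound' hn hh hh' P
  refine ⟨C, hC, ?_⟩
  filter_upwards [hb, eventually_ge_atTop 1] with M hb hM σ y hσ h0 h1
  exact hb σ y hσ (fb_range hM h0) h1

/-! ### Differentiability -/

private theorem fb_LL_diff {M : ℕ} (hM : 0 < M) (a : ℂ) (N : ℝ) (ha0 : 0 ≤ a.re) (haN : a.re ≤ N)
    (hMN : N ≤ (3 / 10) * M - 1) {y : ℂ} (h0 : -1 / 5 < y.re) (h1 : y.re < 1 / 2 + 1 / (2 * M)) :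
    DifferentiableAt ℂ (fun y : ℂ => LL M (M * (y + 1 / 2) - 1 - a)) y := by
  have hM0 : (0 : ℝ) < M := by exact_mod_cast hM
  have hM1 : (M : ℝ) * (1 / (2 * M)) = 1 / 2 := by field_simp
  have e1 : ((M : ℂ) * (y + 1 / 2) - 1 - a).re = M * (y.re + 1 / 2) - 1 - a.re := by
    rw [sub_re, sub_re, ← ofReal_natCast, re_ofReal_mul, add_re]
    norm_num
  have d := LL_differentiableAt M hM (M * (y + 1 / 2) - 1 - a) (by rw [e1]; nlinarith)
    (by rw [e1]; nlinarith)
  have g : DifferentiableAt ℂ (fun y : ℂ => (M : ℂ) * (y + 1 / 2) - 1 - a) y := by fun_prop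
  exact DifferentiableAt.comp (f := fun y : ℂ => (M : ℂ) * (y + 1 / 2) - 1 - a) (g := LL M) y d g

private theorem fb_w_diff (hn : 2 ≤ n) (hh : 1 ≤ h) (hh' : 2 * h ≤ n) (e : Bool) {M : ℕ}
    (hM : 0 < M) (hMN : (n : ℝ) ≤ (3 / 10) * M - 1) {y : ℂ} (h0 : -1 / 5 < y.re)
    (h1 : y.re < 1 / 2 + 1 / (2 * M)) : DifferentiableAt ℂ (w4C n h e M) y := by
  have hn' : (2 : ℝ) ≤ n := by exact_mod_cast hn
  have hh1 : (1 : ℝ) ≤ h := by exact_mod_cast hh
  have hh2 : (2 : ℝ) * h ≤ n := by exact_mod_cast hh'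
  have r2 : ((n : ℂ) - 2).re = n - 2 := by simp
  have r3 : ((n : ℂ) - 1 - h).re = n - 1 - h := by simp
  have r4 : ((h : ℂ) - 1).re = h - 1 := by simp
  have d1 := fb_LL_diff hM 0 n (by simp) (by simp) hMN h0 h1
  simp only [sub_zero] at d1
  have d2 := fb_LL_diff hM ((n : ℂ) - 2) n (by rw [r2]; linarith) (by rw [r2]; linarith) hMN h0 h1
  have d3 := fb_LL_diff hM ((n : ℂ) - 1 - h) n (by rw [r3]; linarith) (by rw [r3]; linarith) hMN
    h0 h1
  have d4 : DifferentiableAt ℂ (fun y : ℂ => LL M (M * (y + 1 / 2) - 1 -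
      (if e then (n : ℂ) - 1 - h else (h : ℂ) - 1))) y := by
    apply fb_LL_diff hM _ n _ _ hMN h0 h1
    · rcases e with _ | _
      · simp only [Bool.false_eq_true, if_false]
        rw [r4]
        linarith
      · simp only [if_true]
        rw [r3]
        linarith
    · rcases e with _ | _
      · simp only [Bool.false_eq_true, if_false]
        rw [r4]
        linarith
      · simp only [if_true]
        rw [r3]
        linarith
  unfold w4C
  exact (((d1.add d2).add d3).add d4).cexp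

private theorem fb_s_diff (hn : 2 ≤ n) (hh : 1 ≤ h) (hh' : 2 * h ≤ n) (P : Bool) {M : ℕ} (hM : 0 < M)
    (hMN : (n : ℝ) ≤ (3 / 10) * M - 1) {σ : Sl} (hσ : σ.ok) {y : ℂ} (h0 : -1 / 5 < y.re)
    (h1 : y.re < 1 / 2 + 1 / (2 * M)) : DifferentiableAt ℂ (fun y => sC4 n h M P y σ) y := by
  have hM0 : (0 : ℝ) < M := by exact_mod_cast hM
  have hn' : (2 : ℝ) ≤ n := by exact_mod_cast hn
  rcases σ with v | s
  · have hv : |v.re| ≤ 1 / 2 := hσ
    set d := dd n h P with hd
    have hd4 : (d : ℝ) + 4 ≤ 2 * n := by exact_mod_cast dd_le hn hh hh' P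
    have hd' : (d : ℝ) ≤ 2 * n := by linarith
    have hd0 : (0 : ℝ) ≤ d := Nat.cast_nonneg d
    have hre : (y - (d : ℂ) / (2 * M)).re = y.re - d / (2 * M) := by
      have : (d : ℂ) / (2 * M) = (((d : ℝ) / (2 * M) : ℝ) : ℂ) := by push_cast; ring
      rw [this, sub_re, ofReal_re]
    have hdM0 : 0 ≤ (d : ℝ) / (2 * M) := by positivity
    have hdM : (d : ℝ) / (2 * M) ≤ 3 / 10 := by
      rw [div_le_iff₀ (by positivity)]
      linarith
    have hy : |(y - (d : ℂ) / (2 * M)).re| < 1 / 2 + 1 / (2 * M) := by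
      have : 0 < 1 / (2 * (M : ℝ)) := by positivity
      rw [hre, abs_lt]
      constructor <;> linarith
    have dq := qS_differentiableAt hM (y := y - (d : ℂ) / (2 * M)) (v := v) (by linarith)
    have g : DifferentiableAt ℂ (fun y : ℂ => (y - (d : ℂ) / (2 * M), v)) y := by fun_prop
    exact DifferentiableAt.comp (f := fun y : ℂ => (y - (d : ℂ) / (2 * M), v))
      (g := fun p : ℂ × ℂ => qS M p.1 p.2) y dq g
  · have r2 : ((n : ℂ) - 2).re = n - 2 := by simp
    have d2 := fb_LL_diff hM ((n : ℂ) - 2) n (by rw [r2]; linarith) (by rw [r2]; linarith) hMN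
      h0 h1
    have d3 : DifferentiableAt ℂ (fun y : ℂ => ph4 n h M P (M * (1 / 2 - y))) y := by
      unfold ph4
      rcases P with _ | _
      · simp only [Bool.false_eq_true, if_false]
        fun_prop
      · simp only [if_true]
        fun_prop
    have d4 : DifferentiableAt ℂ (fun y : ℂ => 4 * Real.pi * M *
        exp (Real.pi * I * s * ph4 n h M P (M * (1 / 2 - y)))) y :=
      ((d3.const_mul _).cexp).const_mul _
    exact d4.mul d2.neg.cexp

/-! ### The terms -/

theorem F4_KF (hn : 2 ≤ n) (hh : 1 ≤ h) (hh' : 2 * h ≤ n) (e P Q : Bool) :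
    KF (F4 n h e P Q) := by
  refine ⟨fun B => ?_, ?_⟩
  · obtain ⟨C1, hC1, b1⟩ := w4C_bound hn hh hh' e
    obtain ⟨C2, hC2, b2⟩ := sC4_bound hn hh hh' P
    obtain ⟨C3, hC3, b3⟩ := sC4_bound hn hh hh' Q
    set D : ℝ := C1 + C2 + C3 with hD
    have hD0 : 0 < D := by positivity
    set p : ℕ := ⌈D⌉₊ with hp
    have hDp : D ≤ p := Nat.le_ceil _
    refine ⟨Real.exp (D * (|B| + 1)), Real.exp_pos _, p, ?_⟩
    have hlarge : ∀ᶠ M : ℕ in atTop, ((n : ℝ) + 1) / M ≤ 3 / 10 := by
      have : Tendsto (fun M : ℕ => ((n : ℝ) + 1) / M) atTop (𝓝 0) :=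
        tendsto_const_div_atTop_nhds_zero_nat _
      exact this.eventually_le_const (by norm_num)
    filter_upwards [b1, b2, b3, eventually_ge_atTop 1, hlarge] with M b1 b2 b3 hM hl σ τ y hσ hτ
      hσB hτB h0 h1
    have hM0 : (0 : ℝ) < M := by exact_mod_cast hM
    have hlM : 0 ≤ Real.log M := Real.log_natCast_nonneg M
    have h0' : -1 / 2 + (n + 1) / M ≤ y.re := by linarith
    have c1 := b1 y h0' h1
    have c2 := b2 σ y hσ h0' h1
    have c3 := b3 τ y hτ h0' h1
    have hb := abs_nonneg y.im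
    have hσ0 := σ.ht_nonneg
    have hτ0 := τ.ht_nonneg
    have hB1 : σ.ht ≤ |B| := hσB.trans (le_abs_self B)
    have hB2 : τ.ht ≤ |B| := hτB.trans (le_abs_self B)
    have hB0 := abs_nonneg B
    set Y : ℝ := 1 + Real.log M + |y.im| with hY
    have key : ‖F4 n h e P Q M σ τ y‖ ≤ Real.exp (C1 * Y) *
        ((Real.exp (C2 * (Y + σ.ht)) * Real.exp (M * se y σ)) *
        (Real.exp (C3 * (Y + τ.ht)) * Real.exp (M * se y τ))) := by
      unfold F4
      rw [norm_mul, norm_mul]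
      calc ‖w4C n h e M y‖ * (‖sC4 n h M P y σ‖ * ‖sC4 n h M Q y τ‖)
          ≤ (Real.exp (C1 * Y) * Real.exp (M * (4 * Rf (y + 1 / 2)))) *
            (‖sC4 n h M P y σ‖ * ‖sC4 n h M Q y τ‖) :=
            mul_le_mul_of_nonneg_right c1 (by positivity)
        _ = Real.exp (C1 * Y) * ((Real.exp (M * (2 * Rf (y + 1 / 2))) * ‖sC4 n h M P y σ‖) *
            (Real.exp (M * (2 * Rf (y + 1 / 2))) * ‖sC4 n h M Q y τ‖)) := by
            have : Real.exp (M * (4 * Rf (y + 1 / 2))) = Real.exp (M * (2 * Rf (y + 1 / 2))) *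
                Real.exp (M * (2 * Rf (y + 1 / 2))) := by
              rw [← Real.exp_add]
              congr 1
              ring
            rw [this]
            ring
        _ ≤ _ := by
            apply mul_le_mul_of_nonneg_left _ (Real.exp_pos _).le
            exact mul_le_mul c2 c3 (by positivity) (by positivity)
    refine key.trans ?_
    have e1 : Real.exp (C1 * Y) * ((Real.exp (C2 * (Y + σ.ht)) * Real.exp (M * se y σ)) *
        (Real.exp (C3 * (Y + τ.ht)) * Real.exp (M * se y τ))) =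
        Real.exp (D * Y + (C2 * σ.ht + C3 * τ.ht)) * Real.exp (M * EE σ τ y) := by
      unfold EE
      simp only [← Real.exp_add]
      congr 1
      rw [hD]
      ring
    rw [e1]
    apply mul_le_mul_of_nonneg_right _ (Real.exp_pos _).le
    have h5 : C2 * σ.ht + C3 * τ.ht ≤ D * |B| := by
      have := mul_le_mul_of_nonneg_left hB1 hC2.le
      have := mul_le_mul_of_nonneg_left hB2 hC3.le
      have := mul_nonneg hC1.le hB0
      rw [hD]
      nlinarith
    have hMp : Real.exp (D * Real.log M) ≤ (M : ℝ) ^ p := by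
      calc Real.exp (D * Real.log M) ≤ Real.exp (p * Real.log M) :=
            Real.exp_le_exp.2 (mul_le_mul_of_nonneg_right hDp hlM)
        _ = _ := by rw [Real.exp_nat_mul, Real.exp_log hM0]
    have h6 : D ≤ Real.exp (D * (|B| + 1)) := by
      have h7 := Real.add_one_le_exp (D * (|B| + 1))
      nlinarith [mul_nonneg hD0.le hB0]
    calc Real.exp (D * Y + (C2 * σ.ht + C3 * τ.ht))
        ≤ Real.exp (D * (|B| + 1) + D * Real.log M + D * |y.im|) := by
          apply Real.exp_le_exp.2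
          rw [hY]
          linarith
      _ = Real.exp (D * (|B| + 1)) * Real.exp (D * Real.log M) * Real.exp (D * |y.im|) := by
          rw [Real.exp_add, Real.exp_add]
      _ ≤ _ := by gcongr
  · have hlarge : ∀ᶠ M : ℕ in atTop, (n : ℝ) ≤ (3 / 10) * M - 1 := by
      filter_upwards [eventually_ge_atTop (10 * n + 10)] with M hM
      have : (10 : ℝ) * n + 10 ≤ M := by exact_mod_cast hM
      have h0 : (0 : ℝ) ≤ n := Nat.cast_nonneg n
      linarith
    filter_upwards [hlarge, eventually_gt_atTop 0] with M hMN hM σ τ y hσ hτ h0 h1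
    exact (fb_w_diff hn hh hh' e hM hMN h0 h1).mul
      ((fb_s_diff hn hh hh' P hM hMN hσ h0 h1).mul (fb_s_diff hn hh hh' Q hM hMN hτ h0 h1))

end Pool.Agent.S4
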