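import Pool.Agent.S4.G.Ks3
import Pool.Agent.S3.Ks5

/-!
# The two estimates of the kernels
-/

set_option autoImplicit false

namespace Pool.Agent.S4

open Pool.Agent.H63.VC hiding ext
open Pool.Agent.H63.VC3 Pool.Agent.H63.VC7 Pool.Agent.H25.RK Pool.Agent.S3 Pool.Agent.H63.GO
open Complex Filter Topology MeasureTheory
open scoped BigOperators Interval

variable {F : ℕ → Sl → Sl → ℂ → ℂ}

theorem KF.kb (hF : KF F) : KB (KEF F) := by
  intro N H0
  set H : ℝ := max H0 0 with hH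
  have hH0 : 0 ≤ H := le_max_right _ _
  obtain ⟨C, hC, p, h⟩ := hF.bd hH0 zero_le_one (2 * N + 1)
  refine ⟨C, hC, p, ?_⟩
  filter_upwards [h] with M h σ τ o1 o2 n1 n2 b1 b2 n hn t hh hg B hB hmid hP
  have t1 := Sl.bd_ht (H := H) hH0 n1 (by
    rcases σ with v | s
    · exact le_trans (show v.im ≤ H0 from b1) (le_max_left _ _)
    · trivial)
  have t2 := Sl.bd_ht (H := H) hH0 n2 (by
    rcases τ with v | s
    · exact le_trans (show v.im ≤ H0 from b2) (le_max_left _ _)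
    · trivial)
  have m1 : Real.pi * (σ.ht + τ.ht) ≤ B := by
    rw [mul_add, ← B0_eq n1, ← B0_eq n2]
    exact hB
  have m2 : ∀ y : ℝ, -1 / 10 ≤ y → y ≤ 0 → EE σ τ y ≤ B := fun y hy1 hy2 =>
    hmid y ⟨by linarith, hy2⟩
  refine h σ τ o1 o2 t1 t2 B m1 m2 ((hP.poly hg).pad (by omega) ⟨?_, ?_⟩)
  · refine ⟨?_, ?_, ?_⟩ <;> norm_num
  · have a1 := se_right o1 0
    have a2 := se_right o2 0
    rw [abs_zero, zero_add, ofReal_zero, zero_mul, add_zero] at a1 a2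
    have e : ((1 / 2 : ℝ) : ℂ) = 1 / 2 := by push_cast; rfl
    rw [e] at a1 a2
    unfold EE
    linarith

/-- Near the critical point the kernel is the integral over a small piece of the path, up to
exponentially small errors. -/
private theorem loc_aux (hF : KF F) {X : Type*} [TopologicalSpace X] {σ τ : X → Sl} (hσ : SlC σ)
    (hτ : SlC τ) {L : X → ℝ} (hL : Continuous L) {B H : ℝ} (hB : 0 ≤ B) (hH : 0 ≤ H) {x0 : X}
    {yc : ℂ} {r : ℝ} (hr : 0 ≤ r) (hr0 : 0 ≤ yc.re - r) (hr1 : yc.re + r ≤ 1 / 2)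
    (hE : EndS (σ x0) (τ x0) (L x0))
    (h1 : ∃ n : ℕ, Poly (slow H (σ x0) (τ x0) (L x0)) n 0 (yc - r))
    (h2 : ∃ n : ℕ, Poly (slow H (σ x0) (τ x0) (L x0)) n (yc + r) (1 / 2)) :
    ∃ δ : ℝ, 0 < δ ∧ ∃ C : ℝ, 0 < C ∧ ∃ p : ℕ, ∃ U ∈ 𝓝 x0, ∀ᶠ M : ℕ in atTop, ∀ x ∈ U,
      (σ x).ok → (τ x).ok → (σ x).ht ≤ B → (τ x).ht ≤ B →
      ‖KEF F M (σ x) (τ x) - M * ∫ s in (-r)..r, F M (σ x) (τ x) (yc + s)‖ ≤
        C * (M : ℝ) ^ p * Real.exp (M * (L x - δ)) := by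
  obtain ⟨n1, P1⟩ := h1
  obtain ⟨n2, P2⟩ := h2
  obtain ⟨δ1, hδ1, g1⟩ := hE.persist hσ hτ hL
  obtain ⟨δ2, hδ2, g2⟩ := P1.persist hσ hτ hL
  obtain ⟨δ3, hδ3, g3⟩ := P2.persist hσ hτ hL
  obtain ⟨C, hC, p, hb⟩ := hF.piece hB hH n1 n2
  set δ : ℝ := min δ1 (min δ2 δ3) with hδ
  have l1 : δ ≤ δ1 := min_le_left _ _
  have l2 : δ ≤ δ2 := (min_le_right _ _).trans (min_le_left _ _)
  have l3 : δ ≤ δ3 := (min_le_right _ _).trans (min_le_right _ _)
  refine ⟨δ, lt_min hδ1 (lt_min hδ2 hδ3), C, hC, p, _,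
    (g1 _ l1).and ((g2 _ l2).and (g3 _ l3)), ?_⟩
  filter_upwards [hb] with M hb x hx o1 o2 o3 o4
  obtain ⟨u1, u2, u3⟩ := hx
  exact hb _ _ o1 o2 o3 o4 _ u1.1 u1.2 yc r hr hr0 hr1 u2 u3

private theorem nn_of_ups {σ : Sl} (h : ups σ) : σ.nn := by
  rcases σ with v | s
  · exact le_of_lt (show 0 < v.im from h)
  · trivial

theorem KF.kl (hF : KF F) : KL (KEF F) F := by
  intro σ0 τ0 yc L o1 o2 up1 up2 hC
  have n1 := nn_of_ups up1
  have n2 := nn_of_ups up2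
  obtain ⟨c1, c2, _, n, t, h, hg, hP, i, hi, hi1, hi2, hi3⟩ := hC
  obtain ⟨p1, p2, p3, p4⟩ := hP.box hg
  have hn := hg.n1
  refine ⟨min (yc.re - t i) (t (i + 1) - yc.re), lt_min (by linarith) (by linarith), ?_⟩
  intro r hr hr1
  have hra : r ≤ yc.re - t i := hr1.trans (min_le_left _ _)
  have hrb : r ≤ t (i + 1) - yc.re := hr1.trans (min_le_right _ _)
  have hti := hg.nonneg (i := i) (by omega)
  have hti' := hg.le_half (i := i + 1) (by omega)
  -- the strict inequality away from the critical point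
  have hS : ∀ x y : ℝ, x ≠ yc.re → ((x : ℂ) + y * I ∈ bxy 1 ∧
      (EE σ0 τ0 ((x : ℂ) + y * I) < L ∨ (x : ℂ) + y * I = yc)) →
      (x : ℂ) + y * I ∈ slow 1 σ0 τ0 L := by
    intro x y hx hz
    refine ⟨hz.1, ?_⟩
    rcases hz.2 with h | h
    · exact h
    · exfalso
      apply hx
      rw [← h, line_re]
  have q1 : ∀ j < n, j ≠ i → ∀ x ∈ Set.Icc (t j) (t (j + 1)),
      (x : ℂ) + h j * I ∈ slow 1 σ0 τ0 L := by
    intro j hj hji x hx
    apply hS _ _ _ (p1 j hj x hx)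
    rcases Nat.lt_or_gt_of_ne hji with h' | h'
    · have := hg.tmono (i := j + 1) (j := i) (by omega) (by omega)
      have := hx.2
      intro he
      linarith
    · have := hg.tmono (i := i + 1) (j := j) (by omega) (by omega)
      have := hx.1
      intro he
      linarith
  have q2 : ∀ Y ∈ Set.uIcc 0 (h 0), (t 0 : ℂ) + Y * I ∈ slow 1 σ0 τ0 L := by
    intro Y hY
    apply hS _ _ _ (p2 Y hY)
    have := hg.tmono (i := 0) (j := i) (by omega) (by omega)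
    intro he
    linarith
  have q3 : ∀ j, j + 1 < n → ∀ Y ∈ Set.uIcc (h j) (h (j + 1)),
      (t (j + 1) : ℂ) + Y * I ∈ slow 1 σ0 τ0 L := by
    intro j hj Y hY
    apply hS _ _ _ (p3 j hj Y hY)
    rcases Nat.lt_or_ge j i with h' | h'
    · have := hg.tmono (i := j + 1) (j := i) (by omega) (by omega)
      intro he
      linarith
    · have := hg.tmono (i := i + 1) (j := j + 1) (by omega) (by omega)
      intro he
      linarith
  have q4 : ∀ Y ∈ Set.uIcc (h (n - 1)) 0, (t n : ℂ) + Y * I ∈ slow 1 σ0 τ0 L := by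
    intro Y hY
    apply hS _ _ _ (p4 Y hY)
    have := hg.tmono (i := i + 1) (j := n) (by omega) (by omega)
    intro he
    linarith
  have q5 : ∀ x ∈ Set.Icc (t i) (t (i + 1)), x ≠ yc.re → (x : ℂ) + h i * I ∈ slow 1 σ0 τ0 L :=
    fun x hx hne => hS _ _ hne (p1 i hi x hx)
  have ey : yc = (yc.re : ℂ) + h i * I := by
    rw [← hi3, re_add_im]
  have P1 : Poly (slow 1 σ0 τ0 L) (2 * i + 1 + 1) 0 (yc - r) := by
    have a1 := pre_poly (S := slow 1 σ0 τ0 L) (t := t) (h := h) q2 hg.t0 i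
      (fun j hj => hg.mono j (by omega)) (fun j hj => q1 j (by omega) (by omega))
      (fun j hj => q3 j (by omega))
    have e : yc - r = ((yc.re - r : ℝ) : ℂ) + h i * I := by
      conv_lhs => rw [ey]
      push_cast
      ring
    rw [e]
    refine a1.snoc (segment_h (by linarith) fun x hx => q5 x ⟨hx.1, by linarith [hx.2]⟩ ?_)
    intro he
    linarith [hx.2]
  have P2 : Poly (slow 1 σ0 τ0 L) (1 + (2 * (n - i - 1) + 1)) (yc + r) (1 / 2) := by
    have a1 := suf_poly (S := slow 1 σ0 τ0 L) (t := t) (h := h) (n := n) q4 (n - i - 1) i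
      (by omega) (fun j h1 h2 => hg.mono j (by omega)) (fun j h1 h2 => q1 j (by omega) (by omega))
      (fun j h1 h2 => q3 j (by omega))
    have e : yc + r = ((yc.re + r : ℝ) : ℂ) + h i * I := by
      conv_lhs => rw [ey]
      push_cast
      ring
    have e2 : ((t n : ℝ) : ℂ) = 1 / 2 := by
      rw [hg.tn]
      push_cast
      rfl
    rw [e2] at a1
    rw [e]
    refine (Poly.seg (segment_h (by linarith) fun x hx => q5 x ⟨by linarith [hx.1], hx.2⟩ ?_)).trans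
      a1
    intro he
    linarith [hx.1]
  have hE : EndS σ0 τ0 L := by
    refine ⟨?_, fun y h1 h2 => c2 y ⟨by linarith, h2⟩⟩
    rw [mul_add, ← B0_eq n1, ← B0_eq n2]
    exact c1
  have s1 : SlC fun x : ℂ × ℂ => σ0.mk' x.1 := σ0.mk_cont continuous_fst
  have s2 : SlC fun x : ℂ × ℂ => τ0.mk' x.2 := τ0.mk_cont continuous_snd
  obtain ⟨δ, hδ, K, hK, p, U, hU, hloc⟩ := loc_aux hF (x0 := (σ0.pt, τ0.pt)) s1 s2
    (L := fun _ => L) continuous_const (B := σ0.ht + τ0.ht + 1) (H := 1)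
    (by
      have := σ0.ht_nonneg
      have := τ0.ht_nonneg
      linarith) zero_le_one hr.le (yc := yc) (by linarith) (by linarith)
    (by simpa only [Sl.mk_pt] using hE)
    ⟨_, by simpa only [Sl.mk_pt] using P1⟩ ⟨_, by simpa only [Sl.mk_pt] using P2⟩
  obtain ⟨ρ0, hρ0, hl⟩ := Metric.mem_nhds_iff.1 hU
  refine ⟨min ρ0 1, lt_min hρ0 one_pos, δ, hδ, K, hK, p, ?_⟩
  filter_upwards [hloc] with M hM σ τ k1 k2 _ _ m1 m2
  obtain ⟨w1, hw1, e1⟩ := Sl.near_mk (lt_min hρ0 one_pos) m1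
  obtain ⟨w2, hw2, e2⟩ := Sl.near_mk (lt_min hρ0 one_pos) m2
  have hd : ((w1, w2) : ℂ × ℂ) ∈ U := by
    apply hl
    rw [Metric.mem_ball, Prod.dist_eq, max_lt_iff, dist_eq_norm, dist_eq_norm]
    exact ⟨hw1.trans_le (min_le_left _ _), hw2.trans_le (min_le_left _ _)⟩
  have t1 := Sl.near_ht m1 (min_le_right _ _)
  have t2 := Sl.near_ht m2 (min_le_right _ _)
  have u1 := σ0.ht_nonneg
  have u2 := τ0.ht_nonneg
  have := hM (w1, w2) hd
  simp only [← e1, ← e2] at this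
  exact this k1 k2 (by linarith) (by linarith)

end Pool.Agent.S4
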