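import Pool.Agent.S4.G.Int
import Pool.Agent.S4.G.FB
import Pool.Agent.S4.G.Ks5

/-!
# The bound of the kernels
-/

set_option autoImplicit false

namespace Pool.Agent.S4

open Pool.Agent.H63.VC hiding ext
open Pool.Agent.H63.VC3 Pool.Agent.H63.VC7 Pool.Agent.H25.RK Pool.Agent.S3 Pool.Agent.H63.GO
open Complex Filter Topology MeasureTheory
open scoped BigOperators Interval

variable {n h : ℕ}

/-! ### The oscillation of `Rf` -/

private theorem rf_v0 {x a b : ℝ} (h0 : 1 / 2 ≤ x) (h1 : x ≤ 1) (h : |a| ≤ |b|) :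
    |Rf ((x : ℂ) + b * I) - Rf ((x : ℂ) + a * I)| ≤ 2 * |b - a| := by
  have k1 := Rf_incr h h0
  have k2 := Rf_incr h h1
  have k3 : |b| - |a| ≤ |b - a| := abs_sub_abs_le_abs_sub b a
  have hpi := Real.pi_le_four
  have hpi' := Real.pi_pos
  rw [Rf_half, Rf_half] at k1
  rw [Rf_one_line, Rf_one_line] at k2
  rw [abs_le]
  constructor
  · have := abs_nonneg (b - a)
    linarith
  · nlinarith

private theorem rf_v1 {x a b : ℝ} (h0 : 1 / 2 ≤ x) (h1 : x ≤ 1) :
    |Rf ((x : ℂ) + b * I) - Rf ((x : ℂ) + a * I)| ≤ 2 * |b - a| := by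
  rcases le_total |a| |b| with h | h
  · exact rf_v0 h0 h1 h
  · have := rf_v0 h0 h1 h
    rwa [abs_sub_comm, abs_sub_comm b a]

private theorem rf_v2 {x a b : ℝ} (h0 : 0 ≤ x) (h1 : x ≤ 1) :
    |Rf ((x : ℂ) + b * I) - Rf ((x : ℂ) + a * I)| ≤ 2 * |b - a| := by
  rcases le_total (1 / 2) x with h | h
  · exact rf_v1 h h1
  · have k1 := Rf_one_sub_line (1 - x) a
    have k2 := Rf_one_sub_line (1 - x) b
    rw [sub_sub_cancel] at k1 k2
    rw [k1, k2]
    have k3 := rf_v1 (x := 1 - x) (a := b) (b := a) (by linarith) (by linarith)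
    rw [abs_sub_comm a b] at k3
    rwa [neg_sub_neg]

private theorem rf_v {x a b : ℝ} (h0 : -1 ≤ x) (h1 : x ≤ 2) :
    |Rf ((x : ℂ) + b * I) - Rf ((x : ℂ) + a * I)| ≤ 6 * |b - a| := by
  have hpi := Real.pi_le_four
  have hpi' := Real.pi_pos
  have k3 : |(|b| - |a|)| ≤ |b - a| := abs_abs_sub_abs_le b a
  have k4 := abs_nonneg (b - a)
  rw [abs_le] at k3
  have hs : ∀ t c : ℝ, Rf (((t + 1 : ℝ) : ℂ) + c * I) = Rf ((t : ℂ) + c * I) + Real.pi * |c| := by
    intro t c
    have := Rf_add_one ((t : ℂ) + c * I)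
    rw [line_im] at this
    rw [← this]
    congr 1
    push_cast
    ring
  rcases le_total x 0 with h | h
  · have k1 := hs x a
    have k2 := hs x b
    have k5 := rf_v2 (x := x + 1) (a := a) (b := b) (by linarith) (by linarith)
    rw [k1, k2, abs_le] at k5
    rw [abs_le]
    constructor <;> nlinarith [k5.1, k5.2]
  · rcases le_total x 1 with h' | h'
    · exact (rf_v2 h h').trans (by linarith)
    · have k1 := hs (x - 1) a
      have k2 := hs (x - 1) b
      rw [sub_add_cancel] at k1 k2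
      have k5 := rf_v2 (x := x - 1) (a := a) (b := b) (by linarith) (by linarith)
      rw [abs_le] at k5
      rw [k1, k2, abs_le]
      constructor <;> nlinarith [k5.1, k5.2]

private theorem rf_h : ∃ C : ℝ, 0 < C ∧ ∀ (k M : ℕ), 1 ≤ M → ∀ (ζ : ℂ) (δ : ℝ), 0 ≤ δ →
    δ ≤ k / (2 * M) → |M * Rf (ζ - δ) - M * Rf ζ| ≤ k * (C * (1 + Real.log M + |ζ.im|)) := by
  obtain ⟨C, hC, h⟩ := Rf_shift'
  refine ⟨C, hC, fun k => ?_⟩
  induction k with
  | zero =>
    intro M hM ζ δ h0 h1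
    have : δ = 0 := by
      apply le_antisymm _ h0
      simpa using h1
    rw [this]
    simp
  | succ k ih =>
    intro M hM ζ δ h0 h1
    have hM0 : (0 : ℝ) < M := by exact_mod_cast hM
    have hlM : 0 ≤ Real.log M := Real.log_natCast_nonneg M
    have hX : 0 ≤ C * (1 + Real.log M + |ζ.im|) := by positivity
    rcases le_total δ (k / (2 * M)) with h2 | h2
    · refine (ih M hM ζ δ h0 h2).trans ?_
      push_cast
      nlinarith
    · have h3 := ih M hM ζ (k / (2 * M)) (by positivity) le_rfl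
      have h4 : δ - k / (2 * M) ≤ 1 / (2 * M) := by
        push_cast at h1
        rw [add_div] at h1
        linarith
      have h5 := h M hM (ζ - ((k / (2 * M) : ℝ) : ℂ)) (δ - k / (2 * M)) (by linarith) h4
      have e1 : ζ - ((k / (2 * M) : ℝ) : ℂ) - ((δ - k / (2 * M) : ℝ) : ℂ) = ζ - δ := by
        push_cast
        ring
      have e2 : (ζ - ((k / (2 * M) : ℝ) : ℂ)).im = ζ.im := by
        rw [sub_im, ofReal_im, sub_zero]
      rw [e1, e2] at h5
      have e3 : M * Rf (ζ - δ) - M * Rf ζ =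
          (M * Rf (ζ - δ) - M * Rf (ζ - ((k / (2 * M) : ℝ) : ℂ))) +
            (M * Rf (ζ - ((k / (2 * M) : ℝ) : ℂ)) - M * Rf ζ) := by
        ring
      rw [e3]
      refine (abs_add_le _ _).trans ?_
      rw [Nat.cast_add, Nat.cast_one]
      linarith

private theorem rf_near (R : ℕ) : ∃ C : ℝ, 0 < C ∧ ∀ M : ℕ, 1 ≤ M → ∀ z z' : ℂ,
    -1 ≤ z'.re → z'.re ≤ 2 → ‖z' - z‖ ≤ R / (2 * M) →
    |M * Rf z' - M * Rf z| ≤ C * (1 + Real.log M + |z.im|) := by
  obtain ⟨C, hC, h⟩ := rf_h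
  refine ⟨R * C + 3 * R + 1, by positivity, fun M hM z z' h0 h1 hz => ?_⟩
  have hM0 : (0 : ℝ) < M := by exact_mod_cast hM
  have hlM : 0 ≤ Real.log M := Real.log_natCast_nonneg M
  have hre : |z'.re - z.re| ≤ R / (2 * M) := by
    rw [← sub_re]
    exact (abs_re_le_norm _).trans hz
  have him : |z'.im - z.im| ≤ R / (2 * M) := by
    rw [← sub_im]
    exact (abs_im_le_norm _).trans hz
  have e1 : z' = (z'.re : ℂ) + z'.im * I := (re_add_im z').symm
  have e2 : z = (z.re : ℂ) + z.im * I := (re_add_im z).symm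
  have a1 := rf_v (x := z'.re) (a := z.im) (b := z'.im) h0 h1
  rw [← e1] at a1
  have a2 : |M * Rf z' - M * Rf ((z'.re : ℂ) + z.im * I)| ≤ 3 * R := by
    rw [← mul_sub, abs_mul, abs_of_pos hM0]
    calc (M : ℝ) * |Rf z' - Rf ((z'.re : ℂ) + z.im * I)| ≤ M * (6 * (R / (2 * M))) := by
          apply mul_le_mul_of_nonneg_left _ hM0.le
          linarith
      _ = 3 * R := by
          field_simp
          ring
  have a3 : |M * Rf ((z'.re : ℂ) + z.im * I) - M * Rf z| ≤
      R * (C * (1 + Real.log M + |z.im|)) := by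
    rw [abs_le] at hre
    rcases le_total z'.re z.re with h2 | h2
    · have h3 := h R M hM z (z.re - z'.re) (by linarith) (by linarith [hre.1])
      have e3 : z - ((z.re - z'.re : ℝ) : ℂ) = (z'.re : ℂ) + z.im * I := by
        nth_rewrite 1 [e2]
        push_cast
        ring
      rwa [e3] at h3
    · have h3 := h R M hM ((z'.re : ℂ) + z.im * I) (z'.re - z.re) (by linarith)
        (by linarith [hre.2])
      have e3 : (z'.re : ℂ) + z.im * I - ((z'.re - z.re : ℝ) : ℂ) = z := by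
        conv_rhs => rw [e2]
        push_cast
        ring
      rw [e3, line_im, abs_sub_comm] at h3
      exact h3
  have e4 : M * Rf z' - M * Rf z = (M * Rf z' - M * Rf ((z'.re : ℂ) + z.im * I)) +
      (M * Rf ((z'.re : ℂ) + z.im * I) - M * Rf z) := by ring
  rw [e4]
  refine (abs_add_le _ _).trans ?_
  have := abs_nonneg z.im
  have p1 : 0 ≤ 3 * (R : ℝ) * (Real.log M + |z.im|) := by positivity
  nlinarith

private theorem se_near (R : ℕ) : ∃ C : ℝ, 0 < C ∧ ∀ M : ℕ, 1 ≤ M → 2 * R ≤ M →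
    ∀ v v' y : ℂ, |v.re| ≤ 1 / 2 → |v.im| ≤ 1 → ‖v' - v‖ ≤ R / (2 * M) → -1 / 10 ≤ y.re →
    y.re ≤ 1 / 2 → |y.im| ≤ 1 →
    M * se y (.op v') ≤ M * se y (.op v) + C * (1 + Real.log M) := by
  obtain ⟨C, hC, h⟩ := rf_near R
  refine ⟨6 * C, by positivity, fun M hM hR v v' y hv hv' hz y0 y1 y2 => ?_⟩
  have hM0 : (0 : ℝ) < M := by exact_mod_cast hM
  have hlM : 0 ≤ Real.log M := Real.log_natCast_nonneg M
  have hR' : (R : ℝ) / (2 * M) ≤ 1 / 4 := by
    rw [div_le_div_iff₀ (by positivity) (by norm_num)]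
    have : (2 : ℝ) * R ≤ M := by exact_mod_cast hR
    linarith
  have hre : |v'.re - v.re| ≤ 1 / 4 := by
    rw [← sub_re]
    exact (abs_re_le_norm _).trans (hz.trans hR')
  rw [abs_le] at hre hv hv' y2
  have A := h M hM (y - v) (y - v') (by rw [sub_re]; linarith) (by rw [sub_re]; linarith)
    (by rw [sub_sub_sub_cancel_left, norm_sub_rev]; exact hz)
  have B := h M hM (y + v) (y + v') (by rw [add_re]; linarith) (by rw [add_re]; linarith)
    (by rw [add_sub_add_left_eq_sub]; exact hz)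
  have m1 : |(y - v).im| ≤ 2 := by
    rw [sub_im, abs_le]
    constructor <;> linarith
  have m2 : |(y + v).im| ≤ 2 := by
    rw [add_im, abs_le]
    constructor <;> linarith
  rw [abs_le] at A B
  unfold se
  simp only
  have n1 : C * (1 + Real.log M + |(y - v).im|) ≤ 3 * C * (1 + Real.log M) := by
    have : 0 ≤ C * Real.log M := by positivity
    nlinarith
  have n2 : C * (1 + Real.log M + |(y + v).im|) ≤ 3 * C * (1 + Real.log M) := by
    have : 0 ≤ C * Real.log M := by positivity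
    nlinarith
  linarith [A.1, B.1]

/-! ### Symmetries -/

private theorem se_sub_one (y v : ℂ) :
    se y (.op (v - 1)) ≤ se y (.op v) + 2 * Real.pi * |v.im| := by
  have hpi := Real.pi_pos
  have h1 := Rf_add_one (y - v)
  have h2 := Rf_add_one (y + v - 1)
  rw [sub_add_cancel] at h2
  have e1 : y - (v - 1) = y - v + 1 := by ring
  have e2 : y + (v - 1) = y + v - 1 := by ring
  have e3 : (y + v - 1).im = y.im + v.im := by simp
  have e4 : (y - v).im = y.im - v.im := by simp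
  unfold se
  simp only
  rw [e1, e2, h1, h2, e3, e4]
  have h3 : |y.im + v.im| ≤ |y.im - v.im| + 2 * |v.im| := by
    have h4 := abs_add_le (y.im - v.im) (2 * v.im)
    rw [abs_mul, abs_two, show y.im - v.im + 2 * v.im = y.im + v.im by ring] at h4
    exact h4
  nlinarith

private theorem q4_neg (M d t : ℕ) (v : ℂ) : q4 M d t (-v) = q4 M d t v := by
  unfold q4
  congr 1
  apply Finset.prod_congr rfl
  intro i _
  have e1 : (Real.pi : ℂ) * (-v + ((i : ℂ) + (d + 1) / 2) / M) =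
      -(Real.pi * (v - ((i : ℂ) + (d + 1) / 2) / M)) := by ring
  have e2 : (Real.pi : ℂ) * (-v - ((i : ℂ) + (d + 1) / 2) / M) =
      -(Real.pi * (v + ((i : ℂ) + (d + 1) / 2) / M)) := by ring
  rw [e1, e2, cos_neg, cos_neg]
  ring

private theorem cos_sub_one (z : ℂ) : cos (Real.pi * (z - 1)) = -cos (Real.pi * z) := by
  rw [mul_sub, mul_one, cos_sub_pi]

private theorem q4_sub_one (M d t : ℕ) (v : ℂ) : q4 M d t (v - 1) = q4 M d t v := by
  unfold q4
  congr 1
  apply Finset.prod_congr rfl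
  intro i _
  have e1 : v - 1 + ((i : ℂ) + (d + 1) / 2) / M = v + ((i : ℂ) + (d + 1) / 2) / M - 1 := by ring
  have e2 : v - 1 - ((i : ℂ) + (d + 1) / 2) / M = v - ((i : ℂ) + (d + 1) / 2) / M - 1 := by ring
  rw [e1, e2, cos_sub_one, cos_sub_one]
  ring

private theorem Wd_neg (M d : ℕ) (v : ℂ) : Wd M d (-v) = Wd M d v := by
  unfold Wd
  rw [← Finset.prod_range_reflect]
  apply Finset.prod_congr rfl
  intro j hj
  have hj' : j + 1 ≤ d := Finset.mem_range.mp hj
  have e0 : ((d - 1 - j : ℕ) : ℂ) = (d : ℂ) - 1 - j := by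
    rw [Nat.sub_sub, Nat.cast_sub (by omega)]
    push_cast
    ring
  rw [e0]
  have e1 : (Real.pi : ℂ) * (-v + ((d : ℂ) - 1 - j + 1 / 2 - d / 2) / M) =
      -(Real.pi * (v + ((j : ℂ) + 1 / 2 - d / 2) / M)) := by ring
  rw [e1, cos_neg]

private theorem Wd_sub_one (M d : ℕ) (v : ℂ) : ‖Wd M d (v - 1)‖ = ‖Wd M d v‖ := by
  unfold Wd
  rw [_root_.norm_prod, _root_.norm_prod]
  apply Finset.prod_congr rfl
  intro j _
  have e1 : v - 1 + ((j : ℂ) + 1 / 2 - d / 2) / M = v + ((j : ℂ) + 1 / 2 - d / 2) / M - 1 := by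
    ring
  rw [e1, cos_sub_one, mul_neg, norm_neg]

/-- The representative of a point modulo the symmetries. -/
private theorem rep (v : ℂ) (hv : |v.re| ≤ 3 / 2) : ∃ u : ℂ, |u.re| ≤ 1 / 2 ∧ u.im = |v.im| ∧
    (∀ y, se y (.op u) ≤ se y (.op v) + 2 * Real.pi * |v.im|) ∧
    (∀ M d t, q4 M d t u = q4 M d t v) ∧ ∀ M d, ‖Wd M d u‖ = ‖Wd M d v‖ := by
  have hpi := Real.pi_pos
  have hp : 0 ≤ 2 * Real.pi * |v.im| := by positivity
  -- points with `-1/2 ≤ re`
  have key : ∀ w : ℂ, -(1 / 2) ≤ w.re → w.re ≤ 3 / 2 → 0 ≤ w.im → ∃ u : ℂ, |u.re| ≤ 1 / 2 ∧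
      u.im = w.im ∧ (∀ y, se y (.op u) ≤ se y (.op w) + 2 * Real.pi * |w.im|) ∧
      (∀ M d t, q4 M d t u = q4 M d t w) ∧ ∀ M d, ‖Wd M d u‖ = ‖Wd M d w‖ := by
    intro w h0 h1 h2
    have hp : 0 ≤ 2 * Real.pi * |w.im| := by positivity
    rcases le_total w.re (1 / 2) with h3 | h3
    · exact ⟨w, abs_le.mpr ⟨h0, h3⟩, rfl, fun y => by linarith, fun _ _ _ => rfl, fun _ _ => rfl⟩
    · refine ⟨w - 1, ?_, by simp, fun y => se_sub_one y w, fun M d t => q4_sub_one M d t w,
        fun M d => Wd_sub_one M d w⟩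
      rw [sub_re, one_re, abs_le]
      constructor <;> linarith
  have key2 : ∀ w : ℂ, |w.re| ≤ 3 / 2 → 0 ≤ w.im → ∃ u : ℂ, |u.re| ≤ 1 / 2 ∧
      u.im = w.im ∧ (∀ y, se y (.op u) ≤ se y (.op w) + 2 * Real.pi * |w.im|) ∧
      (∀ M d t, q4 M d t u = q4 M d t w) ∧ ∀ M d, ‖Wd M d u‖ = ‖Wd M d w‖ := by
    intro w h0 h2
    rw [abs_le] at h0
    rcases le_total (-(1 / 2)) w.re with h3 | h3
    · exact key w h3 h0.2 h2
    · -- `w + 1` has real part between `-1/2` and `1/2`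
      have hp : 0 ≤ 2 * Real.pi * |w.im| := by positivity
      refine ⟨w + 1, ?_, by simp, fun y => ?_, fun M d t => ?_, fun M d => ?_⟩
      · rw [add_re, one_re, abs_le]
        constructor <;> linarith
      · have h4 := se_sub_one y (-w)
        rw [show -w - 1 = -(w + 1) by ring, se_op_neg, se_op_neg, neg_im, abs_neg] at h4
        exact h4
      · have h4 := q4_sub_one M d t (w + 1)
        rw [add_sub_cancel_right] at h4
        exact h4.symm
      · have h4 := Wd_sub_one M d (w + 1)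
        rw [add_sub_cancel_right] at h4
        exact h4.symm
  rcases le_total 0 v.im with h | h
  · obtain ⟨u, u1, u2, u3, u4, u5⟩ := key2 v hv h
    exact ⟨u, u1, by rw [u2, abs_of_nonneg h], u3, u4, u5⟩
  · obtain ⟨u, u1, u2, u3, u4, u5⟩ := key2 (-v) (by rw [neg_re, abs_neg]; exact hv)
      (by rw [neg_im]; linarith)
    refine ⟨u, u1, by rw [u2, neg_im, abs_of_nonpos h], fun y => ?_, fun M d t => ?_,
      fun M d => ?_⟩
    · have := u3 y
      rwa [se_op_neg, neg_im, abs_neg] at this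
    · rw [u4, q4_neg]
    · rw [u5, Wd_neg]

/-! ### The maximum principle -/

private theorem sin_lb {z : ℂ} {k : ℤ} (h : |z.re - k| ≤ 1 / 2) :
    2 * ‖z - k‖ ≤ ‖sin (Real.pi * z)‖ := by
  have hpi := Real.pi_gt_three
  apply (sq_le_sq₀ (by positivity) (norm_nonneg _)).mp
  have e1 : ‖sin (Real.pi * z)‖ ^ 2 = Real.sin (Real.pi * z.re) ^ 2 +
      Real.sinh (Real.pi * z.im) ^ 2 := by
    rw [← norm_sin_pi_sq, re_add_im]
  have e2 : ‖z - k‖ ^ 2 = (z.re - k) ^ 2 + z.im ^ 2 := by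
    rw [← normSq_eq_norm_sq, normSq_apply]
    simp
    ring
  rw [e1, mul_pow, e2]
  have h1 : Real.sin (Real.pi * z.re) ^ 2 = Real.sin (Real.pi * (z.re - k)) ^ 2 := by
    have : Real.pi * (z.re - k) = Real.pi * z.re - k * Real.pi := by ring
    rw [this, Real.sin_sub_int_mul_pi, mul_pow]
    have h2 : ((-1 : ℝ) ^ k) ^ 2 = 1 := by
      rw [← zpow_natCast, ← zpow_mul, mul_comm, zpow_mul]
      norm_num
    rw [h2, one_mul]
  have h2 : (2 * (z.re - k)) ^ 2 ≤ Real.sin (Real.pi * (z.re - k)) ^ 2 := by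
    rw [← sq_abs, ← sq_abs (Real.sin _)]
    have h3 : |Real.pi * (z.re - k)| ≤ Real.pi / 2 := by
      rw [abs_mul, abs_of_pos Real.pi_pos]
      nlinarith
    have h4 := Real.mul_abs_le_abs_sin h3
    have h5 : 2 / Real.pi * |Real.pi * (z.re - k)| = |2 * (z.re - k)| := by
      rw [abs_mul, abs_mul, abs_of_pos Real.pi_pos, abs_two]
      field_simp
    rw [h5] at h4
    exact pow_le_pow_left₀ (abs_nonneg _) h4 2
  have h3 : (2 * z.im) ^ 2 ≤ Real.sinh (Real.pi * z.im) ^ 2 := by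
    rw [← sq_abs, ← sq_abs (Real.sinh _)]
    have h4 : |2 * z.im| ≤ |Real.sinh (Real.pi * z.im)| := by
      rw [Real.abs_sinh]
      have h5 := Real.self_le_sinh_iff.mpr (abs_nonneg (Real.pi * z.im))
      refine le_trans ?_ h5
      rw [abs_mul, abs_mul, abs_two, abs_of_pos Real.pi_pos]
      nlinarith [abs_nonneg z.im]
    exact pow_le_pow_left₀ (abs_nonneg _) h4 2
  rw [h1]
  nlinarith

private theorem maxp {M : ℕ} (hM : 1 ≤ M) {f : ℂ → ℂ} (hf : Differentiable ℂ f) {a A : ℝ} {v : ℂ}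
    (h : ∀ z : ℂ, ‖z - v‖ ≤ 1 / (4 * M) → ‖2 * cos (Real.pi * (z + a)) * f z‖ ≤ A) :
    ‖f v‖ ≤ 2 * M * A := by
  have hM1 : (1 : ℝ) ≤ M := by exact_mod_cast hM
  have hM0 : (0 : ℝ) < M := by linarith
  have hA : 0 ≤ A := (norm_nonneg _).trans (h v (by rw [sub_self, norm_zero]; positivity))
  set k : ℤ := round (v.re + a + 1 / 2) with hk
  have hk' : |v.re + a + 1 / 2 - k| ≤ 1 / 2 := abs_sub_round _
  have key : ∀ z : ℂ, ‖z - v‖ ≤ 1 / (4 * M) → |z.re + a + 1 / 2 - k| ≤ 1 / 2 →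
      1 / (8 * M) ≤ ‖z + a + 1 / 2 - k‖ → ‖f z‖ ≤ 2 * M * A := by
    intro z h1 h2 h3
    have h4 := h z h1
    have e1 : cos (Real.pi * (z + a)) = sin (Real.pi * (z + a + 1 / 2)) := by
      rw [show (Real.pi : ℂ) * (z + a + 1 / 2) = Real.pi * (z + a) + Real.pi / 2 by ring,
        sin_add_pi_div_two]
    have e2 : (z + (a : ℂ) + 1 / 2).re = z.re + a + 1 / 2 := by
      simp
    have h5 := sin_lb (z := z + (a : ℂ) + 1 / 2) (k := k) (by rw [e2]; exact h2)
    rw [e1, norm_mul, norm_mul, norm_ofNat] at h4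
    have h6 : 1 / (2 * M) ≤ 2 * ‖sin (Real.pi * (z + a + 1 / 2))‖ := by
      calc (1 : ℝ) / (2 * M) = 4 * (1 / (8 * M)) := by
            field_simp
            ring
        _ ≤ 4 * ‖z + a + 1 / 2 - k‖ := by linarith
        _ ≤ 2 * ‖sin (Real.pi * (z + a + 1 / 2))‖ := by linarith
    have h7 : 1 / (2 * M) * ‖f z‖ ≤ A := le_trans (mul_le_mul_of_nonneg_right h6 (norm_nonneg _)) h4
    have h8 : ‖f z‖ = 2 * M * (1 / (2 * M) * ‖f z‖) := by
      field_simp
    rw [h8]
    exact mul_le_mul_of_nonneg_left h7 (by positivity)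
  rcases le_total (1 / (8 * (M : ℝ))) ‖v + a + 1 / 2 - k‖ with h1 | h1
  · exact key v (by rw [sub_self, norm_zero]; positivity) hk' h1
  · have hr : (0 : ℝ) < 1 / (4 * M) := by positivity
    have e8 : (1 : ℝ) / (4 * M) = 2 * (1 / (8 * M)) := by
      field_simp
      ring
    have h8 : (1 : ℝ) / (8 * M) ≤ 1 / 8 := by
      rw [div_le_div_iff₀ (by positivity) (by norm_num)]
      linarith
    refine Complex.norm_le_of_forall_mem_frontier_norm_le (U := Metric.ball v (1 / (4 * M)))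
      Metric.isBounded_ball hf.diffContOnCl (fun z hz => ?_) (subset_closure
        (Metric.mem_ball_self hr))
    rw [frontier_ball v hr.ne', mem_sphere_iff_norm] at hz
    have h2 : 1 / (8 * M) ≤ ‖z + a + 1 / 2 - k‖ := by
      have h3 : ‖z - v‖ ≤ ‖z + a + 1 / 2 - k‖ + ‖v + a + 1 / 2 - k‖ := by
        have h4 := norm_sub_le (z + a + 1 / 2 - (k : ℂ)) (v + a + 1 / 2 - (k : ℂ))
        rwa [show z + a + 1 / 2 - (k : ℂ) - (v + a + 1 / 2 - (k : ℂ)) = z - v by ring] at h4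
      rw [hz] at h3
      linarith
    refine key z hz.le ?_ h2
    have h3 : |z.re - v.re| ≤ 1 / (4 * M) := by
      rw [← sub_re, ← hz]
      exact abs_re_le_norm _
    have h4 : |v.re + a + 1 / 2 - k| ≤ 1 / (8 * M) := by
      have h5 := (abs_re_le_norm (v + a + 1 / 2 - k)).trans h1
      have e2 : (v + (a : ℂ) + 1 / 2 - k).re = v.re + a + 1 / 2 - k := by
        simp
      rwa [e2] at h5
    rw [abs_le] at h3 h4 ⊢
    constructor <;> linarith [h3.1, h3.2, h4.1, h4.2]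

private theorem maxd {M : ℕ} (hM : 1 ≤ M) (c : ℕ → ℝ) {A : ℝ} (d : ℕ) : ∀ {f : ℂ → ℂ},
    Differentiable ℂ f → ∀ {v : ℂ}, (∀ z : ℂ, ‖z - v‖ ≤ d / (4 * M) →
      ‖(∏ j ∈ Finset.range d, (2 * cos (Real.pi * (z + c j)))) * f z‖ ≤ A) →
    ‖f v‖ ≤ (2 * M) ^ d * A := by
  induction d with
  | zero =>
    intro f hf v h
    have := h v (by simp)
    simpa using this
  | succ d ih =>
    intro f hf v h
    have hM0 : (0 : ℝ) < M := by exact_mod_cast hM
    have hg : Differentiable ℂ fun z => 2 * cos (Real.pi * (z + c d)) * f z := by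
      fun_prop
    have h1 : ‖f v‖ ≤ 2 * M * ((2 * M) ^ d * A) := by
      refine maxp hM hf (a := c d) fun z hz => ?_
      refine ih hg fun w hw => ?_
      have h2 : ‖w - v‖ ≤ ((d + 1 : ℕ) : ℝ) / (4 * M) := by
        have h3 : ‖w - v‖ ≤ ‖w - z‖ + ‖z - v‖ := norm_sub_le_norm_sub_add_norm_sub w z v
        push_cast
        rw [add_div]
        linarith
      have h3 := h w h2
      rw [Finset.prod_range_succ] at h3
      rw [← mul_assoc]
      exact h3
    refine h1.trans (le_of_eq ?_)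
    ring

private theorem Wd_eq (M d : ℕ) (v : ℂ) : Wd M d v = ∏ j ∈ Finset.range d,
    (2 * cos (Real.pi * (v + ((((j : ℝ) + 1 / 2 - d / 2) / M : ℝ) : ℂ)))) := by
  unfold Wd
  push_cast
  rfl

/-- High up the centered product is not small. -/
private theorem Wd_high {M : ℕ} (hM : 1 ≤ M) (d : ℕ) {v : ℂ} (hv : 1 / M ≤ v.im) :
    1 ≤ (2 * M) ^ d * ‖Wd M d v‖ := by
  have hM0 : (0 : ℝ) < M := by exact_mod_cast hM
  have hpi := Real.pi_gt_three
  rw [Wd_eq, _root_.norm_prod]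
  have e : ((2 : ℝ) * M) ^ d = ∏ _j ∈ Finset.range d, (2 * (M : ℝ)) := by
    rw [Finset.prod_const, Finset.card_range]
  rw [e, ← Finset.prod_mul_distrib]
  refine Finset.prod_induction _ (fun x : ℝ => 1 ≤ x)
    (fun a b ha hb => one_le_mul_of_one_le_of_one_le ha hb) le_rfl fun j _ => ?_
  set c : ℝ := ((j : ℝ) + 1 / 2 - d / 2) / M
  have e1 : cos (Real.pi * (v + (c : ℂ))) = sin (Real.pi * (((v.re + c + 1 / 2 : ℝ) : ℂ) +
      v.im * I)) := by
    rw [show (Real.pi : ℂ) * (((v.re + c + 1 / 2 : ℝ) : ℂ) + v.im * I) =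
      Real.pi * (v + (c : ℂ)) + Real.pi / 2 by
        conv_rhs => rw [← re_add_im v]
        push_cast
        ring, sin_add_pi_div_two]
  have h1 : v.im * 3 ≤ ‖cos (Real.pi * (v + (c : ℂ)))‖ := by
    have hv0 : 0 ≤ v.im := le_trans (by positivity) hv
    apply (sq_le_sq₀ (by positivity) (norm_nonneg _)).mp
    rw [e1, norm_sin_pi_sq]
    have h5 := Real.self_le_sinh_iff.mpr (show 0 ≤ Real.pi * v.im by positivity)
    have h6 : v.im * 3 ≤ Real.sinh (Real.pi * v.im) := by nlinarith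
    have h7 := pow_le_pow_left₀ (by positivity) h6 2
    nlinarith [sq_nonneg (Real.sin (Real.pi * (v.re + c + 1 / 2)))]
  rw [norm_mul, norm_ofNat]
  have h2 : 1 ≤ M * v.im := by
    rw [div_le_iff₀ hM0] at hv
    linarith
  nlinarith

/-! ### Slots -/

/-- The slots near `σ` which are used. -/
private def NB (n M : ℕ) : Sl → Sl → Prop
  | .op v, .op w => w = v ∨ (v.im ≤ 1 / M ∧ ‖w - v‖ ≤ n / (2 * M))
  | .cl s, .cl s' => s' = s
  | _, _ => False

private theorem dd_le (hh : 1 ≤ h) (hh' : 2 * h ≤ n) (P : Bool) : dd n h P ≤ 2 * n := by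
  unfold dd
  split <;> omega

private theorem slotmax (hh : 1 ≤ h) (hh' : 2 * h ≤ n) {M : ℕ} (hM : 1 ≤ M) {K : Sl → ℂ}
    (hK : Differentiable ℂ fun v => K (.op v)) (P : Bool) {σ : Sl} {A : ℝ}
    (H : ∀ σ', NB n M σ σ' → ‖Ws n h M P σ' * K σ'‖ ≤ A) :
    ‖K σ‖ ≤ (2 * M) ^ (2 * n) * A := by
  have hM1 : (1 : ℝ) ≤ M := by exact_mod_cast hM
  have hM0 : (0 : ℝ) < M := by linarith
  have hM2 : (1 : ℝ) ≤ 2 * M := by linarith
  have hA : 0 ≤ A := by
    refine (norm_nonneg _).trans (H σ ?_)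
    rcases σ with v | s
    · exact Or.inl rfl
    · exact rfl
  rcases σ with v | s
  · have hd := dd_le hh hh' P
    have h1 : ‖K (.op v)‖ ≤ (2 * M) ^ (dd n h P) * A := by
      rcases le_total v.im (1 / M) with hv | hv
      · refine maxd hM (fun j => ((j : ℝ) + 1 / 2 - (dd n h P : ℝ) / 2) / M) (dd n h P) hK
          (v := v) fun z hz => ?_
        have h2 := H (.op z) (Or.inr ⟨hv, hz.trans ?_⟩)
        · rw [← Wd_eq]
          exact h2
        · have h3 : (dd n h P : ℝ) ≤ 2 * n := by exact_mod_cast hd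
          rw [div_le_div_iff₀ (by positivity) (by positivity)]
          nlinarith
      · have h2 := H (.op v) (Or.inl rfl)
        have h3 := Wd_high hM (dd n h P) hv
        have h4 : ‖Wd M (dd n h P) v‖ * ‖K (.op v)‖ ≤ A := by
          rw [← norm_mul]
          exact h2
        calc ‖K (.op v)‖ = 1 * ‖K (.op v)‖ := (one_mul _).symm
          _ ≤ ((2 * M) ^ dd n h P * ‖Wd M (dd n h P) v‖) * ‖K (.op v)‖ :=
              mul_le_mul_of_nonneg_right h3 (norm_nonneg _)
          _ = (2 * M) ^ dd n h P * (‖Wd M (dd n h P) v‖ * ‖K (.op v)‖) := by ring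
          _ ≤ (2 * M) ^ dd n h P * A := mul_le_mul_of_nonneg_left h4 (by positivity)
    refine h1.trans (mul_le_mul_of_nonneg_right (pow_le_pow_right₀ hM2 hd) hA)
  · have h1 := H (.cl s) rfl
    have h2 : Ws n h M P (.cl s) = 1 := rfl
    rw [h2, one_mul] at h1
    refine h1.trans ?_
    have := one_le_pow₀ hM2 (n := 2 * n)
    nlinarith

private theorem rep_slot (n h : ℕ) (H : ℝ) : ∃ C : ℝ, 0 < C ∧ ∀ M : ℕ, 1 ≤ M → 2 * n ≤ M →
    ∀ σ σ' : Sl, σ.ok → σ.nn → σ.bd H → NB n M σ σ' → ∃ σ'' : Sl, σ''.ok ∧ σ''.nn ∧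
      σ''.bd (H + 1) ∧ M * B0 σ'' ≤ M * B0 σ + C * (1 + Real.log M) ∧
      (∀ y : ℂ, -1 / 10 ≤ y.re → y.re ≤ 1 / 2 → |y.im| ≤ 1 →
        M * se y σ'' ≤ M * se y σ + C * (1 + Real.log M)) ∧
      (∀ P, ‖Ws n h M P σ''‖ = ‖Ws n h M P σ'‖) ∧
      ∀ P κ, sk4 n h M P κ σ'' = sk4 n h M P κ σ' := by
  obtain ⟨C, hC, hs⟩ := se_near n
  have hpi := Real.pi_pos
  refine ⟨C + 2 * Real.pi * (1 + n), by positivity, fun M hM hnM σ σ' ho hn hb hN => ?_⟩
  have hM1 : (1 : ℝ) ≤ M := by exact_mod_cast hM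
  have hM0 : (0 : ℝ) < M := by linarith
  have hlM : 0 ≤ Real.log M := Real.log_natCast_nonneg M
  have hX : 0 ≤ (C + 2 * Real.pi * (1 + n)) * (1 + Real.log M) := by positivity
  have hself : ∃ σ'' : Sl, σ''.ok ∧ σ''.nn ∧
      σ''.bd (H + 1) ∧ M * B0 σ'' ≤ M * B0 σ + (C + 2 * Real.pi * (1 + n)) * (1 + Real.log M) ∧
      (∀ y : ℂ, -1 / 10 ≤ y.re → y.re ≤ 1 / 2 → |y.im| ≤ 1 →
        M * se y σ'' ≤ M * se y σ + (C + 2 * Real.pi * (1 + n)) * (1 + Real.log M)) ∧
      (∀ P, ‖Ws n h M P σ''‖ = ‖Ws n h M P σ‖) ∧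
      ∀ P κ, sk4 n h M P κ σ'' = sk4 n h M P κ σ := by
    refine ⟨σ, ho, hn, ?_, by linarith, fun y _ _ _ => by linarith, fun _ => rfl,
      fun _ _ => rfl⟩
    rcases σ with v | s
    · have h2 : v.im ≤ H := hb
      change v.im ≤ H + 1
      linarith
    · trivial
  rcases σ with v | s <;> rcases σ' with w | s'
  · rcases hN with h1 | ⟨h1, h2⟩
    · rw [h1]
      exact hself
    · have ho' : |v.re| ≤ 1 / 2 := ho
      have hn' : 0 ≤ v.im := hn
      have hb' : v.im ≤ H := hb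
      have hR' : (n : ℝ) / (2 * M) ≤ 1 / 4 := by
        rw [div_le_div_iff₀ (by positivity) (by norm_num)]
        have : (2 : ℝ) * n ≤ M := by exact_mod_cast hnM
        linarith
      have hv1 : v.im ≤ 1 := by
        refine h1.trans ?_
        rw [div_le_one hM0]
        exact hM1
      have hre : |w.re - v.re| ≤ 1 / 4 := by
        rw [← sub_re]
        exact (abs_re_le_norm _).trans (h2.trans hR')
      have him : |w.im - v.im| ≤ n / (2 * M) := by
        rw [← sub_im]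
        exact (abs_im_le_norm _).trans h2
      have hw : |w.im| ≤ v.im + n / (2 * M) := by
        rw [abs_le] at him ⊢
        constructor <;> linarith [him.1, him.2]
      have hw' : M * |w.im| ≤ 1 + n := by
        calc (M : ℝ) * |w.im| ≤ M * (1 / M + n / (2 * M)) :=
              mul_le_mul_of_nonneg_left (hw.trans (by linarith)) hM0.le
          _ = 1 + n / 2 := by
              field_simp
          _ ≤ 1 + n := by
              have : (0 : ℝ) ≤ n := Nat.cast_nonneg n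
              linarith
      obtain ⟨u, u1, u2, u3, u4, u5⟩ := rep w (by
        rw [abs_le] at hre ho' ⊢
        constructor <;> linarith [hre.1, hre.2, ho'.1, ho'.2])
      refine ⟨.op u, u1, ?_, ?_, ?_, fun y y0 y1 y2 => ?_, fun P => u5 M _, fun P κ => u4 M _ _⟩
      · change 0 ≤ u.im
        rw [u2]
        exact abs_nonneg _
      · change u.im ≤ H + 1
        rw [u2]
        linarith
      · change M * (Real.pi * u.im) ≤ M * (Real.pi * v.im) + _
        rw [u2]
        have h3 : M * (Real.pi * |w.im|) ≤ Real.pi * (1 + n) := by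
          calc (M : ℝ) * (Real.pi * |w.im|) = Real.pi * (M * |w.im|) := by ring
            _ ≤ Real.pi * (1 + n) := mul_le_mul_of_nonneg_left hw' hpi.le
        have h4 : 0 ≤ M * (Real.pi * v.im) := by positivity
        have h5 : Real.pi * (1 + n) ≤ (C + 2 * Real.pi * (1 + n)) * (1 + Real.log M) := by
          have p1 : 0 ≤ (C + 2 * Real.pi * (1 + n)) * Real.log M := by positivity
          have p2 : 0 ≤ Real.pi * (1 + n) := by positivity
          nlinarith
        linarith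
      · have h3 := u3 y
        have h4 := hs M hM hnM v w y ho' (abs_le.mpr ⟨by linarith, hv1⟩) h2 y0 y1 y2
        have h5 : M * se y (.op u) ≤ M * se y (.op w) + 2 * Real.pi * (1 + n) := by
          calc (M : ℝ) * se y (.op u) ≤ M * (se y (.op w) + 2 * Real.pi * |w.im|) :=
                mul_le_mul_of_nonneg_left h3 hM0.le
            _ = M * se y (.op w) + 2 * Real.pi * (M * |w.im|) := by ring
            _ ≤ M * se y (.op w) + 2 * Real.pi * (1 + n) := by
                have := mul_le_mul_of_nonneg_left hw' (show 0 ≤ 2 * Real.pi by positivity)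
                linarith
        have p1 : 0 ≤ 2 * Real.pi * (1 + n) * Real.log M := by positivity
        nlinarith
  · exact hN.elim
  · exact hN.elim
  · have h1 : s' = s := hN
    rw [h1]
    exact hself

private theorem polOn_mono {n : ℕ} {t h : ℕ → ℝ} {P Q : ℂ → Prop} (hP : PolOn n t h P)
    (hPQ : ∀ z, P z → Q z) : PolOn n t h Q :=
  ⟨fun i hi x hx => hPQ _ (hP.1 i hi x hx), fun Y hY => hPQ _ (hP.2.1 Y hY),
    fun i hi Y hY => hPQ _ (hP.2.2.1 i hi Y hY), fun Y hY => hPQ _ (hP.2.2.2 Y hY)⟩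

private theorem sk4_diff (n h M : ℕ) (P : Bool) (κ : ℕ) :
    Differentiable ℂ fun v => sk4 n h M P κ (.op v) := by
  unfold sk4 q4
  simp only
  refine Differentiable.const_mul ?_ _
  refine Differentiable.fun_finsetProd fun i _ => ?_
  fun_prop

theorem Kq_KB (hn : 2 ≤ n) (hh : 1 ≤ h) (hh' : 2 * h ≤ n) (e P Q : Bool) :
    KB (Kq n h e P Q) := by
  intro N H
  obtain ⟨C1, hC1, p1, e1⟩ := (F4_KF hn hh hh' e P Q).kb N (H + 1)
  obtain ⟨C2, hC2, h2⟩ := rep_slot n h H
  obtain ⟨q, hq⟩ := exists_nat_ge (2 * C2)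
  refine ⟨2 ^ (4 * n) * C1 * Real.exp q, by positivity, 4 * n + p1 + q, ?_⟩
  filter_upwards [e1, KEF_F4 hn hh hh' e P Q, eventually_ge_atTop 1,
    eventually_ge_atTop (2 * n)] with M E1 E2 hM hnM σ τ os ot ns nt bs bt k hk t g hP B hB0 hBE hBP
  have hM1 : (1 : ℝ) ≤ M := by exact_mod_cast hM
  have hM0 : (0 : ℝ) < M := by linarith
  have hlM : 0 ≤ Real.log M := Real.log_natCast_nonneg M
  set B' : ℝ := B + q * (1 + Real.log M) / M with hB'
  have hMB' : M * B' = M * B + q * (1 + Real.log M) := by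
    rw [hB', mul_add]
    congr 1
    field_simp
  have hq' : C2 * (1 + Real.log M) + C2 * (1 + Real.log M) ≤ q * (1 + Real.log M) := by
    nlinarith
  set A : ℝ := C1 * (M : ℝ) ^ p1 * Real.exp (M * B') with hA
  have main : ∀ τ', NB n M τ τ' → ∀ σ', NB n M σ σ' →
      ‖Ws n h M P σ' * (Ws n h M Q τ' * Kq n h e P Q M σ' τ')‖ ≤ A := by
    intro τ' hτ σ' hσ
    obtain ⟨s, s1, s2, s3, s4, s5, s6, s7⟩ := h2 M hM hnM σ σ' os ns bs hσ
    obtain ⟨u, u1, u2, u3, u4, u5, u6, u7⟩ := h2 M hM hnM τ τ' ot nt bt hτ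
    have hkq : Kq n h e P Q M s u = Kq n h e P Q M σ' τ' := by
      unfold Kq
      apply Finset.sum_congr rfl
      intro κ _
      rw [s7, u7]
    have hEE : ∀ y : ℂ, -1 / 10 ≤ y.re → y.re ≤ 1 / 2 → |y.im| ≤ 1 → EE σ τ y ≤ B →
        EE s u y ≤ B' := by
      intro y y0 y1 y2 y3
      have k1 := s5 y y0 y1 y2
      have k2 := u5 y y0 y1 y2
      unfold EE at y3 ⊢
      have k3 : M * (se y s + se y u) ≤ M * B' := by
        rw [hMB']
        have := mul_le_mul_of_nonneg_left y3 hM0.le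
        linarith
      exact le_of_mul_le_mul_left k3 hM0
    have k := E1 s u s1 u1 s2 u2 s3 u3 k hk t g hP B' ?_ ?_ ?_
    · rw [E2 s u s1 u1, norm_mul, norm_mul, s6, u6, hkq] at k
      rw [norm_mul, norm_mul, ← mul_assoc]
      exact k
    · have k3 : M * (B0 s + B0 u) ≤ M * B' := by
        rw [hMB']
        have := mul_le_mul_of_nonneg_left hB0 hM0.le
        linarith
      exact le_of_mul_le_mul_left k3 hM0
    · intro y hy
      refine hEE y ?_ ?_ ?_ (hBE y hy)
      · rw [ofReal_re]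
        linarith [hy.1]
      · rw [ofReal_re]
        linarith [hy.2]
      · rw [ofReal_im, abs_zero]
        exact zero_le_one
    · exact polOn_mono (hBP.box hP) fun z hz => hEE z (by linarith [hz.1.1]) hz.1.2.1 hz.1.2.2 hz.2
  have b1 : ∀ τ', NB n M τ τ' → ‖Ws n h M Q τ' * Kq n h e P Q M σ τ'‖ ≤
      (2 * M) ^ (2 * n) * A := by
    intro τ' hτ
    refine slotmax hh hh' hM (K := fun σ' => Ws n h M Q τ' * Kq n h e P Q M σ' τ') ?_ P
      (main τ' hτ)
    unfold Kq
    refine Differentiable.const_mul ?_ _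
    refine Differentiable.fun_sum fun κ _ => ?_
    refine Differentiable.const_mul ?_ _
    exact (sk4_diff n h M P κ).mul_const _
  have b2 : ‖Kq n h e P Q M σ τ‖ ≤ (2 * M) ^ (2 * n) * ((2 * M) ^ (2 * n) * A) := by
    refine slotmax hh hh' hM (K := fun τ' => Kq n h e P Q M σ τ') ?_ Q b1
    unfold Kq
    refine Differentiable.fun_sum fun κ _ => ?_
    refine Differentiable.const_mul ?_ _
    exact (sk4_diff n h M Q κ).const_mul _
  refine b2.trans (le_of_eq ?_)
  have hexp : Real.exp (M * B') = Real.exp q * (M : ℝ) ^ q * Real.exp (M * B) := by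
    have h3 : (M : ℝ) ^ q = Real.exp (q * Real.log M) := by
      rw [Real.exp_nat_mul, Real.exp_log hM0]
    rw [h3, ← Real.exp_add, ← Real.exp_add, hMB']
    congr 1
    ring
  rw [hA, hexp, mul_pow, ← mul_pow]
  have h4 : ((2 * M : ℝ) ^ (2 * n)) * ((2 * M) ^ (2 * n)) = 2 ^ (4 * n) * (M : ℝ) ^ (4 * n) := by
    rw [← pow_add, show 2 * n + 2 * n = 4 * n by ring, mul_pow]
  rw [← mul_assoc, h4, pow_add, pow_add]
  ring

end Pool.Agent.S4
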