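import Pool.Agent.S4.G.Int
import Pool.Agent.S4.G.FB
import Pool.Agent.S4.G.Ks5

/-!
# The kernels near the critical point
-/

set_option autoImplicit false

namespace Pool.Agent.S4

open Pool.Agent.H63.VC hiding ext
open Pool.Agent.H63.VC3 Pool.Agent.H63.VC7 Pool.Agent.H25.RK Pool.Agent.S3 Pool.Agent.H63.GO
open Complex Filter Topology MeasureTheory
open scoped BigOperators Interval

variable {n h : ℕ}

/-- The lower bound of a factor of the centered product. -/
private theorem cos_low (v : ℂ) (x : ℝ) {b : ℝ} (hv : b ≤ v.im) :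
    2 * Real.sinh (Real.pi * b) ≤ ‖2 * cos (Real.pi * (v + x))‖ := by
  have hre : (Real.pi * (v + x) : ℂ) = ((Real.pi * (v.re + x) : ℝ) : ℂ) +
      ((Real.pi * v.im : ℝ) : ℂ) * I := by
    apply Complex.ext <;> simp
  have h1 : Real.sinh (Real.pi * v.im) ≤ ‖cos (Real.pi * (v + x))‖ := by
    rw [hre, Complex.cos_add_mul_I]
    have e1 : (Complex.cos ((Real.pi * (v.re + x) : ℝ) : ℂ) *
        Complex.cosh ((Real.pi * v.im : ℝ) : ℂ) -
        Complex.sin ((Real.pi * (v.re + x) : ℝ) : ℂ) *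
        Complex.sinh ((Real.pi * v.im : ℝ) : ℂ) * I) =
        ((Real.cos (Real.pi * (v.re + x)) * Real.cosh (Real.pi * v.im) : ℝ) : ℂ) +
        ((-(Real.sin (Real.pi * (v.re + x)) * Real.sinh (Real.pi * v.im)) : ℝ) : ℂ) * I := by
      push_cast
      ring
    rw [e1, Complex.norm_add_mul_I]
    apply Real.le_sqrt_of_sq_le
    have h2 := Real.cosh_sq (Real.pi * v.im)
    have h3 := Real.sin_sq_add_cos_sq (Real.pi * (v.re + x))
    have h4 : (Real.cos (Real.pi * (v.re + x)) * Real.cosh (Real.pi * v.im)) ^ 2 +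
        (-(Real.sin (Real.pi * (v.re + x)) * Real.sinh (Real.pi * v.im))) ^ 2 =
        Real.cos (Real.pi * (v.re + x)) ^ 2 + Real.sinh (Real.pi * v.im) ^ 2 := by
      have e : (Real.cos (Real.pi * (v.re + x)) * Real.cosh (Real.pi * v.im)) ^ 2 +
        (-(Real.sin (Real.pi * (v.re + x)) * Real.sinh (Real.pi * v.im))) ^ 2 =
        Real.cos (Real.pi * (v.re + x)) ^ 2 * Real.cosh (Real.pi * v.im) ^ 2 +
        Real.sin (Real.pi * (v.re + x)) ^ 2 * Real.sinh (Real.pi * v.im) ^ 2 := by ring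
      rw [e, h2]
      linear_combination (Real.sinh (Real.pi * v.im) ^ 2) * h3
    rw [h4]
    nlinarith [sq_nonneg (Real.cos (Real.pi * (v.re + x)))]
  have h5 : Real.sinh (Real.pi * b) ≤ Real.sinh (Real.pi * v.im) :=
    Real.sinh_le_sinh.2 (mul_le_mul_of_nonneg_left hv Real.pi_pos.le)
  rw [norm_mul]
  have h6 : ‖(2 : ℂ)‖ = 2 := by norm_num
  rw [h6]
  linarith

/-- The lower bound of the centered product. -/
private theorem Wd_low (M D : ℕ) (v : ℂ) {b : ℝ} (hb : 0 ≤ b) (hv : b ≤ v.im) :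
    (2 * Real.sinh (Real.pi * b)) ^ D ≤ ‖Wd M D v‖ := by
  unfold Wd
  rw [_root_.norm_prod]
  have h0 : 0 ≤ Real.sinh (Real.pi * b) := Real.sinh_nonneg_iff.2 (by positivity)
  have h1 : (2 * Real.sinh (Real.pi * b)) ^ D =
      ∏ _j ∈ Finset.range D, (2 * Real.sinh (Real.pi * b)) := by
    rw [Finset.prod_const, Finset.card_range]
  rw [h1]
  apply Finset.prod_le_prod
  · intro j _
    positivity
  · intro j _
    have h2 := cos_low v (((j : ℝ) + 1 / 2 - D / 2) / M) hv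
    have h3 : (v + ((((j : ℝ) + 1 / 2 - D / 2) / M : ℝ) : ℂ)) =
        (v + ((j : ℂ) + 1 / 2 - D / 2) / M) := by push_cast; ring
    rw [h3] at h2
    exact h2

/-- The lower bound of the centered product of a slot near an open slot in the upper half plane. -/
private theorem Ws_low (n h : ℕ) (P : Bool) {σ0 : Sl} (hu : ups σ0) :
    ∃ ρ : ℝ, 0 < ρ ∧ ∃ c : ℝ, 0 < c ∧ ∀ (M : ℕ) (σ : Sl), σ.near ρ σ0 →
      c ≤ ‖Ws n h M P σ‖ := by
  cases σ0 with
  | cl s0 =>
    refine ⟨1, one_pos, 1, one_pos, ?_⟩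
    intro M σ hσ
    cases σ with
    | cl s => simp [Ws]
    | op v => exact absurd hσ (by simp [Sl.near])
  | op v0 =>
    have hv0 : 0 < v0.im := hu
    have hs : 0 < Real.sinh (Real.pi * (v0.im / 2)) := Real.sinh_pos_iff.2 (by positivity)
    refine ⟨v0.im / 2, by positivity, (2 * Real.sinh (Real.pi * (v0.im / 2))) ^ dd n h P,
      by positivity, ?_⟩
    intro M σ hσ
    cases σ with
    | cl s => exact absurd hσ (by simp [Sl.near])
    | op v =>
      have h1 : ‖v - v0‖ < v0.im / 2 := hσ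
      have h2 : |(v - v0).im| ≤ ‖v - v0‖ := Complex.abs_im_le_norm _
      have h3 : v0.im / 2 ≤ v.im := by
        have h4 := (abs_le.1 (h2.trans h1.le)).1
        rw [Complex.sub_im] at h4
        linarith
      exact Wd_low M (dd n h P) v (by positivity) h3

private theorem near_mono {ρ ρ' : ℝ} (hr : ρ ≤ ρ') {σ σ0 : Sl} (h : σ.near ρ σ0) :
    σ.near ρ' σ0 := by
  cases σ with
  | op v =>
    cases σ0 with
    | op v0 =>
      have h1 : ‖v - v0‖ < ρ := h
      have h2 : ‖v - v0‖ < ρ' := lt_of_lt_of_le h1 hr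
      exact h2
    | cl s0 => exact absurd h (by simp [Sl.near])
  | cl s =>
    cases σ0 with
    | op v0 => exact absurd h (by simp [Sl.near])
    | cl s0 => exact h

theorem Kq_KL (hn : 2 ≤ n) (hh : 1 ≤ h) (hh' : 2 * h ≤ n) (e P Q : Bool) :
    KL (Kq n h e P Q) (Fq n h e P Q) := by
  intro σ0 τ0 yc L hσ0 hτ0 hu1 hu2 hE
  obtain ⟨r1, hr1, hr⟩ := (F4_KF hn hh hh' e P Q).kl σ0 τ0 yc L hσ0 hτ0 hu1 hu2 hE
  refine ⟨r1, hr1, ?_⟩
  intro r h0 h1
  obtain ⟨ρ, hρ, δ, hδ, C, hC, p, hev⟩ := hr r h0 h1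
  obtain ⟨ρ1, hρ1, c1, hc1, hw1⟩ := Ws_low n h P hu1
  obtain ⟨ρ2, hρ2, c2, hc2, hw2⟩ := Ws_low n h Q hu2
  refine ⟨min ρ (min ρ1 ρ2), lt_min hρ (lt_min hρ1 hρ2), δ, hδ, C / (c1 * c2), by positivity, p, ?_⟩
  filter_upwards [hev, KEF_F4 hn hh hh' e P Q] with M hM hK
  intro σ τ hσ hτ hσn hτn hσ1 hτ1
  have k1 := hM σ τ hσ hτ hσn hτn (near_mono (min_le_left _ _) hσ1)
    (near_mono (min_le_left _ _) hτ1)
  have w1 := hw1 M σ (near_mono ((min_le_right _ _).trans (min_le_left _ _)) hσ1)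
  have w2 := hw2 M τ (near_mono ((min_le_right _ _).trans (min_le_right _ _)) hτ1)
  have k2 := hK σ τ hσ hτ
  set w : ℂ := Ws n h M P σ * Ws n h M Q τ with hw
  have hwn : c1 * c2 ≤ ‖w‖ := by
    rw [hw, norm_mul]
    exact mul_le_mul w1 w2 hc2.le (norm_nonneg _)
  have hw0 : w ≠ 0 := by
    intro h2
    rw [h2, norm_zero] at hwn
    have := mul_pos hc1 hc2
    linarith
  have k3 : Kq n h e P Q M σ τ - M * ∫ s in (-r)..r, Fq n h e P Q M σ τ (yc + s) =
      (KEF (F4 n h e P Q) M σ τ - M * ∫ s in (-r)..r, F4 n h e P Q M σ τ (yc + s)) / w := by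
    have e1 : (∫ s in (-r)..r, Fq n h e P Q M σ τ (yc + s)) =
        (∫ s in (-r)..r, F4 n h e P Q M σ τ (yc + s)) / w := by
      rw [← intervalIntegral.integral_div]
      rfl
    rw [e1, k2]
    field_simp
  rw [k3, norm_div, div_le_iff₀ (norm_pos_iff.2 hw0)]
  refine k1.trans ?_
  have hA : 0 ≤ (M : ℝ) ^ p * Real.exp (M * (L - δ)) := by positivity
  have e2 : C / (c1 * c2) * (M : ℝ) ^ p * Real.exp (M * (L - δ)) * ‖w‖ =
      C * ((M : ℝ) ^ p * Real.exp (M * (L - δ))) * (‖w‖ / (c1 * c2)) := by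
    field_simp
  rw [e2]
  have h3 : 1 ≤ ‖w‖ / (c1 * c2) := by
    rw [le_div_iff₀ (by positivity)]
    linarith
  have h4 : 0 ≤ C * ((M : ℝ) ^ p * Real.exp (M * (L - δ))) := by positivity
  calc C * (M : ℝ) ^ p * Real.exp (M * (L - δ)) =
      C * ((M : ℝ) ^ p * Real.exp (M * (L - δ))) * 1 := by ring
    _ ≤ _ := mul_le_mul_of_nonneg_left h3 h4

private theorem sk4_cont {X : Type*} [TopologicalSpace X] (n h M κ : ℕ) (P : Bool) {σ : X → Sl}
    (hσ : SlC σ) : Continuous fun x => sk4 n h M P κ (σ x) := by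
  rcases hσ with ⟨v, hv, rfl⟩ | ⟨s, rfl⟩
  · unfold sk4
    simp only
    unfold q4
    refine continuous_const.mul (continuous_finsetProd _ fun i _ => ?_)
    fun_prop
  · exact continuous_const

theorem Kq_KC (n h : ℕ) (e P Q : Bool) : KC (Kq n h e P Q) := by
  refine Filter.Eventually.of_forall fun M X _ σ τ hσ hτ => ?_
  unfold Kq
  exact continuous_finsetSum _ fun κ _ =>
    continuous_const.mul ((sk4_cont n h M κ P hσ).mul (sk4_cont n h M κ Q hτ))

end Pool.Agent.S4
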