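import Pool.Agent.S4.G.FB

/-!
# The terms of the kernels away from the real line
-/

set_option autoImplicit false

namespace Pool.Agent.S4

open Pool.Agent.H63.VC hiding ext
open Pool.Agent.H63.VC3 Pool.Agent.H63.VC7 Pool.Agent.H25.RK Pool.Agent.S3 Pool.Agent.H63.GO
open Complex Filter Topology MeasureTheory
open scoped BigOperators Interval

theorem norm_cos_ge_im (z : ℂ) (hz : 0 ≤ z.im) : z.im ≤ ‖cos z‖ := by
  have h1 : 2 * cos z = exp (z * I) + exp (-z * I) := by
    rw [Complex.cos]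
    ring
  have h2 : ‖exp (z * I)‖ = Real.exp (-z.im) := by
    rw [norm_exp]
    simp
  have h3 : ‖exp (-z * I)‖ = Real.exp z.im := by
    rw [norm_exp]
    simp
  have h4 : Real.exp z.im - Real.exp (-z.im) ≤ ‖2 * cos z‖ := by
    rw [h1, ← h2, ← h3, add_comm]
    have := norm_sub_norm_le (exp (-z * I)) (-exp (z * I))
    rw [norm_neg, sub_neg_eq_add] at this
    exact this
  have h5 : z.im ≤ Real.sinh z.im := Real.self_le_sinh_iff.mpr hz
  rw [Real.sinh_eq] at h5
  rw [norm_mul] at h4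
  have h6 : ‖(2 : ℂ)‖ = 2 := by simp
  rw [h6] at h4
  linarith

theorem Wd_ge (M d : ℕ) {κ : ℝ} (hκ : 0 < κ) {v : ℂ} (hv : κ ≤ v.im) :
    (2 * Real.pi * κ) ^ d ≤ ‖Wd M d v‖ := by
  unfold Wd
  rw [_root_.norm_prod]
  calc (2 * Real.pi * κ) ^ d = ∏ _j ∈ Finset.range d, (2 * Real.pi * κ) := by
        rw [Finset.prod_const, Finset.card_range]
    _ ≤ _ := by
        apply Finset.prod_le_prod
        · intro j _
          have := Real.pi_pos
          positivity
        · intro j _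
          have e : (Real.pi * (v + ((j : ℂ) + 1 / 2 - d / 2) / M) : ℂ) =
              ((Real.pi : ℝ) : ℂ) * (v + ((((j : ℝ) + 1 / 2 - d / 2) / M : ℝ) : ℂ)) := by
            push_cast
            ring
          have him : (Real.pi * (v + ((j : ℂ) + 1 / 2 - d / 2) / M) : ℂ).im = Real.pi * v.im := by
            rw [e, im_ofReal_mul, add_im, ofReal_im, add_zero]
          have h0 : 0 ≤ (Real.pi * (v + ((j : ℂ) + 1 / 2 - d / 2) / M) : ℂ).im := by
            rw [him]
            have := Real.pi_pos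
            have : 0 < v.im := hκ.trans_le hv
            positivity
          have h1 := norm_cos_ge_im _ h0
          rw [him] at h1
          rw [norm_mul]
          have h6 : ‖(2 : ℂ)‖ = 2 := by simp
          rw [h6]
          have h2 : Real.pi * κ ≤ Real.pi * v.im := by
            apply mul_le_mul_of_nonneg_left hv Real.pi_pos.le
          linarith

theorem Ws_ge (n h : ℕ) (P : Bool) {κ : ℝ} (hκ : 0 < κ) : ∃ c : ℝ, 0 < c ∧ c ≤ 1 ∧
    ∀ (M : ℕ) (σ : Sl), upk κ σ → c ≤ ‖Ws n h M P σ‖ := by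
  have hp : 0 < (2 * Real.pi * κ) ^ dd n h P := by
    have := Real.pi_pos
    positivity
  refine ⟨min 1 ((2 * Real.pi * κ) ^ dd n h P), lt_min one_pos hp, min_le_left _ _, ?_⟩
  intro M σ hσ
  rcases σ with v | s
  · exact (min_le_right _ _).trans (Wd_ge M _ hκ hσ)
  · change _ ≤ ‖(1 : ℂ)‖
    rw [norm_one]
    exact min_le_left _ _

/-- Division by the centered products. -/
theorem KF.div_Ws {n h : ℕ} {e P Q : Bool} (hF : KF (F4 n h e P Q)) : KFu (Fq n h e P Q) := by
  constructor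
  · intro κ B hκ
    obtain ⟨C, hC, p, hb⟩ := hF.bound B
    obtain ⟨c1, hc1, hc1', h1⟩ := Ws_ge n h P hκ
    obtain ⟨c2, hc2, hc2', h2⟩ := Ws_ge n h Q hκ
    have hcc : c1 * c2 ≤ 1 := mul_le_one₀ hc1' hc2.le hc2'
    have hcp : 0 < c1 * c2 := mul_pos hc1 hc2
    have hCle : C ≤ C / (c1 * c2) := by
      rw [le_div_iff₀ hcp]
      have := mul_le_mul_of_nonneg_left hcc hC.le
      linarith
    refine ⟨C / (c1 * c2), by positivity, p, ?_⟩
    filter_upwards [hb] with M hM σ τ y o1 o2 u1 u2 b1 b2 y1 y2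
    have h3 := hM σ τ y o1 o2 b1 b2 y1 y2
    have h4 : c1 * c2 ≤ ‖Ws n h M P σ * Ws n h M Q τ‖ := by
      rw [norm_mul]
      exact mul_le_mul (h1 M σ u1) (h2 M τ u2) hc2.le (norm_nonneg _)
    unfold Fq
    rw [norm_div]
    calc ‖F4 n h e P Q M σ τ y‖ / ‖Ws n h M P σ * Ws n h M Q τ‖
        ≤ (C * (M : ℝ) ^ p * Real.exp (C * |y.im|) * Real.exp (M * EE σ τ y)) / (c1 * c2) :=
          div_le_div₀ (by positivity) h3 hcp h4
      _ = C / (c1 * c2) * (M : ℝ) ^ p * Real.exp (C * |y.im|) * Real.exp (M * EE σ τ y) := by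
          ring
      _ ≤ _ := by gcongr
  · intro κ hκ
    filter_upwards [hF.diff, eventually_ge_atTop 1] with M hM hM1 σ τ y o1 o2 u1 u2 y1 y2
    have h3 := hM σ τ y o1 o2 y1 (by
      have : (0 : ℝ) < 1 / (2 * M) := by
        have : (1 : ℝ) ≤ M := by exact_mod_cast hM1
        positivity
      linarith)
    exact h3.div_const _

variable {n h : ℕ}

theorem Fq_KFu (hn : 2 ≤ n) (hh : 1 ≤ h) (hh' : 2 * h ≤ n) (e P Q : Bool) :
    KFu (Fq n h e P Q) := (F4_KF hn hh hh' e P Q).div_Ws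

end Pool.Agent.S4
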