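import Pool.Agent.H63.VC3.KB
import Pool.Agent.H63.VC3.Om
import Pool.Agent.S4.G.Defs

/-!
# The vertex functions
-/

set_option autoImplicit false

namespace Pool.Agent.S4

open Pool.Agent.H63.VC hiding ext
open Pool.Agent.H63.VC3 Pool.Agent.H63.VC7 Pool.Agent.H25.RK Pool.Agent.S3 Pool.Agent.H63.GO
open Complex Filter Topology MeasureTheory
open scoped BigOperators Interval

variable {n h : ℕ}

/-! ### The centered products -/

private theorem Vert_norm_cos (z : ℂ) (c B : ℝ) (h0 : 0 ≤ z.im) (hB : z.im ≤ B) :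
    ‖2 * cos (Real.pi * (z + (c : ℂ)))‖ ≤ 2 * Real.exp (Real.pi * B) := by
  have h1 := KB_norm_cos_le (Real.pi * (z + (c : ℂ)))
  have e : ((Real.pi : ℂ) * (z + (c : ℂ))).im = Real.pi * z.im := by
    rw [im_ofReal_mul, add_im, ofReal_im, add_zero]
  rw [e, abs_of_nonneg (mul_nonneg Real.pi_pos.le h0)] at h1
  have h2 : Real.exp (Real.pi * z.im) ≤ Real.exp (Real.pi * B) :=
    Real.exp_le_exp.2 (mul_le_mul_of_nonneg_left hB Real.pi_pos.le)
  rw [norm_mul, norm_ofNat]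
  linarith

private theorem Vert_arg (M d j : ℕ) (v : ℂ) :
    (Real.pi : ℂ) * (v + ((j : ℂ) + 1 / 2 - d / 2) / M) =
      Real.pi * (v + ((((j : ℝ) + 1 / 2 - d / 2) / M : ℝ) : ℂ)) := by
  push_cast
  rfl

private theorem Vert_Wd_le (M d : ℕ) (v : ℂ) {B : ℝ} (h0 : 0 ≤ v.im) (hB : v.im ≤ B) :
    ‖Wd M d v‖ ≤ (2 * Real.exp (Real.pi * B)) ^ d := by
  unfold Wd
  rw [_root_.norm_prod]
  refine (Finset.prod_le_prod (fun _ _ => norm_nonneg _) fun j _ => ?_).trans_eq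
    (by rw [Finset.prod_const, Finset.card_range])
  rw [Vert_arg]
  exact Vert_norm_cos v _ B h0 hB

private theorem Vert_Wd_odd (M k : ℕ) (v : ℂ) {B : ℝ} (h0 : 0 ≤ v.im) (hB : v.im ≤ B) :
    ‖Wd M (2 * k + 1) v‖ ≤ ‖2 * cos (Real.pi * v)‖ * (2 * Real.exp (Real.pi * B)) ^ (2 * k) := by
  unfold Wd
  have hk : k ∈ Finset.range (2 * k + 1) := Finset.mem_range.2 (by omega)
  rw [← Finset.mul_prod_erase _ _ hk, norm_mul]
  have e : v + ((k : ℂ) + 1 / 2 - ((2 * k + 1 : ℕ) : ℂ) / 2) / M = v := by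
    push_cast
    ring
  rw [e]
  refine mul_le_mul_of_nonneg_left ?_ (norm_nonneg _)
  rw [_root_.norm_prod]
  refine (Finset.prod_le_prod (fun _ _ => norm_nonneg _) fun j _ => ?_).trans_eq
    (by rw [Finset.prod_const, Finset.card_erase_of_mem hk, Finset.card_range, Nat.add_sub_cancel])
  rw [Vert_arg]
  exact Vert_norm_cos v _ B h0 hB

private theorem Vert_Wd_cont (M d : ℕ) : Continuous (Wd M d) := by
  unfold Wd
  refine continuous_finsetProd _ fun j _ => ?_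
  fun_prop

private theorem Vert_Wd_lim (d : ℕ) (v0 : ℂ) :
    Tendsto (fun p : ℕ × ℂ => Wd p.1 d p.2) (atTop ×ˢ 𝓝 v0) (𝓝 ((2 * cos (Real.pi * v0)) ^ d)) := by
  unfold Wd
  have e : (2 * cos (Real.pi * v0)) ^ d = ∏ _j ∈ Finset.range d, (2 * cos (Real.pi * v0)) := by
    rw [Finset.prod_const, Finset.card_range]
  rw [e]
  refine tendsto_finsetProd _ fun j _ => ?_
  have h1 : Tendsto (fun M : ℕ => ((j : ℂ) + 1 / 2 - d / 2) / M) atTop (𝓝 0) :=
    tendsto_const_div_atTop_nhds_zero_nat _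
  have h2 : Tendsto (fun p : ℕ × ℂ => p.2 + ((j : ℂ) + 1 / 2 - d / 2) / p.1) (atTop ×ˢ 𝓝 v0)
      (𝓝 (v0 + 0)) := tendsto_snd.add (h1.comp tendsto_fst)
  rw [add_zero] at h2
  have hc : Continuous fun z : ℂ => 2 * cos (Real.pi * z) := by fun_prop
  exact (hc.tendsto v0).comp h2

/-! ### The factor `ω` -/

private theorem Vert_ww_eq (n M : ℕ) (v : ℂ) :
    ww n M v = (-1) ^ (M + n + 1) * exp (2 * Real.pi * I * M * v) := by
  unfold ww bt
  have e1 : 2 * (Real.pi : ℂ) * I * (M * (v + 1 / 2) - ((((n : ℝ) - 1) / 2 : ℝ) : ℂ)) =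
      2 * Real.pi * I * M * v + (M : ℂ) * (Real.pi * I) + (n : ℂ) * (-(Real.pi * I)) +
        Real.pi * I := by
    push_cast
    ring
  rw [e1, exp_add, exp_add, exp_add, exp_nat_mul, exp_nat_mul, exp_neg, exp_pi_mul_I, pow_succ,
    pow_add]
  norm_num
  ring

private theorem Vert_neg_one (n : ℕ) : ((-1 : ℂ)) ^ n * (-1) ^ n = 1 := by
  rw [← mul_pow]
  norm_num

private theorem Vert_om_even {n : ℕ} (hn : Even n) (M : ℕ) (v : ℂ) : om n M v = om 2 M v := by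
  have e : ww n M v = ww 2 M v := by
    rw [Vert_ww_eq, Vert_ww_eq, pow_succ, pow_add, hn.neg_one_pow, pow_succ, pow_add]
    norm_num
  unfold om
  rw [e]

private theorem Vert_om_eq (n M : ℕ) (v : ℂ) :
    (-1) ^ (M + n + 1) * om n M v * exp (-(2 * Real.pi * I * M * v)) =
      1 / (1 - ww n M v) ^ 2 := by
  unfold om
  nth_rewrite 1 [Vert_ww_eq]
  have h := Vert_neg_one (M + n + 1)
  have h2 : exp (2 * Real.pi * I * M * v) * exp (-(2 * Real.pi * I * M * v)) = 1 := by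
    rw [← exp_add, add_neg_cancel, exp_zero]
  calc (-1) ^ (M + n + 1) * ((-1) ^ (M + n + 1) * exp (2 * Real.pi * I * M * v) /
        (1 - ww n M v) ^ 2) * exp (-(2 * Real.pi * I * M * v))
      = ((-1) ^ (M + n + 1) * (-1) ^ (M + n + 1)) *
        (exp (2 * Real.pi * I * M * v) * exp (-(2 * Real.pi * I * M * v))) /
        (1 - ww n M v) ^ 2 := by ring
    _ = _ := by rw [h, h2, one_mul]

private theorem Vert_om_lim (n : ℕ) {v0 : ℂ} (h0 : 0 < v0.im) :
    Tendsto (fun p : ℕ × ℂ => (-1) ^ (p.1 + n + 1) * om n p.1 p.2 *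
      exp (-(2 * Real.pi * I * p.1 * p.2))) (atTop ×ˢ 𝓝 v0) (𝓝 1) := by
  simp only [Vert_om_eq]
  have hw : Tendsto (fun p : ℕ × ℂ => ww n p.1 p.2) (atTop ×ˢ 𝓝 v0) (𝓝 0) := by
    have h1 : ∀ᶠ p : ℕ × ℂ in atTop ×ˢ 𝓝 v0, v0.im / 2 < p.2.im :=
      ((continuous_im.tendsto v0).comp tendsto_snd).eventually
        (Ioi_mem_nhds (show v0.im / 2 < v0.im by linarith))
    have h2 : Tendsto (fun n : ℕ => Real.exp (-(2 * Real.pi * (v0.im / 2))) ^ n) atTop (𝓝 0) := by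
      apply tendsto_pow_atTop_nhds_zero_of_lt_one (Real.exp_pos _).le
      rw [Real.exp_lt_one_iff]
      have := Real.pi_pos
      have : 0 < 2 * Real.pi * (v0.im / 2) := by positivity
      linarith
    refine squeeze_zero_norm' ?_ (h2.comp tendsto_fst)
    filter_upwards [h1] with p hp
    rw [norm_ww, Function.comp_apply, ← Real.exp_nat_mul]
    apply Real.exp_le_exp.2
    have hMa : (0 : ℝ) ≤ p.1 := Nat.cast_nonneg _
    have := Real.pi_pos
    have h3 : (p.1 : ℝ) * (v0.im / 2) ≤ p.1 * p.2.im := mul_le_mul_of_nonneg_left hp.le hMa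
    nlinarith
  have h := ((hw.const_sub 1).pow 2).inv₀ (by norm_num)
  have e : ((1 - 0 : ℂ) ^ 2)⁻¹ = 1 := by norm_num
  rw [e] at h
  refine h.congr fun a => ?_
  rw [one_div]

private theorem Vert_one_sub {β : ℝ} (hβ : 0 < β) : β / (1 + β) ≤ 1 - Real.exp (-β) := by
  have h1 := Real.add_one_le_exp β
  have h2 : Real.exp (-β) ≤ 1 / (1 + β) := by
    rw [Real.exp_neg, inv_eq_one_div]
    exact one_div_le_one_div_of_le (by linarith) (by linarith)
  have h3 : β / (1 + β) = 1 - 1 / (1 + β) := by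
    field_simp
    ring
  rw [h3]
  linarith

/-- The zero of `2 cos (π v)` at `± 1 / 2`. -/
private theorem Vert_cos_le {κ B : ℝ} (hκ : 0 < κ) {v : ℂ} (h0 : 0 < v.im)
    (h1 : |v.re| ≤ 1 / 2) (h2 : κ * (1 / 2 - |v.re|) ≤ v.im) (hB : v.im ≤ B) :
    ‖2 * cos (Real.pi * v)‖ ≤ 2 * Real.pi * (1 + 1 / κ) * Real.exp (Real.pi * B) * v.im := by
  have hpi := Real.pi_pos
  have e : (Real.pi : ℂ) * v = ((Real.pi * v.re : ℝ) : ℂ) + ((Real.pi * v.im : ℝ) : ℂ) * I := by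
    conv_lhs => rw [← re_add_im v]
    push_cast
    ring
  have hc0 : 0 ≤ Real.cos (Real.pi * v.re) := by
    have h3 := abs_le.1 h1
    apply Real.cos_nonneg_of_mem_Icc
    constructor <;> nlinarith [h3.1, h3.2]
  have hc : |Real.cos (Real.pi * v.re)| ≤ Real.pi * (v.im / κ) := by
    rw [abs_of_nonneg hc0]
    have h3 : Real.cos (Real.pi * v.re) = Real.sin (Real.pi * (1 / 2 - |v.re|)) := by
      rw [← Real.cos_abs (Real.pi * v.re), abs_mul, abs_of_pos hpi,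
        show Real.pi * (1 / 2 - |v.re|) = Real.pi / 2 - Real.pi * |v.re| by ring,
        Real.sin_pi_div_two_sub]
    rw [h3]
    have h4 : Real.sin (Real.pi * (1 / 2 - |v.re|)) ≤ Real.pi * (1 / 2 - |v.re|) :=
      Real.sin_le (mul_nonneg hpi.le (by linarith))
    refine h4.trans (mul_le_mul_of_nonneg_left ?_ hpi.le)
    rw [le_div_iff₀ hκ]
    linarith
  have hb0 : 0 ≤ Real.pi * v.im := by positivity
  have hch : Real.cosh (Real.pi * v.im) ≤ Real.exp (Real.pi * B) := by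
    refine (cosh_le_exp_abs _).trans ?_
    rw [abs_of_nonneg hb0]
    exact Real.exp_le_exp.2 (mul_le_mul_of_nonneg_left hB hpi.le)
  have hsh : |Real.sinh (Real.pi * v.im)| ≤ Real.pi * v.im * Real.exp (Real.pi * B) := by
    rw [abs_of_nonneg (Real.sinh_nonneg_iff.2 hb0)]
    exact (sinh_le_mul_cosh hb0).trans (mul_le_mul_of_nonneg_left hch hb0)
  have hs1 := Real.abs_sin_le_one (Real.pi * v.re)
  have hE := Real.exp_pos (Real.pi * B)
  have h3 : ‖cos ((Real.pi : ℂ) * v)‖ ≤ Real.pi * (v.im / κ) * Real.exp (Real.pi * B) +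
      1 * (Real.pi * v.im * Real.exp (Real.pi * B)) := by
    rw [e, Complex.cos_add_mul_I]
    refine (norm_sub_le _ _).trans (add_le_add ?_ ?_)
    · rw [← ofReal_cos, ← ofReal_cosh, norm_mul, norm_real, norm_real, Real.norm_eq_abs,
        Real.norm_eq_abs, abs_of_pos (Real.cosh_pos _)]
      exact mul_le_mul hc hch (Real.cosh_pos _).le (by positivity)
    · rw [← ofReal_sin, ← ofReal_sinh, norm_mul, norm_mul, norm_I, mul_one, norm_real, norm_real,
        Real.norm_eq_abs, Real.norm_eq_abs]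
      exact mul_le_mul hs1 hsh (abs_nonneg _) zero_le_one
  rw [norm_mul, norm_ofNat]
  calc 2 * ‖cos ((Real.pi : ℂ) * v)‖
      ≤ 2 * (Real.pi * (v.im / κ) * Real.exp (Real.pi * B) +
        1 * (Real.pi * v.im * Real.exp (Real.pi * B))) := by linarith
    _ = 2 * Real.pi * (1 + 1 / κ) * Real.exp (Real.pi * B) * v.im := by ring

/-- The quotient of `2 cos (π v)` and `1 - w`. -/
private theorem Vert_quot {κ B : ℝ} (hκ : 0 < κ) (hn : 0 < B) : ∃ D : ℝ, 0 < D ∧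
    ∀ (n M : ℕ) (v : ℂ), 1 ≤ M → 0 < v.im → |v.re| ≤ 1 / 2 → κ * (1 / 2 - |v.re|) ≤ v.im →
      v.im ≤ B → ‖2 * cos (Real.pi * v)‖ ≤ D * ‖1 - ww n M v‖ := by
  have hpi := Real.pi_pos
  refine ⟨(1 + 1 / κ) * Real.exp (Real.pi * B) * (1 + 2 * Real.pi * B), by positivity, ?_⟩
  intro n M v hM h0 h1 h2 hB
  refine (Vert_cos_le hκ h0 h1 h2 hB).trans ?_
  have hM1 : (1 : ℝ) ≤ M := by exact_mod_cast hM
  have hb : 0 < 2 * Real.pi * v.im := by positivity
  have h3 : Real.exp (-(2 * Real.pi * M * v.im)) ≤ Real.exp (-(2 * Real.pi * v.im)) := by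
    apply Real.exp_le_exp.2
    nlinarith
  have h4 := norm_sub_norm_le (1 : ℂ) (ww n M v)
  rw [norm_one, norm_ww] at h4
  have h5 := Vert_one_sub hb
  have h6 : 2 * Real.pi * v.im / (1 + 2 * Real.pi * B) ≤
      2 * Real.pi * v.im / (1 + 2 * Real.pi * v.im) := by
    apply div_le_div_of_nonneg_left hb.le (by positivity)
    nlinarith
  have h7 : 2 * Real.pi * v.im / (1 + 2 * Real.pi * B) ≤ ‖1 - ww n M v‖ := by linarith
  have h8 : 2 * Real.pi * (1 + 1 / κ) * Real.exp (Real.pi * B) * v.im =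
      (1 + 1 / κ) * Real.exp (Real.pi * B) * (1 + 2 * Real.pi * B) *
        (2 * Real.pi * v.im / (1 + 2 * Real.pi * B)) := by
    have h9 : (1 + 2 * Real.pi * B) ≠ 0 := by positivity
    field_simp
  rw [h8]
  exact mul_le_mul_of_nonneg_left h7 (by positivity)

/-- The product of the prefactor and of `ω`. -/
private theorem Vert_preom (hn : 2 ≤ n) (h s : ℕ) (P : Bool) {κ B : ℝ} (hκ : 0 < κ)
    (hB0 : 0 < B) : ∃ D : ℝ, 0 < D ∧ ∀ (M : ℕ) (v : ℂ), 1 ≤ M → 0 < v.im →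
    |v.re| ≤ 1 / 2 → κ * (1 / 2 - |v.re|) ≤ v.im → v.im ≤ B →
    ‖pre n h M P s v‖ * ‖om (nn n P) M v‖ ≤ D * Real.exp (-(2 * Real.pi * (M * v.im))) := by
  obtain ⟨C, hC, hom⟩ := om_bound hκ
  set K : ℝ := 2 * Real.exp (Real.pi * B) with hK
  have hK0 : 0 < K := by positivity
  have key : ∀ L : ℝ, 0 < L → ∀ m : ℕ,
      (∀ (M : ℕ) (v : ℂ), 0 < v.im → v.im ≤ B → ‖pre n h M P s v‖ ≤ L) →
      (∀ (M : ℕ) (v : ℂ), om (nn n P) M v = om 2 M v) → ∃ D : ℝ, 0 < D ∧ ∀ (M : ℕ) (v : ℂ),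
      1 ≤ M → 0 < v.im → |v.re| ≤ 1 / 2 → κ * (1 / 2 - |v.re|) ≤ v.im → v.im ≤ B →
      ‖pre n h M P s v‖ * ‖om (nn n P) M v‖ ≤ D * Real.exp (-(2 * Real.pi * (M * v.im))) := by
    intro L hL _ h1 h2
    refine ⟨L * C, by positivity, fun M v _ h3 h4 h5 h6 => ?_⟩
    rw [h2 M v, mul_assoc]
    exact mul_le_mul (h1 M v h3 h6) (hom M v h3.le h4 h5) (norm_nonneg _) hL.le
  cases P with
  | true =>
    refine key (K ^ (2 * h - 2) * K ^ (2 * (n - h) - 2)) (by positivity) 0 (fun M v h1 h2 => ?_)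
      fun M v => rfl
    show ‖Wd M (2 * h - 2) v * Wd M (2 * (n - h) - 2) v‖ ≤ _
    rw [norm_mul]
    exact mul_le_mul (Vert_Wd_le M _ v h1.le h2) (Vert_Wd_le M _ v h1.le h2) (norm_nonneg _)
      (by positivity)
  | false =>
    rcases Nat.even_or_odd n with he | ho
    · refine key ((K ^ (n - 2)) ^ 2 * (K ^ (n - 2 * h)) ^ s) (by positivity) 0
        (fun M v h1 h2 => ?_) fun M v => Vert_om_even he M v
      show ‖Wd M (n - 2) v ^ 2 * Wd M (n - 2 * h) v ^ s‖ ≤ _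
      rw [norm_mul, norm_pow, norm_pow]
      exact mul_le_mul (pow_le_pow_left₀ (norm_nonneg _) (Vert_Wd_le M _ v h1.le h2) 2)
        (pow_le_pow_left₀ (norm_nonneg _) (Vert_Wd_le M _ v h1.le h2) s) (by positivity)
        (by positivity)
    · obtain ⟨k, hk⟩ : ∃ k, n - 2 = 2 * k + 1 := by
        obtain ⟨l, hl⟩ := ho
        exact ⟨l - 1, by omega⟩
      obtain ⟨D, hD, hq⟩ := Vert_quot hκ hB0
      refine ⟨(K ^ (2 * k)) ^ 2 * (K ^ (n - 2 * h)) ^ s * D ^ 2, by positivity,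
        fun M v hM h3 h4 h5 h6 => ?_⟩
      have e1 : ‖pre n h M false s v‖ ≤
          (‖2 * cos (Real.pi * v)‖ * K ^ (2 * k)) ^ 2 * (K ^ (n - 2 * h)) ^ s := by
        show ‖Wd M (n - 2) v ^ 2 * Wd M (n - 2 * h) v ^ s‖ ≤ _
        rw [norm_mul, norm_pow, norm_pow, hk]
        exact mul_le_mul (pow_le_pow_left₀ (norm_nonneg _) (Vert_Wd_odd M k v h3.le h6) 2)
          (pow_le_pow_left₀ (norm_nonneg _) (Vert_Wd_le M _ v h3.le h6) s) (by positivity)
          (by positivity)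
      have e2 := hq n M v hM h3 h4 h5 h6
      have hM0 : (0 : ℝ) < M := by
        have : (1 : ℝ) ≤ M := by exact_mod_cast hM
        linarith
      have hw : 0 < ‖1 - ww n M v‖ := by
        have h7 := norm_sub_norm_le (1 : ℂ) (ww n M v)
        rw [norm_one, norm_ww] at h7
        have h8 : Real.exp (-(2 * Real.pi * M * v.im)) < 1 := by
          rw [Real.exp_lt_one_iff]
          have := Real.pi_pos
          have : 0 < 2 * Real.pi * M * v.im := by positivity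
          linarith
        linarith
      have e3 : ‖om (nn n false) M v‖ =
          Real.exp (-(2 * Real.pi * (M * v.im))) / ‖1 - ww n M v‖ ^ 2 := by
        show ‖ww n M v / (1 - ww n M v) ^ 2‖ = _
        rw [norm_div, norm_pow, norm_ww, mul_assoc (2 * Real.pi)]
      rw [e3]
      have hE := Real.exp_pos (-(2 * Real.pi * (M * v.im)))
      have e4 : ‖2 * cos (Real.pi * v)‖ ^ 2 ≤ D ^ 2 * ‖1 - ww n M v‖ ^ 2 := by
        rw [← mul_pow]
        exact pow_le_pow_left₀ (norm_nonneg _) e2 2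
      have e5 : ‖pre n h M false s v‖ ≤
          (D ^ 2 * ‖1 - ww n M v‖ ^ 2) * ((K ^ (2 * k)) ^ 2 * (K ^ (n - 2 * h)) ^ s) := by
        refine e1.trans ?_
        rw [mul_pow, mul_assoc]
        exact mul_le_mul_of_nonneg_right e4 (by positivity)
      calc ‖pre n h M false s v‖ *
            (Real.exp (-(2 * Real.pi * (M * v.im))) / ‖1 - ww n M v‖ ^ 2)
          ≤ (D ^ 2 * ‖1 - ww n M v‖ ^ 2) * ((K ^ (2 * k)) ^ 2 * (K ^ (n - 2 * h)) ^ s) *
            (Real.exp (-(2 * Real.pi * (M * v.im))) / ‖1 - ww n M v‖ ^ 2) :=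
            mul_le_mul_of_nonneg_right e5 (by positivity)
        _ = _ := by
            field_simp

theorem gv4_bound (hn : 2 ≤ n) (hh : 1 ≤ h) (hh' : 2 * h ≤ n) (P : Bool) (s : ℕ) {κ B : ℝ}
    (hκ : 0 < κ) : ∃ D : ℝ, 0 < D ∧ ∃ p : ℕ, ∀ (M : ℕ) (r : ℝ) (v : ℂ), 1 ≤ M → 0 < v.im →
    |v.re| ≤ 1 / 2 → κ * (1 / 2 - |v.re|) ≤ v.im → v.im ≤ B →
    ‖gv4 r n h P s M v‖ ≤ D * (M : ℝ) ^ p * Real.exp (M * (wr r v).re) := by
  by_cases hB : 0 < B
  swap
  · exact ⟨1, one_pos, 0, fun M r v _ h0 _ _ h3 => absurd (h0.trans_le h3) hB⟩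
  obtain ⟨D, hD, hpo⟩ := Vert_preom hn h s P hκ hB
  refine ⟨2 * Real.exp (2 * Real.pi * B) * D, by positivity, 0, fun M r v hM h0 h1 h2 h3 => ?_⟩
  have hs := norm_two_sin_le v
  have hpi := Real.pi_pos
  have hBe : Real.exp (2 * Real.pi * |v.im|) ≤ Real.exp (2 * Real.pi * B) := by
    rw [abs_of_pos h0]
    gcongr
  unfold gv4
  rw [pow_zero, mul_one, norm_mul, norm_mul, norm_mul, mul_assoc, ← exp_wr r M v]
  calc ‖exp (2 * Real.pi * I * r * M * v ^ 2)‖ * ‖2 * sin (2 * Real.pi * v)‖ *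
        (‖pre n h M P s v‖ * ‖om (nn n P) M v‖)
      ≤ ‖exp (2 * Real.pi * I * r * M * v ^ 2)‖ * (2 * Real.exp (2 * Real.pi * B)) *
        (D * Real.exp (-(2 * Real.pi * (M * v.im)))) := by
        refine mul_le_mul (mul_le_mul_of_nonneg_left (hs.trans (by gcongr)) (norm_nonneg _))
          (hpo M v hM h0 h1 h2 h3) (by positivity) (by positivity)
    _ = _ := by ring

private theorem Vert_pre_cont (n h M : ℕ) (P : Bool) (s : ℕ) : Continuous (pre n h M P s) := by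
  cases P with
  | true => exact (Vert_Wd_cont M (2 * h - 2)).mul (Vert_Wd_cont M (2 * (n - h) - 2))
  | false => exact ((Vert_Wd_cont M (n - 2)).pow 2).mul ((Vert_Wd_cont M (n - 2 * h)).pow s)

theorem gv4_cont (r : ℝ) (n h : ℕ) (P : Bool) (s : ℕ) {M : ℕ} (hM : 0 < M) :
    ContinuousOn (gv4 r n h P s M) {v | 0 < v.im} := by
  intro v hv
  have hv0 : 0 < v.im := hv
  have h1 : ww (nn n P) M v ≠ 1 := by
    intro hc
    have h2 := norm_ww (nn n P) M v
    rw [hc, norm_one] at h2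
    have h3 : Real.exp (-(2 * Real.pi * M * v.im)) < 1 := by
      rw [Real.exp_lt_one_iff]
      have := Real.pi_pos
      have hM0 : (0 : ℝ) < M := by exact_mod_cast hM
      have : 0 < 2 * Real.pi * M * v.im := by positivity
      linarith
    linarith
  have h2 : Continuous fun v : ℂ => exp (2 * Real.pi * I * r * M * v ^ 2) *
      (2 * sin (2 * Real.pi * v)) := by fun_prop
  exact ((h2.mul (Vert_pre_cont n h M P s)).continuousAt.mul
    (om_continuousAt (nn n P) M v h1)).continuousWithinAt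

private theorem Vert_sin_ne {v0 : ℂ} (h0 : 0 < v0.im) : sin (2 * Real.pi * v0) ≠ 0 := by
  rw [sin_ne_zero_iff]
  intro k hk
  have h3 := congrArg Complex.im hk
  have e1 : (2 * Real.pi * v0 : ℂ).im = 2 * Real.pi * v0.im := by
    have : (2 * Real.pi * v0 : ℂ) = ((2 * Real.pi : ℝ) : ℂ) * v0 := by push_cast; ring
    rw [this, im_ofReal_mul]
  have e2 : ((k : ℂ) * Real.pi).im = 0 := by
    have : ((k : ℂ) * Real.pi) = ((k * Real.pi : ℝ) : ℂ) := by push_cast; ring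
    rw [this, ofReal_im]
  rw [e1, e2] at h3
  have : 0 < 2 * Real.pi * v0.im := by
    have := Real.pi_pos
    positivity
  linarith

theorem gv4_lim (hn : 2 ≤ n) (hh : 1 ≤ h) (hh' : 2 * h ≤ n) (r : ℝ) (P : Bool) (s : ℕ) {v0 : ℂ}
    (h0 : 0 < v0.im) (h1 : |v0.re| < 1 / 2) : ∃ A : ℂ, A ≠ 0 ∧
    Tendsto (fun p : ℕ × ℂ => (-1) ^ (p.1 + nn n P + 1) * gv4 r n h P s p.1 p.2 *
      exp (-(p.1 * wr r p.2))) (atTop ×ˢ 𝓝 v0) (𝓝 A) := by
  have hs := Vert_sin_ne h0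
  have hc : 2 * cos (Real.pi * v0) ≠ 0 := by
    intro hc
    apply hs
    rw [mul_assoc, Complex.sin_two_mul]
    linear_combination sin (Real.pi * v0) * hc
  obtain ⟨E, hE, hlim⟩ : ∃ E : ℂ, E ≠ 0 ∧
      Tendsto (fun p : ℕ × ℂ => pre n h p.1 P s p.2) (atTop ×ˢ 𝓝 v0) (𝓝 E) := by
    cases P with
    | true =>
      exact ⟨_, mul_ne_zero (pow_ne_zero _ hc) (pow_ne_zero _ hc),
        (Vert_Wd_lim (2 * h - 2) v0).mul (Vert_Wd_lim (2 * (n - h) - 2) v0)⟩
    | false =>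
      exact ⟨_, mul_ne_zero (pow_ne_zero 2 (pow_ne_zero _ hc)) (pow_ne_zero s (pow_ne_zero _ hc)),
        ((Vert_Wd_lim (n - 2) v0).pow 2).mul ((Vert_Wd_lim (n - 2 * h) v0).pow s)⟩
  refine ⟨2 * sin (2 * Real.pi * v0) * E * 1,
    mul_ne_zero (mul_ne_zero (mul_ne_zero two_ne_zero hs) hE) one_ne_zero, ?_⟩
  have hsc : Continuous fun v : ℂ => 2 * sin (2 * Real.pi * v) := by fun_prop
  have h2 : Tendsto (fun p : ℕ × ℂ => 2 * sin (2 * Real.pi * p.2)) (atTop ×ˢ 𝓝 v0)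
      (𝓝 (2 * sin (2 * Real.pi * v0))) := (hsc.tendsto v0).comp tendsto_snd
  refine ((h2.mul hlim).mul (Vert_om_lim (nn n P) h0)).congr fun p => ?_
  have e : exp (2 * Real.pi * I * r * p.1 * p.2 ^ 2) *
      exp (-(p.1 * (2 * Real.pi * I * (r * p.2 ^ 2 + p.2)))) =
      exp (-(2 * Real.pi * I * p.1 * p.2)) := by
    rw [← exp_add]
    congr 1
    ring
  unfold gv4 wr
  rw [← e]
  ring

end Pool.Agent.S4
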