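import Pool.Agent.S3.LL4
import Pool.Agent.S4.G.Defs

/-!
# The small indices: general lemmas

`int_gen4`: the sum over the multi-indices as an integral, if the factors of the open vertices are
integrals. `low_KF4`: the bound of a kernel near a compact set of good pairs. `LowH2.bound4`: the
kernels with large indices of the edges at the lattice vertices.
-/

set_option autoImplicit false

namespace Pool.Agent.S4

open Pool.Agent.H63.VC hiding ext
open Pool.Agent.H63.VC3 Pool.Agent.H63.VC7 Pool.Agent.H25.RK Pool.Agent.S3 Pool.Agent.H63.GO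
open Complex Filter Topology MeasureTheory
open scoped BigOperators Interval

variable {m : ℕ}

/-! ### The general formula -/

/-- The sum over the multi-indices as an integral, if the factors of the open vertices are
integrals. -/
theorem int_gen4 (Op : Finset (Fin (m + 1))) (g : Fin (m + 1) → ℝ → ℂ)
    (s : Fin (m + 1) → Fin m → ℕ → ℝ → ℂ) (s0 : Fin (m + 1) → Fin m → ℕ → ℂ)
    (c : Fin m → ℕ → ℂ) (D : Fin (m + 1) → (Fin m → ℕ) → ℂ) (S : Fin m → Finset ℕ)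
    (hI : ∀ i ∈ Op, ∀ k ∈ Fintype.piFinset S, Integrable (fun x => g i x *
      ∏ j ∈ inc (Fin.castSucc (n := m)) Fin.succ i, s i j (k j) x))
    (hO : ∀ i ∈ Op, ∀ k ∈ Fintype.piFinset S, D i k =
      ∫ x, g i x * ∏ j ∈ inc (Fin.castSucc (n := m)) Fin.succ i, s i j (k j) x)
    (hC : ∀ i ∉ Op, ∀ k ∈ Fintype.piFinset S, D i k =
      ∏ j ∈ inc (Fin.castSucc (n := m)) Fin.succ i, s0 i j (k j)) :
    ∑ k ∈ Fintype.piFinset S, (∏ j, c j (k j)) * ∏ i, D i k =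
      ∫ x : Op → ℝ, (∏ i : Op, g i (x i)) *
        ∏ j : Fin m, ∑ κ ∈ S j, c j κ *
          (sgx Op s s0 x j.castSucc j κ * sgx Op s s0 x j.succ j κ) := by
  -- the term of a multi-index
  obtain ⟨G, hG⟩ : ∃ G : (Fin m → ℕ) → (Op → ℝ) → ℂ, G = fun k x => (∏ i : Op, g i (x i)) *
    ∏ i, ∏ j ∈ inc (Fin.castSucc (n := m)) Fin.succ i, sgx Op s s0 x i j (k j) := ⟨_, rfl⟩
  have hGe : ∀ k ∈ Fintype.piFinset S, ∀ x : Op → ℝ, G k x =
      (∏ i : Op, (g i (x i) * ∏ j ∈ inc (Fin.castSucc (n := m)) Fin.succ (i : Fin (m + 1)),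
        s i j (k j) (x i))) * ∏ i ∈ Opᶜ, D i k := by
    intro k hk x
    rw [hG]
    simp only
    rw [Finset.prod_mul_distrib, mul_assoc]
    congr 1
    rw [← Finset.prod_mul_prod_compl Op]
    congr 1
    · rw [← Finset.prod_coe_sort]
      refine Finset.prod_congr rfl fun i _ => ?_
      refine Finset.prod_congr rfl fun j _ => ?_
      unfold sgx
      rw [dif_pos i.2]
    · refine Finset.prod_congr rfl fun i hi => ?_
      have hi' : i ∉ Op := Finset.mem_compl.mp hi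
      rw [hC i hi' k hk]
      refine Finset.prod_congr rfl fun j _ => ?_
      unfold sgx
      rw [dif_neg hi']
  have hGi : ∀ k ∈ Fintype.piFinset S, Integrable (G k) := by
    intro k hk
    have e : G k = fun x : Op → ℝ => (∏ i : Op, (g i (x i) *
        ∏ j ∈ inc (Fin.castSucc (n := m)) Fin.succ (i : Fin (m + 1)), s i j (k j) (x i))) *
        ∏ i ∈ Opᶜ, D i k :=
      funext fun x => hGe k hk x
    rw [e]
    apply Integrable.mul_const
    exact Integrable.fintype_prod (f := fun (i : Op) (x : ℝ) => g i x *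
      ∏ j ∈ inc (Fin.castSucc (n := m)) Fin.succ (i : Fin (m + 1)), s i j (k j) x)
      (fun i => hI i i.2 k hk)
  have hGt : ∀ k ∈ Fintype.piFinset S, ∏ i, D i k = ∫ x : Op → ℝ, G k x := by
    intro k hk
    have e : G k = fun x : Op → ℝ => (∏ i : Op, (g i (x i) *
        ∏ j ∈ inc (Fin.castSucc (n := m)) Fin.succ (i : Fin (m + 1)), s i j (k j) (x i))) *
        ∏ i ∈ Opᶜ, D i k :=
      funext fun x => hGe k hk x
    rw [e, integral_mul_const, integral_fintype_prod_volume_eq_prod (fun (i : Op) (x : ℝ) =>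
      g i x * ∏ j ∈ inc (Fin.castSucc (n := m)) Fin.succ (i : Fin (m + 1)), s i j (k j) x),
      ← Finset.prod_mul_prod_compl Op]
    congr 1
    rw [← Finset.prod_coe_sort]
    exact Finset.prod_congr rfl fun i _ => hO i i.2 k hk
  have hpt : ∀ x : Op → ℝ, (∏ i : Op, g i (x i)) *
      ∏ j : Fin m, ∑ κ ∈ S j, c j κ *
        (sgx Op s s0 x j.castSucc j κ * sgx Op s s0 x j.succ j κ) =
      ∑ k ∈ Fintype.piFinset S, (∏ j, c j (k j)) * G k x := by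
    intro x
    rw [Finset.prod_univ_sum, Finset.mul_sum]
    refine Finset.sum_congr rfl fun k _ => ?_
    rw [hG]
    simp only
    rw [prod_inc (Fin.castSucc (n := m)) Fin.succ (fun j => (Fin.castSucc_lt_succ (i := j)).ne)
      (fun i j => sgx Op s s0 x i j (k j)), Finset.prod_mul_distrib]
    ring
  simp only [hpt]
  rw [integral_finsetSum _ fun k hk => (hGi k hk).const_mul _]
  refine Finset.sum_congr rfl fun k hk => ?_
  rw [integral_const_mul, hGt k hk]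

/-! ### The kernels with large indices -/

/-- The bound of a kernel near a compact set of good pairs. -/
theorem low_KF4 {K : ℕ → Sl → Sl → ℂ} (hK : KB K) (σ τ : ℂ → Sl)
    (hσ : (σ = fun v => .op v) ∨ ∃ s, σ = fun _ => .cl s)
    (hτ : (τ = fun v => .op v) ∨ ∃ s, τ = fun _ => .cl s) (L : ℂ × ℂ → ℝ) (hL : Continuous L)
    (S : Set (ℂ × ℂ)) (hS : IsCompact S) (h : ∀ p ∈ S, EdgeOK (σ p.1) (τ p.2) (L p)) :
    ∃ η : ℝ, 0 < η ∧ ∃ D : ℝ, 0 < D ∧ ∃ p : ℕ, ∀ᶠ M : ℕ in atTop, ∀ q : ℂ × ℂ,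
      (∃ q' ∈ S, dist q q' ≤ η) → (σ q.1).ok → (τ q.2).ok → (σ q.1).nn → (τ q.2).nn →
      ‖K M (σ q.1) (τ q.2)‖ ≤ D * (M : ℝ) ^ p * Real.exp (M * L q) := by
  obtain ⟨N, η, hη, δ, hδ, hq⟩ := EdgeOK_compact σ τ hσ hτ L hL S hS h
  obtain ⟨R, hR⟩ := hS.isBounded.exists_norm_le
  obtain ⟨D, hD0, p, hb⟩ := hK N (R + η)
  refine ⟨η / 2, by linarith, D, hD0, p, ?_⟩
  filter_upwards [hb] with M hb q hd o1 o2 n1 n2
  obtain ⟨q', hq', hd'⟩ := hd
  obtain ⟨a1, a2, n, hn, t, ht, a3, a4⟩ := hq q ⟨q', hq', by linarith⟩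
  have hqn : ‖q‖ ≤ R + η := by
    have h1 := hR q' hq'
    have h2 := norm_le_norm_add_norm_sub' q q'
    rw [dist_eq_norm] at hd'
    linarith
  have q1 : q.1.im ≤ R + η := ((le_abs_self _).trans (abs_im_le_norm _)).trans
    ((norm_fst_le q).trans hqn)
  have q2 : q.2.im ≤ R + η := ((le_abs_self _).trans (abs_im_le_norm _)).trans
    ((norm_snd_le q).trans hqn)
  have hbd : ∀ {σ : ℂ → Sl} {v : ℂ} {H : ℝ}, ((σ = fun v => .op v) ∨ ∃ s, σ = fun _ => .cl s) →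
      v.im ≤ H → (σ v).bd H := by
    rintro σ v H (rfl | ⟨s, rfl⟩) h
    · exact h
    · trivial
  refine (hb _ _ o1 o2 n1 n2 (hbd hσ q1) (hbd hτ q2) n hn t ht a3 _ a1 a2 a4).trans ?_
  have hM0 : (0 : ℝ) ≤ M := Nat.cast_nonneg M
  have : (M : ℝ) * (L q - δ) ≤ M * L q := mul_le_mul_of_nonneg_left (by linarith) hM0
  have hp : (0 : ℝ) ≤ D * (M : ℝ) ^ p := by positivity
  exact mul_le_mul_of_nonneg_left (Real.exp_le_exp.2 this) hp

variable {C : Cfg m} {v1 : Fin (m + 1) → ℝ} {lam : Fin m → Fin (m + 1) → ℝ}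
  {t : Fin (m + 1) → ℂ} {g ρ : Fin (m + 1) → ℝ}

/-- The kernels with large indices of the edges at `T`. -/
theorem low_bound4 {K : Fin m → ℕ → Sl → Sl → ℂ} (hK : ∀ j, KB (K j))
    (H : C.LowH2 v1 lam t g ρ) :
    ∃ η : ℝ, 0 < η ∧ ∃ D : ℝ, 0 < D ∧ ∃ p : ℕ, ∀ᶠ M : ℕ in atTop, ∀ J : Fin m × Bool × Bool,
      (J.2.1 = true → J.1.castSucc ∈ C.Op) → (J.2.2 = true → J.1.succ ∈ C.Op) →
      (J.2.1 = true ∨ J.2.2 = true) → ∀ v w : ℂ,
      (∃ v0 ∈ C.sT2 v1 J.2.1 J.1.castSucc, ‖v - v0‖ ≤ η) →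
      (∃ w0 ∈ C.sT2 v1 J.2.2 J.1.succ, ‖w - w0‖ ≤ η) →
      (C.sv J.1.castSucc v).ok → (C.sv J.1.succ w).ok → (C.sv J.1.castSucc v).nn →
      (C.sv J.1.succ w).nn →
      ‖K J.1 M (C.sv J.1.castSucc v) (C.sv J.1.succ w)‖ ≤ D * (M : ℝ) ^ p *
        Real.exp (M * (C.Fc J.1 + C.lT2 v1 lam t g J.2.1 J.1 J.1.castSucc v +
          C.lT2 v1 lam t g J.2.2 J.1 J.1.succ w)) := by
  have key : ∃ η : ℝ, 0 < η ∧ ∃ D : ℝ, 0 < D ∧ ∃ p : ℕ, ∀ J : Fin m × Bool × Bool,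
      ∀ᶠ M : ℕ in atTop, (J.2.1 = true → J.1.castSucc ∈ C.Op) → (J.2.2 = true → J.1.succ ∈ C.Op) →
      (J.2.1 = true ∨ J.2.2 = true) → ∀ v w : ℂ,
      (∃ v0 ∈ C.sT2 v1 J.2.1 J.1.castSucc, ‖v - v0‖ ≤ η) →
      (∃ w0 ∈ C.sT2 v1 J.2.2 J.1.succ, ‖w - w0‖ ≤ η) →
      (C.sv J.1.castSucc v).ok → (C.sv J.1.succ w).ok → (C.sv J.1.castSucc v).nn →
      (C.sv J.1.succ w).nn →
      ‖K J.1 M (C.sv J.1.castSucc v) (C.sv J.1.succ w)‖ ≤ D * (M : ℝ) ^ p *
        Real.exp (M * (C.Fc J.1 + C.lT2 v1 lam t g J.2.1 J.1 J.1.castSucc v +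
          C.lT2 v1 lam t g J.2.2 J.1 J.1.succ w)) := by
    refine low_choose (P := fun (J : Fin m × Bool × Bool) (η D : ℝ) (p : ℕ) =>
      ∀ᶠ M : ℕ in atTop, (J.2.1 = true → J.1.castSucc ∈ C.Op) → (J.2.2 = true → J.1.succ ∈ C.Op) →
      (J.2.1 = true ∨ J.2.2 = true) → ∀ v w : ℂ,
      (∃ v0 ∈ C.sT2 v1 J.2.1 J.1.castSucc, ‖v - v0‖ ≤ η) →
      (∃ w0 ∈ C.sT2 v1 J.2.2 J.1.succ, ‖w - w0‖ ≤ η) →
      (C.sv J.1.castSucc v).ok → (C.sv J.1.succ w).ok → (C.sv J.1.castSucc v).nn →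
      (C.sv J.1.succ w).nn →
      ‖K J.1 M (C.sv J.1.castSucc v) (C.sv J.1.succ w)‖ ≤ D * (M : ℝ) ^ p *
        Real.exp (M * (C.Fc J.1 + C.lT2 v1 lam t g J.2.1 J.1 J.1.castSucc v +
          C.lT2 v1 lam t g J.2.2 J.1 J.1.succ w))) ?_ ?_
    · intro J η η' D D' p p' h hD0 hη hDD hpp
      filter_upwards [h, eventually_ge_atTop 1] with M h hM
      rintro c1 c2 c3 v w ⟨v0, a1, a2⟩ ⟨w0, a3, a4⟩ o1 o2 n1 n2
      refine (h c1 c2 c3 v w ⟨v0, a1, a2.trans hη⟩ ⟨w0, a3, a4.trans hη⟩ o1 o2 n1 n2).trans ?_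
      exact low_pow_le (by exact_mod_cast hM) hD0 hDD hpp
    · rintro ⟨j, b, b'⟩
      by_cases hc : (b = true → j.castSucc ∈ C.Op) ∧ (b' = true → j.succ ∈ C.Op) ∧
          (b = true ∨ b' = true)
      · obtain ⟨c1, c2, c3⟩ := hc
        obtain ⟨η, hη, D, hD0, p, h⟩ := low_KF4 (hK j) (C.sv j.castSucc) (C.sv j.succ)
          (Cfg.sv_cases _) (Cfg.sv_cases _)
          (fun q => C.Fc j + C.lT2 v1 lam t g b j j.castSucc q.1 +
            C.lT2 v1 lam t g b' j j.succ q.2)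
          ((continuous_const.add ((Cfg.lT2_continuous v1 lam t g b j _).comp continuous_fst)).add
            ((Cfg.lT2_continuous v1 lam t g b' j _).comp continuous_snd))
          (C.sT2 v1 b j.castSucc ×ˢ C.sT2 v1 b' j.succ)
          ((Cfg.sT2_compact v1 b _).prod (Cfg.sT2_compact v1 b' _))
          (fun q hq => H.good j b b' c1 c2 c3 q.1 hq.1 q.2 hq.2)
        refine ⟨η, hη, D, hD0, p, ?_⟩
        filter_upwards [h] with M h
        rintro - - - v w ⟨v0, a1, a2⟩ ⟨w0, a3, a4⟩ o1 o2 n1 n2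
        refine h (v, w) ⟨(v0, w0), ⟨a1, a3⟩, ?_⟩ o1 o2 n1 n2
        rw [Prod.dist_eq]
        simp only [dist_eq_norm]
        exact max_le a2 a4
      · refine ⟨1, one_pos, 1, one_pos, 0, Eventually.of_forall fun M => ?_⟩
        intro c1 c2 c3
        exact absurd ⟨c1, c2, c3⟩ hc
  obtain ⟨η, hη, D, hD, p, h⟩ := key
  exact ⟨η, hη, D, hD, p, eventually_all.2 h⟩

end Pool.Agent.S4
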