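import Pool.Agent.S4.G.Defs

/-!
# The analytic interpolation of the terms
-/

set_option autoImplicit false

namespace Pool.Agent.S4

open Pool.Agent.H63.VC hiding ext
open Pool.Agent.H63.VC3 Pool.Agent.H63.VC7 Pool.Agent.H25.RK Pool.Agent.S3 Pool.Agent.H63.GO
open Complex Filter Topology MeasureTheory
open scoped BigOperators Interval

variable {n h : ℕ}

/-! ### The centered product -/

/-- Two more factors of the centered product. -/
private theorem Wd_add_two {M : ℕ} (hM : 0 < M) (d : ℕ) (v : ℂ) :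
    Wd M (d + 2) v = Wd M d v * (2 * cos (Real.pi * (v + ((d : ℂ) + 1) / (2 * M)))) *
      (2 * cos (Real.pi * (v - ((d : ℂ) + 1) / (2 * M)))) := by
  have hMc : (M : ℂ) ≠ 0 := by exact_mod_cast hM.ne'
  unfold Wd
  rw [Finset.prod_range_succ, Finset.prod_range_succ']
  have e1 : ∏ k ∈ Finset.range d, (2 * cos (Real.pi *
        (v + (((k + 1 : ℕ) : ℂ) + 1 / 2 - ((d + 2 : ℕ) : ℂ) / 2) / M))) =
      ∏ j ∈ Finset.range d, (2 * cos (Real.pi * (v + ((j : ℂ) + 1 / 2 - d / 2) / M))) := by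
    refine Finset.prod_congr rfl fun j _ => ?_
    congr 4
    push_cast
    ring
  have e2 : (Real.pi : ℂ) * (v + (((0 : ℕ) : ℂ) + 1 / 2 - ((d + 2 : ℕ) : ℂ) / 2) / M) =
      Real.pi * (v - ((d : ℂ) + 1) / (2 * M)) := by
    push_cast
    field_simp
    ring
  have e3 : (Real.pi : ℂ) * (v + (((d + 1 : ℕ) : ℂ) + 1 / 2 - ((d + 2 : ℕ) : ℂ) / 2) / M) =
      Real.pi * (v + ((d : ℂ) + 1) / (2 * M)) := by
    push_cast
    field_simp
    ring
  rw [e1, e2, e3]
  ring

/-- Many more factors. -/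
private theorem Wd_add {M : ℕ} (hM : 0 < M) (d t : ℕ) (v : ℂ) :
    Wd M (d + 2 * t) v = Wd M d v * ∏ i ∈ Finset.range t,
      (4 * (cos (Real.pi * (v + ((i : ℂ) + (d + 1) / 2) / M)) *
        cos (Real.pi * (v - ((i : ℂ) + (d + 1) / 2) / M)))) := by
  have hMc : (M : ℂ) ≠ 0 := by exact_mod_cast hM.ne'
  induction t with
  | zero => simp
  | succ t ih =>
    have e : d + 2 * (t + 1) = (d + 2 * t) + 2 := by ring
    have e1 : (((d + 2 * t : ℕ) : ℂ) + 1) / (2 * M) = ((t : ℂ) + (d + 1) / 2) / M := by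
      push_cast
      field_simp
      ring
    rw [e, Wd_add_two hM, ih, Finset.prod_range_succ, e1]
    ring

/-- The case of one factor, one half. -/
private theorem rS_pair {M : ℕ} (hM : 0 < M) {a : ℂ} (h0 : 0 ≤ a.re) (h1 : a.re < M) :
    rS M (a - 1) * rS M (M - a - 1) = 2 * sin (Real.pi * a / M) / M := by
  have hM0 : (0 : ℝ) < M := by exact_mod_cast hM
  have hMc : (M : ℂ) ≠ 0 := by exact_mod_cast hM0.ne'
  have e1 : ((M : ℂ) - a - 1).re = M - a.re - 1 := by simp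
  rw [rS_step hM (by linarith) h1, rS_eq_right hM (show -1 < a.re by linarith),
    rS_eq_right hM (show -1 < ((M : ℂ) - a - 1).re by rw [e1]; linarith)]
  have h := LL_reflect M hM a
  have e3 : (M : ℂ) - 1 - a = M - a - 1 := by ring
  rw [e3] at h
  have e4 : exp (-LL M a) * exp (-LL M ((M : ℂ) - a - 1)) = 1 / M := by
    rw [← exp_add]
    have e5 : -LL M a + -LL M ((M : ℂ) - a - 1) = -((Real.log M : ℝ) : ℂ) := by
      rw [← h]
      ring
    rw [e5, exp_neg, ← ofReal_exp, Real.exp_log hM0, ofReal_natCast, one_div]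
  calc exp (-LL M a) * (2 * sin (Real.pi * a / M)) * exp (-LL M ((M : ℂ) - a - 1))
      = (exp (-LL M a) * exp (-LL M ((M : ℂ) - a - 1))) * (2 * sin (Real.pi * a / M)) := by ring
    _ = _ := by
        rw [e4]
        ring

private theorem Wd_qS_one {M : ℕ} (hM : 0 < M) {v : ℂ} (hv : |v.re| ≤ 1 / 2) :
    Wd M 1 v / M = qS M (1 / 2 - ((1 : ℕ) : ℂ) / (2 * M)) v := by
  have hM0 : (0 : ℝ) < M := by exact_mod_cast hM
  have hMc : (M : ℂ) ≠ 0 := by exact_mod_cast hM0.ne'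
  have hv' := abs_le.mp hv
  have eW : Wd M 1 v = 2 * cos (Real.pi * v) := by
    unfold Wd
    rw [Finset.prod_range_one]
    congr 3
    push_cast
    field_simp
    ring
  set a : ℂ := M * (1 / 2 - v) with ha
  have har : a.re = M * (1 / 2 - v.re) := by
    rw [ha, ← ofReal_natCast, re_ofReal_mul]
    simp
  have e1 : (M : ℂ) * (1 / 2 - ((1 : ℕ) : ℂ) / (2 * M) - v) - 1 / 2 = a - 1 := by
    rw [ha]
    push_cast
    field_simp
    ring
  have e2 : (M : ℂ) * (1 / 2 - ((1 : ℕ) : ℂ) / (2 * M) + v) - 1 / 2 = M - a - 1 := by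
    rw [ha]
    push_cast
    field_simp
    ring
  have es : sin (Real.pi * a / M) = cos (Real.pi * v) := by
    have : (Real.pi : ℂ) * a / M = Real.pi / 2 - Real.pi * v := by
      rw [ha]
      field_simp
    rw [this, sin_pi_div_two_sub]
  unfold qS
  rw [e1, e2, eW]
  rcases lt_or_ge a.re M with h | h
  · rw [rS_pair hM (by rw [har]; nlinarith) h, es]
  · set b : ℂ := M - a with hb
    have hbr : b.re = M - a.re := by simp [hb]
    have hb0 : 0 ≤ b.re := by rw [hbr, har]; nlinarith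
    have hb1 : b.re < M := by rw [hbr]; linarith
    have h2 := rS_pair hM hb0 hb1
    have e3 : (M : ℂ) - b - 1 = a - 1 := by rw [hb]; ring
    have e4 : sin (Real.pi * b / M) = cos (Real.pi * v) := by
      have : (Real.pi : ℂ) * b / M = Real.pi - Real.pi * a / M := by
        rw [hb]
        field_simp
      rw [this, sin_pi_sub, es]
    rw [e3, e4] at h2
    rw [mul_comm (rS M (a - 1)), h2]

theorem Wd_qS {M D : ℕ} (hM : 0 < M) (hD : D ≤ 2 * M) {v : ℂ} (hv : |v.re| ≤ 1 / 2) :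
    Wd M D v / M = qS M (1 / 2 - (D : ℂ) / (2 * M)) v := by
  have hM0 : (0 : ℝ) < M := by exact_mod_cast hM
  have hMc : (M : ℂ) ≠ 0 := by exact_mod_cast hM0.ne'
  have hv' := abs_le.mp hv
  induction D using Nat.twoStepInduction with
  | zero =>
    have e : (1 / 2 - ((0 : ℕ) : ℂ) / (2 * M) : ℂ) = 1 / 2 := by simp
    rw [e, qS_top hM hv]
    unfold Wd
    simp
  | one => exact Wd_qS_one hM hv
  | more D ih _ =>
    have h1 := ih (by omega)
    have hDM : (D : ℝ) + 2 ≤ 2 * M := by exact_mod_cast hD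
    have hD0 : (0 : ℝ) ≤ D := Nat.cast_nonneg D
    set z1 : ℂ := M * (1 / 2 - (D : ℂ) / (2 * M) - v) - 1 / 2 with hz1
    set z2 : ℂ := M * (1 / 2 - (D : ℂ) / (2 * M) + v) - 1 / 2 with hz2
    have z1' : z1 = ((M / 2 - D / 2 - 1 / 2 : ℝ) : ℂ) - ((M : ℝ) : ℂ) * v := by
      rw [hz1]
      push_cast
      field_simp
      ring
    have z2' : z2 = ((M / 2 - D / 2 - 1 / 2 : ℝ) : ℂ) + ((M : ℝ) : ℂ) * v := by
      rw [hz2]
      push_cast
      field_simp
      ring
    have ez1 : z1.re = M / 2 - D / 2 - 1 / 2 - M * v.re := by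
      rw [z1', sub_re, re_ofReal_mul, ofReal_re]
    have ez2 : z2.re = M / 2 - D / 2 - 1 / 2 + M * v.re := by
      rw [z2', add_re, re_ofReal_mul, ofReal_re]
    have s1 := rS_step hM (z := z1) (by rw [ez1]; nlinarith) (by rw [ez1]; nlinarith)
    have s2 := rS_step hM (z := z2) (by rw [ez2]; nlinarith) (by rw [ez2]; nlinarith)
    have e3 : qS M (1 / 2 - ((D + 2 : ℕ) : ℂ) / (2 * M)) v = rS M (z1 - 1) * rS M (z2 - 1) := by
      unfold qS
      congr 2
      · rw [hz1]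
        push_cast
        field_simp
        ring
      · rw [hz2]
        push_cast
        field_simp
        ring
    have e4 : qS M (1 / 2 - (D : ℂ) / (2 * M)) v = rS M z1 * rS M z2 := rfl
    rw [e4] at h1
    have c1 : cos (Real.pi * (v + ((D : ℂ) + 1) / (2 * M))) = sin (Real.pi * z1 / M) := by
      have : (Real.pi : ℂ) * (v + ((D : ℂ) + 1) / (2 * M)) = Real.pi / 2 - Real.pi * z1 / M := by
        rw [z1']
        push_cast
        field_simp
        ring
      rw [this, cos_pi_div_two_sub]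
    have c2 : cos (Real.pi * (v - ((D : ℂ) + 1) / (2 * M))) = sin (Real.pi * z2 / M) := by
      have : (Real.pi : ℂ) * (v - ((D : ℂ) + 1) / (2 * M)) =
          -(Real.pi / 2 - Real.pi * z2 / M) := by
        rw [z2']
        push_cast
        field_simp
        ring
      rw [this, cos_neg, cos_pi_div_two_sub]
    rw [e3, s1, s2, Wd_add_two hM, c1, c2]
    calc Wd M D v * (2 * sin (Real.pi * z1 / M)) * (2 * sin (Real.pi * z2 / M)) / M
        = (Wd M D v / M) * (2 * sin (Real.pi * z1 / M)) * (2 * sin (Real.pi * z2 / M)) := by ring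
      _ = _ := by
          rw [h1]
          ring

private theorem M_half_sub {M κ : ℕ} (h1 : κ < M) :
    (M : ℂ) * (1 / 2 - ((yk 2 M κ : ℝ) : ℂ)) = ((M - 1 - κ : ℕ) : ℂ) := by
  have hM : 0 < M := by omega
  have hMc : (M : ℂ) ≠ 0 := by exact_mod_cast hM.ne'
  rw [yk_two, Nat.sub_sub, Nat.cast_sub (by omega)]
  push_cast
  field_simp
  ring

private theorem M_half_add {M κ : ℕ} (h1 : κ < M) :
    (M : ℂ) * (((yk 2 M κ : ℝ) : ℂ) + 1 / 2) - 1 = κ := by
  have hM : 0 < M := by omega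
  have hMc : (M : ℂ) ≠ 0 := by exact_mod_cast hM.ne'
  rw [yk_two]
  push_cast
  field_simp
  ring

theorem Ws_sk4 (hn : 2 ≤ n) (hh : 1 ≤ h) (hh' : 2 * h ≤ n) (P : Bool) {M κ : ℕ} (h0 : n - 2 ≤ κ)
    (h1 : κ < M) {σ : Sl} (hσ : σ.ok) :
    Ws n h M P σ * sk4 n h M P κ σ = sC4 n h M P (yk 2 M κ : ℝ) σ := by
  have hM : 0 < M := by omega
  have hMc : (M : ℂ) ≠ 0 := by exact_mod_cast hM.ne'
  rcases σ with v | s
  · have hv : |v.re| ≤ 1 / 2 := hσ
    have hD : dd n h P + 2 * (M - 1 - κ) ≤ 2 * M := by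
      unfold dd
      split_ifs <;> omega
    have hq := Wd_qS hM hD hv
    have e1 : (1 / 2 - ((dd n h P + 2 * (M - 1 - κ) : ℕ) : ℂ) / (2 * M) : ℂ) =
        ((yk 2 M κ : ℝ) : ℂ) - (dd n h P : ℂ) / (2 * M) := by
      have h2 := M_half_sub h1
      have h3 : ((yk 2 M κ : ℝ) : ℂ) = 1 / 2 - ((M - 1 - κ : ℕ) : ℂ) / M := by
        rw [← h2]
        field_simp
        ring
      rw [h3]
      push_cast
      field_simp
      ring
    rw [e1, Wd_add hM] at hq
    change Wd M (dd n h P) v * q4 M (dd n h P) (M - 1 - κ) v =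
      qS M (((yk 2 M κ : ℝ) : ℂ) - (dd n h P : ℂ) / (2 * M)) v
    rw [← hq]
    unfold q4
    ring
  · have e1 := M_half_sub h1
    have e2 : (M : ℂ) * (((yk 2 M κ : ℝ) : ℂ) + 1 / 2) - 1 - ((n : ℂ) - 2) =
        ((κ - (n - 2) : ℕ) : ℂ) := by
      rw [M_half_add h1, Nat.cast_sub h0, Nat.cast_sub hn]
      push_cast
      ring
    unfold Ws sk4 sC4
    simp only
    rw [e1, e2, exp_neg, LL_nat M _ (by omega), one_mul, div_eq_mul_inv]

theorem w4C_yk (hn : 2 ≤ n) (hh : 1 ≤ h) (hh' : 2 * h ≤ n) (e : Bool) {M κ : ℕ}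
    (h0 : n - 2 ≤ κ) (h1 : κ < M) :
    w4C n h e M (yk 2 M κ : ℝ) = (w4 n h e M (κ - (n - 2)) : ℂ) := by
  have e0 := M_half_add h1
  have e1 : (κ : ℂ) - ((n : ℂ) - 2) = ((κ - (n - 2) : ℕ) : ℂ) := by
    rw [Nat.cast_sub h0, Nat.cast_sub hn]
    push_cast
    ring
  have e2 : (κ : ℂ) - ((n : ℂ) - 1 - h) = ((κ - (n - 2) + h - 1 : ℕ) : ℂ) := by
    rw [Nat.cast_sub (by omega), Nat.cast_add, Nat.cast_sub h0, Nat.cast_sub hn]
    push_cast
    ring
  have e3 : (κ : ℂ) - (if e then (n : ℂ) - 1 - h else (h : ℂ) - 1) =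
      ((κ - (n - 2) + (if e then h else n - h) - 1 : ℕ) : ℂ) := by
    cases e
    · simp only [Bool.false_eq_true, if_false]
      rw [Nat.cast_sub (by omega), Nat.cast_add, Nat.cast_sub h0, Nat.cast_sub hn,
        Nat.cast_sub (show h ≤ n by omega)]
      push_cast
      ring
    · simp only [if_true]
      exact e2
  unfold w4C w4
  rw [e0, e1, e2, e3, exp_add, exp_add, exp_add, LL_nat M _ h1, LL_nat M _ (by omega),
    LL_nat M _ (by omega), LL_nat M _ (by split_ifs <;> omega)]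
  have e4 : κ - (n - 2) + n - 2 = κ := by omega
  rw [e4]
  push_cast
  ring

/-- The kernel times the centered products. -/
theorem KEF_F4 (hn : 2 ≤ n) (hh : 1 ≤ h) (hh' : 2 * h ≤ n) (e P Q : Bool) :
    ∀ᶠ M : ℕ in atTop, ∀ σ τ : Sl, σ.ok → τ.ok → KEF (F4 n h e P Q) M σ τ =
      Ws n h M P σ * Ws n h M Q τ * Kq n h e P Q M σ τ := by
  filter_upwards [eventually_ge_atTop (3 * n)] with M hM σ τ hσ hτ
  unfold KEF Kq
  rw [Finset.mul_sum]
  refine Finset.sum_congr rfl fun κ hκ => ?_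
  rw [Finset.mem_Ico] at hκ
  have h0 : n - 2 ≤ κ := by
    have : n - 2 ≤ k0 M := by
      unfold k0
      omega
    omega
  unfold F4
  rw [w4C_yk hn hh hh' e h0 hκ.2, ← Ws_sk4 hn hh hh' P h0 hκ.2 hσ,
    ← Ws_sk4 hn hh hh' Q h0 hκ.2 hτ]
  ring

end Pool.Agent.S4
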