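import Pool.Agent.S4.G.Defs
import Pool.Agent.H25.RK.DGf

/-!
# Nodes at an edge with small index: lattice sums
-/

set_option autoImplicit false

namespace Pool.Agent.S4

open Pool.Agent.H63.VC hiding ext
open Pool.Agent.H63.VC3 Pool.Agent.H63.VC7 Pool.Agent.H25.RK Pool.Agent.S3 Pool.Agent.H63.GO
open Complex Filter Topology MeasureTheory
open scoped BigOperators Interval

variable {m : ℕ} {n h : ℕ}

/-- The slot of an edge with small index at a lattice node. -/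
noncomputable def ql4 (n h : ℕ) (P : Bool) (M κ X : ℕ) : ℂ :=
  if X ≤ (if P then κ - (n - 1 - h) else κ - (n - 2)) then
    deriv (fun v => Wd M (dd n h P) v * q4 M (dd n h P) (M - 1 - κ) v)
      ((vl (nn n P) M X : ℝ) : ℂ) else 0

/-- The factor of a lattice node. -/
noncomputable def gl4 (r : ℝ) (n h : ℕ) (P : Bool) (s M X : ℕ) : ℂ :=
  2 * (exp (2 * Real.pi * I * r * M * ((vl (nn n P) M X : ℝ) : ℂ) ^ 2) *
    (2 * sin (2 * Real.pi * ((vl (nn n P) M X : ℝ) : ℂ))) *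
    (if P then Wd M (2 * h - 2) ((vl (nn n P) M X : ℝ) : ℂ)
      else Wd M (n - 2) ((vl (nn n P) M X : ℝ) : ℂ) *
        Wd M (n - 2 * h) ((vl (nn n P) M X : ℝ) : ℂ) ^ s))

/-- The number of the lattice points. -/
def kX (n : ℕ) (P : Bool) (M : ℕ) : ℕ := if P then k0 M else k0 M - (n - 2)

/-! ### Centered products -/

/-- A factor of the centered product. -/
private noncomputable def wf (M d j : ℕ) (v : ℂ) : ℂ :=
  2 * cos (Real.pi * (v + ((j : ℂ) + 1 / 2 - d / 2) / M))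

private theorem Wd_wf (M d : ℕ) (v : ℂ) : Wd M d v = ∏ j ∈ Finset.range d, wf M d j v := rfl

private theorem wf_diff (M d j : ℕ) : Differentiable ℂ (wf M d j) := by
  unfold wf
  fun_prop

private theorem Wd_diff (M d : ℕ) : Differentiable ℂ (Wd M d) := by
  have : Wd M d = fun v => ∏ j ∈ Finset.range d, wf M d j v := funext fun v => Wd_wf M d v
  rw [this]
  exact Differentiable.fun_finsetProd fun i _ => wf_diff M d i

private theorem q4_diff (M d t : ℕ) : Differentiable ℂ (q4 M d t) := by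
  have e : q4 M d t = fun v => 1 / (M : ℂ) * ∏ i ∈ Finset.range t,
      (4 * (cos (Real.pi * (v + ((i : ℂ) + (d + 1) / 2) / M)) *
        cos (Real.pi * (v - ((i : ℂ) + (d + 1) / 2) / M)))) := rfl
  rw [e]
  refine (Differentiable.fun_finsetProd fun i _ => ?_).const_mul _
  fun_prop

private theorem Wd_neg (M d : ℕ) (v : ℂ) : Wd M d (-v) = Wd M d v := by
  rw [Wd_wf, Wd_wf, ← Finset.prod_range_reflect]
  refine Finset.prod_congr rfl fun j hj => ?_
  rw [Finset.mem_range] at hj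
  unfold wf
  rw [← cos_neg]
  congr 2
  have e : ((d - 1 - j : ℕ) : ℂ) = (d : ℂ) - 1 - j := by
    rw [Nat.sub_sub, Nat.cast_sub (by omega)]
    push_cast
    ring
  rw [e]
  ring

private theorem q4_neg (M d t : ℕ) (v : ℂ) : q4 M d t (-v) = q4 M d t v := by
  unfold q4
  congr 1
  refine Finset.prod_congr rfl fun i _ => ?_
  have e1 : cos (Real.pi * (-v + ((i : ℂ) + (d + 1) / 2) / M)) =
      cos (Real.pi * (v - ((i : ℂ) + (d + 1) / 2) / M)) := by
    rw [← cos_neg]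
    congr 1
    ring
  have e2 : cos (Real.pi * (-v - ((i : ℂ) + (d + 1) / 2) / M)) =
      cos (Real.pi * (v + ((i : ℂ) + (d + 1) / 2) / M)) := by
    rw [← cos_neg]
    congr 1
    ring
  rw [e1, e2]
  ring

private theorem Wd_add_two (M d : ℕ) (v : ℂ) : Wd M (d + 2) v = Wd M d v *
    (4 * (cos (Real.pi * (v + ((d : ℂ) + 1) / 2 / M)) *
      cos (Real.pi * (v - ((d : ℂ) + 1) / 2 / M)))) := by
  have e0 : wf M (d + 2) 0 v = 2 * cos (Real.pi * (v - ((d : ℂ) + 1) / 2 / M)) := by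
    unfold wf
    congr 3
    push_cast
    ring
  have e1 : wf M (d + 2) (d + 1) v = 2 * cos (Real.pi * (v + ((d : ℂ) + 1) / 2 / M)) := by
    unfold wf
    congr 3
    push_cast
    ring
  have e2 : ∀ j, wf M (d + 2) (j + 1) v = wf M d j v := by
    intro j
    unfold wf
    congr 5
    push_cast
    ring
  rw [Wd_wf, Wd_wf, Finset.prod_range_succ, Finset.prod_range_succ', e0, e1,
    Finset.prod_congr rfl fun j _ => e2 j]
  ring

private theorem Wd_q4 (M d t : ℕ) (v : ℂ) :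
    Wd M d v * q4 M d t v = 1 / M * Wd M (d + 2 * t) v := by
  have e : Wd M (d + 2 * t) v = Wd M d v * ∏ i ∈ Finset.range t,
      (4 * (cos (Real.pi * (v + ((i : ℂ) + (d + 1) / 2) / M)) *
        cos (Real.pi * (v - ((i : ℂ) + (d + 1) / 2) / M)))) := by
    induction t with
    | zero => simp
    | succ t ih =>
      rw [show d + 2 * (t + 1) = (d + 2 * t) + 2 by ring, Wd_add_two, ih, Finset.prod_range_succ,
        mul_assoc]
      have e : (((d + 2 * t : ℕ) : ℂ) + 1) / 2 = (t : ℂ) + (d + 1) / 2 := by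
        push_cast
        ring
      rw [e]
  rw [e]
  unfold q4
  ring

/-! ### The zeros -/

private theorem wf_vl {M : ℕ} (hM : 0 < M) (ν c X j : ℕ) :
    wf M (ν + 2 * c) j ((vl ν M X : ℝ) : ℂ) =
      2 * cos (Real.pi * (((X : ℂ) + j - c) / M - 1 / 2)) := by
  have hM' : (M : ℂ) ≠ 0 := by exact_mod_cast hM.ne'
  unfold wf vl bt
  congr 3
  push_cast
  field_simp
  ring

private theorem wf_zero1 {M : ℕ} (hM : 0 < M) (ν : ℕ) {c X : ℕ} (h : X ≤ c) :
    wf M (ν + 2 * c) (c - X) ((vl ν M X : ℝ) : ℂ) = 0 := by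
  rw [wf_vl hM, Nat.cast_sub h]
  have e : (Real.pi : ℂ) * (((X : ℂ) + (c - X) - c) / M - 1 / 2) = -(Real.pi / 2) := by ring
  rw [e, cos_neg, cos_pi_div_two, mul_zero]

private theorem wf_zero2 {M : ℕ} (hM : 0 < M) (ν : ℕ) {c X : ℕ} (h : X ≤ c) :
    wf M (ν + 2 * c) (c + M - X) ((vl ν M X : ℝ) : ℂ) = 0 := by
  have hM' : (M : ℂ) ≠ 0 := by exact_mod_cast hM.ne'
  rw [wf_vl hM, Nat.cast_sub (by omega)]
  have e : (Real.pi : ℂ) * (((X : ℂ) + ((c + M : ℕ) - X) - c) / M - 1 / 2) = Real.pi / 2 := by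
    push_cast
    field_simp
    ring
  rw [e, cos_pi_div_two, mul_zero]

private theorem Wd_zero {M : ℕ} (hM : 0 < M) {ν c X : ℕ} (hν : 1 ≤ ν) (h : X ≤ c) :
    Wd M (ν + 2 * c) ((vl ν M X : ℝ) : ℂ) = 0 := by
  rw [Wd_wf]
  exact Finset.prod_eq_zero (Finset.mem_range.2 (show c - X < ν + 2 * c by omega))
    (wf_zero1 hM ν h)

private theorem Wd_double {M : ℕ} (hM : 0 < M) {ν c X : ℕ} (h : X ≤ c)
    (h' : M + 1 ≤ X + ν + c) :
    HasDerivAt (Wd M (ν + 2 * c)) 0 ((vl ν M X : ℝ) : ℂ) := by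
  have e : Wd M (ν + 2 * c) = fun v => wf M (ν + 2 * c) (c - X) v *
      ∏ j ∈ (Finset.range (ν + 2 * c)).erase (c - X), wf M (ν + 2 * c) j v := by
    funext v
    rw [Wd_wf]
    exact (Finset.mul_prod_erase (Finset.range (ν + 2 * c)) (fun j => wf M (ν + 2 * c) j v)
      (Finset.mem_range.2 (by omega))).symm
  have g1 : Differentiable ℂ fun v => ∏ j ∈ (Finset.range (ν + 2 * c)).erase (c - X),
      wf M (ν + 2 * c) j v := Differentiable.fun_finsetProd fun i _ => wf_diff M _ i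
  have z : ∏ j ∈ (Finset.range (ν + 2 * c)).erase (c - X),
      wf M (ν + 2 * c) j ((vl ν M X : ℝ) : ℂ) = 0 := by
    refine Finset.prod_eq_zero (i := c + M - X) ?_ (wf_zero2 hM ν h)
    rw [Finset.mem_erase, Finset.mem_range]
    constructor <;> omega
  have hd : HasDerivAt (wf M (ν + 2 * c) (c - X))
      (deriv (wf M (ν + 2 * c) (c - X)) ((vl ν M X : ℝ) : ℂ)) ((vl ν M X : ℝ) : ℂ) :=
    (wf_diff M _ _ _).hasDerivAt
  rw [e]
  refine (deriv_mul_zero hd (g1 _) (wf_zero1 hM ν h)).congr_deriv ?_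
  rw [z, mul_zero]

private theorem vl_refl4 {M ν X : ℕ} (hM : 0 < M) (hX : X + ν ≤ M + 1) :
    ((vl ν M (M + 1 - ν - X) : ℝ) : ℂ) = -((vl ν M X : ℝ) : ℂ) := by
  have hM' : (M : ℝ) ≠ 0 := by exact_mod_cast hM.ne'
  rw [← ofReal_neg]
  congr 1
  unfold vl bt
  rw [Nat.sub_sub, Nat.cast_sub (by omega)]
  push_cast
  field_simp
  ring

private theorem pre_neg (M s : ℕ) (P : Bool) (v : ℂ) : pre n h M P s (-v) = pre n h M P s v := by
  unfold pre
  simp only [Wd_neg]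

private theorem NT4_neg (r : ℝ) (M : ℕ) (P : Bool) (s : ℕ) (A : Finset (Fin m)) (k : Fin m → ℕ)
    (v : ℂ) : NT4 r n h M P s A k (-v) = -NT4 r n h M P s A k v := by
  unfold NT4
  have e1 : 2 * Real.pi * -v = -(2 * Real.pi * v) := by ring
  rw [e1, sin_neg, neg_sq, pre_neg, Finset.prod_congr rfl fun j _ => q4_neg M _ _ v]
  ring

private theorem NT4_deriv_neg (r : ℝ) (M : ℕ) (P : Bool) (s : ℕ) (A : Finset (Fin m))
    (k : Fin m → ℕ) (v : ℂ) :
    deriv (NT4 r n h M P s A k) (-v) = deriv (NT4 r n h M P s A k) v := by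
  have e : (fun w => NT4 r n h M P s A k (-w)) = fun w => -NT4 r n h M P s A k w :=
    funext fun w => NT4_neg r M P s A k w
  have h1 := congrArg (fun f : ℂ → ℂ => deriv f v) e
  rw [deriv_comp_neg, deriv.fun_neg] at h1
  exact neg_injective h1

/-- The factor of a node at an edge with small index. -/
theorem DG4_lat (hn : 2 ≤ n) (hh : 1 ≤ h) (hh' : 2 * h ≤ n) (r : ℝ) (P : Bool) (s : ℕ) {M : ℕ}
    (hM : 5 * n ≤ M) {A : Finset (Fin m)} (κ : Fin m → ℕ) (hκ : ∀ j ∈ A, n - 2 ≤ κ j ∧ κ j < M)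
    {j0 : Fin m} (hj0 : j0 ∈ A) (h0 : κ j0 < k0 M) :
    DG4 r n h M P s A (fun j => κ j - (n - 2)) = ∑ X ∈ Finset.range (kX n P M),
      gl4 r n h P s M X * (ql4 n h P M (κ j0) X *
        ∏ j ∈ A.erase j0, sk4 n h M P (κ j) (.op ((vl (nn n P) M X : ℝ) : ℂ))) := by
  have hMp : 0 < M := by omega
  obtain ⟨hκ1, hκ2⟩ := hκ j0 hj0
  have hk0 : κ j0 < 2 * M / 5 := h0
  obtain ⟨ν, hν⟩ : ∃ ν, nn n P = ν := ⟨_, rfl⟩
  obtain ⟨d, hd⟩ : ∃ d, dd n h P = d := ⟨_, rfl⟩
  obtain ⟨t0, ht0⟩ : ∃ t0, M - 1 - κ j0 = t0 := ⟨_, rfl⟩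
  obtain ⟨lam, hlam⟩ : ∃ lam, (if P then κ j0 - (n - 1 - h) else κ j0 - (n - 2)) = lam :=
    ⟨_, rfl⟩
  obtain ⟨c, hc⟩ : ∃ c, M - ν - lam = c := ⟨_, rfl⟩
  have hν1 : 1 ≤ ν ∧ 5 * ν ≤ M := by
    rw [← hν]
    unfold nn
    split_ifs <;> omega
  have hD : d + 2 * t0 = ν + 2 * c ∧ lam + ν + c = M ∧ lam < kX n P M ∧ lam < c := by
    rw [← hc, ← hν, ← hlam, ← hd, ← ht0]
    unfold nn dd kX k0
    cases P
    · simp only [Bool.false_eq_true, if_false]
      omega
    · simp only [if_true]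
      omega
  obtain ⟨hD, hsum, hlX, hlc⟩ := hD
  -- the main factor
  obtain ⟨Q, hQ⟩ : ∃ Q : ℂ → ℂ, Q = fun v => Wd M d v * q4 M d t0 v := ⟨_, rfl⟩
  have hQ' : Q = fun v => 1 / (M : ℂ) * Wd M (ν + 2 * c) v := by
    rw [hQ]
    funext v
    rw [Wd_q4, hD]
  have hQd : Differentiable ℂ Q := by
    rw [hQ']
    exact (Wd_diff M _).const_mul _
  have hQ0 : ∀ X ≤ c, Q ((vl ν M X : ℝ) : ℂ) = 0 := by
    intro X hX
    rw [hQ']
    simp only
    rw [Wd_zero hMp hν1.1 hX, mul_zero]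
  have hQ2 : ∀ X, lam < X → X ≤ c → deriv Q ((vl ν M X : ℝ) : ℂ) = 0 := by
    intro X h1 h2
    rw [hQ']
    have := (Wd_double (ν := ν) hMp h2 (by omega)).const_mul (1 / (M : ℂ))
    rw [this.deriv, mul_zero]
  -- the other factors
  obtain ⟨R, hR⟩ : ∃ R : ℂ → ℂ, R = fun v => exp (2 * Real.pi * I * r * M * v ^ 2) *
      (2 * sin (2 * Real.pi * v)) *
      (if P then Wd M (2 * h - 2) v else Wd M (n - 2) v * Wd M (n - 2 * h) v ^ s) := ⟨_, rfl⟩
  have hRd : Differentiable ℂ R := by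
    have w1 := Wd_diff M (2 * h - 2)
    have w2 := Wd_diff M (n - 2)
    have w3 := Wd_diff M (n - 2 * h)
    rw [hR]
    cases P
    · simp only [Bool.false_eq_true, if_false]
      fun_prop
    · simp only [if_true]
      fun_prop
  obtain ⟨T, hT⟩ : ∃ T : ℂ → ℂ, T = fun v => ∏ j ∈ A.erase j0, q4 M d (M - 1 - κ j) v :=
    ⟨_, rfl⟩
  have hTd : Differentiable ℂ T := by
    rw [hT]
    exact Differentiable.fun_finsetProd fun i _ => q4_diff M _ _
  obtain ⟨F, hF⟩ : ∃ F : ℂ → ℂ, NT4 r n h M P s A (fun j => κ j - (n - 2)) = F := ⟨_, rfl⟩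
  have hFe : F = fun v => Q v * (R v * T v) := by
    rw [← hF]
    funext v
    unfold NT4
    rw [← Finset.mul_prod_erase A _ hj0]
    have e1 : ∀ j ∈ A, M + 1 - n - (κ j - (n - 2)) = M - 1 - κ j := by
      intro j hj
      obtain ⟨a1, a2⟩ := hκ j hj
      omega
    rw [Finset.prod_congr rfl fun j hj => by rw [e1 j (Finset.mem_of_mem_erase hj)], e1 j0 hj0,
      hQ, hR, hT, ht0, hd]
    simp only
    have e2 : pre n h M P s v = Wd M d v *
        (if P then Wd M (2 * h - 2) v else Wd M (n - 2) v * Wd M (n - 2 * h) v ^ s) := by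
      rw [← hd]
      unfold pre dd
      cases P
      · simp only [Bool.false_eq_true, if_false]
        ring
      · simp only [if_true]
        ring
    rw [e2]
    ring
  have hF0 : ∀ X ≤ c, deriv F ((vl ν M X : ℝ) : ℂ) = deriv Q ((vl ν M X : ℝ) : ℂ) *
      (R ((vl ν M X : ℝ) : ℂ) * T ((vl ν M X : ℝ) : ℂ)) := by
    intro X hX
    rw [hFe]
    exact (deriv_mul_zero (hQd _).hasDerivAt ((hRd.mul hTd) _) (hQ0 X hX)).deriv
  -- the sum
  obtain ⟨f, hf⟩ : ∃ f : ℕ → ℂ, f = fun X => deriv F ((vl ν M X : ℝ) : ℂ) := ⟨_, rfl⟩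
  have hfr : ∀ X, X + ν ≤ M + 1 → f (M + 1 - ν - X) = f X := by
    intro X hX
    rw [hf]
    simp only
    rw [vl_refl4 hMp hX, ← hF, NT4_deriv_neg]
  have hS : DG4 r n h M P s A (fun j => κ j - (n - 2)) = ∑ X ∈ Finset.range (M + 2 - ν), f X := by
    unfold DG4
    rw [hF, hf, hν]
  have h1 : ∑ X ∈ Finset.range (M + 2 - ν), f X = ∑ X ∈ Finset.range (lam + 1), f X +
      ∑ X ∈ Finset.Ico (lam + 1) (c + 1), f X + ∑ X ∈ Finset.Ico (c + 1) (M + 2 - ν), f X := by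
    rw [Finset.range_eq_Ico, Finset.range_eq_Ico,
      Finset.sum_Ico_consecutive _ (Nat.zero_le _) (by omega),
      Finset.sum_Ico_consecutive _ (Nat.zero_le _) (by omega)]
  have h2 : ∑ X ∈ Finset.Ico (lam + 1) (c + 1), f X = 0 := by
    refine Finset.sum_eq_zero fun X hX => ?_
    rw [Finset.mem_Ico] at hX
    rw [hf]
    simp only
    rw [hF0 X (by omega), hQ2 X (by omega) (by omega), zero_mul]
  have h3 : ∑ X ∈ Finset.Ico (c + 1) (M + 2 - ν), f X = ∑ X ∈ Finset.range (lam + 1), f X := by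
    rw [Finset.sum_Ico_eq_sum_range]
    have e1 : M + 2 - ν - (c + 1) = lam + 1 := by omega
    rw [e1, ← Finset.sum_range_reflect]
    refine Finset.sum_congr rfl fun X hX => ?_
    rw [Finset.mem_range] at hX
    rw [← hfr X (by omega)]
    congr 1
    omega
  have hsub : Finset.range (lam + 1) ⊆ Finset.range (kX n P M) :=
    Finset.range_subset_range.2 (by omega)
  rw [hS, h1, h2, h3, add_zero, ← two_mul, ← Finset.sum_subset hsub, Finset.mul_sum]
  · refine Finset.sum_congr rfl fun X hX => ?_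
    have hX' : X ≤ lam := by
      have := Finset.mem_range.1 hX
      omega
    unfold gl4 ql4
    simp only [sk4]
    rw [hlam, if_pos hX', hν, hd, ht0, ← hQ, hf]
    simp only
    rw [hF0 X (by omega), hR, hT]
    ring
  · intro X _ hX
    rw [Finset.mem_range, not_lt] at hX
    unfold ql4
    rw [hlam, if_neg (by omega), zero_mul, mul_zero]

end Pool.Agent.S4
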