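import Pool.Agent.S4.G.Defs

/-!
# The bound of the terms: shifts and phases
-/

set_option autoImplicit false

namespace Pool.Agent.S4

open Pool.Agent.H63.VC hiding ext
open Pool.Agent.H63.VC3 Pool.Agent.H63.VC7 Pool.Agent.H25.RK Pool.Agent.S3 Pool.Agent.H63.GO
open Complex Filter Topology MeasureTheory
open scoped BigOperators Interval

variable {n h : ℕ}

/-! ### Shifts by several steps -/

theorem fb_shift : ∃ C : ℝ, 0 < C ∧ ∀ M : ℕ, 1 ≤ M → ∀ (j : ℕ) (ζ : ℂ),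
    |M * Rf (ζ - j / (2 * M)) - M * Rf ζ| ≤ j * (C * (1 + Real.log M + |ζ.im|)) := by
  obtain ⟨C, hC, hs⟩ := Rf_shift
  refine ⟨C, hC, fun M hM j ζ => ?_⟩
  have hM0 : (0 : ℝ) < M := by exact_mod_cast hM
  have hMc : (M : ℂ) ≠ 0 := by exact_mod_cast hM0.ne'
  induction j with
  | zero => simp
  | succ j ih =>
    have e : ζ - ((j + 1 : ℕ) : ℂ) / (2 * M) = ζ - j / (2 * M) - 1 / (2 * M) := by
      push_cast
      field_simp
      ring
    have e2 : (ζ - (j : ℂ) / (2 * M)).im = ζ.im := by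
      have : (j : ℂ) / (2 * M) = (((j : ℝ) / (2 * M) : ℝ) : ℂ) := by push_cast; ring
      rw [this, sub_im, ofReal_im, sub_zero]
    have h1 := hs M hM (ζ - j / (2 * M))
    rw [e2] at h1
    rw [e]
    have h2 : (M : ℝ) * Rf (ζ - j / (2 * M) - 1 / (2 * M)) - M * Rf ζ =
        (M * Rf (ζ - j / (2 * M) - 1 / (2 * M)) - M * Rf (ζ - j / (2 * M))) +
          (M * Rf (ζ - j / (2 * M)) - M * Rf ζ) := by ring
    rw [h2]
    refine (abs_add_le _ _).trans ?_
    push_cast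
    linarith

/-- The logarithm of a factor of the weight. -/
theorem fb_LL (n : ℕ) : ∃ C : ℝ, 0 < C ∧ ∀ M : ℕ, 1 ≤ M → ∀ a : ℕ, a + 2 ≤ n → ∀ y : ℂ,
    -1 / 2 + (n - 1) / M ≤ y.re → y.re ≤ 1 / 2 →
    |(LL M (M * (y + 1 / 2) - 1 - a)).re - M * Rf (y + 1 / 2)| ≤
      C * (1 + Real.log M + |y.im|) := by
  obtain ⟨C, hC, hs⟩ := fb_shift
  refine ⟨(2 * n + 1) * C + 3, by positivity, fun M hM a ha y h0 h1 => ?_⟩
  have hM0 : (0 : ℝ) < M := by exact_mod_cast hM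
  have hMc : (M : ℂ) ≠ 0 := by exact_mod_cast hM0.ne'
  have hlM : 0 ≤ Real.log M := Real.log_natCast_nonneg M
  have ha' : (a : ℝ) + 2 ≤ n := by exact_mod_cast ha
  have ha0 : (0 : ℝ) ≤ a := Nat.cast_nonneg a
  have e1 : ((M : ℂ) * (y + 1 / 2) - 1 - a).re = M * (y.re + 1 / 2) - 1 - a := by
    rw [sub_re, sub_re, ← ofReal_natCast, re_ofReal_mul, add_re, natCast_re]
    norm_num
  have e2 : ((M : ℂ) * (y + 1 / 2) - 1 - a + 1 / 2) / M =
      y + 1 / 2 - ((2 * a + 1 : ℕ) : ℂ) / (2 * M) := by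
    push_cast
    field_simp
    ring
  have hM2 : (M : ℝ) * (y.re + 1 / 2) ≥ n - 1 := by
    have : (M : ℝ) * ((n - 1) / M) = n - 1 := by field_simp
    nlinarith
  have h2 := LL_Rf hM (z := M * (y + 1 / 2) - 1 - a) (by rw [e1]; linarith)
    (by rw [e1]; nlinarith)
  rw [e2] at h2
  have h3 := hs M hM (2 * a + 1) (y + 1 / 2)
  have e3 : (y + 1 / 2).im = y.im := by simp
  rw [e3] at h3
  have hb := abs_nonneg y.im
  have hY : 0 ≤ C * (1 + Real.log M + |y.im|) := by positivity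
  have h4 : ((2 * a + 1 : ℕ) : ℝ) * (C * (1 + Real.log M + |y.im|)) ≤
      (2 * n + 1) * (C * (1 + Real.log M + |y.im|)) := by
    apply mul_le_mul_of_nonneg_right _ hY
    push_cast
    linarith
  rw [abs_le] at h2 h3 ⊢
  constructor <;> nlinarith [h2.1, h2.2, h3.1, h3.2]

theorem fb_LL' (n : ℕ) : ∃ C : ℝ, 0 < C ∧ ∀ M : ℕ, 1 ≤ M → ∀ (a : ℕ) (b : ℂ), b = a →
    a + 2 ≤ n → ∀ y : ℂ, -1 / 2 + (n - 1) / M ≤ y.re → y.re ≤ 1 / 2 →
    |(LL M (M * (y + 1 / 2) - 1 - b)).re - M * Rf (y + 1 / 2)| ≤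
      C * (1 + Real.log M + |y.im|) := by
  obtain ⟨C, hC, h⟩ := fb_LL n
  refine ⟨C, hC, fun M hM a b hb ha y h0 h1 => ?_⟩
  rw [hb]
  exact h M hM a ha y h0 h1

/-! ### The phase of a closed slot -/

theorem fb_ph (n h M : ℕ) (hM : 0 < M) (hh' : 2 * h ≤ n) (P : Bool) (s : ℤ)
    (hs : s = 1 ∨ s = -1) (y : ℂ) :
    (Real.pi * I * s * ph4 n h M P (M * (1 / 2 - y))).re ≤
      M * (Real.pi * s * (y.im * (1 - y.re))) + Real.pi * (n + 1) * |y.im| := by
  have hM0 : (0 : ℝ) < M := by exact_mod_cast hM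
  have hMc : (M : ℂ) ≠ 0 := by exact_mod_cast hM0.ne'
  have hh2 : (2 : ℝ) * h ≤ n := by exact_mod_cast hh'
  have hh0 : (0 : ℝ) ≤ h := Nat.cast_nonneg h
  have key : ∀ (A c : ℝ), (Real.pi * I * s * ((A : ℂ) + (M + (n - 2 + M * (1 / 2 - y))) / 2 +
      ((M * (1 / 2 - y) + c) ^ 2 - (n - 2 + M * (1 / 2 - y)) - 1) / (2 * M))).re =
      M * (Real.pi * s * (y.im * (1 - y.re))) - Real.pi * s * ((1 / 2 - c) * y.im) := by
    intro A c
    have e : (Real.pi * I * s * ((A : ℂ) + (M + (n - 2 + M * (1 / 2 - y))) / 2 +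
        ((M * (1 / 2 - y) + c) ^ 2 - (n - 2 + M * (1 / 2 - y)) - 1) / (2 * M)) : ℂ) =
        ((M * (Real.pi * s * (y.im * (1 - y.re))) - Real.pi * s * ((1 / 2 - c) * y.im) : ℝ) : ℂ) +
        ((Real.pi * s * (A + (M + (n - 2 + M * (1 / 2 - y.re))) / 2 +
          ((M * (1 / 2 - y.re) + c) ^ 2 - M ^ 2 * y.im ^ 2 - (n - 2 + M * (1 / 2 - y.re)) - 1) /
            (2 * M)) : ℝ) : ℂ) * I := by
      have hy : y = y.re + y.im * I := (re_add_im y).symm
      generalize y.re = a at hy ⊢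
      generalize y.im = b at hy ⊢
      rw [hy]
      push_cast
      field_simp
      ring_nf
      simp only [I_sq, I_pow_three]
      ring
    rw [e, add_re, ofReal_re, re_ofReal_mul, I_re, mul_zero, add_zero]
  have hfin : ∀ c : ℝ, |c| ≤ n → M * (Real.pi * s * (y.im * (1 - y.re))) -
      Real.pi * s * ((1 / 2 - c) * y.im) ≤
      M * (Real.pi * s * (y.im * (1 - y.re))) + Real.pi * (n + 1) * |y.im| := by
    intro c hc
    have hs' : |(s : ℝ)| = 1 := by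
      rcases hs with rfl | rfl <;> simp
    have h1 : |Real.pi * s * ((1 / 2 - c) * y.im)| ≤ Real.pi * (n + 1) * |y.im| := by
      rw [abs_mul, abs_mul, abs_mul, hs', mul_one, abs_of_pos Real.pi_pos, mul_assoc]
      apply mul_le_mul_of_nonneg_left _ Real.pi_pos.le
      apply mul_le_mul_of_nonneg_right _ (abs_nonneg _)
      rw [abs_le] at hc ⊢
      constructor <;> linarith [hc.1, hc.2]
    have := neg_abs_le (Real.pi * s * ((1 / 2 - c) * y.im))
    linarith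
  rcases P with _ | _
  · have h1 := key n 0
    have e : (Real.pi * I * s * ph4 n h M false (M * (1 / 2 - y)) : ℂ) =
        Real.pi * I * s * (((n : ℝ) : ℂ) + (M + (n - 2 + M * (1 / 2 - y))) / 2 +
        ((M * (1 / 2 - y) + ((0 : ℝ) : ℂ)) ^ 2 - (n - 2 + M * (1 / 2 - y)) - 1) / (2 * M)) := by
      unfold ph4
      simp
    rw [e, h1]
    exact hfin 0 (by simp)
  · have h1 := key 0 (n - 2 * h)
    have e : (Real.pi * I * s * ph4 n h M true (M * (1 / 2 - y)) : ℂ) =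
        Real.pi * I * s * (((0 : ℝ) : ℂ) + (M + (n - 2 + M * (1 / 2 - y))) / 2 +
        ((M * (1 / 2 - y) + ((n - 2 * h : ℝ) : ℂ)) ^ 2 - (n - 2 + M * (1 / 2 - y)) - 1) /
          (2 * M)) := by
      unfold ph4
      simp only [if_true]
      push_cast
      ring
    rw [e, h1]
    exact hfin _ (by rw [abs_le]; constructor <;> linarith)

end Pool.Agent.S4
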