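import Pool.Agent.S3.LX2
import Pool.Agent.S4.G.FBa

/-!
# Edges with small index: the derivative of a slot at a lattice point
-/

set_option autoImplicit false

namespace Pool.Agent.S4

open Pool.Agent.H63.VC hiding ext
open Pool.Agent.H63.VC3 Pool.Agent.H63.VC7 Pool.Agent.H25.RK Pool.Agent.S3 Pool.Agent.H63.GO
open Complex Filter Topology MeasureTheory
open scoped BigOperators Interval

variable {n h : ℕ}

/-! ### The derivative of `qS` at a simple zero -/

theorem lb_qS_deriv {M a b : ℕ} (ha : a < M) (hb : b < M) {y v : ℂ}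
    (e1 : (M : ℂ) * (y - v) - 1 / 2 = a) (e2 : (M : ℂ) * (y + v) - 1 / 2 = (b : ℂ) - M) :
    ‖deriv (fun w => qS M y w) v‖ =
      2 * Real.pi * M * Real.exp (-(LL M (a : ℂ)).re - (LL M (b : ℂ)).re) := by
  have hM : 0 < M := by omega
  have hM0 : (0 : ℝ) < M := by exact_mod_cast hM
  have haM : (a : ℝ) + 1 ≤ M := by exact_mod_cast ha
  have hbM : (b : ℝ) + 1 ≤ M := by exact_mod_cast hb
  have ha0 : (0 : ℝ) ≤ a := Nat.cast_nonneg a
  have hb0 : (0 : ℝ) ≤ b := Nat.cast_nonneg b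
  -- the first factor
  have dA : DifferentiableAt ℂ (fun w => rS M (M * (y - w) - 1 / 2)) v := by
    have d1 := rS_differentiableAt hM (z := M * (y - v) - 1 / 2)
      (by rw [e1, natCast_re]; linarith) (by rw [e1, natCast_re]; linarith)
    exact DifferentiableAt.comp (g := rS M) (f := fun w => (M : ℂ) * (y - w) - 1 / 2) v d1
      (by fun_prop)
  -- the second factor
  have hz : ((M : ℂ) * (y + v) - 1 / 2).re < 0 := by
    rw [e2, sub_re, natCast_re, natCast_re]
    linarith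
  have ho : IsOpen {w : ℂ | ((M : ℂ) * (y + w) - 1 / 2).re < 0} :=
    isOpen_lt (by fun_prop) continuous_const
  have he : (fun w => rS M (M * (y + w) - 1 / 2)) =ᶠ[𝓝 v]
      fun w => -2 * sin (Real.pi * (M * (y + w) - 1 / 2)) *
        exp (-LL M (M * (y + w) - 1 / 2 + M)) := by
    filter_upwards [ho.mem_nhds hz] with w hw
    exact rS_eq_left hM hw
  have hs0 : sin (Real.pi * ((M : ℂ) * (y + v) - 1 / 2)) = 0 := by
    rw [e2, Complex.sin_eq_zero_iff]
    refine ⟨(b : ℤ) - M, ?_⟩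
    push_cast
    ring
  have hc1 : ‖cos (Real.pi * ((M : ℂ) * (y + v) - 1 / 2))‖ = 1 := by
    have h1 := Complex.sin_sq_add_cos_sq (Real.pi * ((M : ℂ) * (y + v) - 1 / 2))
    rw [hs0, zero_pow two_ne_zero, zero_add] at h1
    have h2 : ‖cos (Real.pi * ((M : ℂ) * (y + v) - 1 / 2))‖ ^ 2 = 1 := by
      rw [← norm_pow, h1, norm_one]
    nlinarith [norm_nonneg (cos (Real.pi * ((M : ℂ) * (y + v) - 1 / 2)))]
  have e3 : (M : ℂ) * (y + v) - 1 / 2 + M = b := by rw [e2]; ring
  have dE : DifferentiableAt ℂ (fun w => exp (-LL M (M * (y + w) - 1 / 2 + M))) v := by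
    have d1 := LL_differentiableAt M hM (M * (y + v) - 1 / 2 + M)
      (by rw [e3, natCast_re]; linarith) (by rw [e3, natCast_re]; linarith)
    have d2 : DifferentiableAt ℂ (fun w => LL M (M * (y + w) - 1 / 2 + M)) v :=
      DifferentiableAt.comp (g := LL M) (f := fun w => (M : ℂ) * (y + w) - 1 / 2 + M) v d1
        (by fun_prop)
    exact d2.neg.cexp
  have hl : HasDerivAt (fun w : ℂ => (Real.pi : ℂ) * ((M : ℂ) * (y + w) - 1 / 2))
      (Real.pi * M) v := by
    have h1 : HasDerivAt (fun w : ℂ => y + w) 1 v := (hasDerivAt_id v).const_add y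
    have h2 := ((h1.const_mul (M : ℂ)).sub_const (1 / 2 : ℂ)).const_mul (Real.pi : ℂ)
    simpa using h2
  have hsn : HasDerivAt (fun w : ℂ => -2 * sin (Real.pi * ((M : ℂ) * (y + w) - 1 / 2)))
      (-2 * (cos (Real.pi * ((M : ℂ) * (y + v) - 1 / 2)) * (Real.pi * M))) v :=
    (hl.csin).const_mul (-2 : ℂ)
  have hB := (hsn.mul dE.hasDerivAt).congr_of_eventuallyEq he
  have hAB := dA.hasDerivAt.mul hB
  have hd : deriv (fun w => qS M y w) v = _ := hAB.deriv
  rw [hd]
  have hBv : rS M ((M : ℂ) * (y + v) - 1 / 2) = 0 := by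
    rw [rS_eq_left hM hz, hs0]
    ring
  have hAv : rS M ((M : ℂ) * (y - v) - 1 / 2) = exp (-LL M (a : ℂ)) := by
    rw [e1, rS_eq_right hM (by rw [natCast_re]; linarith)]
  rw [hBv, hAv, hs0, e3]
  have e4 : deriv (fun w => rS M (M * (y - w) - 1 / 2)) v * 0 + exp (-LL M (a : ℂ)) *
      (-2 * (cos (Real.pi * ((M : ℂ) * (y + v) - 1 / 2)) * (Real.pi * M)) *
        exp (-LL M (b : ℂ)) + -2 * 0 * deriv (fun w => exp (-LL M (M * (y + w) - 1 / 2 + M))) v) =
      -2 * (Real.pi * M) * cos (Real.pi * ((M : ℂ) * (y + v) - 1 / 2)) *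
        (exp (-LL M (a : ℂ)) * exp (-LL M (b : ℂ))) := by ring
  rw [e4, norm_mul, norm_mul, hc1, norm_mul, norm_mul, norm_mul (exp _), norm_exp, norm_exp,
    norm_natCast, norm_real, Real.norm_eq_abs, abs_of_pos Real.pi_pos, norm_neg, norm_ofNat,
    neg_re, neg_re, ← Real.exp_add]
  have : -(LL M (a : ℂ)).re - (LL M (b : ℂ)).re = -(LL M (a : ℂ)).re + -(LL M (b : ℂ)).re := by
    ring
  rw [this]
  ring

/-! ### The bound -/

/-- The bound of the derivative, with half of the weight. -/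
theorem lb_exp_bound (D : ℕ) : ∃ C : ℝ, 0 < C ∧ ∀ M : ℕ, 1 ≤ M → ∀ (d a b : ℕ) (y v : ℝ), d ≤ D →
    a < M → b < M → M * (y - d / (2 * M) - v) - 1 / 2 = a →
    M * (y - d / (2 * M) + v) - 1 / 2 = (b : ℝ) - M →
    -(LL M (a : ℂ)).re - (LL M (b : ℂ)).re + M * (2 * Rf ((y : ℂ) + 1 / 2)) ≤
      C * (1 + Real.log M) + M * se (y : ℂ) (.op (v : ℂ)) := by
  obtain ⟨C, hC, hs⟩ := fb_shift
  refine ⟨2 * D * C + 4, by positivity, fun M hM d a b y v hd ha hb e1 e2 => ?_⟩
  have hM0 : (0 : ℝ) < M := by exact_mod_cast hM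
  have hMc : (M : ℂ) ≠ 0 := by exact_mod_cast hM0.ne'
  have hlM : 0 ≤ Real.log M := Real.log_natCast_nonneg M
  have haM : (a : ℝ) + 1 ≤ M := by exact_mod_cast ha
  have hbM : (b : ℝ) + 1 ≤ M := by exact_mod_cast hb
  have ha0 : (0 : ℝ) ≤ a := Nat.cast_nonneg a
  have hb0 : (0 : ℝ) ≤ b := Nat.cast_nonneg b
  have hd' : (d : ℝ) ≤ D := by exact_mod_cast hd
  have hd0 : (0 : ℝ) ≤ d := Nat.cast_nonneg d
  have r1 := LL_Rf hM (z := (a : ℂ)) (by rw [natCast_re]; linarith)
    (by rw [natCast_re]; linarith)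
  have r2 := LL_Rf hM (z := (b : ℂ)) (by rw [natCast_re]; linarith)
    (by rw [natCast_re]; linarith)
  have c1 : ((a : ℂ) + 1 / 2) / M = ((y : ℂ) - v) - d / (2 * M) := by
    have : (a : ℂ) = ((M * (y - d / (2 * M) - v) - 1 / 2 : ℝ) : ℂ) := by rw [e1]; simp
    rw [this]
    push_cast
    field_simp
    ring
  have c2 : ((b : ℂ) + 1 / 2) / M = (((y : ℂ) + v) - d / (2 * M)) + 1 := by
    have : (b : ℂ) = ((M * (y - d / (2 * M) + v) - 1 / 2 + M : ℝ) : ℂ) := by
      rw [e2]; simp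
    rw [this]
    push_cast
    field_simp
    ring
  have i0 : (((y : ℂ) + v) - d / (2 * M)).im = 0 := by
    have : (((y : ℂ) + v) - d / (2 * M)) = ((y + v - d / (2 * M) : ℝ) : ℂ) := by push_cast; ring
    rw [this, ofReal_im]
  rw [c1] at r1
  rw [c2, Rf_add_one, i0, abs_zero, mul_zero, add_zero] at r2
  have s1 := hs M hM d ((y : ℂ) - v)
  have s2 := hs M hM d ((y : ℂ) + v)
  have i1 : ((y : ℂ) - v).im = 0 := by simp
  have i2 : ((y : ℂ) + v).im = 0 := by simp
  rw [i1, abs_zero, add_zero] at s1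
  rw [i2, abs_zero, add_zero] at s2
  have t1 : (d : ℝ) * (C * (1 + Real.log M)) ≤ D * (C * (1 + Real.log M)) :=
    mul_le_mul_of_nonneg_right hd' (by positivity)
  rw [abs_le] at r1 r2 s1 s2
  unfold se
  simp only
  nlinarith [r1.1, r2.1, s1.1, s2.1]

/-- The growth at a lattice point below the index. -/
theorem lb_se {M κ : ℕ} (hM : 0 < M) {v : ℝ} (hκ : κ < k0 M) (hv1 : -(1 / 2) ≤ v)
    (hv0 : v ≤ yk 2 M κ) : se ((yk 2 M κ : ℝ) : ℂ) (.op (v : ℂ)) ≤ -s1 (v : ℂ) := by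
  have hM0 : (0 : ℝ) < M := by exact_mod_cast hM
  have hy : yk 2 M κ ≤ -(1 / 10) := by
    rw [yk_two]
    have h2 : 5 * (κ + 1) ≤ 2 * M := by unfold k0 at hκ; omega
    have h3 : (5 : ℝ) * (κ + 1) ≤ 2 * M := by exact_mod_cast h2
    have h4 : ((κ : ℝ) + 1) / M ≤ 2 / 5 := by
      rw [div_le_iff₀ hM0]; linarith
    linarith
  have k := se_mono_low (t := -yk 2 M κ) (a := -v) (by linarith) (by linarith) (by linarith)
  have k2 : s1 (v : ℂ) = s1 ((-v : ℝ) : ℂ) := by
    rw [s1_even, abs_of_nonpos (by linarith)]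
  have k3 : se ((-yk 2 M κ : ℝ) : ℂ) (.op ((-v : ℝ) : ℂ)) =
      -se ((yk 2 M κ : ℝ) : ℂ) (.op (v : ℂ)) := by
    rw [se_real_odd, ofReal_neg, se_op_neg]
  rw [k3, ← k2] at k
  linarith

/-! ### The centered product at a lattice point -/

private theorem lb_sin_ge {x : ℝ} (h0 : 0 ≤ x) (h1 : x ≤ 1 / 2) : 2 * x ≤ Real.sin (Real.pi * x) := by
  have hpi := Real.pi_pos
  have h := Real.mul_le_sin (x := Real.pi * x) (by positivity) (by nlinarith)
  have e : 2 / Real.pi * (Real.pi * x) = 2 * x := by field_simp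
  rwa [e] at h

private theorem lb_cos_ge {M : ℕ} (hM : 0 < M) {k : ℤ} (hk : k ≠ 0) (hkM : 2 * |k| ≤ M) {z : ℂ}
    (hz : z = (k : ℂ) / M - 1 / 2) : 1 / (M : ℝ) ≤ ‖2 * cos (Real.pi * z)‖ := by
  have hM0 : (0 : ℝ) < M := by exact_mod_cast hM
  have e1 : (Real.pi : ℂ) * z = ((Real.pi * (k / M) : ℝ) : ℂ) - Real.pi / 2 := by
    rw [hz]
    push_cast
    ring
  have e2 : cos (Real.pi * z) = ((Real.sin (Real.pi * (k / M)) : ℝ) : ℂ) := by
    rw [e1, Complex.cos_sub_pi_div_two, ofReal_sin]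
  have hk1 : (1 : ℝ) ≤ |(k : ℝ)| := by
    have : (1 : ℤ) ≤ |k| := Int.one_le_abs hk
    exact_mod_cast this
  have hk2 : (2 : ℝ) * |(k : ℝ)| ≤ M := by exact_mod_cast hkM
  rw [e2, norm_mul, norm_ofNat, norm_real, Real.norm_eq_abs]
  have h3 : 2 * (|(k : ℝ)| / M) ≤ |Real.sin (Real.pi * (k / M))| := by
    have h4 := lb_sin_ge (x := |(k : ℝ)| / M) (by positivity)
      (by rw [div_le_iff₀ hM0]; linarith)
    refine h4.trans ?_
    rcases le_total 0 (k : ℝ) with h | h
    · rw [abs_of_nonneg h]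
      exact le_abs_self _
    · rw [abs_of_nonpos h, neg_div, mul_neg, Real.sin_neg]
      exact neg_le_abs _
  have h4 : 1 / (M : ℝ) ≤ |(k : ℝ)| / M := by gcongr
  have h5 : 0 < 1 / (M : ℝ) := by positivity
  linarith

/-- The centered product has a simple zero at the lattice points near the end. -/
theorem lb_Wd {c X M : ℕ} (hX : X < c) (hM : 4 * c ≤ M) {v : ℂ}
    (hv : v = ((X : ℂ) + 1 / 2) / M - 1 / 2) : Wd M (2 * c) v = 0 ∧
    (1 / (M : ℝ)) ^ (2 * c) ≤ ‖deriv (Wd M (2 * c)) v‖ ∧ Differentiable ℂ (Wd M (2 * c)) := by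
  have hM1 : 0 < M := by omega
  have hM0 : (0 : ℝ) < M := by exact_mod_cast hM1
  have hMc : (M : ℂ) ≠ 0 := by exact_mod_cast hM0.ne'
  set j0 : ℕ := c - 1 - X with hj0
  have hj0m : j0 ∈ Finset.range (2 * c) := by
    rw [Finset.mem_range]
    omega
  set f : ℕ → ℂ → ℂ := fun j w =>
    2 * cos (Real.pi * (w + ((j : ℂ) + 1 / 2 - ((2 * c : ℕ) : ℂ) / 2) / M)) with hf
  set G : ℂ → ℂ := fun w => ∏ j ∈ (Finset.range (2 * c)).erase j0, f j w with hG
  have hfd : ∀ j, Differentiable ℂ (f j) := fun j => by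
    rw [hf]
    fun_prop
  have hGd : Differentiable ℂ G := by
    rw [hG]
    apply Differentiable.fun_finsetProd
    intro j _
    exact hfd j
  have hW : Wd M (2 * c) = fun w => f j0 w * G w := by
    funext w
    unfold Wd
    exact (Finset.mul_prod_erase (Finset.range (2 * c)) (fun j => f j w) hj0m).symm
  have hj0c : (j0 : ℂ) = c - 1 - X := by
    rw [hj0, Nat.cast_sub (by omega), Nat.cast_sub (by omega)]
    simp
  have harg : v + ((j0 : ℂ) + 1 / 2 - ((2 * c : ℕ) : ℂ) / 2) / M = -1 / 2 := by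
    rw [hj0c, hv]
    push_cast
    field_simp
    ring
  have hpi2 : (Real.pi : ℂ) * (-1 / 2) = -(Real.pi / 2) := by ring
  have hf0 : f j0 v = 0 := by
    rw [hf]
    simp only
    rw [harg, hpi2, Complex.cos_neg, Complex.cos_pi_div_two, mul_zero]
  have hfder : HasDerivAt (f j0) (2 * Real.pi) v := by
    have h1 : HasDerivAt (fun w : ℂ =>
        (Real.pi : ℂ) * (w + ((j0 : ℂ) + 1 / 2 - ((2 * c : ℕ) : ℂ) / 2) / M)) (Real.pi * 1) v :=
      ((hasDerivAt_id v).add_const _).const_mul _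
    have h2 := (h1.ccos).const_mul (2 : ℂ)
    refine h2.congr_deriv ?_
    rw [harg, hpi2, Complex.sin_neg, Complex.sin_pi_div_two]
    ring
  refine ⟨by rw [hW]; simp only; rw [hf0, zero_mul], ?_, ?_⟩
  · have hd : HasDerivAt (Wd M (2 * c)) (2 * Real.pi * G v + f j0 v * deriv G v) v := by
      rw [hW]
      exact hfder.mul (hGd v).hasDerivAt
    rw [hd.deriv, hf0, zero_mul, add_zero, norm_mul, norm_mul, norm_ofNat, norm_real,
      Real.norm_eq_abs, abs_of_pos Real.pi_pos]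
    have hGn : (1 / (M : ℝ)) ^ (2 * c - 1) ≤ ‖G v‖ := by
      rw [hG]
      simp only
      rw [_root_.norm_prod]
      have hcard : ((Finset.range (2 * c)).erase j0).card = 2 * c - 1 := by
        rw [Finset.card_erase_of_mem hj0m, Finset.card_range]
      rw [← hcard, ← Finset.prod_const]
      apply Finset.prod_le_prod
      · intro j _
        positivity
      · intro j hj
        rw [Finset.mem_erase, Finset.mem_range] at hj
        have hk : ((X : ℤ) + 1 + j - c) ≠ 0 := by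
          have := hj.1
          omega
        have hkM : 2 * |(X : ℤ) + 1 + j - c| ≤ M := by
          have := hj.2
          have : |(X : ℤ) + 1 + j - c| ≤ 2 * c := by
            rw [abs_le]
            constructor <;> omega
          omega
        apply lb_cos_ge hM1 hk hkM
        rw [hv]
        push_cast
        field_simp
        ring
    have hM1' : 1 / (M : ℝ) ≤ 1 := by
      rw [div_le_one hM0]
      exact_mod_cast hM1
    have h3 : (1 / (M : ℝ)) ^ (2 * c) ≤ (1 / (M : ℝ)) ^ (2 * c - 1) :=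
      pow_le_pow_of_le_one (by positivity) hM1' (by omega)
    have h4 : (0 : ℝ) ≤ (1 / (M : ℝ)) ^ (2 * c - 1) := by positivity
    have h5 := Real.pi_gt_three
    nlinarith [norm_nonneg (G v)]
  · rw [hW]
    exact (hfd j0).mul hGd

/-- A zero of the factor of a slot. -/
theorem lb_q4_zero {M d t : ℕ} {v : ℂ} (i : ℕ) (hi : i < t)
    (hv : v + ((i : ℂ) + (d + 1) / 2) / M = 1 / 2 ∨ v - ((i : ℂ) + (d + 1) / 2) / M = -1 / 2) :
    q4 M d t v = 0 := by
  unfold q4
  rw [mul_eq_zero]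
  right
  apply Finset.prod_eq_zero (Finset.mem_range.mpr hi)
  have hp1 : (Real.pi : ℂ) * (1 / 2) = Real.pi / 2 := by ring
  have hp2 : (Real.pi : ℂ) * (-1 / 2) = -(Real.pi / 2) := by ring
  rcases hv with hv | hv
  · rw [hv, hp1, Complex.cos_pi_div_two]
    ring
  · rw [hv, hp2, Complex.cos_neg, Complex.cos_pi_div_two]
    ring

theorem lb_q4_diff (M d t : ℕ) : Differentiable ℂ (q4 M d t) := by
  unfold q4
  apply Differentiable.const_mul
  apply Differentiable.fun_finsetProd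
  intro j _
  fun_prop

end Pool.Agent.S4
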