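import Pool.Agent.S4.G.FB
import Pool.Agent.S4.G.Int
import Pool.Agent.S4.G.Lat
import Pool.Agent.S4.G.LatBa

/-!
# Edges with small index: bounds
-/

set_option autoImplicit false

namespace Pool.Agent.S4

open Pool.Agent.H63.VC hiding ext
open Pool.Agent.H63.VC3 Pool.Agent.H63.VC7 Pool.Agent.H25.RK Pool.Agent.S3 Pool.Agent.H63.GO
open Complex Filter Topology MeasureTheory
open scoped BigOperators Interval

variable {n h : ℕ}

/-! ### The factor of a lattice node -/

private theorem lb_Wd_le (M d : ℕ) (x : ℝ) : ‖Wd M d (x : ℂ)‖ ≤ 2 ^ d := by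
  unfold Wd
  rw [_root_.norm_prod]
  calc ∏ j ∈ Finset.range d, ‖2 * cos (Real.pi * ((x : ℂ) + ((j : ℂ) + 1 / 2 - d / 2) / M))‖
      ≤ ∏ _j ∈ Finset.range d, (2 : ℝ) := by
        apply Finset.prod_le_prod
        · intro j _
          positivity
        · intro j _
          have e : (Real.pi : ℂ) * ((x : ℂ) + ((j : ℂ) + 1 / 2 - d / 2) / M) =
              ((Real.pi * (x + (j + 1 / 2 - d / 2) / M) : ℝ) : ℂ) := by
            push_cast
            ring
          rw [e, ← ofReal_cos, norm_mul, norm_ofNat, norm_real, Real.norm_eq_abs]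
          have := Real.abs_cos_le_one (Real.pi * (x + (j + 1 / 2 - d / 2) / M))
          linarith
    _ = 2 ^ d := by rw [Finset.prod_const, Finset.card_range]

theorem gl4_bound (hn : 2 ≤ n) (hh : 1 ≤ h) (hh' : 2 * h ≤ n) (P : Bool) (s : ℕ) :
    ∃ D : ℝ, 0 < D ∧ ∀ (r : ℝ) (M X : ℕ), ‖gl4 r n h P s M X‖ ≤ D := by
  refine ⟨2 * (1 * 2 * (2 ^ (2 * h - 2) + 2 ^ (n - 2) * (2 ^ (n - 2 * h)) ^ s)), by positivity,
    fun r M X => ?_⟩
  unfold gl4
  set x : ℝ := vl (nn n P) M X with hx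
  have e1 : ‖exp (2 * Real.pi * I * r * M * (x : ℂ) ^ 2)‖ = 1 := by
    have : 2 * Real.pi * I * r * M * (x : ℂ) ^ 2 = ((2 * Real.pi * r * M * x ^ 2 : ℝ) : ℂ) * I := by
      push_cast
      ring
    rw [this, norm_exp_ofReal_mul_I]
  have e2 : ‖2 * sin (2 * Real.pi * (x : ℂ))‖ ≤ 2 := by
    have : (2 * Real.pi * (x : ℂ)) = ((2 * Real.pi * x : ℝ) : ℂ) := by push_cast; ring
    rw [this, ← ofReal_sin, norm_mul, norm_ofNat, norm_real, Real.norm_eq_abs]
    have := Real.abs_sin_le_one (2 * Real.pi * x)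
    linarith
  have e3 : ‖(if P then Wd M (2 * h - 2) (x : ℂ) else Wd M (n - 2) (x : ℂ) *
      Wd M (n - 2 * h) (x : ℂ) ^ s)‖ ≤ 2 ^ (2 * h - 2) + 2 ^ (n - 2) * (2 ^ (n - 2 * h)) ^ s := by
    rcases P with _ | _
    · simp only [Bool.false_eq_true, if_false]
      rw [norm_mul, norm_pow]
      have h1 := lb_Wd_le M (n - 2) x
      have h2 := pow_le_pow_left₀ (norm_nonneg _) (lb_Wd_le M (n - 2 * h) x) s
      have h3 : ‖Wd M (n - 2) (x : ℂ)‖ * ‖Wd M (n - 2 * h) (x : ℂ)‖ ^ s ≤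
          2 ^ (n - 2) * (2 ^ (n - 2 * h)) ^ s :=
        mul_le_mul h1 h2 (by positivity) (by positivity)
      have h4 : (0 : ℝ) < 2 ^ (2 * h - 2) := by positivity
      linarith
    · simp only [if_true]
      have h1 := lb_Wd_le M (2 * h - 2) x
      have h4 : (0 : ℝ) < 2 ^ (n - 2) * (2 ^ (n - 2 * h)) ^ s := by positivity
      linarith
  rw [norm_mul, norm_mul, norm_mul, e1, norm_ofNat]
  gcongr

/-- The three kinds of slots of an edge with small index, and their growth. -/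
inductive SlL where
  | lat (X : ℕ) : SlL
  | op (X : ℕ) : SlL
  | cl (s : ℤ) : SlL

/-- The value. -/
noncomputable def SlL.val (n h : ℕ) (P : Bool) (M κ : ℕ) : SlL → ℂ
  | .lat X => ql4 n h P M κ X
  | .op X => sk4 n h M P κ (.op ((vl (nn n P) M X : ℝ) : ℂ))
  | .cl s => sk4 n h M P κ (.cl s)

/-- The growth. -/
noncomputable def SlL.gr (n : ℕ) (P : Bool) (M : ℕ) : SlL → ℝ
  | .lat X => -s1 ((vl (nn n P) M X : ℝ) : ℂ)
  | .op X => -s1 ((vl (nn n P) M X : ℝ) : ℂ)
  | .cl _ => 0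

/-- The admissible slots. -/
def SlL.ok (n : ℕ) (P : Bool) (M : ℕ) : SlL → Prop
  | .lat X => X < kX n P M
  | .op X => X < kX n P M
  | .cl s => s = 1 ∨ s = -1

/-! ### The slots of an edge with small index -/

private theorem lb_yk {n M κ : ℕ} (hn : 2 ≤ n) (h0 : n - 2 ≤ κ) (hM : 0 < M) (hκ : κ < k0 M) :
    -1 / 2 + (n - 1) / M ≤ yk 2 M κ ∧ yk 2 M κ ≤ -(1 / 10) := by
  have hM0 : (0 : ℝ) < M := by exact_mod_cast hM
  rw [yk_two]
  constructor
  · have h1 : (n : ℝ) ≤ κ + 2 := by exact_mod_cast (show n ≤ κ + 2 by omega)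
    have : ((n : ℝ) - 1) / M ≤ (κ + 1) / M := by
      gcongr
      linarith
    linarith
  · have h2 : 5 * (κ + 1) ≤ 2 * M := by unfold k0 at hκ; omega
    have h3 : (5 : ℝ) * (κ + 1) ≤ 2 * M := by exact_mod_cast h2
    have h4 : ((κ : ℝ) + 1) / M ≤ 2 / 5 := by
      rw [div_le_iff₀ hM0]; linarith
    linarith

/-- The constant of the lattice. -/
private def lbc (n h : ℕ) (P : Bool) : ℕ := if P then n - 1 - h else n - 2

/-- The derivative at a lattice point. -/
private theorem lb_lat (hn : 2 ≤ n) (hh : 1 ≤ h) (hh' : 2 * h ≤ n) (P : Bool) : ∃ C : ℝ, 0 < C ∧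
    ∀ M : ℕ, 1 ≤ M → ∀ κ X : ℕ, n - 2 ≤ κ → κ < k0 M → X + lbc n h P ≤ κ →
    Real.exp (M * (2 * Rf (((yk 2 M κ : ℝ) : ℂ) + 1 / 2))) *
      ‖deriv (fun v => Wd M (dd n h P) v * q4 M (dd n h P) (M - 1 - κ) v)
        ((vl (nn n P) M X : ℝ) : ℂ)‖ ≤
      Real.exp (C * (1 + Real.log M)) * Real.exp (M * (-s1 ((vl (nn n P) M X : ℝ) : ℂ))) := by
  obtain ⟨C, hC, hb⟩ := lb_exp_bound (2 * n)
  refine ⟨C + 8, by positivity, fun M hM κ X h0 hκ hX => ?_⟩
  have hM0 : (0 : ℝ) < M := by exact_mod_cast hM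
  have hMc : (M : ℂ) ≠ 0 := by exact_mod_cast hM0.ne'
  have hlM : 0 ≤ Real.log M := Real.log_natCast_nonneg M
  have h2k := two_k0_le' M hκ
  have hκM : κ < M := by omega
  have h2kr : (2 : ℝ) * κ + 2 ≤ M := by exact_mod_cast h2k
  have hn' : (2 : ℝ) ≤ n := by exact_mod_cast hn
  have hX0 : (0 : ℝ) ≤ X := Nat.cast_nonneg X
  have hκ0 : (0 : ℝ) ≤ κ := Nat.cast_nonneg κ
  set d := dd n h P with hd
  set y : ℝ := yk 2 M κ with hy
  set v : ℝ := vl (nn n P) M X with hv
  have hyv : y = (κ + 1) / M - 1 / 2 := yk_two M κ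
  -- the position of the lattice point
  have hpos : -(1 / 2) < v ∧ v ≤ y ∧ d ≤ 2 * n ∧ ∃ a b : ℕ, a < M ∧ b < M ∧
      M * (y - d / (2 * M) - v) - 1 / 2 = a ∧ M * (y - d / (2 * M) + v) - 1 / 2 = (b : ℝ) - M := by
    rcases P with _ | _
    · have hc : lbc n h false = n - 2 := rfl
      have hdv : d = n - 2 := rfl
      have hvv : v = (X + (n - 1) / 2) / M - 1 / 2 := rfl
      rw [hc] at hX
      have hXr : (X : ℝ) + n ≤ κ + 2 := by exact_mod_cast (show X + n ≤ κ + 2 by omega)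
      have hdr : (d : ℝ) = n - 2 := by
        rw [hdv, Nat.cast_sub hn]
        norm_num
      refine ⟨?_, ?_, by omega, κ - X - (n - 2), κ + X + 1, by omega, by omega, ?_, ?_⟩
      · have : 0 < ((X : ℝ) + (n - 1) / 2) / M := by
          apply div_pos _ hM0
          linarith
        rw [hvv]
        linarith
      · rw [hvv, hyv]
        have : ((X : ℝ) + (n - 1) / 2) / M ≤ (κ + 1) / M :=
          div_le_div_of_nonneg_right (by linarith) hM0.le
        linarith
      · have e : ((κ - X - (n - 2) : ℕ) : ℝ) = κ - X - (n - 2) := by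
          rw [Nat.cast_sub (by omega), Nat.cast_sub (by omega), Nat.cast_sub hn]
          norm_num
        rw [e, hdr, hvv, hyv]
        field_simp
        ring
      · push_cast
        rw [hdr, hvv, hyv]
        field_simp
        ring
    · have hc : lbc n h true = n - 1 - h := rfl
      have hdv : d = 2 * (n - h) - 2 := rfl
      have hvv : v = (X + 1 / 2) / M - 1 / 2 := vl_two M X
      rw [hc] at hX
      have hh1 : (1 : ℝ) ≤ h := by exact_mod_cast hh
      have hXr : (X : ℝ) ≤ κ := by exact_mod_cast (show X ≤ κ by omega)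
      have hdr : (d : ℝ) = 2 * (n - h) - 2 := by
        have h3 : d + 2 + 2 * h = 2 * n := by omega
        have h4 : (d : ℝ) + 2 + 2 * h = 2 * n := by exact_mod_cast h3
        linarith
      refine ⟨?_, ?_, by omega, κ - X - (n - 1 - h), κ + X + 2 + h - n, by omega, by omega, ?_, ?_⟩
      · have : 0 < ((X : ℝ) + 1 / 2) / M := by positivity
        rw [hvv]
        linarith
      · rw [hvv, hyv]
        have : ((X : ℝ) + 1 / 2) / M ≤ (κ + 1) / M :=
          div_le_div_of_nonneg_right (by linarith) hM0.le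
        linarith
      · have e : ((κ - X - (n - 1 - h) : ℕ) : ℝ) = κ - X - (n - 1 - h) := by
          rw [Nat.cast_sub (by omega), Nat.cast_sub (by omega), Nat.cast_sub (by omega),
            Nat.cast_sub (by omega)]
          norm_num
        rw [e, hdr, hvv, hyv]
        field_simp
        ring
      · have e : ((κ + X + 2 + h - n : ℕ) : ℝ) = κ + X + 2 + h - n := by
          rw [Nat.cast_sub (by omega)]
          push_cast
          ring
        rw [e, hdr, hvv, hyv]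
        field_simp
        ring
  obtain ⟨hv0, hvy, hd2, a, b, ha, hb', e1, e2⟩ := hpos
  have hy10 := (lb_yk hn h0 hM hκ).2
  rw [← hy] at hy10
  -- the derivative
  have hev : (fun w : ℂ => Wd M d w * q4 M d (M - 1 - κ) w) =ᶠ[𝓝 (v : ℂ)]
      fun w => qS M ((y : ℂ) - (d : ℂ) / (2 * M)) w := by
    have ho : IsOpen {w : ℂ | |w.re| < 1 / 2} :=
      isOpen_lt (by fun_prop) continuous_const
    have hmem : (v : ℂ) ∈ {w : ℂ | |w.re| < 1 / 2} := by
      rw [Set.mem_setOf_eq, ofReal_re, abs_lt]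
      constructor <;> linarith
    filter_upwards [ho.mem_nhds hmem] with w hw
    have hok : (Sl.op w).ok := le_of_lt hw
    exact Ws_sk4 hn hh hh' P h0 hκM hok
  rw [hev.deriv_eq, lb_qS_deriv ha hb']
  · have k := hb M hM d a b y v hd2 ha hb' e1 e2
    have k2 := lb_se (M := M) (κ := κ) (by omega) (v := v) hκ (by linarith) hvy
    rw [← hy] at k2
    have k3 := mul_le_mul_of_nonneg_left k2 hM0.le
    have h7 : 2 * Real.pi * M ≤ Real.exp (7 + Real.log M) := by
      rw [Real.exp_add, Real.exp_log hM0]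
      apply mul_le_mul_of_nonneg_right _ hM0.le
      have := Real.add_one_le_exp (7 : ℝ)
      have := Real.pi_lt_d2
      linarith
    calc Real.exp (M * (2 * Rf ((y : ℂ) + 1 / 2))) * (2 * Real.pi * M *
          Real.exp (-(LL M (a : ℂ)).re - (LL M (b : ℂ)).re))
        ≤ Real.exp (M * (2 * Rf ((y : ℂ) + 1 / 2))) * (Real.exp (7 + Real.log M) *
          Real.exp (-(LL M (a : ℂ)).re - (LL M (b : ℂ)).re)) := by gcongr
      _ = Real.exp (M * (2 * Rf ((y : ℂ) + 1 / 2)) + (7 + Real.log M +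
          (-(LL M (a : ℂ)).re - (LL M (b : ℂ)).re))) := by
          rw [← Real.exp_add, ← Real.exp_add]
      _ ≤ Real.exp ((C + 8) * (1 + Real.log M) + M * (-s1 (v : ℂ))) := by
          apply Real.exp_le_exp.2
          nlinarith
      _ = _ := by rw [Real.exp_add]
  · have := congrArg (fun x : ℝ => (x : ℂ)) e1
    push_cast at this
    exact this
  · have := congrArg (fun x : ℝ => (x : ℂ)) e2
    push_cast at this
    exact this

/-- The plain factor at a lattice point vanishes or is controlled by the derivative. -/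
private theorem lb_op (hn : 2 ≤ n) (hh : 1 ≤ h) (hh' : 2 * h ≤ n) (P : Bool) {M κ X : ℕ}
    (hM : 4 * n ≤ M) (h0 : n - 2 ≤ κ) (hκ : κ < k0 M) (hX : X < kX n P M) :
    q4 M (dd n h P) (M - 1 - κ) ((vl (nn n P) M X : ℝ) : ℂ) = 0 ∨ X + lbc n h P ≤ κ ∧
    ‖q4 M (dd n h P) (M - 1 - κ) ((vl (nn n P) M X : ℝ) : ℂ)‖ ≤ (M : ℝ) ^ (2 * n) *
      ‖deriv (fun v => Wd M (dd n h P) v * q4 M (dd n h P) (M - 1 - κ) v)
        ((vl (nn n P) M X : ℝ) : ℂ)‖ := by
  have hM1 : 1 ≤ M := by omega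
  have hM0 : (0 : ℝ) < M := by exact_mod_cast hM1
  have hMc : (M : ℂ) ≠ 0 := by exact_mod_cast hM0.ne'
  have h2k := two_k0_le' M hκ
  have hk0 : 5 * k0 M ≤ 2 * M := by unfold k0; omega
  rcases P with _ | _
  · left
    have hvv : ((vl (nn n false) M X : ℝ) : ℂ) = ((X : ℂ) + ((n : ℂ) - 1) / 2) / M - 1 / 2 := by
      have : vl (nn n false) M X = (X + (n - 1) / 2) / M - 1 / 2 := rfl
      rw [this]
      push_cast
      ring
    have hX' : X < k0 M - (n - 2) := hX
    have hdr : ((dd n h false : ℕ) : ℂ) = n - 2 := by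
      have : dd n h false = n - 2 := rfl
      rw [this, Nat.cast_sub hn]
      norm_num
    apply lb_q4_zero X (by omega)
    right
    rw [hvv, hdr]
    field_simp
    ring
  · have hvv : ((vl (nn n true) M X : ℝ) : ℂ) = ((X : ℂ) + 1 / 2) / M - 1 / 2 := by
      have : vl (nn n true) M X = (X + 1 / 2) / M - 1 / 2 := vl_two M X
      rw [this]
      push_cast
      ring
    have hX' : X < k0 M := hX
    obtain ⟨c, hc⟩ : ∃ c, c = n - 1 - h := ⟨_, rfl⟩
    have hdc : dd n h true = 2 * c := by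
      have : dd n h true = 2 * (n - h) - 2 := rfl
      omega
    have hlb : lbc n h true = c := by
      rw [hc]
      rfl
    rw [hdc, hvv, hlb]
    by_cases h1 : c ≤ X
    · left
      apply lb_q4_zero (X - c) (by omega)
      right
      rw [Nat.cast_sub h1]
      push_cast
      field_simp
      ring
    by_cases h2 : X + c ≤ κ
    · right
      refine ⟨h2, ?_⟩
      obtain ⟨w1, w2, w3⟩ := lb_Wd (c := c) (X := X) (M := M) (by omega) (by omega)
        (v := ((X : ℂ) + 1 / 2) / M - 1 / 2) rfl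
      set v : ℂ := ((X : ℂ) + 1 / 2) / M - 1 / 2 with hv
      have hd : HasDerivAt (fun v => Wd M (2 * c) v * q4 M (2 * c) (M - 1 - κ) v)
          (deriv (Wd M (2 * c)) v * q4 M (2 * c) (M - 1 - κ) v +
            Wd M (2 * c) v * deriv (q4 M (2 * c) (M - 1 - κ)) v) v :=
        (w3 v).hasDerivAt.mul (lb_q4_diff M (2 * c) (M - 1 - κ) v).hasDerivAt
      rw [hd.deriv, w1, zero_mul, add_zero, norm_mul, ← mul_assoc]
      have h3 : 1 ≤ (M : ℝ) ^ (2 * n) * ‖deriv (Wd M (2 * c)) v‖ := by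
        have h4 : (M : ℝ) ^ (2 * n) * (1 / (M : ℝ)) ^ (2 * c) ≤
            (M : ℝ) ^ (2 * n) * ‖deriv (Wd M (2 * c)) v‖ :=
          mul_le_mul_of_nonneg_left w2 (by positivity)
        refine le_trans ?_ h4
        have h5 : (M : ℝ) ^ (2 * c) * (1 / (M : ℝ)) ^ (2 * c) = 1 := by
          rw [← mul_pow, mul_one_div_cancel hM0.ne', one_pow]
        have h6 : (M : ℝ) ^ (2 * c) ≤ (M : ℝ) ^ (2 * n) :=
          pow_le_pow_right₀ (by exact_mod_cast hM1) (by omega)
        have h7 := mul_le_mul_of_nonneg_right h6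
          (show (0 : ℝ) ≤ (1 / (M : ℝ)) ^ (2 * c) by positivity)
        linarith
      calc ‖q4 M (2 * c) (M - 1 - κ) v‖ = 1 * ‖q4 M (2 * c) (M - 1 - κ) v‖ := (one_mul _).symm
        _ ≤ _ := mul_le_mul_of_nonneg_right h3 (norm_nonneg _)
    · left
      apply lb_q4_zero (M - X - c - 1) (by omega)
      left
      rw [Nat.cast_sub (by omega), Nat.cast_sub (by omega), Nat.cast_sub (by omega)]
      push_cast
      field_simp
      ring

/-- The bound of a slot, with half of the weight. -/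
private theorem lb_slot (hn : 2 ≤ n) (hh : 1 ≤ h) (hh' : 2 * h ≤ n) (P : Bool) : ∃ C : ℝ, 0 < C ∧
    ∀ᶠ M : ℕ in atTop, ∀ κ : ℕ, n - 2 ≤ κ → κ < k0 M → ∀ a : SlL, a.ok n P M →
    Real.exp (M * (2 * Rf (((yk 2 M κ : ℝ) : ℂ) + 1 / 2))) * ‖a.val n h P M κ‖ ≤
      Real.exp (C * (1 + Real.log M)) * Real.exp (M * a.gr n P M) := by
  obtain ⟨C1, hC1, b1⟩ := lb_lat hn hh hh' P
  obtain ⟨C2, hC2, b2⟩ := sC4_bound' hn hh hh' P
  refine ⟨C1 + C2 + 2 * n, by positivity, ?_⟩
  filter_upwards [b2, eventually_ge_atTop (4 * n)] with M b2 hM κ h0 hκ a ha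
  have hM1 : 1 ≤ M := by omega
  have hM0 : (0 : ℝ) < M := by exact_mod_cast hM1
  have hlM : 0 ≤ Real.log M := Real.log_natCast_nonneg M
  have hκM : κ < M := hκ.trans_le (k0_le M)
  have hn0 : (0 : ℝ) ≤ n := Nat.cast_nonneg n
  have hup : ∀ (c g : ℝ), 0 ≤ c → c ≤ C1 + C2 + 2 * n →
      Real.exp (c * (1 + Real.log M)) * Real.exp g ≤
      Real.exp ((C1 + C2 + 2 * n) * (1 + Real.log M)) * Real.exp g := by
    intro c g _ hc
    apply mul_le_mul_of_nonneg_right _ (Real.exp_pos _).le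
    apply Real.exp_le_exp.2
    exact mul_le_mul_of_nonneg_right hc (by linarith)
  rcases a with X | X | s
  · have hval : SlL.val n h P M κ (.lat X) = ql4 n h P M κ X := rfl
    have hgr : SlL.gr n P M (.lat X) = -s1 ((vl (nn n P) M X : ℝ) : ℂ) := rfl
    rw [hval, hgr]
    unfold ql4
    by_cases h1 : X ≤ (if P then κ - (n - 1 - h) else κ - (n - 2))
    · rw [if_pos h1]
      have h2 : X + lbc n h P ≤ κ := by
        rcases P with _ | _
        · have : lbc n h false = n - 2 := rfl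
          simp only [Bool.false_eq_true, if_false] at h1
          omega
        · have : lbc n h true = n - 1 - h := rfl
          simp only [if_true] at h1
          omega
      refine (b1 M hM1 κ X h0 hκ h2).trans (hup _ _ hC1.le ?_)
      linarith
    · rw [if_neg h1, norm_zero, mul_zero]
      positivity
  · have hval : SlL.val n h P M κ (.op X) =
      q4 M (dd n h P) (M - 1 - κ) ((vl (nn n P) M X : ℝ) : ℂ) := rfl
    have hgr : SlL.gr n P M (.op X) = -s1 ((vl (nn n P) M X : ℝ) : ℂ) := rfl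
    rw [hval, hgr]
    rcases lb_op hn hh hh' P hM h0 hκ (X := X) ha with h1 | ⟨h1, h2⟩
    · rw [h1, norm_zero, mul_zero]
      positivity
    · have h3 := b1 M hM1 κ X h0 hκ h1
      have hMp : (M : ℝ) ^ (2 * n) ≤ Real.exp (2 * n * (1 + Real.log M)) := by
        have : (M : ℝ) ^ (2 * n) = Real.exp (2 * n * Real.log M) := by
          have := Real.exp_nat_mul (Real.log M) (2 * n)
          rw [Real.exp_log hM0] at this
          rw [← this]
          push_cast
          ring_nf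
        rw [this]
        apply Real.exp_le_exp.2
        nlinarith
      calc Real.exp (M * (2 * Rf (((yk 2 M κ : ℝ) : ℂ) + 1 / 2))) *
            ‖q4 M (dd n h P) (M - 1 - κ) ((vl (nn n P) M X : ℝ) : ℂ)‖
          ≤ Real.exp (M * (2 * Rf (((yk 2 M κ : ℝ) : ℂ) + 1 / 2))) * ((M : ℝ) ^ (2 * n) *
            ‖deriv (fun v => Wd M (dd n h P) v * q4 M (dd n h P) (M - 1 - κ) v)
              ((vl (nn n P) M X : ℝ) : ℂ)‖) := mul_le_mul_of_nonneg_left h2 (Real.exp_pos _).le
        _ = (M : ℝ) ^ (2 * n) * (Real.exp (M * (2 * Rf (((yk 2 M κ : ℝ) : ℂ) + 1 / 2))) *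
            ‖deriv (fun v => Wd M (dd n h P) v * q4 M (dd n h P) (M - 1 - κ) v)
              ((vl (nn n P) M X : ℝ) : ℂ)‖) := by ring
        _ ≤ Real.exp (2 * n * (1 + Real.log M)) * (Real.exp (C1 * (1 + Real.log M)) *
            Real.exp (M * (-s1 ((vl (nn n P) M X : ℝ) : ℂ)))) :=
            mul_le_mul hMp h3 (by positivity) (Real.exp_pos _).le
        _ = Real.exp ((2 * n + C1) * (1 + Real.log M)) *
            Real.exp (M * (-s1 ((vl (nn n P) M X : ℝ) : ℂ))) := by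
            rw [← Real.exp_add, ← Real.exp_add, ← Real.exp_add]
            congr 1
            ring
        _ ≤ _ := hup _ _ (by positivity) (by linarith)
  · have hval : SlL.val n h P M κ (.cl s) = sk4 n h M P κ (.cl s) := rfl
    have hgr : SlL.gr n P M (.cl s) = 0 := rfl
    rw [hval, hgr, mul_zero, Real.exp_zero, mul_one]
    have hok : (Sl.cl s).ok := ha
    obtain ⟨y1, y2⟩ := lb_yk hn h0 hM1 hκ
    have k := b2 (.cl s) ((yk 2 M κ : ℝ) : ℂ) hok (by rwa [ofReal_re])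
      (by rw [ofReal_re]; linarith)
    have hW := Ws_sk4 hn hh hh' P h0 hκM hok
    have hW1 : Ws n h M P (.cl s) = 1 := rfl
    have hht : (Sl.cl s).ht = 0 := rfl
    rw [hW1, one_mul] at hW
    rw [← hW, ofReal_im, abs_zero, hht, add_zero, add_zero] at k
    have hyk : -(1 / 2) ≤ yk 2 M κ := by
      have hn2 : (2 : ℝ) ≤ n := by exact_mod_cast hn
      have : 0 ≤ ((n : ℝ) - 1) / M := div_nonneg (by linarith) hM0.le
      linarith
    have h5 := low_E1c (y := yk 2 M κ) hyk (by linarith) s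
    have h6 : Real.exp (M * se ((yk 2 M κ : ℝ) : ℂ) (.cl s)) ≤ 1 := by
      rw [Real.exp_le_one_iff]
      exact mul_nonpos_of_nonneg_of_nonpos hM0.le h5
    calc Real.exp (M * (2 * Rf (((yk 2 M κ : ℝ) : ℂ) + 1 / 2))) * ‖sk4 n h M P κ (.cl s)‖
        ≤ Real.exp (C2 * (1 + Real.log M)) * Real.exp (M * se ((yk 2 M κ : ℝ) : ℂ) (.cl s)) := k
      _ ≤ Real.exp (C2 * (1 + Real.log M)) * 1 := mul_le_mul_of_nonneg_left h6 (Real.exp_pos _).le
      _ = Real.exp (C2 * (1 + Real.log M)) := mul_one _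
      _ ≤ Real.exp ((C1 + C2 + 2 * n) * (1 + Real.log M)) := by
          apply Real.exp_le_exp.2
          apply mul_le_mul_of_nonneg_right _ (by linarith)
          linarith

/-- The bound of the terms of an edge with small index. -/
theorem low_term (hn : 2 ≤ n) (hh : 1 ≤ h) (hh' : 2 * h ≤ n) (e P Q : Bool) : ∃ D : ℝ, 0 < D ∧
    ∃ p : ℕ, ∀ᶠ M : ℕ in atTop, ∀ κ : ℕ, n - 2 ≤ κ → κ < k0 M → ∀ a b : SlL, a.ok n P M →
    b.ok n Q M → ‖(w4 n h e M (κ - (n - 2)) : ℂ) * (a.val n h P M κ * b.val n h Q M κ)‖ ≤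
      D * (M : ℝ) ^ p * Real.exp (M * (a.gr n P M + b.gr n Q M)) := by
  obtain ⟨C1, hC1, b1⟩ := w4C_bound' hn hh hh' e
  obtain ⟨C2, hC2, b2⟩ := lb_slot hn hh hh' P
  obtain ⟨C3, hC3, b3⟩ := lb_slot hn hh hh' Q
  obtain ⟨D, hD, p, hp⟩ := exp_log_pow (C := C1 + C2 + C3) (by positivity)
  refine ⟨D, hD, p, ?_⟩
  filter_upwards [b1, b2, b3, eventually_ge_atTop 1] with M b1 b2 b3 hM κ h0 hκ a b ha hb
  have hM0 : (0 : ℝ) < M := by exact_mod_cast hM
  have hκM : κ < M := hκ.trans_le (k0_le M)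
  obtain ⟨y1, y2⟩ := lb_yk hn h0 hM hκ
  have c1 := b1 ((yk 2 M κ : ℝ) : ℂ) (by rwa [ofReal_re]) (by rw [ofReal_re]; linarith)
  rw [ofReal_im, abs_zero, add_zero, w4C_yk hn hh hh' e h0 hκM] at c1
  have c2 := b2 κ h0 hκ a ha
  have c3 := b3 κ h0 hκ b hb
  rw [norm_mul, norm_mul]
  have e4 : Real.exp (M * (4 * Rf (((yk 2 M κ : ℝ) : ℂ) + 1 / 2))) =
      Real.exp (M * (2 * Rf (((yk 2 M κ : ℝ) : ℂ) + 1 / 2))) *
      Real.exp (M * (2 * Rf (((yk 2 M κ : ℝ) : ℂ) + 1 / 2))) := by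
    rw [← Real.exp_add]
    congr 1
    ring
  calc ‖(w4 n h e M (κ - (n - 2)) : ℂ)‖ * (‖a.val n h P M κ‖ * ‖b.val n h Q M κ‖)
      ≤ (Real.exp (C1 * (1 + Real.log M)) *
        Real.exp (M * (4 * Rf (((yk 2 M κ : ℝ) : ℂ) + 1 / 2)))) *
        (‖a.val n h P M κ‖ * ‖b.val n h Q M κ‖) := mul_le_mul_of_nonneg_right c1 (by positivity)
    _ = Real.exp (C1 * (1 + Real.log M)) *
        ((Real.exp (M * (2 * Rf (((yk 2 M κ : ℝ) : ℂ) + 1 / 2))) * ‖a.val n h P M κ‖) *
        (Real.exp (M * (2 * Rf (((yk 2 M κ : ℝ) : ℂ) + 1 / 2))) * ‖b.val n h Q M κ‖)) := by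
        rw [e4]
        ring
    _ ≤ Real.exp (C1 * (1 + Real.log M)) *
        ((Real.exp (C2 * (1 + Real.log M)) * Real.exp (M * a.gr n P M)) *
        (Real.exp (C3 * (1 + Real.log M)) * Real.exp (M * b.gr n Q M))) := by
        apply mul_le_mul_of_nonneg_left _ (Real.exp_pos _).le
        exact mul_le_mul c2 c3 (by positivity) (by positivity)
    _ = Real.exp ((C1 + C2 + C3) * (1 + Real.log M)) *
        Real.exp (M * (a.gr n P M + b.gr n Q M)) := by
        simp only [← Real.exp_add]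
        congr 1
        ring
    _ ≤ _ := mul_le_mul_of_nonneg_right (hp M hM) (Real.exp_pos _).le

theorem vl_low4 (hn : 2 ≤ n) (P : Bool) {M X : ℕ} (hX : X < kX n P M) :
    -(1 / 2) ≤ vl (nn n P) M X ∧ vl (nn n P) M X ≤ -(1 / 10) := by
  rcases P with _ | _
  · have hX' : X < k0 M - (n - 2) := hX
    have hM : 0 < M := by
      have : 0 < k0 M := by omega
      unfold k0 at this
      omega
    have hM0 : (0 : ℝ) < M := by exact_mod_cast hM
    have hvv : vl (nn n false) M X = (X + (n - 1) / 2) / M - 1 / 2 := rfl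
    have hn' : (2 : ℝ) ≤ n := by exact_mod_cast hn
    have hX0 : (0 : ℝ) ≤ X := Nat.cast_nonneg X
    rw [hvv]
    have h0 : 0 ≤ ((X : ℝ) + (n - 1) / 2) / M := div_nonneg (by linarith) hM0.le
    have h2 : 5 * (X + n) ≤ 2 * M + 5 := by
      unfold k0 at hX'
      omega
    have h3 : (5 : ℝ) * (X + n) ≤ 2 * M + 5 := by exact_mod_cast h2
    have h4 : ((X : ℝ) + (n - 1) / 2) / M ≤ 2 / 5 := by
      rw [div_le_iff₀ hM0]
      linarith
    constructor <;> linarith
  · exact vl_low hX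

end Pool.Agent.S4
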