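import Pool.Agent.S3.Unif

/-!
# The kernels on the contours: geometry
-/

set_option autoImplicit false

namespace Pool.Agent.S4

open Pool.Agent.H63.VC hiding ext
open Pool.Agent.H63.VC3 Pool.Agent.H63.VC7 Pool.Agent.H25.RK Pool.Agent.S3 Pool.Agent.H63.GO
open Complex Filter Topology MeasureTheory
open scoped BigOperators Interval

/-! ### Continuity -/

theorem U4_se_cont {σ : ℂ → Sl} (hσ : (σ = fun v => .op v) ∨ ∃ s, σ = fun _ => .cl s) :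
    Continuous fun p : ℂ × ℂ => se p.2 (σ p.1) := by
  have hR := Rf_continuous
  rcases hσ with rfl | ⟨s, rfl⟩
  · unfold se
    simp only
    fun_prop
  · unfold se
    simp only
    fun_prop

theorem U4_EE_cont {σ τ : ℂ → Sl} (hσ : (σ = fun v => .op v) ∨ ∃ s, σ = fun _ => .cl s)
    (hτ : (τ = fun v => .op v) ∨ ∃ s, τ = fun _ => .cl s) :
    Continuous fun q : (ℂ × ℂ) × ℂ => EE (σ q.1.1) (τ q.1.2) q.2 := by
  unfold EE
  have h1 := (U4_se_cont hσ).comp (f := fun q : (ℂ × ℂ) × ℂ => (q.1.1, q.2)) (by fun_prop)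
  have h2 := (U4_se_cont hτ).comp (f := fun q : (ℂ × ℂ) × ℂ => (q.1.2, q.2)) (by fun_prop)
  exact h1.add h2


/-! ### Finite families -/

theorem U4_pos {J : Type} [Finite J] (δ : J → ℝ) (h : ∀ j, 0 < δ j) :
    ∃ δ' : ℝ, 0 < δ' ∧ ∀ j, δ' ≤ δ j := by
  have h1 : ∀ᶠ d in 𝓝[>] (0 : ℝ), ∀ j, d ≤ δ j := by
    rw [eventually_all]
    intro j
    filter_upwards [Ioc_mem_nhdsGT (h j)] with d hd
    exact hd.2
  have h2 : ∀ᶠ d in 𝓝[>] (0 : ℝ), 0 < d := eventually_mem_nhdsWithin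
  obtain ⟨d, hd1, hd2⟩ := (h1.and h2).exists
  exact ⟨d, hd2, hd1⟩

theorem U4_eps {Q : ℝ → Prop} (h : ∀ᶠ ε in 𝓝[>] (0 : ℝ), Q ε) :
    ∃ ε0 : ℝ, 0 < ε0 ∧ ∀ ε : ℝ, 0 < ε → ε ≤ ε0 → Q ε := by
  obtain ⟨u, hu, hsub⟩ := mem_nhdsGT_iff_exists_Ioc_subset.mp h
  exact ⟨u, hu, fun ε h1 h2 => hsub ⟨h1, h2⟩⟩

theorem U4_comb {J X : Type} [Finite J] {κ : ℕ → J → X → ℝ} {L : J → X → ℝ}
    {R : J → X → Prop}
    (h : ∀ j, ∃ δ : ℝ, 0 < δ ∧ ∃ K : ℝ, 0 < K ∧ ∃ p : ℕ, ∀ᶠ M : ℕ in atTop, ∀ x, R j x →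
      κ M j x ≤ K * (M : ℝ) ^ p * Real.exp (M * (L j x - δ))) :
    ∃ δ : ℝ, 0 < δ ∧ ∃ K : ℝ, 0 < K ∧ ∃ p : ℕ, ∀ᶠ M : ℕ in atTop, ∀ j x, R j x →
      κ M j x ≤ K * (M : ℝ) ^ p * Real.exp (M * (L j x - δ)) := by
  have := Fintype.ofFinite J
  choose δ hδ K hK p hp using h
  obtain ⟨δ', hδ', hle⟩ := U4_pos δ hδ
  refine ⟨δ', hδ', ∑ j, K j + 1, by
    have : 0 ≤ ∑ j, K j := Finset.sum_nonneg fun j _ => (hK j).le
    linarith, ∑ j, p j, ?_⟩
  filter_upwards [eventually_all.mpr hp, eventually_ge_atTop 1] with M hM hM1 j x hx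
  have hM0 : (1 : ℝ) ≤ M := by exact_mod_cast hM1
  refine (hM j x hx).trans ?_
  have h1 : K j ≤ ∑ j, K j + 1 := by
    have := Finset.single_le_sum (f := K) (fun i _ => (hK i).le) (Finset.mem_univ j)
    linarith
  have h2 : p j ≤ ∑ j, p j := Finset.single_le_sum (f := p) (fun i _ => Nat.zero_le _)
    (Finset.mem_univ j)
  have h3 : (M : ℝ) ^ p j ≤ (M : ℝ) ^ ∑ j, p j := pow_le_pow_right₀ hM0 h2
  have h4 : (M : ℝ) * (L j x - δ j) ≤ M * (L j x - δ') := by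
    apply mul_le_mul_of_nonneg_left _ (by linarith)
    linarith [hle j]
  have hK0 : 0 < ∑ j, K j + 1 := (hK j).trans_le h1
  have hM' : (0 : ℝ) < (M : ℝ) ^ p j := by positivity
  calc K j * (M : ℝ) ^ p j * Real.exp (M * (L j x - δ j))
      ≤ (∑ j, K j + 1) * (M : ℝ) ^ (∑ j, p j) * Real.exp (M * (L j x - δ')) := by
        gcongr


section

variable {m : ℕ} {C : Cfg m}

/-- The curve of the vertex near the critical point. -/
noncomputable def U4_g (C : Cfg m) (i : Fin (m + 1)) (t : ℝ) : ℂ :=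
  if i ∈ C.Op then gdv (ul (C.θ i) t) else 0

/-- The point of the contour. -/
noncomputable def U4_pt (C : Cfg m) (v1 : Fin (m + 1) → ℝ) (ε : ℝ) (x : C.Op → ℝ)
    (i : Fin (m + 1)) : ℂ :=
  if h : i ∈ C.Op then C.gm v1 ε i (x ⟨i, h⟩) else 0

/-- The parameter of the vertex. -/
noncomputable def U4_x (C : Cfg m) (x : C.Op → ℝ) (i : Fin (m + 1)) : ℝ :=
  if h : i ∈ C.Op then x ⟨i, h⟩ else C.xc i

/-- The limit contour. -/
def U4_G (C : Cfg m) (v1 : Fin (m + 1) → ℝ) (i : Fin (m + 1)) : Set ℂ :=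
  {v | (i ∈ C.Op → v ∈ G0 (C.θ i) (v1 i)) ∧ (i ∉ C.Op → v = 0)}

theorem U4_G_compact (v1 : Fin (m + 1) → ℝ) (i : Fin (m + 1)) :
    IsCompact (U4_G C v1 i) := by
  by_cases h : i ∈ C.Op
  · have : U4_G C v1 i = G0 (C.θ i) (v1 i) := by
      ext v
      simp [U4_G, h]
    rw [this]
    exact G0_compact _ _
  · have : U4_G C v1 i = {0} := by
      ext v
      simp [U4_G, h]
    rw [this]
    exact isCompact_singleton

theorem U4_sv (i : Fin (m + 1)) :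
    (C.sv i = fun v => .op v) ∨ ∃ s, C.sv i = fun _ => .cl s := by
  unfold Cfg.sv
  by_cases h : i ∈ C.Op
  · left
    funext v
    rw [if_pos h]
  · right
    refine ⟨C.s i, ?_⟩
    funext v
    rw [if_neg h]

theorem U4_slx (v1 : Fin (m + 1) → ℝ) (ε : ℝ) (x : C.Op → ℝ) (i : Fin (m + 1)) :
    slx C.Op C.s (C.gm v1 ε) x i = C.sv i (U4_pt C v1 ε x i) := by
  unfold slx Cfg.sv U4_pt
  by_cases h : i ∈ C.Op
  · rw [dif_pos h, if_pos h, dif_pos h]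
  · rw [dif_neg h, if_neg h]

theorem U4_ka (v1 : Fin (m + 1) → ℝ) (lam : Fin m → Fin (m + 1) → ℝ) (ε : ℝ)
    (j : Fin m) (x : C.Op → ℝ) : C.ka v1 lam ε j x =
      C.Lw v1 lam j (U4_pt C v1 ε x j.castSucc) (U4_pt C v1 ε x j.succ) := by
  unfold Cfg.ka Cfg.Lw U4_pt
  congr 1
  · congr 1
    by_cases h : j.castSucc ∈ C.Op
    · rw [dif_pos h, dif_pos h]
    · rw [dif_neg h, dif_neg h]
      unfold Cfg.lw
      rw [if_neg h]
  · by_cases h : j.succ ∈ C.Op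
    · rw [dif_pos h, dif_pos h]
    · rw [dif_neg h, dif_neg h]
      unfold Cfg.lw
      rw [if_neg h]

theorem U4_lv_cont (j : Fin m) (i : Fin (m + 1)) : Continuous fun v => C.lv j i v := by
  unfold Cfg.lv
  by_cases h : i ∈ C.Op
  · simp only [if_pos h]
    unfold ell
    fun_prop
  · simp only [if_neg h]
    exact continuous_const

theorem U4_Lt_cont (j : Fin m) : Continuous fun p : ℂ × ℂ => C.Lt j p.1 p.2 := by
  unfold Cfg.Lt
  exact (continuous_const.add ((U4_lv_cont j _).comp continuous_fst)).add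
    ((U4_lv_cont j _).comp continuous_snd)

theorem U4_bd {σ : ℂ → Sl} (hσ : (σ = fun v => .op v) ∨ ∃ s, σ = fun _ => .cl s)
    {v : ℂ} {H : ℝ} (h : v.im ≤ H) : (σ v).bd H := by
  rcases hσ with rfl | ⟨s, rfl⟩
  · exact h
  · trivial

theorem U4_ok {i : Fin (m + 1)} (hs : ∀ i, i ∉ C.Op → C.s i = 1 ∨ C.s i = -1)
    {v : ℂ} (h : i ∈ C.Op → |v.re| ≤ 1 / 2) : (C.sv i v).ok := by
  unfold Cfg.sv
  by_cases hi : i ∈ C.Op
  · rw [if_pos hi]
    exact h hi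
  · rw [if_neg hi]
    exact hs i hi

theorem U4_nn {i : Fin (m + 1)} {v : ℂ} (h : i ∈ C.Op → 0 ≤ v.im) : (C.sv i v).nn := by
  unfold Cfg.sv
  by_cases hi : i ∈ C.Op
  · rw [if_pos hi]
    exact h hi
  · rw [if_neg hi]
    trivial

theorem U4_pt_re (hC : C.Crit) {v1 : Fin (m + 1) → ℝ} {lam : Fin m → Fin (m + 1) → ℝ}
    (hE : C.Edg v1 lam) {ε : ℝ}
    (hε : 0 < ε) (x : C.Op → ℝ) (i : Fin (m + 1)) (hi : i ∈ C.Op) :
    |(U4_pt C v1 ε x i).re| ≤ 1 / 2 := by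
  unfold U4_pt
  rw [dif_pos hi]
  exact gam_re (hC.th0 i hi) (hC.th1 i hi) (hE.v0 i hi) (hE.vh i hi) hε _

theorem U4_pt_im (hC : C.Crit) {v1 : Fin (m + 1) → ℝ} {lam : Fin m → Fin (m + 1) → ℝ}
    (hE : C.Edg v1 lam) {ε : ℝ}
    (hε : 0 < ε) (x : C.Op → ℝ) (i : Fin (m + 1)) (hi : i ∈ C.Op)
    (hε' : ε ≤ bl (C.θ i) (v1 i)) : 0 ≤ (U4_pt C v1 ε x i).im := by
  unfold U4_pt
  rw [dif_pos hi]
  exact (gam_im (hC.th0 i hi) (hC.th1 i hi) (hE.v0 i hi) (hE.vh i hi) hε hε' _).1.le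

theorem U4_pt_near (hC : C.Crit) {v1 : Fin (m + 1) → ℝ} {lam : Fin m → Fin (m + 1) → ℝ}
    (hE : C.Edg v1 lam) {ε : ℝ}
    (hε : 0 < ε) (x : C.Op → ℝ) (i : Fin (m + 1)) (hε' : i ∈ C.Op → ε ≤ bl (C.θ i) (v1 i)) :
    ∃ v ∈ U4_G C v1 i, ‖U4_pt C v1 ε x i - v‖ ≤ ε := by
  by_cases hi : i ∈ C.Op
  · obtain ⟨v, hv, hd⟩ := gam_near (hC.th0 i hi) (hC.th1 i hi) (hE.v0 i hi) (hE.vh i hi) hε
      (hε' hi) (x ⟨i, hi⟩)
    refine ⟨v, ⟨fun _ => hv, fun h => absurd hi h⟩, ?_⟩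
    unfold U4_pt
    rw [dif_pos hi]
    exact hd
  · refine ⟨0, ⟨fun h => absurd h hi, fun _ => rfl⟩, ?_⟩
    unfold U4_pt
    rw [dif_neg hi]
    simp [hε.le]

/-- The parametrization of the line is injective. -/
theorem U4_inj {θ : ℝ} (h0 : 0 < θ) (h1 : θ < Real.pi / 2) {x x' : ℝ}
    (h : gdv (ul θ x) = gdv (ul θ x')) : x = x' := by
  have hθ : ∀ x, |(ul θ x).im| < Real.pi / 2 := fun x => by
    rw [ul_im, abs_of_pos h0]
    exact h1
  have hs := sin_gdv (hθ x)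
  have hc := cos_gdv (hθ x)
  have hs' := sin_gdv (hθ x')
  have hc' := cos_gdv (hθ x')
  rw [h, hs'] at hs
  rw [h, hc'] at hc
  have n1 := cosh_ne (hθ x)
  have n2 := cosh_ne (hθ x')
  have h2 : cosh (ul θ x) = cosh (ul θ x') := by
    rw [div_eq_div_iff n2 n1] at hc
    linear_combination hc
  rw [h2] at hs
  have h3 : sinh (ul θ x') = sinh (ul θ x) := by
    rw [div_eq_div_iff n2 n2] at hs
    exact mul_right_cancel₀ n2 hs
  rw [sinh_ul, sinh_ul] at h3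
  have h4 := congrArg Complex.re h3
  simp only [add_re, re_ofReal_mul, I_re, mul_zero, add_zero, ofReal_re] at h4
  have hct : 0 < Real.cos θ := Real.cos_pos_of_mem_Ioo ⟨by linarith, h1⟩
  exact (Real.sinh_injective (mul_right_cancel₀ hct.ne' h4)).symm

theorem U4_g_cont (hC : C.Crit) (i : Fin (m + 1)) : Continuous (U4_g C i) := by
  unfold U4_g
  by_cases hi : i ∈ C.Op
  · simp only [if_pos hi]
    have h : |C.θ i| < Real.pi / 2 :=
      abs_lt.mpr ⟨by linarith [Real.pi_pos, hC.th0 i hi], hC.th1 i hi⟩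
    rw [continuous_iff_continuousAt]
    exact fun x => (gdv_ul_hasDerivAt h x).continuousAt
  · simp only [if_neg hi]
    exact continuous_const

/-- The parameter of the critical point is inside the line. -/
theorem U4_xl (hC : C.Crit) {v1 : Fin (m + 1) → ℝ} {lam : Fin m → Fin (m + 1) → ℝ}
    (hE : C.Edg v1 lam) (i : Fin (m + 1))
    (hi : i ∈ C.Op) : |C.xc i| < xl (C.θ i) (v1 i) :=
  (gdv_ul_lt (hC.th0 i hi) (hC.th1 i hi) (hE.v0 i hi) (hE.vh i hi)).mpr (hE.vx i hi)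

theorem U4_pt_eq (v1 : Fin (m + 1) → ℝ) (ε : ℝ) (x : C.Op → ℝ) (i : Fin (m + 1))
    (h : i ∈ C.Op → |U4_x C x i| ≤ xl (C.θ i) (v1 i)) :
    U4_pt C v1 ε x i = U4_g C i (U4_x C x i) := by
  unfold U4_pt U4_g
  by_cases hi : i ∈ C.Op
  · rw [dif_pos hi, if_pos hi]
    have h2 := h hi
    unfold U4_x at h2 ⊢
    rw [dif_pos hi] at h2 ⊢
    unfold Cfg.gm gam
    rw [if_pos h2]
  · rw [dif_neg hi, if_neg hi]

theorem U4_lw_g (hC : C.Crit) {v1 : Fin (m + 1) → ℝ} {lam : Fin m → Fin (m + 1) → ℝ}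
    (hE : C.Edg v1 lam) (j : Fin m) (i : Fin (m + 1)) {t : ℝ}
    (h : i ∈ C.Op → |t| ≤ xl (C.θ i) (v1 i)) :
    C.lw v1 lam j i (U4_g C i t) = C.lv j i (U4_g C i t) := by
  by_cases hi : i ∈ C.Op
  · unfold U4_g
    rw [if_pos hi]
    exact Cfg.lw_line j fun _ => ⟨hC.th0 i hi, hC.th1 i hi, hE.v0 i hi, hE.vh i hi, h hi⟩
  · unfold Cfg.lw Cfg.lv
    rw [if_neg hi, if_neg hi]

theorem U4_Lw (hC : C.Crit) {v1 : Fin (m + 1) → ℝ} {lam : Fin m → Fin (m + 1) → ℝ}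
    (hE : C.Edg v1 lam) (j : Fin m) {ta tb : ℝ}
    (ha : j.castSucc ∈ C.Op → |ta| ≤ xl (C.θ j.castSucc) (v1 j.castSucc))
    (hb : j.succ ∈ C.Op → |tb| ≤ xl (C.θ j.succ) (v1 j.succ)) :
    C.Lw v1 lam j (U4_g C j.castSucc ta) (U4_g C j.succ tb) =
      C.Lt j (U4_g C j.castSucc ta) (U4_g C j.succ tb) := by
  unfold Cfg.Lw Cfg.Lt
  rw [U4_lw_g hC hE j _ ha, U4_lw_g hC hE j _ hb]

/-! ### Far from the critical point -/

/-- One of the parameters is at distance at least `r` from the critical one. -/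
theorem U4_ic (j : Fin m) (x : C.Op → ℝ) (r : ℝ) :
    (∃ i ∈ C.ic j, r ≤ |x i - C.xc i|) ↔
      (j.castSucc ∈ C.Op ∧ r ≤ |U4_x C x j.castSucc - C.xc j.castSucc|) ∨
      (j.succ ∈ C.Op ∧ r ≤ |U4_x C x j.succ - C.xc j.succ|) := by
  unfold Cfg.ic
  constructor
  · rintro ⟨⟨i, hi⟩, hi2, hr⟩
    rw [Finset.mem_filter] at hi2
    rcases hi2.2 with h | h
    · left
      have h' : i = j.castSucc := h
      subst h'
      refine ⟨hi, ?_⟩
      unfold U4_x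
      rw [dif_pos hi]
      exact hr
    · right
      have h' : i = j.succ := h
      subst h'
      refine ⟨hi, ?_⟩
      unfold U4_x
      rw [dif_pos hi]
      exact hr
  · rintro (⟨h, hr⟩ | ⟨h, hr⟩)
    · refine ⟨⟨j.castSucc, h⟩, Finset.mem_filter.mpr ⟨Finset.mem_univ _, Or.inl rfl⟩, ?_⟩
      unfold U4_x at hr
      rw [dif_pos h] at hr
      exact hr
    · refine ⟨⟨j.succ, h⟩, Finset.mem_filter.mpr ⟨Finset.mem_univ _, Or.inr rfl⟩, ?_⟩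
      unfold U4_x at hr
      rw [dif_pos h] at hr
      exact hr

theorem U4_g_xc (i : Fin (m + 1)) (hi : i ∈ C.Op) : U4_g C i (C.xc i) = C.vc i := by
  unfold U4_g
  rw [if_pos hi]
  rfl

theorem U4_slc (i : Fin (m + 1)) : C.sv i (U4_g C i (C.xc i)) = C.slc i := by
  unfold Cfg.sv Cfg.slc
  by_cases hi : i ∈ C.Op
  · rw [if_pos hi, if_pos hi, U4_g_xc i hi]
  · rw [if_neg hi, if_neg hi]

theorem U4_lv_xc (j : Fin m) (i : Fin (m + 1)) :
    C.lv j i (U4_g C i (C.xc i)) = 0 := by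
  unfold Cfg.lv
  by_cases hi : i ∈ C.Op
  · rw [if_pos hi, U4_g_xc i hi]
    unfold ell
    simp
  · rw [if_neg hi]

theorem U4_Lt_xc (j : Fin m) : C.Lt j (U4_g C j.castSucc (C.xc j.castSucc))
    (U4_g C j.succ (C.xc j.succ)) = C.Fc j := by
  unfold Cfg.Lt
  rw [U4_lv_xc, U4_lv_xc]
  ring

theorem U4_g_ok (hC : C.Crit) (hs : ∀ i, i ∉ C.Op → C.s i = 1 ∨ C.s i = -1)
    (i : Fin (m + 1)) (t : ℝ) : (C.sv i (U4_g C i t)).ok ∧ (C.sv i (U4_g C i t)).nn := by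
  have key : i ∈ C.Op → |(U4_g C i t).re| ≤ 1 / 2 ∧ 0 ≤ (U4_g C i t).im := by
    intro hi
    have h : |(ul (C.θ i) t).im| < Real.pi / 2 := by
      rw [ul_im, abs_of_pos (hC.th0 i hi)]
      exact hC.th1 i hi
    unfold U4_g
    rw [if_pos hi]
    exact ⟨(gdv_re_lt h).le, (gdv_im_pos (by rw [ul_im]; exact hC.th0 i hi)
      (by rw [ul_im]; exact hC.th1 i hi)).le⟩
  exact ⟨U4_ok hs fun hi => (key hi).1, U4_nn fun hi => (key hi).2⟩

theorem U4_sv_near (hC : C.Crit) (i : Fin (m + 1)) {ρ : ℝ} (hρ : 0 < ρ) :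
    ∀ᶠ t in 𝓝 (C.xc i), Sl.near ρ (C.sv i (U4_g C i t)) (C.slc i) := by
  by_cases hi : i ∈ C.Op
  · have hc : ContinuousAt (fun t => ‖U4_g C i t - C.vc i‖) (C.xc i) :=
      ((U4_g_cont hC i).sub continuous_const).norm.continuousAt
    have h0 : ‖U4_g C i (C.xc i) - C.vc i‖ < ρ := by
      rw [U4_g_xc i hi, sub_self, norm_zero]
      exact hρ
    filter_upwards [hc.eventually (Iio_mem_nhds h0)] with t ht
    unfold Cfg.sv Cfg.slc
    rw [if_pos hi, if_pos hi]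
    exact ht
  · refine Eventually.of_forall fun t => ?_
    unfold Cfg.sv Cfg.slc
    rw [if_neg hi, if_neg hi]
    exact (rfl : C.s i = C.s i)

/-- The growth rate in the parameters. -/
noncomputable def U4_E (C : Cfg m) (j : Fin m) (q : (ℝ × ℝ) × ℂ) : ℝ :=
  EE (C.sv j.castSucc (U4_g C j.castSucc q.1.1)) (C.sv j.succ (U4_g C j.succ q.1.2)) q.2

theorem U4_E_xc (j : Fin m) (y : ℂ) : U4_E C j ((C.xc j.castSucc, C.xc j.succ), y) =
    EE (C.slc j.castSucc) (C.slc j.succ) y := by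
  unfold U4_E
  rw [U4_slc, U4_slc]

theorem U4_ev {X : Type} [TopologicalSpace X] {G : X → ℝ} (hG : Continuous G) {x0 : X}
    {c : ℝ} (h : G x0 < c) : ∀ᶠ x in 𝓝 x0, G x < c :=
  hG.continuousAt.eventually (Iio_mem_nhds h)

theorem U4_EE_cont2 (hC : C.Crit) (j : Fin m) : Continuous (U4_E C j) := by
  have h := U4_EE_cont (U4_sv (C := C) j.castSucc) (U4_sv (C := C) j.succ)
  have g1 := (U4_g_cont hC j.castSucc).comp
    (continuous_fst.comp (continuous_fst (X := ℝ × ℝ) (Y := ℂ)))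
  have g2 := (U4_g_cont hC j.succ).comp
    (continuous_snd.comp (continuous_fst (X := ℝ × ℝ) (Y := ℂ)))
  exact h.comp ((g1.prodMk g2).prodMk continuous_snd)

theorem U4_dom (hC : C.Crit) (j : Fin m) : 0 < (C.yc j).re ∧ (C.yc j).re < 1 / 2 := by
  have h := (hC.dom j).1
  generalize C.slc j.castSucc = σ at h
  rcases σ with v | s
  · have h' : 0 < (C.yc j).re ∧ (C.yc j).re < 1 / 2 ∧ fdom (C.yc j - v) ∧ fdom (C.yc j + v) := h
    exact ⟨h'.1, h'.2.1⟩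
  · exact h

theorem U4_norm_sub {a b c : ℂ} {x y : ℝ} (h1 : ‖a - b‖ ≤ x)
    (h2 : ‖b - c‖ ≤ y) : ‖a - c‖ ≤ x + y :=
  (norm_sub_le_norm_sub_add_norm_sub a b c).trans (add_le_add h1 h2)

theorem U4_near_xl (hC : C.Crit) {v1 : Fin (m + 1) → ℝ} {lam : Fin m → Fin (m + 1) → ℝ}
    (hE : C.Edg v1 lam) :
    ∃ ρ : ℝ, 0 < ρ ∧ ∀ i ∈ C.Op, ∀ t : ℝ, |t - C.xc i| ≤ ρ → |t| ≤ xl (C.θ i) (v1 i) := by
  obtain ⟨r1, h1, h2⟩ := U4_pos (J := Fin (m + 1))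
    (fun i => if i ∈ C.Op then xl (C.θ i) (v1 i) - |C.xc i| else 1) (fun i => by
      by_cases hi : i ∈ C.Op
      · rw [if_pos hi]
        linarith [U4_xl hC hE i hi]
      · rw [if_neg hi]
        exact one_pos)
  refine ⟨r1, h1, fun i hi t ht => ?_⟩
  have := h2 i
  rw [if_pos hi] at this
  have h3 := abs_sub_abs_le_abs_sub t (C.xc i)
  linarith

theorem U4_x_near {j : Fin m} {x : C.Op → ℝ} {ρ : ℝ} (hρ : 0 ≤ ρ)
    (h : ¬ ∃ i ∈ C.ic j, ρ < |x i - C.xc i|) :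
    |U4_x C x j.castSucc - C.xc j.castSucc| ≤ ρ ∧ |U4_x C x j.succ - C.xc j.succ| ≤ ρ := by
  constructor
  · unfold U4_x
    by_cases hi : j.castSucc ∈ C.Op
    · rw [dif_pos hi]
      by_contra hcon
      exact h ⟨⟨_, hi⟩, Finset.mem_filter.mpr ⟨Finset.mem_univ _, Or.inl rfl⟩, not_le.mp hcon⟩
    · rw [dif_neg hi, sub_self, abs_zero]
      exact hρ
  · unfold U4_x
    by_cases hi : j.succ ∈ C.Op
    · rw [dif_pos hi]
      by_contra hcon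
      exact h ⟨⟨_, hi⟩, Finset.mem_filter.mpr ⟨Finset.mem_univ _, Or.inr rfl⟩, not_le.mp hcon⟩
    · rw [dif_neg hi, sub_self, abs_zero]
      exact hρ

theorem U4_sv_g (i : Fin (m + 1)) (t : ℝ) :
    C.sv i (gdv (ul (C.θ i) t)) = C.sv i (U4_g C i t) := by
  unfold Cfg.sv U4_g
  by_cases hi : i ∈ C.Op
  · rw [if_pos hi, if_pos hi, if_pos hi]
  · rw [if_neg hi, if_neg hi]

theorem U4_lv_g (j : Fin m) (i : Fin (m + 1)) (t : ℝ) :
    C.lv j i (gdv (ul (C.θ i) t)) = C.lv j i (U4_g C i t) := by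
  unfold Cfg.lv U4_g
  by_cases hi : i ∈ C.Op
  · rw [if_pos hi, if_pos hi, if_pos hi]
  · rw [if_neg hi, if_neg hi]

end

end Pool.Agent.S4
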