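import Pool.Agent.S4.G.Defs
import Pool.Agent.S3.LL3

/-!
# The small indices: the partition of the multi-indices, and the general formula
-/

set_option autoImplicit false

namespace Pool.Agent.S4

open Pool.Agent.H63.VC hiding ext
open Pool.Agent.H63.VC3 Pool.Agent.H63.VC7 Pool.Agent.H25.RK Pool.Agent.S3 Pool.Agent.H63.GO
open Complex Filter Topology MeasureTheory
open scoped BigOperators Interval

variable {m : ℕ} {n h : ℕ}

theorem JG4_eq (P : Fin (m + 1) → Bool) (r : Fin (m + 1) → ℝ) (hn : 2 ≤ n) {M : ℕ}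
    (hM : n ≤ M) : JG4 P r n h M = JS4 P r n h M (fun _ => Finset.Ico (n - 2) M) := by
  unfold JG4 JS4
  refine Finset.sum_nbij' (fun k j => k j + (n - 2)) (fun κ j => κ j - (n - 2)) ?_ ?_ ?_ ?_ ?_
  · intro k hk
    rw [Fintype.mem_piFinset] at hk ⊢
    intro j
    have := Finset.mem_range.1 (hk j)
    exact Finset.mem_Ico.2 ⟨by omega, by omega⟩
  · intro κ hκ
    rw [Fintype.mem_piFinset] at hκ ⊢
    intro j
    have := Finset.mem_Ico.1 (hκ j)
    exact Finset.mem_range.2 (by omega)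
  · intro k _
    funext j
    simp
  · intro κ hκ
    rw [Fintype.mem_piFinset] at hκ
    funext j
    have := Finset.mem_Ico.1 (hκ j)
    show κ j - (n - 2) + (n - 2) = κ j
    omega
  · intro k _
    have e : (fun j : Fin m => k j + (n - 2) - (n - 2)) = k := by
      funext j
      omega
    simp only [Nat.add_sub_cancel]

/-- The partition of the multi-indices. -/
theorem sum_piFinset_Ico {α : Type*} [AddCommMonoid α] {M : ℕ} (hM : n - 2 ≤ k0 M)
    (f : (Fin m → ℕ) → α) :
    ∑ k ∈ Fintype.piFinset (fun _ : Fin m => Finset.Ico (n - 2) M), f k =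
      ∑ L : Finset (Fin m), ∑ k ∈ Fintype.piFinset (SL4 n M L), f k := by
  classical
  rw [← Finset.sum_fiberwise (s := Fintype.piFinset (fun _ : Fin m => Finset.Ico (n - 2) M))
    (g := fun k => Finset.univ.filter fun j => k j < k0 M) (f := f)]
  refine Finset.sum_congr rfl fun L _ => ?_
  refine Finset.sum_congr ?_ fun _ _ => rfl
  ext k
  simp only [Finset.mem_filter, Fintype.mem_piFinset, SL4]
  have hk0 := k0_le M
  constructor
  · rintro ⟨h1, h2⟩ j
    have h1j := Finset.mem_Ico.1 (h1 j)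
    split_ifs with hj
    · rw [← h2] at hj
      exact Finset.mem_Ico.mpr ⟨h1j.1, (Finset.mem_filter.mp hj).2⟩
    · refine Finset.mem_Ico.mpr ⟨?_, h1j.2⟩
      by_contra hc
      push Not at hc
      apply hj
      rw [← h2]
      exact Finset.mem_filter.mpr ⟨Finset.mem_univ j, hc⟩
  · intro h
    refine ⟨fun j => ?_, ?_⟩
    · have := h j
      split_ifs at this
      · have := Finset.mem_Ico.mp this
        exact Finset.mem_Ico.mpr ⟨this.1, by omega⟩
      · have := Finset.mem_Ico.mp this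
        exact Finset.mem_Ico.mpr ⟨by omega, this.2⟩
    · ext j
      simp only [Finset.mem_filter, Finset.mem_univ, true_and]
      have := h j
      constructor
      · intro h1
        by_contra hj
        rw [if_neg hj] at this
        exact absurd (Finset.mem_Ico.mp this).1 (not_le.2 h1)
      · intro hj
        rw [if_pos hj] at this
        exact (Finset.mem_Ico.mp this).2

theorem JS4_empty (P : Fin (m + 1) → Bool) (r : Fin (m + 1) → ℝ) (M : ℕ) :
    JS4 P r n h M (SL4 n M ∅) = J04 P r n h M := by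
  unfold J04 SL4
  simp

theorem JG4_sub (P : Fin (m + 1) → Bool) (r : Fin (m + 1) → ℝ) (hn : 2 ≤ n) {M : ℕ}
    (hM : 5 * n ≤ M) : JG4 P r n h M - J04 P r n h M =
      ∑ L ∈ (Finset.univ : Finset (Finset (Fin m))).erase ∅, JS4 P r n h M (SL4 n M L) := by
  classical
  have hk : n - 2 ≤ k0 M := by
    unfold k0
    omega
  have h1 : JG4 P r n h M = ∑ L : Finset (Fin m), JS4 P r n h M (SL4 n M L) := by
    rw [JG4_eq P r hn (by omega)]
    unfold JS4
    exact sum_piFinset_Ico hk _
  rw [h1, ← Finset.add_sum_erase _ _ (Finset.mem_univ (∅ : Finset (Fin m))), JS4_empty,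
    add_sub_cancel_left]

/-! ### The general formula -/

/-- The invariant as an integral, if the factors of the open vertices are integrals. -/
theorem JS4_gen (P : Fin (m + 1) → Bool) (r : Fin (m + 1) → ℝ) (Op : Finset (Fin (m + 1)))
    (g : Fin (m + 1) → ℝ → ℂ) (s : Fin (m + 1) → Fin m → ℕ → ℝ → ℂ)
    (s0 : Fin (m + 1) → Fin m → ℕ → ℂ) (M : ℕ) (S : Fin m → Finset ℕ)
    (hI : ∀ i ∈ Op, ∀ κ ∈ Fintype.piFinset S, Integrable (fun x => g i x *
      ∏ j ∈ inc (Fin.castSucc (n := m)) Fin.succ i, s i j (κ j) x))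
    (hO : ∀ i ∈ Op, ∀ κ ∈ Fintype.piFinset S,
      DG4 (r i) n h M (P i) (sn P i) (ie i) (fun j => κ j - (n - 2)) =
        ∫ x, g i x * ∏ j ∈ inc (Fin.castSucc (n := m)) Fin.succ i, s i j (κ j) x)
    (hC : ∀ i ∉ Op, ∀ κ ∈ Fintype.piFinset S,
      DG4 (r i) n h M (P i) (sn P i) (ie i) (fun j => κ j - (n - 2)) =
        ∏ j ∈ inc (Fin.castSucc (n := m)) Fin.succ i, s0 i j (κ j)) :
    JS4 P r n h M S = ∫ x : Op → ℝ, (∏ i : Op, g i (x i)) *
      ∏ j : Fin m, ∑ κ ∈ S j, (w4 n h (et P j) M (κ - (n - 2)) : ℂ) *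
        (sgx Op s s0 x j.castSucc j κ * sgx Op s s0 x j.succ j κ) := by
  -- the term of a multi-index
  obtain ⟨G, hG⟩ : ∃ G : (Fin m → ℕ) → (Op → ℝ) → ℂ, G = fun k x => (∏ i : Op, g i (x i)) *
    ∏ i, ∏ j ∈ inc (Fin.castSucc (n := m)) Fin.succ i, sgx Op s s0 x i j (k j) := ⟨_, rfl⟩
  have hGe : ∀ k ∈ Fintype.piFinset S, ∀ x : Op → ℝ, G k x =
      (∏ i : Op, (g i (x i) * ∏ j ∈ inc (Fin.castSucc (n := m)) Fin.succ (i : Fin (m + 1)),
        s i j (k j) (x i))) *
        ∏ i ∈ Opᶜ, DG4 (r i) n h M (P i) (sn P i) (ie i) (fun j => k j - (n - 2)) := by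
    intro k hk x
    rw [hG]
    simp only
    rw [Finset.prod_mul_distrib, mul_assoc]
    congr 1
    rw [← Finset.prod_mul_prod_compl Op]
    congr 1
    · rw [← Finset.prod_coe_sort]
      refine Finset.prod_congr rfl fun i _ => ?_
      refine Finset.prod_congr rfl fun j _ => ?_
      unfold sgx
      rw [dif_pos i.2]
    · refine Finset.prod_congr rfl fun i hi => ?_
      have hi' : i ∉ Op := Finset.mem_compl.mp hi
      rw [hC i hi' k hk]
      refine Finset.prod_congr rfl fun j _ => ?_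
      unfold sgx
      rw [dif_neg hi']
  have hGi : ∀ k ∈ Fintype.piFinset S, Integrable (G k) := by
    intro k hk
    have e : G k = fun x : Op → ℝ => (∏ i : Op, (g i (x i) *
        ∏ j ∈ inc (Fin.castSucc (n := m)) Fin.succ (i : Fin (m + 1)), s i j (k j) (x i))) *
        ∏ i ∈ Opᶜ, DG4 (r i) n h M (P i) (sn P i) (ie i) (fun j => k j - (n - 2)) :=
      funext fun x => hGe k hk x
    rw [e]
    apply Integrable.mul_const
    exact Integrable.fintype_prod (f := fun (i : Op) (x : ℝ) => g i x *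
      ∏ j ∈ inc (Fin.castSucc (n := m)) Fin.succ (i : Fin (m + 1)), s i j (k j) x)
      (fun i => hI i i.2 k hk)
  have hGt : ∀ k ∈ Fintype.piFinset S,
      ∏ i, DG4 (r i) n h M (P i) (sn P i) (ie i) (fun j => k j - (n - 2)) =
        ∫ x : Op → ℝ, G k x := by
    intro k hk
    have e : G k = fun x : Op → ℝ => (∏ i : Op, (g i (x i) *
        ∏ j ∈ inc (Fin.castSucc (n := m)) Fin.succ (i : Fin (m + 1)), s i j (k j) (x i))) *
        ∏ i ∈ Opᶜ, DG4 (r i) n h M (P i) (sn P i) (ie i) (fun j => k j - (n - 2)) :=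
      funext fun x => hGe k hk x
    rw [e, integral_mul_const, integral_fintype_prod_volume_eq_prod (fun (i : Op) (x : ℝ) =>
      g i x * ∏ j ∈ inc (Fin.castSucc (n := m)) Fin.succ (i : Fin (m + 1)), s i j (k j) x),
      ← Finset.prod_mul_prod_compl Op]
    congr 1
    rw [← Finset.prod_coe_sort]
    exact Finset.prod_congr rfl fun i _ => hO i i.2 k hk
  have hpt : ∀ x : Op → ℝ, (∏ i : Op, g i (x i)) *
      ∏ j : Fin m, ∑ κ ∈ S j, (w4 n h (et P j) M (κ - (n - 2)) : ℂ) *
        (sgx Op s s0 x j.castSucc j κ * sgx Op s s0 x j.succ j κ) =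
      ∑ k ∈ Fintype.piFinset S, (∏ j, (w4 n h (et P j) M (k j - (n - 2)) : ℂ)) * G k x := by
    intro x
    rw [Finset.prod_univ_sum, Finset.mul_sum]
    refine Finset.sum_congr rfl fun k _ => ?_
    rw [hG]
    simp only
    rw [prod_inc (Fin.castSucc (n := m)) Fin.succ (fun j => (Fin.castSucc_lt_succ (i := j)).ne)
      (fun i j => sgx Op s s0 x i j (k j)), Finset.prod_mul_distrib]
    ring
  simp only [hpt]
  rw [integral_finsetSum _ fun k hk => (hGi k hk).const_mul _]
  unfold JS4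
  refine Finset.sum_congr rfl fun k hk => ?_
  rw [integral_const_mul, hGt k hk]

end Pool.Agent.S4
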