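import Pool.Agent.S4.G.JLim
import Pool.Agent.S4.G.UnifF
import Pool.Agent.S4.G.KqB
import Pool.Agent.S4.G.KqL
import Pool.Agent.S4.G.Cl
import Pool.Agent.S4.G.Ctr
import Pool.Agent.S4.G.Vert
import Pool.Agent.S4.G.Slot

/-!
# The asymptotics of the main part
-/

set_option autoImplicit false

namespace Pool.Agent.S4

open Pool.Agent.H63.VC hiding ext
open Pool.Agent.H63.VC3 Pool.Agent.H63.VC7 Pool.Agent.H25.RK Pool.Agent.S3 Pool.Agent.H63.GO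
open Complex Filter Topology MeasureTheory
open scoped BigOperators Interval

variable {m : ℕ} {C : Cfg m} {n h : ℕ}

private theorem J0_slc_op {i : Fin (m + 1)} (hi : i ∈ C.Op) : C.slc i = .op (C.vc i) := by
  unfold Cfg.slc
  rw [if_pos hi]

private theorem J0_vc_im (hC : C.Crit) {i : Fin (m + 1)} (hi : i ∈ C.Op) : 0 < (C.vc i).im := by
  unfold Cfg.vc
  exact gdv_im_pos (by rw [Cfg.uc_im]; exact hC.th0 i hi) (by rw [Cfg.uc_im]; exact hC.th1 i hi)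

private theorem J0_vc_re (hC : C.Crit) {i : Fin (m + 1)} (hi : i ∈ C.Op) :
    |(C.vc i).re| < 1 / 2 := by
  unfold Cfg.vc
  have h1 : |(C.uc i).im| < Real.pi / 2 := by
    rw [Cfg.uc_im, abs_lt]
    exact ⟨by linarith [Real.pi_pos, hC.th0 i hi], hC.th1 i hi⟩
  exact gdv_re_lt h1

private theorem J0_ups (hC : C.Crit) (i : Fin (m + 1)) : ups (C.slc i) := by
  by_cases hi : i ∈ C.Op
  · rw [J0_slc_op hi]
    exact J0_vc_im hC hi
  · unfold Cfg.slc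
    rw [if_neg hi]
    trivial

/-- The data of the chain. -/
theorem chH4 (hn : 2 ≤ n) (hh : 1 ≤ h) (hh' : 2 * h ≤ n) (P : Fin (m + 1) → Bool) (hC : C.Crit)
    (hs : ∀ i, i ∉ C.Op → C.s i = 1 ∨ C.s i = -1) :
    ChH C (fun j => Kq n h (et P j) (P j.castSucc) (P j.succ))
      (fun j => Fq n h (et P j) (P j.castSucc) (P j.succ))
      (fun i M v => (-1) ^ (M + nn n (P i) + 1) * gv4 (C.r i) n h (P i) (sn P i) M v)
      (fun _ => 0) (fun j => (C.slc j.castSucc).ex + (C.slc j.succ).ex) where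
  kb := fun j => Kq_KB hn hh hh' _ _ _
  kl := fun j => Kq_KL hn hh hh' _ _ _
  kf := fun j => Fq_KFu hn hh hh' _ _ _
  kc := fun j => Kq_KC n h _ _ _
  gb := by
    intro i hi κ B hκ
    obtain ⟨D, hD, p, H⟩ := gv4_bound hn hh hh' (P i) (sn P i) (κ := κ) (B := B) hκ
    refine ⟨D, hD, p, ?_⟩
    filter_upwards [eventually_ge_atTop 1] with M hM v h1 h2 h3 h4
    rw [norm_mul, norm_pow, norm_neg, norm_one, one_pow, one_mul]
    exact H M (C.r i) v hM h1 h2 h3 h4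
  gc := by
    intro i hi
    filter_upwards [eventually_gt_atTop 0] with M hM
    exact continuousOn_const.mul (gv4_cont (C.r i) n h (P i) (sn P i) hM)
  gl := by
    intro i hi
    obtain ⟨A, hA, H⟩ := gv4_lim hn hh hh' (C.r i) (P i) (sn P i) (v0 := C.vc i) (J0_vc_im hC hi)
      (J0_vc_re hC hi)
    refine ⟨A, hA, ?_⟩
    refine H.congr fun p => ?_
    rw [Real.rpow_zero, ofReal_one, div_one]
  fc := fun j => ⟨C.U, Cfg.U_open, Cfg.zc_mem hC, Fq_cont hn hh hh' _ _ _ hs j⟩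
  fl := by
    intro j
    obtain ⟨A, hA, H⟩ := Fq_lim hn hh hh' (et P j) (P j.castSucc) (P j.succ) (y0 := C.yc j)
      (σ0 := C.slc j.castSucc) (τ0 := C.slc j.succ) (hC.dom j).1 (hC.dom j).2
      (Cfg.slc_ok hC hs _) (Cfg.slc_ok hC hs _) (J0_ups hC _) (J0_ups hC _)
    have hl : Tendsto (fun p : ℕ × (C.Op ⊕ Fin m → ℂ) => p.2)
      (atTop ×ˢ 𝓝 (cp C.ac C.bc)) (𝓝 (cp C.ac C.bc)) := tendsto_snd
    have hy : Tendsto (fun p : ℕ × (C.Op ⊕ Fin m → ℂ) => C.Yz p.2 j)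
        (atTop ×ˢ 𝓝 (cp C.ac C.bc)) (𝓝 (C.yc j)) := by
      have h3 := (Cfg.Hess_Yz_an C j (cp C.ac C.bc)).continuousAt.tendsto
      rw [Cfg.Hess_Yz0] at h3
      exact h3.comp hl
    exact ⟨A, hA, H tendsto_fst hy (Cfg.slz_STo hC hl _) (Cfg.slz_STo hC hl _)⟩

/-! ### The main part as an integral -/

/-- The integrand of a node. -/
private noncomputable def J0_F (C : Cfg m) (n h : ℕ) (P : Fin (m + 1) → Bool)
    (v1 : Fin (m + 1) → ℝ) (ε : ℝ) (M : ℕ) (i : Fin (m + 1)) (κ : Fin m → ℕ) (x : ℝ) : ℂ :=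
  gv4 (C.r i) n h (P i) (sn P i) M (C.gm v1 ε i x) * C.gm' v1 ε i x *
    ∏ j ∈ ie i, sk4 n h M (P i) (κ j) (.op (C.gm v1 ε i x))

private theorem J0_F_eq (P : Fin (m + 1) → Bool) (v1 : Fin (m + 1) → ℝ) (ε : ℝ) (M : ℕ)
    (i : Fin (m + 1)) (κ : Fin m → ℕ) (hn : 2 ≤ n) (hk : ∀ j, n - 2 ≤ κ j) (x : ℝ) :
    J0_F C n h P v1 ε M i κ x =
      NT4 (C.r i) n h M (P i) (sn P i) (ie i) (fun j => κ j - (n - 2)) (C.gm v1 ε i x) *
        om (nn n (P i)) M (C.gm v1 ε i x) * C.gm' v1 ε i x := by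
  unfold J0_F gv4 NT4
  have e : ∀ j ∈ ie i, sk4 n h M (P i) (κ j) (.op (C.gm v1 ε i x)) =
      q4 M (dd n h (P i)) (M + 1 - n - (κ j - (n - 2))) (C.gm v1 ε i x) := by
    intro j _
    have h1 := hk j
    have h2 : M + 1 - n - (κ j - (n - 2)) = M - 1 - κ j := by omega
    rw [h2]
    rfl
  rw [Finset.prod_congr rfl e]
  ring

/-- The term of the multi-index `κ`. -/
private noncomputable def J0_G (C : Cfg m) (n h : ℕ) (P : Fin (m + 1) → Bool)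
    (v1 : Fin (m + 1) → ℝ) (ε : ℝ) (M : ℕ) (κ : Fin m → ℕ) (x : C.Op → ℝ) : ℂ :=
  (∏ i : C.Op, ggF C (fun i M v => gv4 (C.r i) n h (P i) (sn P i) M v) v1 ε M i (x i)) *
    ∏ i, ∏ j ∈ ie i, sk4 n h M (P i) (κ j) (slx C.Op C.s (C.gm v1 ε) x i)

private theorem J0_G_eq (P : Fin (m + 1) → Bool) (v1 : Fin (m + 1) → ℝ) (ε : ℝ) (M : ℕ)
    (hinc : ∀ i, i ∉ C.Op → ∃ j, inc (Fin.castSucc (n := m)) Fin.succ i = {j})
    (κ : Fin m → ℕ)
    (hcl : ∀ i ∉ C.Op, ∀ j : Fin m, DG4 (C.r i) n h M (P i) (sn P i) {j}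
      (fun j => κ j - (n - 2)) = sk4 n h M (P i) (κ j) (.cl (C.s i))) (x : C.Op → ℝ) :
    J0_G C n h P v1 ε M κ x = (∏ i : C.Op, J0_F C n h P v1 ε M i κ (x i)) *
      ∏ i ∈ C.Opᶜ, DG4 (C.r i) n h M (P i) (sn P i) (ie i) (fun j => κ j - (n - 2)) := by
  have e1 : ∏ i : C.Op, J0_F C n h P v1 ε M i κ (x i) =
      (∏ i : C.Op, ggF C (fun i M v => gv4 (C.r i) n h (P i) (sn P i) M v) v1 ε M i (x i)) *
        ∏ i : C.Op, ∏ j ∈ ie (i : Fin (m + 1)),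
          sk4 n h M (P i) (κ j) (.op (C.gm v1 ε i (x i))) := by
    rw [← Finset.prod_mul_distrib]
    rfl
  unfold J0_G
  rw [e1, mul_assoc]
  congr 1
  rw [← Finset.prod_mul_prod_compl C.Op]
  congr 1
  · rw [← Finset.prod_coe_sort]
    refine Finset.prod_congr rfl fun i _ => ?_
    refine Finset.prod_congr rfl fun j _ => ?_
    unfold slx
    rw [dif_pos i.2]
  · refine Finset.prod_congr rfl fun i hi => ?_
    have hi' : i ∉ C.Op := Finset.mem_compl.mp hi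
    obtain ⟨j, hj⟩ := hinc i hi'
    have hj' : ie i = {j} := hj
    rw [hj', hcl i hi' j, Finset.prod_singleton]
    unfold slx
    rw [dif_neg hi']

/-- The main part of the invariant as an integral. -/
theorem J04_eq (hn : 2 ≤ n) (hh : 1 ≤ h) (hh' : 2 * h ≤ n) (P : Fin (m + 1) → Bool)
    (hs : ∀ i, i ∉ C.Op → C.s i = 1 ∨ C.s i = -1) (hr : ∀ i, i ∉ C.Op → C.r i = C.s i)
    (hinc : ∀ i, i ∉ C.Op → ∃ j, inc (Fin.castSucc (n := m)) Fin.succ i = {j})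
    (hP : ∀ i, i ∉ C.Op → P i = false → sn P i = 0)
    {v1 : Fin (m + 1) → ℝ} {ε : ℝ} (hγ : ∀ i ∈ C.Op, Ctr (C.gm v1 ε i) (C.gm' v1 ε i)) :
    ∀ᶠ M : ℕ in atTop, J04 P C.r n h M = (-(4 * Real.pi * I) * M ^ 2) ^ C.Op.card *
      ∫ x : C.Op → ℝ, Asm.gK (ggF C (fun i M v => gv4 (C.r i) n h (P i) (sn P i) M v) v1 ε)
        (kkF C (fun j => Kq n h (et P j) (P j.castSucc) (P j.succ)) v1 ε) M x := by
  filter_upwards [eventually_ge_atTop (5 * n + 5)] with M hM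
  have hk0 : n - 2 ≤ k0 M := by
    unfold k0
    omega
  have hMn : n + 2 ≤ M := by omega
  have hlo : ∀ κ ∈ Fintype.piFinset (fun _ : Fin m => Finset.Ico (k0 M) M), ∀ j, n - 2 ≤ κ j := by
    intro κ hκ j
    exact hk0.trans (Finset.mem_Ico.mp (Fintype.mem_piFinset.mp hκ j)).1
  have hcl : ∀ κ ∈ Fintype.piFinset (fun _ : Fin m => Finset.Ico (k0 M) M), ∀ i ∉ C.Op,
      ∀ j : Fin m, DG4 (C.r i) n h M (P i) (sn P i) {j}
        (fun j => κ j - (n - 2)) = sk4 n h M (P i) (κ j) (.cl (C.s i)) := by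
    intro κ hκ i hi j
    rw [hr i hi]
    exact DG4_cl hn hh hh' (P i) (sn P i) (hP i hi) (hs i hi) (hlo κ hκ j)
      (Finset.mem_Ico.mp (Fintype.mem_piFinset.mp hκ j)).2 j _ rfl
  have hFi : ∀ κ ∈ Fintype.piFinset (fun _ : Fin m => Finset.Ico (k0 M) M), ∀ i ∈ C.Op,
      Integrable (J0_F C n h P v1 ε M i κ) ∧
      DG4 (C.r i) n h M (P i) (sn P i) (ie i) (fun j => κ j - (n - 2)) =
        (-(4 * Real.pi * I) * M ^ 2) * ∫ x, J0_F C n h P v1 ε M i κ x := by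
    intro κ hκ i hi
    have h1 := DG4_ctr hn hh hh' (C.r i) (P i) (sn P i) hMn (ie i) (fun j => κ j - (n - 2))
      (hγ i hi)
    have e : J0_F C n h P v1 ε M i κ = fun x =>
        NT4 (C.r i) n h M (P i) (sn P i) (ie i) (fun j => κ j - (n - 2)) (C.gm v1 ε i x) *
        om (nn n (P i)) M (C.gm v1 ε i x) * C.gm' v1 ε i x :=
      funext fun x => J0_F_eq P v1 ε M i κ hn (hlo κ hκ) x
    rw [e]
    exact h1
  have hGi : ∀ κ ∈ Fintype.piFinset (fun _ : Fin m => Finset.Ico (k0 M) M),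
      Integrable (J0_G C n h P v1 ε M κ) := by
    intro κ hκ
    have e : J0_G C n h P v1 ε M κ = fun x => (∏ i : C.Op, J0_F C n h P v1 ε M i κ (x i)) *
        ∏ i ∈ C.Opᶜ, DG4 (C.r i) n h M (P i) (sn P i) (ie i) (fun j => κ j - (n - 2)) :=
      funext fun x => J0_G_eq P v1 ε M hinc κ (hcl κ hκ) x
    rw [e]
    apply Integrable.mul_const
    exact Integrable.fintype_prod (f := fun (i : C.Op) (x : ℝ) => J0_F C n h P v1 ε M i κ x)
      (fun i => (hFi κ hκ i i.2).1)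
  have hterm : ∀ κ ∈ Fintype.piFinset (fun _ : Fin m => Finset.Ico (k0 M) M),
      ∏ i, DG4 (C.r i) n h M (P i) (sn P i) (ie i) (fun j => κ j - (n - 2)) =
      (-(4 * Real.pi * I) * M ^ 2) ^ C.Op.card *
        ∫ x : C.Op → ℝ, J0_G C n h P v1 ε M κ x := by
    intro κ hκ
    simp only [J0_G_eq P v1 ε M hinc κ (hcl κ hκ)]
    rw [integral_mul_const, integral_fintype_prod_volume_eq_prod (fun (i : C.Op) (x : ℝ) =>
      J0_F C n h P v1 ε M i κ x), ← Finset.prod_mul_prod_compl C.Op, ← mul_assoc]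
    congr 1
    rw [← Finset.prod_coe_sort]
    have hc : (-(4 * Real.pi * I) * (M : ℂ) ^ 2) ^ C.Op.card =
        ∏ _i : C.Op, (-(4 * Real.pi * I) * (M : ℂ) ^ 2) := by
      rw [Finset.prod_const, Finset.card_univ, Fintype.card_coe]
    rw [hc, ← Finset.prod_mul_distrib]
    exact Finset.prod_congr rfl fun i _ => (hFi κ hκ i i.2).2
  have hpt : ∀ x : C.Op → ℝ,
      Asm.gK (ggF C (fun i M v => gv4 (C.r i) n h (P i) (sn P i) M v) v1 ε)
        (kkF C (fun j => Kq n h (et P j) (P j.castSucc) (P j.succ)) v1 ε) M x =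
      ∑ κ ∈ Fintype.piFinset (fun _ : Fin m => Finset.Ico (k0 M) M),
        (∏ j, (w4 n h (et P j) M (κ j - (n - 2)) : ℂ)) * J0_G C n h P v1 ε M κ x := by
    intro x
    unfold Asm.gK kkF Kq
    rw [Finset.prod_univ_sum, Finset.mul_sum]
    refine Finset.sum_congr rfl fun κ hκ => ?_
    unfold J0_G
    have e : ∏ i, ∏ j ∈ ie i, sk4 n h M (P i) (κ j) (slx C.Op C.s (C.gm v1 ε) x i) =
        ∏ j : Fin m, (sk4 n h M (P j.castSucc) (κ j) (slx C.Op C.s (C.gm v1 ε) x j.castSucc) *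
          sk4 n h M (P j.succ) (κ j) (slx C.Op C.s (C.gm v1 ε) x j.succ)) :=
      prod_inc (Fin.castSucc (n := m)) Fin.succ (fun j => (Fin.castSucc_lt_succ (i := j)).ne)
        (fun i j => sk4 n h M (P i) (κ j) (slx C.Op C.s (C.gm v1 ε) x i))
    rw [e, Finset.prod_mul_distrib]
    ring
  simp only [hpt]
  rw [integral_finsetSum _ fun κ hκ => (hGi κ hκ).const_mul _, Finset.mul_sum]
  unfold J04 JS4
  refine Finset.sum_congr rfl fun κ hκ => ?_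
  rw [integral_const_mul, hterm κ hκ]
  ring

/-- The asymptotics of the main part of the invariant. -/
theorem J04_lim (hn : 2 ≤ n) (hh : 1 ≤ h) (hh' : 2 * h ≤ n) (P : Fin (m + 1) → Bool)
    (hC : C.Crit) (hs : ∀ i, i ∉ C.Op → C.s i = 1 ∨ C.s i = -1)
    (hr : ∀ i, i ∉ C.Op → C.r i = C.s i)
    (hinc : ∀ i, i ∉ C.Op → ∃ j, inc (Fin.castSucc (n := m)) Fin.succ i = {j})
    (hP : ∀ i, i ∉ C.Op → P i = false → sn P i = 0)
    {v1 : Fin (m + 1) → ℝ} {lam : Fin m → Fin (m + 1) → ℝ} (hE : C.Edg v1 lam) :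
    ∃ c : ℂ, c ≠ 0 ∧ Tendsto (fun M : ℕ => (∏ i ∈ C.Op, (-1 : ℂ) ^ (M + nn n (P i) + 1)) *
      J04 P C.r n h M / ((((M : ℝ) ^ (3 / 2 * ((m : ℝ) + 1) + m / 2) : ℝ) : ℂ) *
        exp (M * C.V (cp C.ac C.bc)))) atTop (𝓝 c) := by
  obtain ⟨ε, hε, κ, hκ, hκlim⟩ := (chH4 hn hh hh' P hC hs).lim hC hs hE
  have hγ : ∀ i ∈ C.Op, Ctr (C.gm v1 ε i) (C.gm' v1 ε i) := fun i hi =>
    gam_ctr (hC.th0 i hi) (hC.th1 i hi) (hE.v0 i hi) (hE.vh i hi) hε
  have h4 : (-(4 * Real.pi * I) : ℂ) ≠ 0 := by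
    have : (Real.pi : ℂ) ≠ 0 := by exact_mod_cast Real.pi_ne_zero
    exact neg_ne_zero.2 (mul_ne_zero (mul_ne_zero (by norm_num) this) I_ne_zero)
  refine ⟨(-(4 * Real.pi * I)) ^ C.Op.card * κ, mul_ne_zero (pow_ne_zero _ h4) hκ, ?_⟩
  refine (hκlim.const_mul ((-(4 * Real.pi * I) : ℂ) ^ C.Op.card)).congr' ?_
  filter_upwards [eventually_gt_atTop 0, J04_eq hn hh hh' P hs hr hinc hP hγ] with M hM hJ
  have hMp : (0 : ℝ) < M := by exact_mod_cast hM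
  have hI : ∫ x : C.Op → ℝ, Asm.gK (ggF C (fun i M v => (-1) ^ (M + nn n (P i) + 1) *
        gv4 (C.r i) n h (P i) (sn P i) M v) v1 ε)
        (kkF C (fun j => Kq n h (et P j) (P j.castSucc) (P j.succ)) v1 ε) M x =
      (∏ i ∈ C.Op, (-1 : ℂ) ^ (M + nn n (P i) + 1)) *
      ∫ x : C.Op → ℝ, Asm.gK (ggF C (fun i M v => gv4 (C.r i) n h (P i) (sn P i) M v) v1 ε)
        (kkF C (fun j => Kq n h (et P j) (P j.castSucc) (P j.succ)) v1 ε) M x := by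
    rw [← integral_const_mul]
    refine integral_congr_ae (Eventually.of_forall fun x => ?_)
    show Asm.gK _ _ M x = _ * Asm.gK _ _ M x
    have e : ∏ i ∈ C.Op, (-1 : ℂ) ^ (M + nn n (P i) + 1) =
        ∏ i : C.Op, (-1 : ℂ) ^ (M + nn n (P i) + 1) := (Finset.prod_coe_sort _ _).symm
    unfold Asm.gK ggF
    rw [e, ← mul_assoc, ← Finset.prod_mul_distrib]
    congr 1
    refine Finset.prod_congr rfl fun i _ => ?_
    ring
  rw [hI, hJ]
  have hex : eH C (fun _ => 0) (fun j => (C.slc j.castSucc).ex + (C.slc j.succ).ex) = C.eA := by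
    rw [← Cfg.ex_eq_eA hinc]
    unfold eH Cfg.ex
    rw [Finset.sum_const_zero, zero_add]
  rw [hex]
  have hpow : (((M : ℝ) ^ (3 / 2 * ((m : ℝ) + 1) + m / 2) : ℝ) : ℂ) =
      (M : ℂ) ^ (2 * C.Op.card) *
        (((M : ℝ) ^ (C.eA - ((C.Op.card : ℝ) + m) / 2) : ℝ) : ℂ) := by
    have : (M : ℝ) ^ (3 / 2 * ((m : ℝ) + 1) + m / 2) =
      (M : ℝ) ^ (2 * C.Op.card) * (M : ℝ) ^ (C.eA - ((C.Op.card : ℝ) + m) / 2) := by
      rw [← Real.rpow_natCast (M : ℝ) (2 * C.Op.card), ← Real.rpow_add hMp]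
      congr 1
      unfold Cfg.eA
      push_cast
      ring
    have h' := congrArg (fun x : ℝ => (x : ℂ)) this
    push_cast at h' ⊢
    exact h'
  have e2 : (((M : ℝ) ^ (C.eA - ((C.Op.card : ℝ) + m) / 2) : ℝ) : ℂ) ≠ 0 := by
    exact_mod_cast (Real.rpow_pos_of_pos hMp _).ne'
  have e3 := exp_ne_zero (M * C.V (cp C.ac C.bc))
  have e5 : (M : ℂ) ^ (2 * C.Op.card) ≠ 0 := pow_ne_zero _ (by exact_mod_cast hM.ne')
  have e4 : (-(4 * Real.pi * I) * (M : ℂ) ^ 2) ^ C.Op.card =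
      (-(4 * Real.pi * I)) ^ C.Op.card * (M : ℂ) ^ (2 * C.Op.card) := by
    rw [mul_pow, ← pow_mul]
  rw [e4, hpow, ← mul_div_assoc, div_eq_div_iff (mul_ne_zero e2 e3)
    (mul_ne_zero (mul_ne_zero e5 e2) e3)]
  ring

end Pool.Agent.S4
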