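import Pool.Agent.S4.G.LowA
import Pool.Agent.S4.G.LowB

/-!
# The small indices
-/

set_option autoImplicit false

namespace Pool.Agent.S4

open Pool.Agent.H63.VC hiding ext
open Pool.Agent.H63.VC3 Pool.Agent.H63.VC7 Pool.Agent.H25.RK Pool.Agent.S3 Pool.Agent.H63.GO
open Complex Filter Topology MeasureTheory
open scoped BigOperators Interval
open LowG

variable {m : ℕ} {C : Cfg m} {n h : ℕ}

/-- The small indices do not contribute. -/
theorem low_main4 (hn : 2 ≤ n) (hh : 1 ≤ h) (hh' : 2 * h ≤ n) (P : Fin (m + 1) → Bool)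
    (hC : C.Crit) (hs : ∀ i ∉ C.Op, C.s i = 1 ∨ C.s i = -1) (hr : ∀ i, i ∉ C.Op → C.r i = C.s i)
    (hinc : ∀ i ∉ C.Op, ∃ j, inc (Fin.castSucc (n := m)) Fin.succ i = {j})
    (hcc : ∀ j : Fin m, j.castSucc ∈ C.Op ∨ j.succ ∈ C.Op)
    (hP : ∀ i, i ∉ C.Op → P i = false → sn P i = 0)
    {v1 : Fin (m + 1) → ℝ} {lam : Fin m → Fin (m + 1) → ℝ} {t : Fin (m + 1) → ℂ}
    {g ρ : Fin (m + 1) → ℝ} (hE : C.Edg v1 lam) (H : C.LowH2 v1 lam t g ρ) :
    ∃ δ : ℝ, 0 < δ ∧ ∃ D : ℝ, 0 < D ∧ ∃ p : ℕ, ∀ᶠ M : ℕ in atTop,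
      ‖JG4 P C.r n h M - J04 P C.r n h M‖ ≤ D * (M : ℝ) ^ p * Real.exp (M * (C.e0 - δ)) := by
  classical
  obtain ⟨δ, hδ0, -, -, -, hδ⟩ := low_choose (J := Fin m) (P := fun j η _ _ =>
      C.cr2 g ρ j.castSucc + C.cr2 g ρ j.succ + η ≤ C.Lt j (t j.castSucc) (t j.succ))
    (fun j η η' _ _ _ _ h _ hη _ _ => by linarith)
    (fun j => ⟨C.Lt j (t j.castSucc) (t j.succ) - C.cr2 g ρ j.castSucc - C.cr2 g ρ j.succ,
      by linarith [H.bad j], 1, one_pos, 0, by linarith⟩)
  obtain ⟨ε, hε, hbl, Kk, hKk, pk, hk⟩ := K4_bound (P := P) hn hh hh' hC hs hE H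
  obtain ⟨Kl, hKl, pl, hl⟩ := K4_low (C := C) (P := P) (v1 := v1) hn hh hh' hs
  refine ⟨δ, hδ0, ?_⟩
  have key : ∀ L ∈ (Finset.univ : Finset (Finset (Fin m))).erase ∅, ∃ K : ℝ, 0 < K ∧ ∃ p : ℕ,
      ∀ᶠ M : ℕ in atTop, ‖JS4 P C.r n h M (SL4 n M L)‖ ≤ K * (M : ℝ) ^ p *
        Real.exp (M * (C.e0 - δ)) := by
    intro L hL
    have hL' : L ≠ ∅ := Finset.ne_of_mem_erase hL
    obtain ⟨Kg, hKg, pg, hg⟩ := g4_bound (P := P) hn hh hh' hC hE hε hbl L
    obtain ⟨K, hK0, p, hb⟩ := low_abs' (ι := C.Op) (ε := Fin m)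
      (g := fun M i x => g4 C P v1 ε L n h M i x)
      (K := fun M j x => ∑ κ ∈ SL4 n M L j, (w4 n h (et P j) M (κ - (n - 2)) : ℂ) *
        (sgx C.Op (s4 C P v1 ε L n h M) (s40 C P n h M) x j.castSucc j κ *
          sgx C.Op (s4 C P v1 ε L n h M) (s40 C P n h M) x j.succ j κ))
      (ga := fun _ i x => C.ga2 v1 ε L i x)
      (ka := fun M j x => C.kL2 v1 lam t g L j (pt4 C P v1 ε L n M x))
      (w := fun i x => C.w2 v1 ε L i x) (e := C.e0 - δ)
      (fun i => by
        unfold Cfg.w2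
        by_cases hT : C.Tv L i
        · simp only [if_pos hT]
          exact integrable_inv_one_add_sq
        · simp only [if_neg hT]
          exact (gam_ctr (hC.th0 i i.2) (hC.th1 i i.2) (hE.v0 i i.2) (hE.vh i i.2)
            hε).int.norm)
      (fun i x => w2_nn ε L i x)
      ⟨Kg, hKg, pg, by
        filter_upwards [eventually_ge_atTop 1] with M hM i x
        exact hg M hM i x⟩
      ⟨Kk + Kl, by linarith, pk + pl, by
        filter_upwards [hk, hl, eventually_ge_atTop 1] with M hMk hMl hM1 j x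
        have hMr : (1 : ℝ) ≤ M := by exact_mod_cast hM1
        by_cases hj : j ∈ L
        · have e1 : C.kL2 v1 lam t g L j (pt4 C P v1 ε L n M x) =
              -(C.e2 (pt4 C P v1 ε L n M x) j.castSucc +
                C.e2 (pt4 C P v1 ε L n M x) j.succ) := by
            unfold Cfg.kL2; rw [if_pos hj]
          rw [e1]
          exact (hMl ε L j hj x).trans (low_pow_le hMr hKl (by linarith) (by omega))
        · rw [K4_high hj]
          exact (hMk L j hj x).trans (low_pow_le hMr hKk (by linarith) (by omega))⟩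
      (by
        filter_upwards [eventually_ge_atTop (5 * n)] with M hM3 x
        refine Cfg.kL2_sum hC hE H hδ0.le hδ hL' (pt4 C P v1 ε L n M x) ?_
          (fun i => C.ga2 v1 ε L i (x i)) ?_
        · intro i hT
          unfold pt4
          rw [dif_pos hT.1, if_pos hT]
          exact vT4_mem hn (kX_pos (P := P i) hn hM3) _
        · intro i
          constructor
          · intro hT
            unfold Cfg.ga2
            rw [if_pos hT]
          · intro hT
            unfold Cfg.ga2 pt4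
            rw [if_neg hT, dif_pos i.2, if_neg hT])
    refine ⟨K, hK0, p, ?_⟩
    filter_upwards [hb, eventually_ge_atTop (5 * n)] with M hM hM5
    rw [JS4_eq2 hn hh hh' hC hs hr hE hinc hP hε L hM5]
    exact hM
  obtain ⟨K, hK0, p, h1⟩ := low_sum _ key
  refine ⟨K, hK0, p, ?_⟩
  filter_upwards [h1, eventually_ge_atTop (5 * n)] with M hM hM5
  rw [JG4_sub P C.r hn hM5]
  exact hM

end Pool.Agent.S4
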