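import Pool.Agent.S4.G.Defs
import Pool.Agent.S3.Amp

/-!
# The amplitude
-/

set_option autoImplicit false

namespace Pool.Agent.S4

open Pool.Agent.H63.VC hiding ext
open Pool.Agent.H63.VC3 Pool.Agent.H63.VC7 Pool.Agent.H25.RK Pool.Agent.S3 Pool.Agent.H63.GO
open Complex Filter Topology MeasureTheory
open scoped BigOperators Interval

variable {m : ℕ} {C : Cfg m} {K : Fin m → ℕ → Sl → Sl → ℂ} {F : Fin m → ℕ → Sl → Sl → ℂ → ℂ}
  {g : Fin (m + 1) → ℕ → ℂ → ℂ} {eg : Fin (m + 1) → ℝ} {ef : Fin m → ℝ}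

/-- The exponent. -/
noncomputable def eH (C : Cfg m) (eg : Fin (m + 1) → ℝ) (ef : Fin m → ℝ) : ℝ :=
  ∑ i ∈ C.Op, eg i + ∑ j, (1 + ef j)

private theorem pic_ne {u : ℂ} (h : |u.im| < Real.pi / 2) : (Real.pi * cosh u : ℂ) ≠ 0 :=
  mul_ne_zero (by exact_mod_cast Real.pi_ne_zero) (cosh_ne h)

private theorem uc_abs (hC : C.Crit) (i : C.Op) : |(C.uc i).im| < Real.pi / 2 := by
  rw [Cfg.uc_im, abs_lt]
  exact ⟨by linarith [Real.pi_pos, hC.th0 i i.2], hC.th1 i i.2⟩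

/-- The local limit of the integrand. -/
private theorem PhF_lim (H : ChH C K F g eg ef) (hC : C.Crit) : ∃ A : ℂ, A ≠ 0 ∧
    Tendsto (fun p : ℕ × (C.Op ⊕ Fin m → ℂ) => PhF C F g p.1 p.2 * exp (-(p.1 * C.V p.2)) /
      (((p.1 : ℝ) ^ eH C eg ef : ℝ) : ℂ)) (atTop ×ˢ 𝓝 (cp C.ac C.bc)) (𝓝 A) := by
  have hg := fun i : C.Op => H.gl i i.2
  choose A hA0 hA using hg
  choose B hB0 hB using H.fl
  set l : Filter (ℕ × (C.Op ⊕ Fin m → ℂ)) := atTop ×ˢ 𝓝 (cp C.ac C.bc) with hldef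
  have hM : Tendsto (fun p : ℕ × (C.Op ⊕ Fin m → ℂ) => p.1) l atTop := tendsto_fst
  have hl : Tendsto (fun p : ℕ × (C.Op ⊕ Fin m → ℂ) => p.2) l (𝓝 (cp C.ac C.bc)) := tendsto_snd
  refine ⟨(∏ i : C.Op, (A i * (1 / (Real.pi * cosh (C.uc i))))) * ∏ j, B j, ?_, ?_⟩
  · exact mul_ne_zero (Finset.prod_ne_zero_iff.mpr fun i _ => mul_ne_zero (hA0 i)
      (one_div_ne_zero (pic_ne (uc_abs hC i)))) (Finset.prod_ne_zero_iff.mpr fun j _ => hB0 j)
  have h1 : ∀ i : C.Op, Tendsto (fun p : ℕ × (C.Op ⊕ Fin m → ℂ) =>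
      (g i p.1 (gdv (p.2 (Sum.inl i))) * exp (-(p.1 * wr (C.r i) (gdv (p.2 (Sum.inl i))))) /
        (((p.1 : ℝ) ^ eg i : ℝ) : ℂ)) * (1 / (Real.pi * cosh (p.2 (Sum.inl i))))) l
      (𝓝 (A i * (1 / (Real.pi * cosh (C.uc i))))) := by
    intro i
    have hu : Tendsto (fun p : ℕ × (C.Op ⊕ Fin m → ℂ) => p.2 (Sum.inl i)) l (𝓝 (C.uc i)) := by
      have h2 := ((continuous_apply (Sum.inl i : C.Op ⊕ Fin m)).tendsto (cp C.ac C.bc)).comp hl
      have e : (cp C.ac C.bc) (Sum.inl i) = C.uc i := by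
        simp [cp, Cfg.ac, Cfg.bc, Cfg.uc, ul]
      rw [e] at h2
      exact h2
    have hv : Tendsto (fun p : ℕ × (C.Op ⊕ Fin m → ℂ) => gdv (p.2 (Sum.inl i))) l (𝓝 (C.vc i)) :=
      ((gdv_hasDerivAt (uc_abs hC i)).continuousAt.tendsto).comp hu
    refine Tendsto.mul ((hA i).comp (hM.prodMk hv)) ?_
    have h3 : ContinuousAt (fun u : ℂ => 1 / ((Real.pi : ℂ) * cosh u)) (C.uc i) :=
      continuousAt_const.div (continuousAt_const.mul continuous_cosh.continuousAt)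
        (pic_ne (uc_abs hC i))
    exact h3.tendsto.comp hu
  have h3 := (tendsto_finsetProd Finset.univ fun i _ => h1 i).mul
    (tendsto_finsetProd Finset.univ fun j _ => hB j)
  refine h3.congr' ?_
  filter_upwards [(eventually_ge_atTop 1).prod_inl (𝓝 (cp C.ac C.bc))] with p hp
  have hM0 : (0 : ℝ) < p.1 := by exact_mod_cast hp
  have hMc : (p.1 : ℂ) ≠ 0 := by exact_mod_cast hM0.ne'
  have hex : (((p.1 : ℝ) ^ eH C eg ef : ℝ) : ℂ) =
      (∏ i : C.Op, (((p.1 : ℝ) ^ eg i : ℝ) : ℂ)) *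
        ∏ j : Fin m, ((p.1 : ℂ) * (((p.1 : ℝ) ^ ef j : ℝ) : ℂ)) := by
    unfold eH
    rw [Real.rpow_add hM0, Real.rpow_sum_of_pos hM0, Real.rpow_sum_of_pos hM0, ofReal_mul,
      ofReal_prod, ofReal_prod, ← Finset.prod_coe_sort C.Op fun i => (((p.1 : ℝ) ^ eg i : ℝ) : ℂ)]
    congr 1
    refine Finset.prod_congr rfl fun j _ => ?_
    rw [Real.rpow_add hM0, Real.rpow_one]
    push_cast
    rfl
  rw [Cfg.exp_V, hex]
  unfold PhF
  simp only [Finset.prod_mul_distrib, Finset.prod_div_distrib]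
  have hP : (∏ _j : Fin m, (p.1 : ℂ)) ≠ 0 := Finset.prod_ne_zero_iff.mpr fun _ _ => hMc
  have hQ : (∏ j : Fin m, (((p.1 : ℝ) ^ ef j : ℝ) : ℂ)) ≠ 0 :=
    Finset.prod_ne_zero_iff.mpr fun _ _ => by exact_mod_cast (Real.rpow_pos_of_pos hM0 _).ne'
  have hR : (∏ i : C.Op, (((p.1 : ℝ) ^ eg i : ℝ) : ℂ)) ≠ 0 :=
    Finset.prod_ne_zero_iff.mpr fun _ _ => by exact_mod_cast (Real.rpow_pos_of_pos hM0 _).ne'
  field_simp

private theorem PhF_cont (H : ChH C K F g eg ef) : ∃ U : Set (C.Op ⊕ Fin m → ℂ), IsOpen U ∧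
    cp C.ac C.bc ∈ U ∧ ∀ᶠ M in atTop, ContinuousOn (PhF C F g M) (U ∩ C.U) := by
  choose U hU hz hc using H.fc
  refine ⟨⋂ j, U j, isOpen_iInter_of_finite hU, Set.mem_iInter.2 hz, ?_⟩
  have hg : ∀ᶠ M : ℕ in atTop, ∀ i : C.Op, ContinuousOn (g i M) {v | 0 < v.im} :=
    Filter.eventually_all.2 fun i => H.gc i i.2
  filter_upwards [hg, Filter.eventually_all.2 hc] with M hgM hcM
  intro z hz
  unfold PhF
  refine ContinuousWithinAt.mul ?_ ?_
  · refine tendsto_finsetProd Finset.univ fun i _ => ?_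
    have hi0 := (hz.2.1 i).1
    have hi1 := (hz.2.1 i).2
    have hab : |(z (Sum.inl i)).im| < Real.pi / 2 := abs_lt.mpr ⟨by linarith [Real.pi_pos], hi1⟩
    have hc : ContinuousAt (fun z : C.Op ⊕ Fin m → ℂ => z (Sum.inl i)) z :=
      (continuous_apply _).continuousAt
    have h2 : ContinuousAt (fun u : ℂ => g i M (gdv u) * (1 / ((Real.pi : ℂ) * cosh u)))
        (z (Sum.inl i)) := by
      refine ContinuousAt.mul ?_ ?_
      · have h3 : ContinuousAt (g i M) (gdv (z (Sum.inl i))) :=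
          (hgM i).continuousAt ((isOpen_lt continuous_const continuous_im).mem_nhds
            (gdv_im_pos hi0 hi1))
        exact ContinuousAt.comp (f := gdv) (g := g i M) h3 (gdv_hasDerivAt hab).continuousAt
      · exact continuousAt_const.div (continuousAt_const.mul continuous_cosh.continuousAt)
          (pic_ne hab)
    exact (ContinuousAt.comp (f := fun z : C.Op ⊕ Fin m → ℂ => z (Sum.inl i))
      (g := fun u : ℂ => g i M (gdv u) * (1 / ((Real.pi : ℂ) * cosh u))) h2 hc).continuousWithinAt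
  · refine tendsto_finsetProd Finset.univ fun j _ => ?_
    have h2 := (hcM j z (Set.mem_iInter.1 hz.1 j)).mono
      (fun w hw => (Set.mem_iInter.1 hw.1 j : w ∈ U j) : (⋂ j, U j) ∩ C.U ⊆ U j)
    exact ContinuousWithinAt.const_mul h2 _

theorem ChH.amp (H : ChH C K F g eg ef) (hC : C.Crit) :
    ALim C.V (PhF C F g) (eH C eg ef) (cp C.ac C.bc) ∧
    ∃ U' : Set (C.Op ⊕ Fin m → ℂ), IsOpen U' ∧ cp C.ac C.bc ∈ U' ∧ U' ⊆ C.U ∧
      (∀ᶠ M in atTop, ContinuousOn (PhF C F g M) U') ∧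
      ∃ D : ℝ, 0 < D ∧ ∀ᶠ M : ℕ in atTop, ∀ z ∈ U',
        ‖PhF C F g M z‖ ≤ D * (M : ℝ) ^ eH C eg ef * Real.exp (M * (C.V z).re) := by
  obtain ⟨A, hA, hlim⟩ := PhF_lim H hC
  obtain ⟨U, hU, hz, D, hD, hb⟩ := bound_of_prod hlim
  obtain ⟨U₂, hU₂, hz₂, hc⟩ := PhF_cont H
  refine ⟨ALim_of_prod hA hlim, U ∩ (U₂ ∩ C.U), hU.inter (hU₂.inter Cfg.U_open),
    ⟨hz, hz₂, Cfg.zc_mem hC⟩, fun z hz => hz.2.2, ?_, D, hD, ?_⟩
  · filter_upwards [hc] with M hM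
    exact hM.mono Set.inter_subset_right
  · filter_upwards [hb] with M hM z hz'
    exact hM z hz'.1

end Pool.Agent.S4
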