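import Pool.Agent.S4.G.Unif
import Pool.Agent.S4.G.Amp
import Pool.Agent.S3.JLim

/-!
# The asymptotics of the integral over a chain
-/

set_option autoImplicit false

namespace Pool.Agent.S4

open Pool.Agent.H63.VC hiding ext
open Pool.Agent.H63.VC3 Pool.Agent.H63.VC7 Pool.Agent.H25.RK Pool.Agent.S3 Pool.Agent.H63.GO
open Complex Filter Topology MeasureTheory
open scoped BigOperators Interval

variable {m : ℕ} {C : Cfg m} {K : Fin m → ℕ → Sl → Sl → ℂ} {F : Fin m → ℕ → Sl → Sl → ℂ → ℂ}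
  {g : Fin (m + 1) → ℕ → ℂ → ℂ} {eg : Fin (m + 1) → ℝ} {ef : Fin m → ℝ}

private theorem slx_c {Op : Finset (Fin (m + 1))} (s : Fin (m + 1) → ℤ) {γ : Fin (m + 1) → ℝ → ℂ}
    (hγ : ∀ i ∈ Op, Continuous (γ i)) (i : Fin (m + 1)) :
    SlC fun x : Op → ℝ => slx Op s γ x i := by
  unfold slx
  by_cases h : i ∈ Op
  · simp only [dif_pos h]
    exact SlC.op ((hγ i h).comp (continuous_apply _))
  · simp only [dif_neg h]
    exact SlC.cl _

private theorem comb {ι X : Type} [Fintype ι] {a b : ℕ → ι → X → ℝ} (hb : ∀ M i x, 0 ≤ b M i x)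
    (h : ∀ i, ∃ D : ℝ, 0 < D ∧ ∃ p : ℕ, ∀ᶠ M : ℕ in atTop, ∀ x,
      a M i x ≤ D * (M : ℝ) ^ p * b M i x) :
    ∃ D : ℝ, 0 < D ∧ ∃ p : ℕ, ∀ᶠ M : ℕ in atTop, ∀ i x,
      a M i x ≤ D * (M : ℝ) ^ p * b M i x := by
  choose D hD p hp using h
  have hD0 : 0 ≤ ∑ i, D i := Finset.sum_nonneg fun i _ => (hD i).le
  refine ⟨∑ i, D i + 1, by linarith, ∑ i, p i, ?_⟩
  filter_upwards [eventually_all.mpr hp, eventually_ge_atTop 1] with M hM hM1 i x
  have hM0 : (1 : ℝ) ≤ M := by exact_mod_cast hM1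
  refine (hM i x).trans (mul_le_mul_of_nonneg_right ?_ (hb M i x))
  have h1 : D i ≤ ∑ i, D i + 1 := by
    have := Finset.single_le_sum (f := D) (fun i _ => (hD i).le) (Finset.mem_univ i)
    linarith
  have h2 : p i ≤ ∑ i, p i := Finset.single_le_sum (f := p) (fun i _ => Nat.zero_le _)
    (Finset.mem_univ i)
  exact mul_le_mul h1 (pow_le_pow_right₀ hM0 h2) (by positivity) (by linarith)

private theorem mem_ic (hm : 1 ≤ m) (i : C.Op) : ∃ q, i ∈ C.ic q := by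
  rcases Nat.lt_or_ge (i : Fin (m + 1)).1 m with h | h
  · refine ⟨⟨(i : Fin (m + 1)).1, h⟩, ?_⟩
    unfold Cfg.ic
    simp only [Finset.mem_filter, Finset.mem_univ, true_and]
    left
    ext
    rfl
  · refine ⟨⟨(i : Fin (m + 1)).1 - 1, by have := (i : Fin (m + 1)).2; omega⟩, ?_⟩
    unfold Cfg.ic
    simp only [Finset.mem_filter, Finset.mem_univ, true_and]
    right
    ext
    simp only [Fin.val_succ]
    omega

/-- The data of the abstract assembly theorem. -/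
private theorem asmD (H : ChH C K F g eg ef) (hC : C.Crit)
    (hs : ∀ i, i ∉ C.Op → C.s i = 1 ∨ C.s i = -1)
    {v1 : Fin (m + 1) → ℝ} {lam : Fin m → Fin (m + 1) → ℝ} (hE : C.Edg v1 lam) : ∃ ε : ℝ, 0 < ε ∧
    Asm.AsmD C.ic (ggF C g v1 ε) (kkF C K v1 ε) (feF C F v1 ε) (C.ga v1 ε) (C.ka v1 lam ε)
      (fun i x => ‖C.gm' v1 ε i x‖) (fun i => C.xc i) (C.V (cp C.ac C.bc)).re := by
  obtain ⟨ε1, hε1, hfar⟩ := kkF_far H.kb hC hs hE
  obtain ⟨ε2, hε2, -, D2, hD2, p2, hbd⟩ := kkF_bd H.kb H.kl H.kf hC hs hE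
  set ε := min ε1 ε2 with hεd
  have hε : 0 < ε := lt_min hε1 hε2
  obtain ⟨hbl, hfar⟩ := hfar ε hε (min_le_left _ _)
  have hctr : ∀ i ∈ C.Op, Ctr (C.gm v1 ε i) (C.gm' v1 ε i) := fun i hi =>
    gam_ctr (hC.th0 i hi) (hC.th1 i hi) (hE.v0 i hi) (hE.vh i hi) hε
  refine ⟨ε, hε, ?_⟩
  set B : ℝ := ∑ i ∈ C.Op, |bl (C.θ i) 0| with hB
  have hBi : ∀ i ∈ C.Op, bl (C.θ i) 0 ≤ B := fun i hi =>
    (le_abs_self _).trans (Finset.single_le_sum (f := fun i => |bl (C.θ i) 0|)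
      (fun j _ => abs_nonneg _) hi)
  refine
    { g_meas := ?_, K_cont := ?_, w_int := fun i => (hctr i i.2).int.norm,
      w_nn := fun i x => norm_nonneg _, g_bd := ?_,
      K_bd := ⟨D2, hD2, p2, hbd.mono fun M h j x => h j ε x hε (min_le_right _ _)⟩,
      K_far := hfar, sum := fun x => JLim_sum hC hE ε x, cov := mem_ic hC.hm, K_loc := ?_ }
  · filter_upwards [eventually_all.2 fun i : C.Op => H.gc i i.2] with M hM i
    have hc : Continuous fun x => g i M (C.gm v1 ε i x) := by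
      rw [← continuousOn_univ]
      exact (hM i).comp (hctr i i.2).cont.continuousOn fun x _ => (hctr i i.2).pos x
    exact hc.aestronglyMeasurable.mul (hctr i i.2).int.aestronglyMeasurable
  · filter_upwards [eventually_all.2 H.kc] with M hM j
    exact hM j (C.Op → ℝ) _ _ (slx_c C.s (fun i hi => (hctr i hi).cont) _)
      (slx_c C.s (fun i hi => (hctr i hi).cont) _)
  · have h := comb (ι := C.Op) (X := ℝ) (a := fun M i x => ‖ggF C g v1 ε M i x‖)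
      (b := fun M i x => Real.exp (M * C.ga v1 ε i x) * ‖C.gm' v1 ε i x‖)
      (fun M i x => by positivity) (fun i => by
        obtain ⟨D, hD, p, hev⟩ := H.gb i i.2 (2 * ε) B (by positivity)
        refine ⟨D, hD, p, ?_⟩
        filter_upwards [hev] with M hM x
        have him := gam_im (hC.th0 i i.2) (hC.th1 i i.2) (hE.v0 i i.2) (hE.vh i i.2) hε
          (hbl i i.2) x
        have hre := gam_re (hC.th0 i i.2) (hC.th1 i i.2) (hE.v0 i i.2) (hE.vh i i.2) hε x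
        have h := hM (C.gm v1 ε i x) him.1 hre
          (slope_of_height hε him.2.2 him.1.le) (him.2.1.trans (hBi i i.2))
        show ‖g i M (C.gm v1 ε i x) * C.gm' v1 ε i x‖ ≤ _
        rw [norm_mul, ← mul_assoc]
        exact mul_le_mul_of_nonneg_right h (norm_nonneg _))
    obtain ⟨D, hD, p, hev⟩ := h
    refine ⟨D, hD, p, ?_⟩
    filter_upwards [hev] with M hM i x
    have h := hM i x
    rw [← mul_assoc] at h
    exact h
  · obtain ⟨r1, hr1, hloc⟩ := kkF_loc H.kl H.kf hC hs hE hε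
    refine ⟨r1, hr1, fun r hr0 hr1' => ?_⟩
    obtain ⟨ρ, hρ, δ, hδ, K, hK1, p, hev⟩ := hloc r hr0 hr1'
    refine ⟨ρ, hρ, δ, hδ, K, hK1, p, ?_⟩
    filter_upwards [hev] with M hM j x hx
    exact hM j x hx

private theorem PhF_eq {v1 : Fin (m + 1) → ℝ} {ε : ℝ} {a : C.Op ⊕ Fin m → ℝ}
    (ha : ∀ i : C.Op, |a (Sum.inl i)| ≤ xl (C.θ i) (v1 i)) (M : ℕ) :
    PhF C F g M (cp a C.bc) = (∏ i, ggF C g v1 ε M i (a (Sum.inl i))) *
      ∏ j, feF C F v1 ε M j (fun i => a (Sum.inl i)) (a (Sum.inr j)) := by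
  unfold PhF
  congr 1
  · refine Finset.prod_congr rfl fun i _ => ?_
    rw [JLim_cp_inl]
    unfold ggF
    obtain ⟨h1, h2⟩ := JLim_gm_line (C := C) (v1 := v1) ε (ha i)
    rw [h1, h2]
  · refine Finset.prod_congr rfl fun j _ => ?_
    unfold feF
    rw [JLim_slz (ε := ε) ha, JLim_slz (ε := ε) ha, JLim_Yz]

theorem ChH.lim (H : ChH C K F g eg ef) (hC : C.Crit)
    (hs : ∀ i, i ∉ C.Op → C.s i = 1 ∨ C.s i = -1)
    {v1 : Fin (m + 1) → ℝ} {lam : Fin m → Fin (m + 1) → ℝ} (hE : C.Edg v1 lam) :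
    ∃ ε : ℝ, 0 < ε ∧ ∃ c : ℂ, c ≠ 0 ∧
    Tendsto (fun M : ℕ => (∫ x : C.Op → ℝ, Asm.gK (ggF C g v1 ε) (kkF C K v1 ε) M x) /
      ((((M : ℝ) ^ (eH C eg ef - ((C.Op.card : ℝ) + m) / 2) : ℝ) : ℂ) *
        exp (M * C.V (cp C.ac C.bc)))) atTop (𝓝 c) := by
  obtain ⟨ε, hε, hD⟩ := asmD H hC hs hE
  obtain ⟨hlim, U', hU'o, hzU', hU'U, hcont, hbd⟩ := H.amp hC
  have hac : cp (Sum.elim (fun i : C.Op => C.xc i) (fun _ => 0)) C.bc = cp C.ac C.bc := rfl
  set U : Set (C.Op ⊕ Fin m → ℂ) :=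
    U' ∩ {z | ∀ i : C.Op, |(z (Sum.inl i)).re| < xl (C.θ i) (v1 i)} with hU
  have hUo : IsOpen U := by
    refine hU'o.inter ?_
    have : {z : C.Op ⊕ Fin m → ℂ | ∀ i : C.Op, |(z (Sum.inl i)).re| < xl (C.θ i) (v1 i)} =
        ⋂ i : C.Op, {z | |(z (Sum.inl i)).re| < xl (C.θ i) (v1 i)} := by
      ext z; simp
    rw [this]
    refine isOpen_iInter_of_finite fun i => ?_
    exact isOpen_lt (by fun_prop) continuous_const
  have hzU : cp C.ac C.bc ∈ U := by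
    refine ⟨hzU', fun i => ?_⟩
    have : (cp C.ac C.bc (Sum.inl i)).re = C.xc i := by
      simp [cp, Cfg.ac]
    rw [this]
    exact JLim_xc hC hE i.2
  have hV : AnalyticOnNhd ℂ C.V U := fun z hz => C.V_an z (hU'U hz.1)
  obtain ⟨κ, hκ, hκlim⟩ := Asm.asm hD hUo hV C.bc (by rw [hac]; exact hzU)
    (by rw [hac]; exact fun ξ => Cfg.V_grad hC _) (by rw [hac]; exact Cfg.V_neg hC) (by rw [hac])
    (PhF C F g) (eH C eg ef)
    (hcont.mono fun M hM => hM.mono Set.inter_subset_left)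
    (by
      obtain ⟨K, hK, h⟩ := hbd
      exact ⟨K, hK, h.mono fun M hM z hz => hM z hz.1⟩)
    (by rw [hac]; exact hlim)
    (by
      filter_upwards with M a ha
      refine PhF_eq (fun i => ?_) M
      have h1 := ha.2 i
      have h2 : (cp a C.bc (Sum.inl i)).re = a (Sum.inl i) := by
        simp [cp]
      rw [h2] at h1
      exact h1.le)
  rw [hac] at hκlim
  refine ⟨ε, hε, κ, hκ, hκlim.congr' ?_⟩
  filter_upwards [eventually_gt_atTop 0] with M hM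
  have hMp : (0 : ℝ) < M := by exact_mod_cast hM
  have hcard : (Fintype.card (C.Op ⊕ Fin m) : ℝ) = C.Op.card + m := by
    rw [Fintype.card_sum, Fintype.card_coe, Fintype.card_fin]
    push_cast
    rfl
  have hpow : (((M : ℝ) ^ (eH C eg ef - ((C.Op.card : ℝ) + m) / 2) : ℝ) : ℂ) *
      (((M : ℝ) ^ ((Fintype.card (C.Op ⊕ Fin m) : ℝ) / 2) : ℝ) : ℂ) =
      (((M : ℝ) ^ eH C eg ef : ℝ) : ℂ) := by
    rw [← ofReal_mul, ← Real.rpow_add hMp, hcard]
    congr 2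
    ring
  have e1 : (((M : ℝ) ^ (eH C eg ef - ((C.Op.card : ℝ) + m) / 2) : ℝ) : ℂ) ≠ 0 := by
    exact_mod_cast (Real.rpow_pos_of_pos hMp _).ne'
  have e2 : (((M : ℝ) ^ eH C eg ef : ℝ) : ℂ) ≠ 0 := by
    exact_mod_cast (Real.rpow_pos_of_pos hMp _).ne'
  have e3 := exp_ne_zero (M * C.V (cp C.ac C.bc))
  rw [div_eq_div_iff (mul_ne_zero e2 e3) (mul_ne_zero e1 e3), ← hpow]
  ring

end Pool.Agent.S4
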