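import Pool.Agent.S4.G.Defs

/-!
# The sum over the upper half of the indices
-/

set_option autoImplicit false

namespace Pool.Agent.S4

open Pool.Agent.H63.VC hiding ext
open Pool.Agent.H63.VC3 Pool.Agent.H63.VC7 Pool.Agent.H25.RK Pool.Agent.S3 Pool.Agent.H63.GO
open Complex Filter Topology MeasureTheory
open scoped BigOperators Interval

variable {F : ℕ → Sl → Sl → ℂ → ℂ}

/-- The terms on the vertical sides. -/
private theorem KF.vert (hF : KF F) {B : ℝ} (hB : 0 ≤ B) : ∃ C : ℝ, 0 < C ∧ ∃ p : ℕ,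
    ∀ᶠ M : ℕ in atTop, ∀ (σ τ : Sl),
    σ.ok → τ.ok → σ.ht ≤ B → τ.ht ≤ B → ∀ x η : ℝ, |η| ≤ B + 1 + Real.log M →
    ((0 ≤ x ∧ x ≤ 1 / (2 * M)) ∨ (1 / 2 - 1 / (2 * M) ≤ x ∧ x ≤ 1 / 2)) →
    ‖F M σ τ ((x : ℂ) + η * I)‖ ≤ C * M ^ p * Real.exp (M * (Real.pi * (σ.ht + τ.ht))) *
      Real.exp (2 * Real.pi * (M * |η|)) := by
  obtain ⟨C1, hC1, p1, h1⟩ := hF.bound B
  obtain ⟨C2, hC2, h2⟩ := se_shift
  set K : ℝ := C1 * (B + 1) + 4 * C2 * (B + 1) with hK
  have hK0 : 0 ≤ K := by positivity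
  refine ⟨C1 * Real.exp K, by positivity, p1 + ⌈K⌉₊, ?_⟩
  filter_upwards [h1, eventually_ge_atTop 1] with M h1 hM σ τ hσ hτ hσB hτB x η hη hx
  have hM0 : (0 : ℝ) < M := by exact_mod_cast hM
  have hM1 : (1 : ℝ) ≤ M := by exact_mod_cast hM
  have hlM : 0 ≤ Real.log M := Real.log_natCast_nonneg M
  have hpi := Real.pi_pos
  have hη0 := abs_nonneg η
  have hd0 : 0 < 1 / (2 * (M : ℝ)) := by positivity
  have hd1 : 1 / (2 * (M : ℝ)) ≤ 1 / 2 := by
    rw [div_le_div_iff₀ (by positivity) (by norm_num)]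
    linarith
  have hx0 : 0 ≤ x := by
    rcases hx with h | h
    · exact h.1
    · linarith [h.1]
  have hx1 : x ≤ 1 / 2 := by
    rcases hx with h | h
    · linarith [h.2]
    · exact h.2
  have hslot : ∀ ρ : Sl, ρ.ok → ρ.ht ≤ B → M * se ((x : ℂ) + η * I) ρ ≤
      M * (Real.pi * (|η| + ρ.ht)) + C2 * ((2 * B + 2) * (1 + Real.log M)) := by
    intro ρ hρ hρB
    have hBl : 0 ≤ B * Real.log M := mul_nonneg hB hlM
    have hC : C2 * (1 + Real.log M + |η| + ρ.ht) ≤ C2 * ((2 * B + 2) * (1 + Real.log M)) := by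
      apply mul_le_mul_of_nonneg_left _ hC2.le
      nlinarith
    rcases hx with h | h
    · have A := h2 M hM ρ ((x : ℂ) + η * I) x hρ h.1 h.2
      rw [line_im, show (x : ℂ) + η * I - x = ((0 : ℝ) : ℂ) + η * I by push_cast; ring] at A
      have D := mul_le_mul_of_nonneg_left (se_left hρ η) hM0.le
      rw [abs_le] at A
      linarith [A.1]
    · have A := h2 M hM ρ (((1 / 2 : ℝ) : ℂ) + η * I) (1 / 2 - x) hρ (by linarith [h.2])
        (by linarith [h.1])
      rw [line_im, show ((1 / 2 : ℝ) : ℂ) + η * I - ((1 / 2 - x : ℝ) : ℂ) = (x : ℂ) + η * I by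
        push_cast; ring] at A
      have D := mul_le_mul_of_nonneg_left (se_right hρ η) hM0.le
      rw [abs_le] at A
      linarith [A.2]
  have hE : M * EE σ τ ((x : ℂ) + η * I) ≤ M * (Real.pi * (σ.ht + τ.ht)) +
      2 * Real.pi * (M * |η|) + 4 * C2 * (B + 1) * (1 + Real.log M) := by
    have A := hslot σ hσ hσB
    have D := hslot τ hτ hτB
    unfold EE
    nlinarith
  have hη1 : C1 * |η| ≤ C1 * (B + 1) * (1 + Real.log M) := by
    rw [mul_assoc]
    apply mul_le_mul_of_nonneg_left _ hC1.le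
    nlinarith [mul_nonneg hB hlM]
  have hF := h1 σ τ ((x : ℂ) + η * I) hσ hτ hσB hτB (by rw [line_re]; linarith)
    (by rw [line_re]; exact hx1)
  rw [line_im] at hF
  refine hF.trans ?_
  calc C1 * M ^ p1 * Real.exp (C1 * |η|) * Real.exp (M * EE σ τ ((x : ℂ) + η * I))
      ≤ C1 * M ^ p1 * Real.exp (C1 * (B + 1) * (1 + Real.log M)) *
        Real.exp (M * (Real.pi * (σ.ht + τ.ht)) +
          2 * Real.pi * (M * |η|) + 4 * C2 * (B + 1) * (1 + Real.log M)) := by
        gcongr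
    _ = C1 * M ^ p1 * Real.exp (K * (1 + Real.log M)) *
        (Real.exp (M * (Real.pi * (σ.ht + τ.ht))) * Real.exp (2 * Real.pi * (M * |η|))) := by
        rw [hK, add_mul, Real.exp_add, Real.exp_add, Real.exp_add]
        ring
    _ ≤ C1 * M ^ p1 * (Real.exp K * (M : ℝ) ^ ⌈K⌉₊) *
        (Real.exp (M * (Real.pi * (σ.ht + τ.ht))) * Real.exp (2 * Real.pi * (M * |η|))) := by
        gcongr
        exact exp_log_le hK0 hM
    _ = _ := by
        rw [pow_add]
        ring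

/-- The terms on the horizontal sides. -/
private theorem KF.top (hF : KF F) {B : ℝ} (hB : 0 ≤ B) : ∃ C : ℝ, 0 < C ∧ ∃ p : ℕ,
    ∀ᶠ M : ℕ in atTop, ∀ (σ τ : Sl),
    σ.ok → τ.ok → σ.ht ≤ B → τ.ht ≤ B → ∀ x η : ℝ, |η| = B + 1 + Real.log M →
    0 ≤ x → x ≤ 1 / 2 →
    ‖F M σ τ ((x : ℂ) + η * I)‖ ≤ C * M ^ p * Real.exp (M * (Real.pi * (σ.ht + τ.ht))) *
      Real.exp (2 * Real.pi * (M * |η|)) := by
  obtain ⟨C1, hC1, p1, h1⟩ := hF.bound B
  set K : ℝ := C1 * (B + 1) with hK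
  have hK0 : 0 ≤ K := by positivity
  refine ⟨C1 * Real.exp K * Real.exp 16, by positivity, p1 + ⌈K⌉₊, ?_⟩
  filter_upwards [h1, eventually_ge_atTop 1] with M h1 hM σ τ hσ hτ hσB hτB x η hη hx0 hx1
  have hM0 : (0 : ℝ) < M := by exact_mod_cast hM
  have hM1 : (1 : ℝ) ≤ M := by exact_mod_cast hM
  have hlM : 0 ≤ Real.log M := Real.log_natCast_nonneg M
  have hpi := Real.pi_gt_three
  have hη0 := abs_nonneg η
  have hd0 : 0 < 1 / (2 * (M : ℝ)) := by positivity
  have hd1 : 1 / (2 * (M : ℝ)) ≤ 1 / 2 := by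
    rw [div_le_div_iff₀ (by positivity) (by norm_num)]
    linarith
  have hslot : ∀ ρ : Sl, ρ.ok → ρ.ht ≤ B → M * se ((x : ℂ) + η * I) ρ ≤
      M * (Real.pi * (|η| + ρ.ht)) + 8 := by
    intro ρ hρ hρB
    have A := se_top hρ (η := η) hx0 hx1 (by rw [hη]; linarith)
    have hdec : Real.exp (-(2 * Real.pi * (|η| - ρ.ht))) ≤ 1 / M := by
      have e1 : Real.exp (-Real.log M) = 1 / M := by
        rw [Real.exp_neg, Real.exp_log hM0, one_div]
      rw [← e1]
      apply Real.exp_le_exp.2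
      rw [hη]
      nlinarith
    have D := mul_le_mul_of_nonneg_left A hM0.le
    have F := mul_le_mul_of_nonneg_left hdec hM0.le
    rw [show (M : ℝ) * (1 / M) = 1 by field_simp] at F
    nlinarith
  have hE : M * EE σ τ ((x : ℂ) + η * I) ≤ M * (Real.pi * (σ.ht + τ.ht)) +
      2 * Real.pi * (M * |η|) + 16 := by
    have A := hslot σ hσ hσB
    have D := hslot τ hτ hτB
    unfold EE
    nlinarith
  have hη1 : C1 * |η| ≤ C1 * (B + 1) * (1 + Real.log M) := by
    rw [mul_assoc]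
    apply mul_le_mul_of_nonneg_left _ hC1.le
    nlinarith [mul_nonneg hB hlM]
  have hF := h1 σ τ ((x : ℂ) + η * I) hσ hτ hσB hτB (by rw [line_re]; linarith)
    (by rw [line_re]; exact hx1)
  rw [line_im] at hF
  refine hF.trans ?_
  calc C1 * M ^ p1 * Real.exp (C1 * |η|) * Real.exp (M * EE σ τ ((x : ℂ) + η * I))
      ≤ C1 * M ^ p1 * Real.exp (C1 * (B + 1) * (1 + Real.log M)) *
        Real.exp (M * (Real.pi * (σ.ht + τ.ht)) +
          2 * Real.pi * (M * |η|) + 16) := by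
        gcongr
    _ = C1 * M ^ p1 * Real.exp (K * (1 + Real.log M)) *
        (Real.exp (M * (Real.pi * (σ.ht + τ.ht))) * Real.exp (2 * Real.pi * (M * |η|))) *
        Real.exp 16 := by
        rw [hK, Real.exp_add, Real.exp_add]
        ring
    _ ≤ C1 * M ^ p1 * (Real.exp K * (M : ℝ) ^ ⌈K⌉₊) *
        (Real.exp (M * (Real.pi * (σ.ht + τ.ht))) * Real.exp (2 * Real.pi * (M * |η|))) *
        Real.exp 16 := by
        gcongr
        exact exp_log_le hK0 hM
    _ = _ := by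
        rw [pow_add]
        ring

/-- The sum over the upper half of the indices. -/
theorem KF.upper (hF : KF F) {B : ℝ} (hB : 0 ≤ B) : ∃ C : ℝ, 0 < C ∧ ∃ p : ℕ,
    ∀ᶠ M : ℕ in atTop, ∀ (σ τ : Sl), σ.ok → τ.ok → σ.ht ≤ B → τ.ht ≤ B →
    ‖(∑ k ∈ Finset.Ico (M / 2) (M - 1), F M σ τ (yk 2 M k : ℝ)) -
      M * ∫ y in (yl M)..(1 / 2 - 1 / (2 * M)), F M σ τ (y : ℂ)‖ ≤
      C * (M : ℝ) ^ p * Real.exp (M * (Real.pi * (σ.ht + τ.ht))) := by
  obtain ⟨C1, hC1, p1, h1⟩ := hF.vert hB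
  obtain ⟨C2, hC2, p2, h2⟩ := hF.top hB
  refine ⟨10 * (C1 + C2) * (B + 3), by positivity, p1 + p2 + 2, ?_⟩
  filter_upwards [h1, h2, hF.diff, eventually_ge_atTop 3] with M h1 h2 hd hM σ τ hσ hτ hσB hτB
  have hM0 : (0 : ℝ) < M := by exact_mod_cast (by omega : 0 < M)
  have hMpos : 0 < M := by omega
  have hM1 : (1 : ℝ) ≤ M := by exact_mod_cast (by omega : 1 ≤ M)
  have hMc : (M : ℂ) ≠ 0 := by exact_mod_cast hM0.ne'
  have hlM : 0 ≤ Real.log M := Real.log_natCast_nonneg M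
  have hlM1 : Real.log M ≤ M := by
    have := Real.log_le_sub_one_of_pos hM0
    linarith
  have hpi := Real.pi_pos
  have hd0 : 0 < 1 / (2 * (M : ℝ)) := by positivity
  set L : ℝ := B + 1 + Real.log M with hL
  have hL0 : 0 < L := by positivity
  set Y : ℝ := M * L with hY
  have hY1 : 1 ≤ Y := by
    rw [hY]
    nlinarith
  set E : ℝ := Real.exp (M * (Real.pi * (σ.ht + τ.ht))) with hE
  have hE0 : 0 < E := Real.exp_pos _
  set S : ℝ := (C1 + C2) * M ^ (p1 + p2) * E with hS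
  have hS0 : 0 ≤ S := by positivity
  have hS1 : C1 * M ^ p1 * E ≤ S := by
    rw [hS]
    apply mul_le_mul_of_nonneg_right _ hE0.le
    exact mul_le_mul (by linarith) (pow_le_pow_right₀ hM1 (by omega)) (by positivity)
      (by positivity)
  have hS2 : C2 * M ^ p2 * E ≤ S := by
    rw [hS]
    apply mul_le_mul_of_nonneg_right _ hE0.le
    exact mul_le_mul (by linarith) (pow_le_pow_right₀ hM1 (by omega)) (by positivity)
      (by positivity)
  -- the function of the index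
  set f : ℂ → ℂ := fun z => F M σ τ ((z + 1) / M - 1 / 2) with hf
  have hfl : ∀ x y : ℝ, f ((x : ℂ) + y * I) =
      F M σ τ (((((x + 1) / M - 1 / 2 : ℝ)) : ℂ) + ((y / M : ℝ) : ℂ) * I) := by
    intro x y
    rw [hf]
    simp only
    congr 1
    push_cast
    field_simp
    ring
  have habs : ∀ y : ℝ, M * |y / M| = |y| := by
    intro y
    rw [abs_div, abs_of_pos hM0]
    field_simp
  set a : ℤ := ((M / 2 : ℕ) : ℤ) with ha
  set b : ℤ := ((M - 2 : ℕ) : ℤ) with hb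
  have haR : (a : ℝ) = ((M / 2 : ℕ) : ℝ) := by rw [ha]; push_cast; rfl
  have hbR : (b : ℝ) = (M : ℝ) - 2 := by
    rw [hb]
    push_cast [Nat.cast_sub (by omega : 2 ≤ M)]
    ring
  have hab : a ≤ b := by
    rw [ha, hb]
    exact_mod_cast (by omega : M / 2 ≤ M - 2)
  have ea : ((a : ℝ) - 1 / 2 + 1) / M - 1 / 2 = yl M := by
    rw [haR]
    unfold yl
    congr 2
    ring
  have eb : ((b : ℝ) + 1 / 2 + 1) / M - 1 / 2 = 1 / 2 - 1 / (2 * M) := by
    rw [hbR]
    field_simp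
    ring
  have hmono : ∀ x : ℝ, (a : ℝ) - 1 / 2 ≤ x → x ≤ (b : ℝ) + 1 / 2 →
      yl M ≤ (x + 1) / M - 1 / 2 ∧ (x + 1) / M - 1 / 2 ≤ 1 / 2 - 1 / (2 * M) := by
    intro x hx1 hx2
    rw [← ea, ← eb]
    constructor <;> gcongr
  have hyl0 := yl_nonneg hMpos
  have hyl1 := yl_le hMpos
  have key := Pool.Agent.H63.TW.sum_int f a b hab Y S hY1 ?_ ?_ ?_ ?_
  · -- conclusion
    have e1 : ∑ m ∈ Finset.Icc a b, f m =
        ∑ k ∈ Finset.Ico (M / 2) (M - 1), F M σ τ (yk 2 M k : ℝ) := by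
      symm
      refine Finset.sum_bij (fun k _ => (k : ℤ)) ?_ ?_ ?_ ?_
      · intro k hk
        rw [Finset.mem_Ico] at hk
        rw [Finset.mem_Icc, ha, hb]
        constructor
        · exact_mod_cast hk.1
        · exact_mod_cast (by omega : k ≤ M - 2)
      · intro k1 _ k2 _ h
        exact_mod_cast h
      · intro m hm
        rw [Finset.mem_Icc, ha, hb] at hm
        obtain ⟨k, rfl⟩ := Int.eq_ofNat_of_zero_le
          (show 0 ≤ m from le_trans (by positivity) hm.1)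
        refine ⟨k, ?_, rfl⟩
        rw [Finset.mem_Ico]
        have h3 : M / 2 ≤ k := by exact_mod_cast hm.1
        have h4 : k ≤ M - 2 := by exact_mod_cast hm.2
        omega
      · intro k _
        rw [hf]
        simp only
        congr 1
        rw [yk_two]
        push_cast
        ring
    have e2 : ∫ x in ((a : ℝ) - 1 / 2)..((b : ℝ) + 1 / 2), f x =
        M * ∫ y in (yl M)..(1 / 2 - 1 / (2 * M)), F M σ τ (y : ℂ) := by
      have h3 := intervalIntegral.integral_comp_div_add (a := (a : ℝ) - 1 / 2)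
        (b := (b : ℝ) + 1 / 2) (fun y : ℝ => F M σ τ (y : ℂ)) hM0.ne' (1 / M - 1 / 2)
      rw [show ((a : ℝ) - 1 / 2) / M + (1 / M - 1 / 2) = yl M by rw [← ea]; ring,
        show ((b : ℝ) + 1 / 2) / M + (1 / M - 1 / 2) = 1 / 2 - 1 / (2 * M) by
          rw [← eb]; ring] at h3
      rw [real_smul, ofReal_natCast] at h3
      rw [← h3]
      apply intervalIntegral.integral_congr
      intro x _
      rw [hf]
      simp only
      congr 1
      push_cast
      ring
    rw [e1, e2] at key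
    refine key.trans ?_
    have h5 : (b : ℝ) - a + 1 + Y ≤ (B + 3) * M ^ 2 := by
      rw [hbR, haR, hY, hL]
      have h6 : (0 : ℝ) ≤ ((M / 2 : ℕ) : ℝ) := Nat.cast_nonneg _
      have h7 : (M : ℝ) ≤ M ^ 2 := by nlinarith
      have h8 : (M : ℝ) * Real.log M ≤ M ^ 2 := by nlinarith
      nlinarith [mul_le_mul_of_nonneg_left h7 hB]
    calc 10 * ((b : ℝ) - a + 1 + Y) * S ≤ 10 * ((B + 3) * M ^ 2) * S := by gcongr
      _ = _ := by
        rw [hS]
        ring
  · -- differentiability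
    intro z hz1 hz2 _
    have h3 := hmono z.re hz1 hz2
    have e3 : ((z + 1) / M - 1 / 2 : ℂ).re = (z.re + 1) / M - 1 / 2 := by
      rw [sub_re, ← ofReal_natCast, div_ofReal_re]
      simp
    have d1 : DifferentiableAt ℂ (F M σ τ) ((z + 1) / M - 1 / 2) :=
      hd σ τ _ hσ hτ (by rw [e3]; linarith [h3.1])
        (by rw [e3]; linarith [h3.2])
    have d2 : DifferentiableAt ℂ (fun z : ℂ => (z + 1) / M - 1 / 2) z := by fun_prop
    exact DifferentiableAt.comp (f := fun z : ℂ => (z + 1) / M - 1 / 2) (g := F M σ τ) z d1 d2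
  · -- left
    intro y hy
    rw [hfl, ea]
    have h3 := h1 σ τ hσ hτ hσB hτB (yl M) (y / M)
      (by
        rw [abs_div, abs_of_pos hM0, div_le_iff₀ hM0]
        rw [hY] at hy
        linarith) (Or.inl ⟨hyl0, hyl1⟩)
    rw [habs] at h3
    exact h3.trans (mul_le_mul_of_nonneg_right hS1 (Real.exp_pos _).le)
  · -- right
    intro y hy
    rw [hfl, eb]
    have h3 := h1 σ τ hσ hτ hσB hτB (1 / 2 - 1 / (2 * M)) (y / M)
      (by
        rw [abs_div, abs_of_pos hM0, div_le_iff₀ hM0]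
        rw [hY] at hy
        linarith) (Or.inr ⟨le_rfl, by linarith⟩)
    rw [habs] at h3
    exact h3.trans (mul_le_mul_of_nonneg_right hS1 (Real.exp_pos _).le)
  · -- top and bottom
    intro x hx1 hx2
    have h3 := hmono x hx1 hx2
    have hYM : Y / M = L := by
      rw [hY]
      field_simp
    constructor
    · rw [hfl, hYM]
      have h4 := h2 σ τ hσ hτ hσB hτB ((x + 1) / M - 1 / 2) L
        (abs_of_pos hL0) (by linarith [h3.1]) (by linarith [h3.2])
      rw [abs_of_pos hL0, ← hY] at h4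
      exact h4.trans (mul_le_mul_of_nonneg_right hS2 (Real.exp_pos _).le)
    · rw [show (x : ℂ) - Y * I = (x : ℂ) + ((-Y : ℝ) : ℂ) * I by push_cast; ring, hfl,
        neg_div, hYM]
      have h4 := h2 σ τ hσ hτ hσB hτB ((x + 1) / M - 1 / 2) (-L)
        (by rw [abs_neg]; exact abs_of_pos hL0) (by linarith [h3.1]) (by linarith [h3.2])
      rw [abs_neg, abs_of_pos hL0, ← hY] at h4
      exact h4.trans (mul_le_mul_of_nonneg_right hS2 (Real.exp_pos _).le)

end Pool.Agent.S4
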