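import Pool.Agent.S4.G.Ks2

/-!
# Kernels and primitives
-/

set_option autoImplicit false

namespace Pool.Agent.S4

open Pool.Agent.H63.VC hiding ext
open Pool.Agent.H63.VC3 Pool.Agent.H63.VC7 Pool.Agent.H25.RK Pool.Agent.S3 Pool.Agent.H63.GO
open Complex Filter Topology MeasureTheory
open scoped BigOperators Interval

variable {F : ℕ → Sl → Sl → ℂ → ℂ}

/-- The strip in which the terms are holomorphic. -/
def strip5 (M : ℕ) : Set ℂ := {z | -1 / 5 < z.re ∧ z.re < 1 / 2 + 1 / (2 * M)}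

private theorem isOpen_strip5 (M : ℕ) : IsOpen (strip5 M) :=
  (isOpen_lt continuous_const continuous_re).inter (isOpen_lt continuous_re continuous_const)

private theorem convex_strip5 (M : ℕ) : Convex ℝ (strip5 M) := by
  have h1 : Convex ℝ {z : ℂ | -1 / 5 < z.re} := convex_halfSpace_re_gt _
  have h2 : Convex ℝ {z : ℂ | z.re < 1 / 2 + 1 / (2 * (M : ℝ))} := convex_halfSpace_re_lt _
  exact h1.inter h2

theorem KF.prim (hF : KF F) : ∀ᶠ M : ℕ in atTop, ∀ σ τ : Sl, σ.ok → τ.ok →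
    ∃ G : ℂ → ℂ, ∀ z ∈ strip5 M, HasDerivAt G (F M σ τ z) z := by
  filter_upwards [hF.diff] with M hd σ τ hσ hτ
  obtain ⟨g, hg⟩ := (convex_strip5 M).exists_forall_hasDerivWithinAt (f := F M σ τ)
    (fun z hz => (hd σ τ z hσ hτ hz.1 hz.2).differentiableWithinAt)
  exact ⟨g, fun z hz => (hg z hz).hasDerivAt ((isOpen_strip5 M).mem_nhds hz)⟩

/-- The integral along a horizontal segment. -/
private theorem line5 {M : ℕ} {f : ℂ → ℂ} (hf : ∀ z ∈ strip5 M, DifferentiableAt ℂ f z)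
    {G : ℂ → ℂ} (hG : ∀ z ∈ strip5 M, HasDerivAt G (f z) z) {c : ℂ} {a b : ℝ}
    (h : ∀ t ∈ Set.uIcc a b, c + (t : ℂ) ∈ strip5 M) :
    ∫ t in a..b, f (c + t) = G (c + b) - G (c + a) := by
  have hd : ∀ t ∈ Set.uIcc a b, HasDerivAt (fun t : ℝ => G (c + t)) (f (c + t)) t := by
    intro t ht
    have h1 := hG _ (h t ht)
    have h2 : HasDerivAt (fun t : ℝ => c + (t : ℂ)) 1 t := by
      simpa using (Complex.ofRealCLM.hasDerivAt (x := t)).const_add c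
    have h3 := HasDerivAt.comp (𝕜 := ℝ) (𝕜' := ℂ) t h1 h2
    rwa [mul_one] at h3
  apply intervalIntegral.integral_eq_sub_of_hasDerivAt hd
  apply ContinuousOn.intervalIntegrable
  intro t ht
  have h1 := (hf _ (h t ht)).continuousAt
  have h2 : ContinuousAt (fun t : ℝ => c + (t : ℂ)) t := by fun_prop
  exact (ContinuousAt.comp (f := fun t : ℝ => c + (t : ℂ)) (g := f) h1 h2).continuousWithinAt

/-- The terms near the two ends. -/
private theorem KF.ends (hF : KF F) {B : ℝ} (hB : 0 ≤ B) : ∃ C : ℝ, 0 < C ∧ ∃ p : ℕ,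
    ∀ᶠ M : ℕ in atTop, ∀ (σ τ : Sl), σ.ok → τ.ok → σ.ht ≤ B → τ.ht ≤ B → ∀ x : ℝ,
    ((0 ≤ x ∧ x ≤ 1 / (2 * M)) ∨ (1 / 2 - 1 / (2 * M) ≤ x ∧ x ≤ 1 / 2)) →
    ‖F M σ τ (x : ℂ)‖ ≤ C * (M : ℝ) ^ p * Real.exp (M * (Real.pi * (σ.ht + τ.ht))) := by
  obtain ⟨C1, hC1, p1, h1⟩ := hF.bound B
  obtain ⟨C2, hC2, h2⟩ := se_shift
  set K : ℝ := 4 * C2 * (B + 1) with hK
  have hK0 : 0 ≤ K := by positivity
  refine ⟨C1 * Real.exp K, by positivity, p1 + ⌈K⌉₊, ?_⟩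
  filter_upwards [h1, eventually_ge_atTop 1] with M h1M hM σ τ hσ hτ hσB hτB x hx
  have hM0 : (0 : ℝ) < M := by exact_mod_cast hM
  have hM1 : (1 : ℝ) ≤ M := by exact_mod_cast hM
  have hlM : 0 ≤ Real.log M := Real.log_natCast_nonneg M
  have hd0 : 0 < 1 / (2 * (M : ℝ)) := by positivity
  have hd1 : 1 / (2 * (M : ℝ)) ≤ 1 / 2 := by
    rw [div_le_div_iff₀ (by positivity) (by norm_num)]
    linarith
  have hx0 : 0 ≤ x := by
    rcases hx with h | h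
    · exact h.1
    · linarith [h.1]
  have hx1 : x ≤ 1 / 2 := by
    rcases hx with h | h
    · linarith [h.2]
    · exact h.2
  have hslot0 : ∀ ρ : Sl, ρ.ok → ρ.ht ≤ B → ∀ η : ℝ, |η| ≤ 0 → M * se ((x : ℂ) + η * I) ρ ≤
      M * (Real.pi * (|η| + ρ.ht)) + C2 * ((2 * B + 2) * (1 + Real.log M)) := by
    intro ρ hρ hρB η hη
    have hBl : 0 ≤ B * Real.log M := mul_nonneg hB hlM
    have hC : C2 * (1 + Real.log M + |η| + ρ.ht) ≤ C2 * ((2 * B + 2) * (1 + Real.log M)) := by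
      apply mul_le_mul_of_nonneg_left _ hC2.le
      nlinarith
    rcases hx with h | h
    · have A := h2 M hM ρ ((x : ℂ) + η * I) x hρ h.1 h.2
      rw [line_im, show (x : ℂ) + η * I - x = ((0 : ℝ) : ℂ) + η * I by push_cast; ring] at A
      have D := mul_le_mul_of_nonneg_left (se_left hρ η) hM0.le
      rw [abs_le] at A
      linarith [A.1]
    · have A := h2 M hM ρ (((1 / 2 : ℝ) : ℂ) + η * I) (1 / 2 - x) hρ (by linarith [h.2])
        (by linarith [h.1])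
      rw [line_im, show ((1 / 2 : ℝ) : ℂ) + η * I - ((1 / 2 - x : ℝ) : ℂ) = (x : ℂ) + η * I by
        push_cast; ring] at A
      have D := mul_le_mul_of_nonneg_left (se_right hρ η) hM0.le
      rw [abs_le] at A
      linarith [A.2]
  have hslot : ∀ ρ : Sl, ρ.ok → ρ.ht ≤ B → M * se (x : ℂ) ρ ≤
      M * (Real.pi * ρ.ht) + C2 * ((2 * B + 2) * (1 + Real.log M)) := by
    intro ρ hρ hρB
    have A := hslot0 ρ hρ hρB 0 (by rw [abs_zero])
    rw [abs_zero, zero_add, ofReal_zero, zero_mul, add_zero] at A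
    exact A
  have hE : M * EE σ τ (x : ℂ) ≤ M * (Real.pi * (σ.ht + τ.ht)) + K * (1 + Real.log M) := by
    have A := hslot σ hσ hσB
    have D := hslot τ hτ hτB
    unfold EE
    rw [hK]
    nlinarith
  have hFb := h1M σ τ (x : ℂ) hσ hτ hσB hτB (by rw [ofReal_re]; linarith)
    (by rw [ofReal_re]; exact hx1)
  rw [ofReal_im, abs_zero, mul_zero, Real.exp_zero, mul_one] at hFb
  refine hFb.trans ?_
  calc C1 * (M : ℝ) ^ p1 * Real.exp (M * EE σ τ (x : ℂ))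
      ≤ C1 * (M : ℝ) ^ p1 *
        Real.exp (M * (Real.pi * (σ.ht + τ.ht)) + K * (1 + Real.log M)) := by
        gcongr
    _ = C1 * (M : ℝ) ^ p1 * Real.exp (K * (1 + Real.log M)) *
        Real.exp (M * (Real.pi * (σ.ht + τ.ht))) := by
        rw [Real.exp_add]
        ring
    _ ≤ C1 * (M : ℝ) ^ p1 * (Real.exp K * (M : ℝ) ^ ⌈K⌉₊) *
        Real.exp (M * (Real.pi * (σ.ht + τ.ht))) := by
        gcongr
        exact exp_log_le hK0 hM
    _ = _ := by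
        rw [pow_add]
        ring

/-- The kernel is the difference of a primitive, up to the errors of the two ends. -/
theorem KF.KE_prim (hF : KF F) {B : ℝ} (hB : 0 ≤ B) : ∃ C : ℝ, 0 < C ∧ ∃ p : ℕ,
    ∀ᶠ M : ℕ in atTop, ∀ (σ τ : Sl), σ.ok → τ.ok → σ.ht ≤ B → τ.ht ≤ B →
    ∀ m : ℝ, Real.pi * (σ.ht + τ.ht) ≤ m →
    (∀ y : ℝ, -1 / 10 ≤ y → y ≤ 0 → EE σ τ y ≤ m) →
    ∀ G : ℂ → ℂ, (∀ z ∈ strip5 M, HasDerivAt G (F M σ τ z) z) →
    ‖KEF F M σ τ - M * (G (1 / 2) - G 0)‖ ≤ C * (M : ℝ) ^ p * Real.exp (M * m) := by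
  obtain ⟨C1, hC1, p1, h1⟩ := hF.bound B
  obtain ⟨C2, hC2, p2, h2⟩ := hF.ends hB
  obtain ⟨C3, hC3, p3, h3⟩ := hF.upper hB
  refine ⟨C1 + 2 * C2 + C3, by positivity, p1 + 1 + p2 + p3, ?_⟩
  filter_upwards [h1, h2, h3, hF.diff, eventually_ge_atTop 3] with
    M h1M h2M h3M hdM hM σ τ hσ hτ hσB hτB m hm1 hm2 G hG
  have hMpos : 0 < M := by omega
  have hM0 : (0 : ℝ) < M := by exact_mod_cast hMpos
  have hM1 : (1 : ℝ) ≤ M := by exact_mod_cast (by omega : 1 ≤ M)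
  have hM3 : (3 : ℝ) ≤ M := by exact_mod_cast hM
  have hlM : 0 ≤ Real.log M := Real.log_natCast_nonneg M
  have hd0 : 0 < 1 / (2 * (M : ℝ)) := by positivity
  have hd1 : 1 / (2 * (M : ℝ)) ≤ 1 / 6 := by
    rw [div_le_div_iff₀ (by positivity) (by norm_num)]
    linarith
  set X : ℝ := (M : ℝ) ^ (p1 + 1 + p2 + p3) * Real.exp (M * m) with hX
  have hX0 : 0 ≤ X := by positivity
  have hEm : Real.exp (M * (Real.pi * (σ.ht + τ.ht))) ≤ Real.exp (M * m) := by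
    apply Real.exp_le_exp.2
    exact mul_le_mul_of_nonneg_left hm1 hM0.le
  have hpw : ∀ q : ℕ, q ≤ p1 + 1 + p2 + p3 → (M : ℝ) ^ q * Real.exp (M * m) ≤ X := by
    intro q hq
    rw [hX]
    exact mul_le_mul_of_nonneg_right (pow_le_pow_right₀ hM1 hq) (Real.exp_pos _).le
  -- the terms near the ends
  have hend : ∀ x : ℝ, ((0 ≤ x ∧ x ≤ 1 / (2 * M)) ∨ (1 / 2 - 1 / (2 * M) ≤ x ∧ x ≤ 1 / 2)) →
      ‖F M σ τ (x : ℂ)‖ ≤ C2 * (M : ℝ) ^ p2 * Real.exp (M * m) := by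
    intro x hx
    refine (h2M σ τ hσ hτ hσB hτB x hx).trans ?_
    gcongr
  have hC2X : C2 * (M : ℝ) ^ p2 * Real.exp (M * m) ≤ C2 * X := by
    rw [mul_assoc]
    exact mul_le_mul_of_nonneg_left (hpw p2 (by omega)) hC2.le
  -- splitting
  have hk0 : k0 M ≤ M / 2 := by unfold k0; omega
  unfold KEF
  have hsplit : ∑ k ∈ Finset.Ico (k0 M) M, F M σ τ (yk 2 M k : ℝ) =
      ∑ k ∈ Finset.Ico (k0 M) (M / 2), F M σ τ (yk 2 M k : ℝ) +
      (∑ k ∈ Finset.Ico (M / 2) (M - 1), F M σ τ (yk 2 M k : ℝ) +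
        F M σ τ (yk 2 M (M - 1) : ℝ)) := by
    rw [← Finset.sum_Ico_succ_top (by omega), show M - 1 + 1 = M by omega,
      Finset.sum_Ico_consecutive _ hk0 (by omega)]
  -- the middle part
  have hmid : ‖∑ k ∈ Finset.Ico (k0 M) (M / 2), F M σ τ (yk 2 M k : ℝ)‖ ≤ C1 * X := by
    have hterm : ∀ k ∈ Finset.Ico (k0 M) (M / 2), ‖F M σ τ (yk 2 M k : ℝ)‖ ≤
        C1 * (M : ℝ) ^ p1 * Real.exp (M * m) := by
      intro k hk
      rw [Finset.mem_Ico] at hk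
      have hk1 : (2 * M : ℝ) ≤ 5 * (k + 1) := by
        have : 2 * M ≤ 5 * (k + 1) := by
          have := hk.1
          unfold k0 at this
          omega
        exact_mod_cast this
      have hk2 : (2 : ℝ) * (k + 1) ≤ M := by
        have : 2 * (k + 1) ≤ M := by omega
        exact_mod_cast this
      have hy0 : -1 / 10 ≤ yk 2 M k := by
        rw [yk_two]
        have : 2 / 5 ≤ ((k : ℝ) + 1) / M := by
          rw [div_le_div_iff₀ (by norm_num) hM0]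
          linarith
        linarith
      have hy1 : yk 2 M k ≤ 0 := by
        rw [yk_two]
        have : ((k : ℝ) + 1) / M ≤ 1 / 2 := by
          rw [div_le_div_iff₀ hM0 (by norm_num)]
          linarith
        linarith
      have h4 := h1M σ τ ((yk 2 M k : ℝ) : ℂ) hσ hτ hσB hτB (by rw [ofReal_re]; linarith)
        (by rw [ofReal_re]; linarith)
      rw [ofReal_im, abs_zero, mul_zero, Real.exp_zero, mul_one] at h4
      refine h4.trans ?_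
      have h5 := hm2 _ hy0 hy1
      gcongr
    refine (norm_sum_le_of_le _ hterm).trans ?_
    rw [Finset.sum_const, Nat.card_Ico, nsmul_eq_mul]
    have h6 : (((M / 2 - k0 M : ℕ)) : ℝ) ≤ M := by
      exact_mod_cast (by omega : M / 2 - k0 M ≤ M)
    calc ((M / 2 - k0 M : ℕ) : ℝ) * (C1 * (M : ℝ) ^ p1 * Real.exp (M * m))
        ≤ M * (C1 * (M : ℝ) ^ p1 * Real.exp (M * m)) := by gcongr
      _ = C1 * ((M : ℝ) ^ (p1 + 1) * Real.exp (M * m)) := by ring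
      _ ≤ C1 * X := mul_le_mul_of_nonneg_left (hpw _ (by omega)) hC1.le
  -- the last term
  have hlast : ‖F M σ τ (yk 2 M (M - 1) : ℝ)‖ ≤ C2 * X := by
    have e : yk 2 M (M - 1) = 1 / 2 := by
      rw [yk_two, Nat.cast_sub (by omega)]
      push_cast
      field_simp
      ring
    rw [e]
    exact (hend (1 / 2) (Or.inr ⟨by linarith, le_rfl⟩)).trans hC2X
  -- the upper part
  have hup := h3M σ τ hσ hτ hσB hτB
  have hup' : C3 * (M : ℝ) ^ p3 * Real.exp (M * (Real.pi * (σ.ht + τ.ht))) ≤ C3 * X := by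
    calc C3 * (M : ℝ) ^ p3 * Real.exp (M * (Real.pi * (σ.ht + τ.ht)))
        ≤ C3 * ((M : ℝ) ^ p3 * Real.exp (M * m)) := by
          rw [mul_assoc]
          gcongr
      _ ≤ C3 * X := mul_le_mul_of_nonneg_left (hpw _ (by omega)) hC3.le
  replace hup := hup.trans hup'
  -- the integral
  have hyl0 := yl_nonneg hMpos
  have hyl1 := yl_le hMpos
  have hstr : ∀ x : ℝ, 0 ≤ x → x ≤ 1 / 2 → (x : ℂ) ∈ strip5 M := by
    intro x hx0 hx1
    constructor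
    · rw [ofReal_re]
      linarith
    · rw [ofReal_re]
      linarith
  have hint : ∫ y in (yl M)..(1 / 2 - 1 / (2 * M)), F M σ τ (y : ℂ) =
      G ((1 / 2 - 1 / (2 * M) : ℝ) : ℂ) - G (yl M : ℂ) := by
    have h4 := line5 (fun z hz => hdM σ τ z hσ hτ hz.1 hz.2) hG (c := 0) (a := yl M)
      (b := 1 / 2 - 1 / (2 * M)) (by
        intro t ht
        rw [Set.uIcc_of_le (by linarith)] at ht
        rw [zero_add]
        exact hstr t (by linarith [ht.1]) (by linarith [ht.2]))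
    simp only [zero_add] at h4
    exact h4
  rw [hint] at hup
  have hseg : ∀ a b : ℝ, a ≤ b → b - a ≤ 1 / (2 * M) →
      (∀ x : ℝ, a ≤ x → x ≤ b →
        ((0 ≤ x ∧ x ≤ 1 / (2 * M)) ∨ (1 / 2 - 1 / (2 * M) ≤ x ∧ x ≤ 1 / 2))) →
      ‖(M : ℂ) * (G b - G a)‖ ≤ C2 * X / 2 := by
    intro a b hab hba hx
    have h4 := prim_seg (G := G) (g := F M σ τ) (a := (a : ℂ)) (b := (b : ℂ))
      (D := C2 * (M : ℝ) ^ p2 * Real.exp (M * m)) (by
        intro z hz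
        obtain ⟨x, rfl, hxa, hxb⟩ := mem_segment_real hab hz
        apply hG
        rcases hx x hxa hxb with h | h
        · exact hstr x h.1 (by linarith [h.2])
        · exact hstr x (by linarith [h.1]) h.2) (by
        intro z hz
        obtain ⟨x, rfl, hxa, hxb⟩ := mem_segment_real hab hz
        exact hend x (hx x hxa hxb))
    rw [← ofReal_sub, norm_real, Real.norm_eq_abs, abs_of_nonneg (by linarith)] at h4
    rw [norm_mul, norm_natCast]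
    have h5 : (M : ℝ) * (b - a) ≤ 1 / 2 := by
      have h6 := mul_le_mul_of_nonneg_left hba hM0.le
      rwa [show (M : ℝ) * (1 / (2 * M)) = 1 / 2 by field_simp] at h6
    have h7 : 0 ≤ C2 * (M : ℝ) ^ p2 * Real.exp (M * m) := by positivity
    calc (M : ℝ) * ‖G b - G a‖ ≤ M * (C2 * (M : ℝ) ^ p2 * Real.exp (M * m) * (b - a)) := by
          gcongr
      _ = (C2 * (M : ℝ) ^ p2 * Real.exp (M * m)) * (M * (b - a)) := by ring
      _ ≤ (C2 * (M : ℝ) ^ p2 * Real.exp (M * m)) * (1 / 2) := by gcongr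
      _ ≤ (C2 * X) * (1 / 2) := by gcongr
      _ = _ := by ring
  have s1 := hseg 0 (yl M) hyl0 (by linarith) (fun x hx0 hx1 => Or.inl ⟨hx0, by linarith⟩)
  have s2 := hseg (1 / 2 - 1 / (2 * M)) (1 / 2) (by linarith) (by linarith)
    (fun x hx0 hx1 => Or.inr ⟨hx0, hx1⟩)
  have e : (∑ k ∈ Finset.Ico (k0 M) M, F M σ τ (yk 2 M k : ℝ)) - M * (G (1 / 2) - G 0) =
      ∑ k ∈ Finset.Ico (k0 M) (M / 2), F M σ τ (yk 2 M k : ℝ) +
      (((∑ k ∈ Finset.Ico (M / 2) (M - 1), F M σ τ (yk 2 M k : ℝ)) -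
        M * (G ((1 / 2 - 1 / (2 * M) : ℝ) : ℂ) - G (yl M : ℂ))) +
      (F M σ τ (yk 2 M (M - 1) : ℝ) + (-(M * (G (yl M : ℂ) - G ((0 : ℝ) : ℂ))) +
        -(M * (G ((1 / 2 : ℝ) : ℂ) - G ((1 / 2 - 1 / (2 * M) : ℝ) : ℂ)))))) := by
    rw [hsplit, show ((1 / 2 : ℝ) : ℂ) = 1 / 2 by push_cast; rfl, ofReal_zero]
    ring
  rw [e]
  have s1' := (norm_neg ((M : ℂ) * (G (yl M : ℂ) - G ((0 : ℝ) : ℂ)))).trans_le s1
  have s2' := (norm_neg ((M : ℂ) * (G ((1 / 2 : ℝ) : ℂ) -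
    G ((1 / 2 - 1 / (2 * M) : ℝ) : ℂ)))).trans_le s2
  refine (norm_add_le_of_le hmid (norm_add_le_of_le hup (norm_add_le_of_le hlast
    (norm_add_le_of_le s1' s2')))).trans ?_
  rw [mul_assoc, ← hX]
  linarith

private theorem bxy_sub5 {H : ℝ} {M : ℕ} (hM : 0 < M) : bxy H ⊆ strip5 M := by
  intro z hz
  have hM0 : (0 : ℝ) < M := by exact_mod_cast hM
  have hd0 : 0 < 1 / (2 * (M : ℝ)) := by positivity
  constructor
  · linarith [hz.1]
  · linarith [hz.2.1]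

private theorem KF.poly (hF : KF F) (B : ℝ) {H : ℝ} (hH : 0 ≤ H) (n : ℕ) : ∃ C : ℝ, 0 < C ∧
    ∃ p : ℕ, ∀ᶠ M : ℕ in atTop, ∀ (σ τ : Sl), σ.ok → τ.ok → σ.ht ≤ B → τ.ht ≤ B →
    ∀ (m : ℝ) (a b : ℂ), Poly (low H σ τ m) n a b →
    ∀ G : ℂ → ℂ, (∀ z ∈ strip5 M, HasDerivAt G (F M σ τ z) z) →
    ‖(M : ℂ) * (G b - G a)‖ ≤ C * (M : ℝ) ^ p * Real.exp (M * m) := by
  obtain ⟨C1, hC1, p1, h1⟩ := hF.bound B
  refine ⟨(n + 1) * (C1 * Real.exp (C1 * H) * (1 / 2 + 2 * H)), by positivity, p1 + 1, ?_⟩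
  filter_upwards [h1, eventually_ge_atTop 3] with M h1M hM σ τ hσ hτ hσB hτB m a b hP G hG
  have hMpos : 0 < M := by omega
  have hM0 : (0 : ℝ) < M := by exact_mod_cast hMpos
  have hM3 : (3 : ℝ) ≤ M := by exact_mod_cast hM
  have hd0 : 0 < 1 / (2 * (M : ℝ)) := by positivity
  have hsub : low H σ τ m ⊆ bxy H := fun z hz => hz.1
  have hb := hP.bound (H := H) (D := C1 * (M : ℝ) ^ p1 * Real.exp (C1 * H) * Real.exp (M * m))
    hsub (by positivity) (fun z hz => hG z (bxy_sub5 hMpos (hsub hz))) (by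
      intro z hz
      have h3 := h1M σ τ z hσ hτ hσB hτB (by linarith [hz.1.1]) hz.1.2.1
      refine h3.trans ?_
      have h4 := hz.2
      have h5 := hz.1.2.2
      gcongr)
  rw [norm_mul, norm_natCast]
  calc (M : ℝ) * ‖G b - G a‖
      ≤ M * (n * (C1 * (M : ℝ) ^ p1 * Real.exp (C1 * H) * Real.exp (M * m) *
          (1 / 2 + 2 * H))) := by
        gcongr
    _ = n * (C1 * Real.exp (C1 * H) * (1 / 2 + 2 * H)) *
        ((M : ℝ) ^ (p1 + 1) * Real.exp (M * m)) := by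
        ring
    _ ≤ (n + 1) * (C1 * Real.exp (C1 * H) * (1 / 2 + 2 * H)) *
        ((M : ℝ) ^ (p1 + 1) * Real.exp (M * m)) := by
        gcongr
        linarith
    _ = _ := by ring

/-- The kernel is bounded by the growth on a polygon. -/
theorem KF.bd (hF : KF F) {B H : ℝ} (hB : 0 ≤ B) (hH : 0 ≤ H) (n : ℕ) : ∃ C : ℝ, 0 < C ∧
    ∃ p : ℕ, ∀ᶠ M : ℕ in atTop, ∀ (σ τ : Sl), σ.ok → τ.ok → σ.ht ≤ B → τ.ht ≤ B →
    ∀ m : ℝ, Real.pi * (σ.ht + τ.ht) ≤ m →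
    (∀ y : ℝ, -1 / 10 ≤ y → y ≤ 0 → EE σ τ y ≤ m) →
    Poly (low H σ τ m) n 0 (1 / 2) →
    ‖KEF F M σ τ‖ ≤ C * (M : ℝ) ^ p * Real.exp (M * m) := by
  obtain ⟨C1, hC1, p1, h1⟩ := hF.KE_prim hB
  obtain ⟨C2, hC2, p2, h2⟩ := hF.poly B hH n
  refine ⟨C1 + C2, by positivity, p1 + p2, ?_⟩
  filter_upwards [h1, h2, hF.prim, eventually_ge_atTop 1] with
    M h1M h2M hpM hM σ τ hσ hτ hσB hτB m hm1 hm2 hP
  have hM1 : (1 : ℝ) ≤ M := by exact_mod_cast hM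
  obtain ⟨G, hG⟩ := hpM σ τ hσ hτ
  have a1 := h1M σ τ hσ hτ hσB hτB m hm1 hm2 G hG
  have a2 := h2M σ τ hσ hτ hσB hτB m 0 (1 / 2) hP G hG
  have e : KEF F M σ τ = (KEF F M σ τ - M * (G (1 / 2) - G 0)) + M * (G (1 / 2) - G 0) := by ring
  rw [e]
  refine (norm_add_le_of_le a1 a2).trans ?_
  have b1 : (M : ℝ) ^ p1 ≤ (M : ℝ) ^ (p1 + p2) := pow_le_pow_right₀ hM1 (by omega)
  have b2 : (M : ℝ) ^ p2 ≤ (M : ℝ) ^ (p1 + p2) := pow_le_pow_right₀ hM1 (by omega)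
  calc C1 * (M : ℝ) ^ p1 * Real.exp (M * m) + C2 * (M : ℝ) ^ p2 * Real.exp (M * m)
      ≤ C1 * (M : ℝ) ^ (p1 + p2) * Real.exp (M * m) +
        C2 * (M : ℝ) ^ (p1 + p2) * Real.exp (M * m) := by
        gcongr
    _ = _ := by ring

/-- The kernel is the integral over a segment of a polygon, up to the bound on the rest. -/
theorem KF.piece (hF : KF F) {B H : ℝ} (hB : 0 ≤ B) (hH : 0 ≤ H) (n n' : ℕ) : ∃ C : ℝ, 0 < C ∧
    ∃ p : ℕ, ∀ᶠ M : ℕ in atTop, ∀ (σ τ : Sl), σ.ok → τ.ok → σ.ht ≤ B → τ.ht ≤ B →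
    ∀ m : ℝ, Real.pi * (σ.ht + τ.ht) ≤ m →
    (∀ y : ℝ, -1 / 10 ≤ y → y ≤ 0 → EE σ τ y ≤ m) →
    ∀ (yc : ℂ) (r : ℝ), 0 ≤ r → 0 ≤ yc.re - r → yc.re + r ≤ 1 / 2 →
    Poly (low H σ τ m) n 0 (yc - r) → Poly (low H σ τ m) n' (yc + r) (1 / 2) →
    ‖KEF F M σ τ - M * ∫ s in (-r)..r, F M σ τ (yc + s)‖ ≤
      C * (M : ℝ) ^ p * Real.exp (M * m) := by
  obtain ⟨C1, hC1, p1, h1⟩ := hF.KE_prim hB
  obtain ⟨C2, hC2, p2, h2⟩ := hF.poly B hH n
  obtain ⟨C3, hC3, p3, h3⟩ := hF.poly B hH n'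
  refine ⟨C1 + (C2 + C3), by positivity, p1 + p2 + p3, ?_⟩
  filter_upwards [h1, h2, h3, hF.prim, hF.diff, eventually_ge_atTop 1] with
    M h1M h2M h3M hpM hdM hM σ τ hσ hτ hσB hτB m hm1 hm2 yc r hr hr0 hr1 hP1 hP2
  have hM0 : (0 : ℝ) < M := by exact_mod_cast hM
  have hM1 : (1 : ℝ) ≤ M := by exact_mod_cast hM
  have hd0 : 0 < 1 / (2 * (M : ℝ)) := by positivity
  obtain ⟨G, hG⟩ := hpM σ τ hσ hτ
  have a1 := h1M σ τ hσ hτ hσB hτB m hm1 hm2 G hG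
  have a2 := h2M σ τ hσ hτ hσB hτB m _ _ hP1 G hG
  have a3 := h3M σ τ hσ hτ hσB hτB m _ _ hP2 G hG
  have hint := line5 (fun z hz => hdM σ τ z hσ hτ hz.1 hz.2) hG (c := yc) (a := -r) (b := r) (by
    intro t ht
    rw [Set.uIcc_of_le (by linarith)] at ht
    have e : (yc + (t : ℂ)).re = yc.re + t := by simp
    constructor
    · rw [e]
      linarith [ht.1]
    · rw [e]
      linarith [ht.2])
  rw [hint]
  have e : KEF F M σ τ - M * (G (yc + r) - G (yc + ((-r : ℝ) : ℂ))) =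
      (KEF F M σ τ - M * (G (1 / 2) - G 0)) + (M * (G (yc - r) - G 0) +
        M * (G (1 / 2) - G (yc + r))) := by
    rw [ofReal_neg, ← sub_eq_add_neg]
    ring
  rw [e]
  refine (norm_add_le_of_le a1 (norm_add_le_of_le a2 a3)).trans ?_
  have b1 : (M : ℝ) ^ p1 ≤ (M : ℝ) ^ (p1 + p2 + p3) := pow_le_pow_right₀ hM1 (by omega)
  have b2 : (M : ℝ) ^ p2 ≤ (M : ℝ) ^ (p1 + p2 + p3) := pow_le_pow_right₀ hM1 (by omega)
  have b3 : (M : ℝ) ^ p3 ≤ (M : ℝ) ^ (p1 + p2 + p3) := pow_le_pow_right₀ hM1 (by omega)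
  calc C1 * (M : ℝ) ^ p1 * Real.exp (M * m) + (C2 * (M : ℝ) ^ p2 * Real.exp (M * m) +
        C3 * (M : ℝ) ^ p3 * Real.exp (M * m))
      ≤ C1 * (M : ℝ) ^ (p1 + p2 + p3) * Real.exp (M * m) + (C2 * (M : ℝ) ^ (p1 + p2 + p3) *
        Real.exp (M * m) + C3 * (M : ℝ) ^ (p1 + p2 + p3) * Real.exp (M * m)) := by
        gcongr
    _ = _ := by ring

end Pool.Agent.S4
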