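import Pool.Agent.S4.G.Defs
import Pool.Agent.S4.G.UnifA

/-!
# The kernels on the contours: far from the critical point
-/

set_option autoImplicit false

namespace Pool.Agent.S4

open Pool.Agent.H63.VC hiding ext
open Pool.Agent.H63.VC3 Pool.Agent.H63.VC7 Pool.Agent.H25.RK Pool.Agent.S3 Pool.Agent.H63.GO
open Complex Filter Topology MeasureTheory
open scoped BigOperators Interval

section

variable {m : ℕ} {C : Cfg m} {K : Fin m → ℕ → Sl → Sl → ℂ}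

theorem U4_kk (v1 : Fin (m + 1) → ℝ) (ε : ℝ) (M : ℕ) (j : Fin m) (x : C.Op → ℝ) :
    kkF C K v1 ε M j x = K j M (C.sv j.castSucc (U4_pt C v1 ε x j.castSucc))
      (C.sv j.succ (U4_pt C v1 ε x j.succ)) := by
  unfold kkF
  rw [U4_slx, U4_slx]

/-- The bound of the kernel near a compact set of good pairs. -/
theorem U4_KE {K : ℕ → Sl → Sl → ℂ} (hK : KB K) (σ τ : ℂ → Sl)
    (hσ : (σ = fun v => .op v) ∨ ∃ s, σ = fun _ => .cl s)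
    (hτ : (τ = fun v => .op v) ∨ ∃ s, τ = fun _ => .cl s) (L : ℂ × ℂ → ℝ) (hL : Continuous L)
    (S : Set (ℂ × ℂ)) (hS : IsCompact S) (h : ∀ p ∈ S, EdgeOK (σ p.1) (τ p.2) (L p)) :
    ∃ η : ℝ, 0 < η ∧ ∃ δ : ℝ, 0 < δ ∧ ∃ D : ℝ, 0 < D ∧ ∃ p : ℕ, ∀ᶠ M : ℕ in atTop, ∀ q : ℂ × ℂ,
      (∃ q' ∈ S, dist q q' < η) → (σ q.1).ok → (τ q.2).ok → (σ q.1).nn → (τ q.2).nn →
      ‖K M (σ q.1) (τ q.2)‖ ≤ D * (M : ℝ) ^ p * Real.exp (M * (L q - δ)) := by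
  obtain ⟨N, η, hη, δ, hδ, hq⟩ := EdgeOK_compact σ τ hσ hτ L hL S hS h
  obtain ⟨R, hR⟩ := hS.isBounded.exists_norm_le
  obtain ⟨D, hD0, p, hb⟩ := hK N (R + η)
  refine ⟨η, hη, δ, hδ, D, hD0, p, ?_⟩
  filter_upwards [hb] with M hb q hd o1 o2 n1 n2
  obtain ⟨a1, a2, n, hn, t, ht, a3, a4⟩ := hq q hd
  have hqn : ‖q‖ ≤ R + η := by
    obtain ⟨q', hq', hd'⟩ := hd
    have h1 := hR q' hq'
    have h2 := norm_le_norm_add_norm_sub' q q'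
    rw [dist_eq_norm] at hd'
    linarith
  have q1 : q.1.im ≤ R + η := ((le_abs_self _).trans (abs_im_le_norm _)).trans
    ((norm_fst_le q).trans hqn)
  have q2 : q.2.im ≤ R + η := ((le_abs_self _).trans (abs_im_le_norm _)).trans
    ((norm_snd_le q).trans hqn)
  exact hb _ _ o1 o2 n1 n2 (U4_bd hσ q1) (U4_bd hτ q2) n hn t ht a3 _ a1 a2 a4

/-- The part (A): one of the parameters is at distance at least `r1`. -/
theorem U4_farA (hK : ∀ j, KB (K j)) (hC : C.Crit)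
    (hs : ∀ i, i ∉ C.Op → C.s i = 1 ∨ C.s i = -1)
    {v1 : Fin (m + 1) → ℝ} {lam : Fin m → Fin (m + 1) → ℝ}
    (hE : C.Edg v1 lam) (j : Fin m) {r1 : ℝ} (hr1 : 0 < r1) :
    ∃ ε0 : ℝ, 0 < ε0 ∧ ∃ δ : ℝ, 0 < δ ∧ ∃ D : ℝ, 0 < D ∧ ∃ p : ℕ,
      ∀ᶠ M : ℕ in atTop, ∀ ε : ℝ, 0 < ε → ε ≤ ε0 →
      (∀ i ∈ C.Op, ε ≤ bl (C.θ i) (v1 i)) → ∀ x : C.Op → ℝ,
      ((j.castSucc ∈ C.Op ∧ r1 ≤ |U4_x C x j.castSucc - C.xc j.castSucc|) ∨
        (j.succ ∈ C.Op ∧ r1 ≤ |U4_x C x j.succ - C.xc j.succ|)) →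
      ‖kkF C K v1 ε M j x‖ ≤ D * (M : ℝ) ^ p * Real.exp (M * (C.ka v1 lam ε j x - δ)) := by
  -- distance from the critical point
  have hρ : ∀ i : Fin (m + 1), ∃ ρ : ℝ, 0 < ρ ∧ ∃ ε0 : ℝ, 0 < ε0 ∧ ∀ ε, 0 < ε → ε ≤ ε0 →
      ∀ x : C.Op → ℝ, i ∈ C.Op → r1 ≤ |U4_x C x i - C.xc i| →
        ρ ≤ ‖U4_pt C v1 ε x i - C.vc i‖ := by
    intro i
    by_cases hi : i ∈ C.Op
    · obtain ⟨ρ, hρ, ε0, hε0, h⟩ := gam_away (hC.th0 i hi) (hC.th1 i hi) (hE.v0 i hi)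
        (hE.vh i hi) (U4_xl hC hE i hi) hr1
      refine ⟨ρ, hρ, ε0, hε0, fun ε h1 h2 x _ h3 => ?_⟩
      unfold U4_x at h3
      rw [dif_pos hi] at h3
      unfold U4_pt
      rw [dif_pos hi]
      exact h ε h1 h2 _ h3
    · exact ⟨1, one_pos, 1, one_pos, fun _ _ _ _ h => absurd h hi⟩
  obtain ⟨ρa, hρa, εa, hεa, ha⟩ := hρ j.castSucc
  obtain ⟨ρb, hρb, εb, hεb, hb⟩ := hρ j.succ
  set ρ := min ρa ρb with hρdef
  have hρ0 : 0 < ρ := lt_min hρa hρb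
  -- the compact set
  set S : Set (ℂ × ℂ) := (U4_G C v1 j.castSucc ×ˢ U4_G C v1 j.succ) ∩
    {p | (j.castSucc ∈ C.Op ∧ ρ / 2 ≤ ‖p.1 - C.vc j.castSucc‖) ∨
      (j.succ ∈ C.Op ∧ ρ / 2 ≤ ‖p.2 - C.vc j.succ‖)} with hS
  have hSc : IsCompact S := by
    apply ((U4_G_compact v1 _).prod (U4_G_compact v1 _)).inter_right
    have c1 : IsClosed {p : ℂ × ℂ | ρ / 2 ≤ ‖p.1 - C.vc j.castSucc‖} :=
      isClosed_le continuous_const (by fun_prop)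
    have c2 : IsClosed {p : ℂ × ℂ | ρ / 2 ≤ ‖p.2 - C.vc j.succ‖} :=
      isClosed_le continuous_const (by fun_prop)
    have c3 : IsClosed {p : ℂ × ℂ | j.castSucc ∈ C.Op ∧ ρ / 2 ≤ ‖p.1 - C.vc j.castSucc‖} := by
      by_cases h : j.castSucc ∈ C.Op
      · simpa only [h, true_and] using c1
      · simp only [h, false_and, Set.setOf_false]
        exact isClosed_empty
    have c4 : IsClosed {p : ℂ × ℂ | j.succ ∈ C.Op ∧ ρ / 2 ≤ ‖p.2 - C.vc j.succ‖} := by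
      by_cases h : j.succ ∈ C.Op
      · simpa only [h, true_and] using c2
      · simp only [h, false_and, Set.setOf_false]
        exact isClosed_empty
    exact c3.union c4
  have hok : ∀ p ∈ S, EdgeOK (C.sv j.castSucc p.1) (C.sv j.succ p.2) (C.Lw v1 lam j p.1 p.2) := by
    rintro ⟨v, w⟩ ⟨⟨h1, h2⟩, h3⟩
    refine hE.far j v w (fun h => h1.1 h) (fun h => h2.1 h) ?_
    rcases h3 with ⟨h, h4⟩ | ⟨h, h4⟩
    · left
      refine ⟨h, fun h5 => ?_⟩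
      simp only [h5, sub_self, norm_zero] at h4
      linarith
    · right
      refine ⟨h, fun h5 => ?_⟩
      simp only [h5, sub_self, norm_zero] at h4
      linarith
  obtain ⟨η, hη, δ, hδ, D, hD0, p, hb'⟩ := U4_KE (hK j) (C.sv j.castSucc) (C.sv j.succ)
    (U4_sv _) (U4_sv _) (fun p => C.Lw v1 lam j p.1 p.2) (Cfg.Lw_continuous v1 lam j) S hSc hok
  refine ⟨min (min εa εb) (min (η / 2) (ρ / 2)),
    lt_min (lt_min hεa hεb) (lt_min (by linarith) (by linarith)), δ, hδ, D, hD0, p, ?_⟩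
  filter_upwards [hb'] with M hb' ε hε hεle hbl x hx
  have l1 : ε ≤ εa := hεle.trans ((min_le_left _ _).trans (min_le_left _ _))
  have l2 : ε ≤ εb := hεle.trans ((min_le_left _ _).trans (min_le_right _ _))
  have l3 : ε ≤ η / 2 := hεle.trans ((min_le_right _ _).trans (min_le_left _ _))
  have l4 : ε ≤ ρ / 2 := hεle.trans ((min_le_right _ _).trans (min_le_right _ _))
  obtain ⟨v, hv, hvd⟩ := U4_pt_near hC hE hε x j.castSucc (fun h => hbl _ h)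
  obtain ⟨w, hw, hwd⟩ := U4_pt_near hC hE hε x j.succ (fun h => hbl _ h)
  rw [U4_kk, U4_ka]
  refine hb' (U4_pt C v1 ε x j.castSucc, U4_pt C v1 ε x j.succ) ⟨(v, w), ?_, ?_⟩
    (U4_ok hs fun h => U4_pt_re hC hE hε x _ h) (U4_ok hs fun h => U4_pt_re hC hE hε x _ h)
    (U4_nn fun h => U4_pt_im hC hE hε x _ h (hbl _ h))
    (U4_nn fun h => U4_pt_im hC hE hε x _ h (hbl _ h))
  · refine ⟨⟨hv, hw⟩, ?_⟩
    rcases hx with ⟨h, hr⟩ | ⟨h, hr⟩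
    · left
      refine ⟨h, ?_⟩
      have h5 := ha ε hε l1 x h hr
      have h6 := norm_sub_le_norm_sub_add_norm_sub (U4_pt C v1 ε x j.castSucc) v (C.vc j.castSucc)
      have h7 : ρ ≤ ρa := min_le_left _ _
      linarith
    · right
      refine ⟨h, ?_⟩
      have h5 := hb ε hε l2 x h hr
      have h6 := norm_sub_le_norm_sub_add_norm_sub (U4_pt C v1 ε x j.succ) w (C.vc j.succ)
      have h7 : ρ ≤ ρb := min_le_right _ _
      linarith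
  · rw [Prod.dist_eq, max_lt_iff]
    simp only [dist_eq_norm]
    constructor <;> linarith

/-- The part (B): the parameters are on the line, one of them at distance at least `r`. -/
theorem U4_farB (hK : ∀ j, KB (K j)) (hC : C.Crit)
    (hs : ∀ i, i ∉ C.Op → C.s i = 1 ∨ C.s i = -1)
    {v1 : Fin (m + 1) → ℝ} {lam : Fin m → Fin (m + 1) → ℝ}
    (hE : C.Edg v1 lam) (j : Fin m) {r1 : ℝ}
    (hr1 : ∀ i ∈ C.Op, (i = j.castSucc ∨ i = j.succ) → |C.xc i| + r1 ≤ xl (C.θ i) (v1 i))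
    {r : ℝ} (hr : 0 < r) :
    ∃ δ : ℝ, 0 < δ ∧ ∃ D : ℝ, 0 < D ∧ ∃ p : ℕ, ∀ᶠ M : ℕ in atTop,
      ∀ ε : ℝ, 0 < ε → (∀ i ∈ C.Op, ε ≤ bl (C.θ i) (v1 i)) → ∀ x : C.Op → ℝ,
      (j.castSucc ∈ C.Op → |U4_x C x j.castSucc - C.xc j.castSucc| ≤ r1) →
      (j.succ ∈ C.Op → |U4_x C x j.succ - C.xc j.succ| ≤ r1) →
      ((j.castSucc ∈ C.Op ∧ r ≤ |U4_x C x j.castSucc - C.xc j.castSucc|) ∨
        (j.succ ∈ C.Op ∧ r ≤ |U4_x C x j.succ - C.xc j.succ|)) →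
      ‖kkF C K v1 ε M j x‖ ≤ D * (M : ℝ) ^ p * Real.exp (M * (C.ka v1 lam ε j x - δ)) := by
  -- the compact set of parameters
  set T : Set (ℝ × ℝ) := (Set.Icc (C.xc j.castSucc - r1) (C.xc j.castSucc + r1) ×ˢ
    Set.Icc (C.xc j.succ - r1) (C.xc j.succ + r1)) ∩
    {q | (j.castSucc ∈ C.Op ∧ r ≤ |q.1 - C.xc j.castSucc|) ∨
      (j.succ ∈ C.Op ∧ r ≤ |q.2 - C.xc j.succ|)} with hT
  have hTc : IsCompact T := by
    apply (isCompact_Icc.prod isCompact_Icc).inter_right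
    have c1 : IsClosed {q : ℝ × ℝ | r ≤ |q.1 - C.xc j.castSucc|} :=
      isClosed_le continuous_const (by fun_prop)
    have c2 : IsClosed {q : ℝ × ℝ | r ≤ |q.2 - C.xc j.succ|} :=
      isClosed_le continuous_const (by fun_prop)
    have c3 : IsClosed {q : ℝ × ℝ | j.castSucc ∈ C.Op ∧ r ≤ |q.1 - C.xc j.castSucc|} := by
      by_cases h : j.castSucc ∈ C.Op
      · simpa only [h, true_and] using c1
      · simp only [h, false_and, Set.setOf_false]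
        exact isClosed_empty
    have c4 : IsClosed {q : ℝ × ℝ | j.succ ∈ C.Op ∧ r ≤ |q.2 - C.xc j.succ|} := by
      by_cases h : j.succ ∈ C.Op
      · simpa only [h, true_and] using c2
      · simp only [h, false_and, Set.setOf_false]
        exact isClosed_empty
    exact c3.union c4
  -- its image
  set Γ : ℝ × ℝ → ℂ × ℂ := fun q => (U4_g C j.castSucc q.1, U4_g C j.succ q.2) with hΓ
  have hΓc : Continuous Γ :=
    ((U4_g_cont hC _).comp continuous_fst).prodMk ((U4_g_cont hC _).comp continuous_snd)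
  have hmem : ∀ i ∈ C.Op, (i = j.castSucc ∨ i = j.succ) → ∀ t ∈ Set.Icc (C.xc i - r1) (C.xc i + r1),
      |t| ≤ xl (C.θ i) (v1 i) := by
    intro i hi hij t ht
    have h1 := hr1 i hi hij
    have h2 : |t - C.xc i| ≤ r1 := abs_le.mpr ⟨by linarith [ht.1], by linarith [ht.2]⟩
    have h3 := abs_sub_abs_le_abs_sub t (C.xc i)
    linarith
  have hG0 : ∀ i ∈ C.Op, (i = j.castSucc ∨ i = j.succ) →
      ∀ t ∈ Set.Icc (C.xc i - r1) (C.xc i + r1), U4_g C i t ∈ G0 (C.θ i) (v1 i) := by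
    intro i hi hij t ht
    unfold U4_g
    rw [if_pos hi]
    exact G0_mem (hC.th0 i hi) (hC.th1 i hi) (hE.v0 i hi) (hE.vh i hi) (hmem i hi hij t ht)
  have hne : ∀ i ∈ C.Op, ∀ t, r ≤ |t - C.xc i| → U4_g C i t ≠ C.vc i := by
    intro i hi t ht h
    unfold U4_g at h
    rw [if_pos hi] at h
    have h2 : t = C.xc i := U4_inj (hC.th0 i hi) (hC.th1 i hi) h
    rw [h2, sub_self, abs_zero] at ht
    linarith
  have hok : ∀ p ∈ Γ '' T, EdgeOK (C.sv j.castSucc p.1) (C.sv j.succ p.2) (C.Lw v1 lam j p.1 p.2) := by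
    rintro _ ⟨⟨ta, tb⟩, ⟨⟨h1, h2⟩, h3⟩, rfl⟩
    refine hE.far j _ _ (fun h => hG0 _ h (Or.inl rfl) ta h1) (fun h => hG0 _ h (Or.inr rfl) tb h2)
      ?_
    rcases h3 with ⟨h, h4⟩ | ⟨h, h4⟩
    · exact Or.inl ⟨h, hne _ h ta h4⟩
    · exact Or.inr ⟨h, hne _ h tb h4⟩
  obtain ⟨η, hη, δ, hδ, D, hD0, p, hb'⟩ := U4_KE (hK j) (C.sv j.castSucc) (C.sv j.succ)
    (U4_sv _) (U4_sv _) (fun p => C.Lw v1 lam j p.1 p.2) (Cfg.Lw_continuous v1 lam j) (Γ '' T)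
    (hTc.image hΓc) hok
  refine ⟨δ, hδ, D, hD0, p, ?_⟩
  filter_upwards [hb'] with M hb' ε hε hbl x hxa hxb hx
  have hxI : ∀ i, (i ∈ C.Op → |U4_x C x i - C.xc i| ≤ r1) → 0 ≤ r1 →
      U4_x C x i ∈ Set.Icc (C.xc i - r1) (C.xc i + r1) := by
    intro i h h0
    by_cases hi : i ∈ C.Op
    · have := abs_le.mp (h hi)
      exact ⟨by linarith [this.1], by linarith [this.2]⟩
    · unfold U4_x
      rw [dif_neg hi]
      exact ⟨by linarith, by linarith⟩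
  have hr10 : 0 ≤ r1 := by
    rcases hx with ⟨h, _⟩ | ⟨h, _⟩
    · exact (abs_nonneg _).trans (hxa h)
    · exact (abs_nonneg _).trans (hxb h)
  have ma := hxI _ hxa hr10
  have mb := hxI _ hxb hr10
  rw [U4_kk, U4_ka]
  refine hb' (U4_pt C v1 ε x j.castSucc, U4_pt C v1 ε x j.succ)
    ⟨Γ (U4_x C x j.castSucc, U4_x C x j.succ), ?_, ?_⟩
    (U4_ok hs fun h => U4_pt_re hC hE hε x _ h) (U4_ok hs fun h => U4_pt_re hC hE hε x _ h)
    (U4_nn fun h => U4_pt_im hC hE hε x _ h (hbl _ h))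
    (U4_nn fun h => U4_pt_im hC hE hε x _ h (hbl _ h))
  · exact ⟨_, ⟨⟨ma, mb⟩, hx⟩, rfl⟩
  · rw [hΓ, U4_pt_eq v1 ε x _ fun h => hmem _ h (Or.inl rfl) _ ma,
      U4_pt_eq v1 ε x _ fun h => hmem _ h (Or.inr rfl) _ mb, dist_self]
    exact hη

/-- The kernels away from the critical point, uniformly in the height `ε`. -/
theorem U4_far_eps (hK : ∀ j, KB (K j)) (hC : C.Crit) (hs : ∀ i, i ∉ C.Op → C.s i = 1 ∨ C.s i = -1)
    {v1 : Fin (m + 1) → ℝ} {lam : Fin m → Fin (m + 1) → ℝ}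
    (hE : C.Edg v1 lam) : ∃ ε0 : ℝ, 0 < ε0 ∧ (∀ i ∈ C.Op, ε0 ≤ bl (C.θ i) (v1 i)) ∧
    ∀ r : ℝ, 0 < r → ∃ δ : ℝ, 0 < δ ∧ ∃ D : ℝ, 0 < D ∧ ∃ p : ℕ, ∀ᶠ M : ℕ in atTop,
      ∀ (j : Fin m) (ε : ℝ) (x : C.Op → ℝ), 0 < ε → ε ≤ ε0 → (∃ i ∈ C.ic j, r ≤ |x i - C.xc i|) →
      ‖kkF C K v1 ε M j x‖ ≤ D * (M : ℝ) ^ p * Real.exp (M * (C.ka v1 lam ε j x - δ)) := by
  -- the radius
  obtain ⟨r1, hr1, hr1'⟩ : ∃ r1 : ℝ, 0 < r1 ∧ ∀ i : Fin (m + 1), i ∈ C.Op →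
      |C.xc i| + r1 ≤ xl (C.θ i) (v1 i) := by
    obtain ⟨r1, h1, h2⟩ := U4_pos (J := Fin (m + 1))
      (fun i => if i ∈ C.Op then xl (C.θ i) (v1 i) - |C.xc i| else 1) (fun i => by
        by_cases hi : i ∈ C.Op
        · rw [if_pos hi]
          linarith [U4_xl hC hE i hi]
        · rw [if_neg hi]
          exact one_pos)
    refine ⟨r1, h1, fun i hi => ?_⟩
    have := h2 i
    rw [if_pos hi] at this
    linarith
  have hA := fun j => U4_farA hK hC hs hE j hr1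
  choose εA hεA δA hδA KA hKA pA hAj using hA
  obtain ⟨ε1, hε1, hle1⟩ := U4_pos εA hεA
  obtain ⟨ε2, hε2, hle2⟩ := U4_pos (J := Fin (m + 1))
    (fun i => if i ∈ C.Op then bl (C.θ i) (v1 i) else 1) (fun i => by
      by_cases hi : i ∈ C.Op
      · rw [if_pos hi]
        refine bl_pos (hC.th0 i hi) (hC.th1 i hi) ?_
        rw [abs_of_pos (hE.v0 i hi)]
        exact hE.vh i hi
      · rw [if_neg hi]
        exact one_pos)
  have hbl0 : ∀ i ∈ C.Op, min ε1 ε2 ≤ bl (C.θ i) (v1 i) := by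
    intro i hi
    have := hle2 i
    rw [if_pos hi] at this
    exact (min_le_right _ _).trans this
  refine ⟨min ε1 ε2, lt_min hε1 hε2, hbl0, fun r hr => ?_⟩
  have key : ∀ j : Fin m, ∃ δ : ℝ, 0 < δ ∧ ∃ D : ℝ, 0 < D ∧ ∃ p : ℕ, ∀ᶠ M : ℕ in atTop,
      ∀ x : ℝ × (C.Op → ℝ), ((0 < x.1 ∧ x.1 ≤ min ε1 ε2) ∧ ∃ i ∈ C.ic j, r ≤ |x.2 i - C.xc i|) →
        ‖kkF C K v1 x.1 M j x.2‖ ≤ D * (M : ℝ) ^ p * Real.exp (M * (C.ka v1 lam x.1 j x.2 - δ)) := by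
    intro j
    obtain ⟨δB, hδB, KBB, hKB, pB, hBj⟩ := U4_farB hK hC hs hE j (fun i hi _ => hr1' i hi) hr
    refine ⟨min (δA j) δB, lt_min (hδA j) hδB, KA j + KBB, by linarith [hKA j], pA j + pB, ?_⟩
    filter_upwards [eventually_ge_atTop 1, hAj j, hBj] with M hM hAj hBj
    rintro ⟨ε, x⟩ ⟨⟨hε, hεle⟩, hx⟩
    simp only at hε hεle hx ⊢
    have hbl : ∀ i ∈ C.Op, ε ≤ bl (C.θ i) (v1 i) := fun i hi => hεle.trans (hbl0 i hi)
    have hM0 : (1 : ℝ) ≤ M := by exact_mod_cast hM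
    rw [U4_ic] at hx
    have hgen : ∀ (D δ : ℝ) (p : ℕ), 0 < D → D ≤ KA j + KBB → min (δA j) δB ≤ δ → p ≤ pA j + pB →
        ‖kkF C K v1 ε M j x‖ ≤ D * (M : ℝ) ^ p * Real.exp (M * (C.ka v1 lam ε j x - δ)) →
        ‖kkF C K v1 ε M j x‖ ≤ (KA j + KBB) * (M : ℝ) ^ (pA j + pB) *
          Real.exp (M * (C.ka v1 lam ε j x - min (δA j) δB)) := by
      intro D δ p h1 h2 h3 h4 h5
      refine h5.trans ?_
      have h6 : (M : ℝ) ^ p ≤ (M : ℝ) ^ (pA j + pB) := pow_le_pow_right₀ hM0 h4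
      have h7 : (M : ℝ) * (C.ka v1 lam ε j x - δ) ≤ M * (C.ka v1 lam ε j x - min (δA j) δB) := by
        apply mul_le_mul_of_nonneg_left _ (by linarith)
        linarith
      have h8 : (0 : ℝ) < (M : ℝ) ^ p := by positivity
      have h9 : 0 < KA j + KBB := h1.trans_le h2
      gcongr
    by_cases hfar : (j.castSucc ∈ C.Op ∧ r1 ≤ |U4_x C x j.castSucc - C.xc j.castSucc|) ∨
        (j.succ ∈ C.Op ∧ r1 ≤ |U4_x C x j.succ - C.xc j.succ|)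
    · exact hgen (KA j) (δA j) (pA j) (hKA j) (by linarith) (min_le_left _ _) (by omega)
        (hAj ε hε ((hεle.trans (min_le_left _ _)).trans (hle1 j)) hbl x hfar)
    · rw [not_or, not_and_or, not_and_or] at hfar
      refine hgen KBB δB pB hKB (by linarith [hKA j]) (min_le_right _ _) (by omega)
        (hBj ε hε hbl x (fun h => ?_) (fun h => ?_) hx)
      · rcases hfar.1 with h1 | h1
        · exact absurd h h1
        · exact (not_le.mp h1).le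
      · rcases hfar.2 with h1 | h1
        · exact absurd h h1
        · exact (not_le.mp h1).le
  obtain ⟨δ, hδ, D, hD0, p, hp⟩ := U4_comb (J := Fin m) (X := ℝ × (C.Op → ℝ))
    (κ := fun M j x => ‖kkF C K v1 x.1 M j x.2‖) (L := fun j x => C.ka v1 lam x.1 j x.2)
    (R := fun j x => (0 < x.1 ∧ x.1 ≤ min ε1 ε2) ∧ ∃ i ∈ C.ic j, r ≤ |x.2 i - C.xc i|) key
  refine ⟨δ, hδ, D, hD0, p, ?_⟩
  filter_upwards [hp] with M hM j ε x h1 h2 h3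
  exact hM j (ε, x) ⟨⟨h1, h2⟩, h3⟩

/-- The kernels away from the critical point. -/
theorem kkF_far (hK : ∀ j, KB (K j)) (hC : C.Crit) (hs : ∀ i, i ∉ C.Op → C.s i = 1 ∨ C.s i = -1)
    {v1 : Fin (m + 1) → ℝ} {lam : Fin m → Fin (m + 1) → ℝ}
    (hE : C.Edg v1 lam) : ∃ ε0 : ℝ, 0 < ε0 ∧ ∀ ε : ℝ, 0 < ε → ε ≤ ε0 →
    (∀ i ∈ C.Op, ε ≤ bl (C.θ i) (v1 i)) ∧
    ∀ r : ℝ, 0 < r → ∃ δ : ℝ, 0 < δ ∧ ∃ D : ℝ, 0 < D ∧ ∃ p : ℕ, ∀ᶠ M : ℕ in atTop,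
      ∀ (j : Fin m) (x : C.Op → ℝ), (∃ i ∈ C.ic j, r ≤ |x i - C.xc i|) →
      ‖kkF C K v1 ε M j x‖ ≤ D * (M : ℝ) ^ p * Real.exp (M * (C.ka v1 lam ε j x - δ)) := by
  obtain ⟨ε0, hε0, hbl, h⟩ := U4_far_eps hK hC hs hE
  refine ⟨ε0, hε0, fun ε h1 h2 => ⟨fun i hi => h2.trans (hbl i hi), fun r hr => ?_⟩⟩
  obtain ⟨δ, hδ, D, hD0, p, hp⟩ := h r hr
  refine ⟨δ, hδ, D, hD0, p, ?_⟩
  filter_upwards [hp] with M hM j x hx
  exact hM j ε x h1 h2 hx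

end

end Pool.Agent.S4
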